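import Pool.Agent.Work.MP_0f91f8_co.RC.Defs
import Pool.Agent.Work.MP_0f91f8_co.EF.StmtsB

/-!
# Relative collision theorem, module E′: statements

From `PWRStmt` to `ProcK` and `RelFin` (`RC/Defs.lean`). The landed files of module E
(`EF/PrP.lean`, `EF/DeF.lean`, `EF/LiF.lean`, `EF/AvF.lean`, `EF/AsF.lean`, `EF/Cou.lean`,
`EF/Prc.lean`, `EF/FinF.lean`) contain almost all proofs; import and copy what is needed. A file
`RC/I_X.lean` proves `theorem pr_X : StX` (with hypotheses `(h : StY)` where the docstring says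
USES). The items are independent of each other.
-/

set_option autoImplicit false

open Filter Topology MeasureTheory

noncomputable section

namespace Pool.Agent.F0f91f8.RC

open Pool.Agent.F0f91f8.HD
open Pool.Agent.Work.MP_0f91f8_co.EF

/-- Homogeneous positive semidefinite kernels (as `EF.IsPF` without `var`). -/
structure IsPK (φ : ℕ → ℕ → ℝ) : Prop where
  symm : ∀ a b, φ a b = φ b a
  hom : ∀ k a b, 0 < k → 0 < a → 0 < b → φ (k * a) (k * b) = φ a b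
  le : φ 1 1 ≤ 1
  psd : ∀ F : Finset ℕ, (∀ a ∈ F, 0 < a) → ∀ c : ℕ → ℂ, ∃ s : ℝ, 0 ≤ s ∧
    ∑ a ∈ F, ∑ b ∈ F, c a * (starRingEnd ℂ) (c b) * ((φ a b : ℝ) : ℂ) = (s : ℂ)

/-- the kernel of the function `β 1_{X a} - d 1_{C a}` -/
def ker {Ω : Type} (μ : Set Ω → ℝ) (X C : ℕ → Set Ω) (d β : ℝ) (a b : ℕ) : ℝ :=
  β ^ 2 * μ (X a ∩ X b) - β * d * (μ (X a ∩ C b) + μ (X b ∩ C a)) + d ^ 2 * μ (C a ∩ C b)

/-- EASY-MEDIUM. **PrK.** `ker` is an `IsPK`. `symm`: `Set.inter_comm`, `ring`. `hom`: the three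
hypotheses (the second one also with `a`, `b` exchanged). `le`: `X 1 ∩ X 1 = X 1`, `X 1 ∩ C 1 = X 1`:
the value is `β² d - 2 β d² + d² β = β d (β - d)` with `0 ≤ d ≤ β ≤ 1` (`d = μ (X 1) ≤ μ (C 1) = β ≤ μ univ`:
monotonicity from `union`, `nonneg`, see `EF.XCou.fa_mono`), so at most `1`. `psd`: use
`EF.XPrP.psd h E' F' c'` for the family `E' (2 a) = X a`, `E' (2 a + 1) = C a`, the finite set
`F' = F.image (2 * ·) ∪ F.image (2 * · + 1)` (disjoint images) and the coefficients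
`c' (2 a) = β c a`, `c' (2 a + 1) = - d c a`; the double sum over `F'` is
`∑_{a,b ∈ F} c a conj (c b) (β² μ(X a ∩ X b) - β d μ(X a ∩ C b) - d β μ(C a ∩ X b) + d² μ(C a ∩ C b))`. -/
def StPrK : Prop := ∀ (Ω : Type) (μ : Set Ω → ℝ), IsFA μ → ∀ (X C : ℕ → Set Ω) (d β : ℝ),
  (∀ n, X n ⊆ C n) → (∀ n, 0 < n → μ (X n) = d) → (∀ n, 0 < n → μ (C n) = β) →
  (∀ k a b, 0 < k → 0 < a → 0 < b → μ (X (k * a) ∩ X (k * b)) = μ (X a ∩ X b)) →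
  (∀ k a b, 0 < k → 0 < a → 0 < b → μ (X (k * a) ∩ C (k * b)) = μ (X a ∩ C b)) →
  (∀ k a b, 0 < k → 0 < a → 0 < b → μ (C (k * a) ∩ C (k * b)) = μ (C a ∩ C b)) →
  IsPK (ker μ X C d β)

/-- EASY (copy of `EF/DeF.lean`, which uses only `psd`, `hom`, and `φ 1 1 ≤ 1` for the mass).
**DeK.** USES: `S_Ev`, `S_Haar` (write `pr_DeK (hEv : S_Ev) (hHaar : S_Haar) : StDeK`). -/
def StDeK : Prop := ∀ φ : ℕ → ℕ → ℝ, IsPK φ → ∀ F : Finset ℕ, F.Nonempty → (∀ a ∈ F, 0 < a) →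
  ∃ μ : Measure GG, μ Set.univ ≤ 1 ∧ ∀ a b : ℕ, 0 < a → 0 < b →
    ∫ g, ev g a * (starRingEnd ℂ) (ev g b) ∂μ = ((φ a b * ct F a b : ℝ) : ℂ)

/-- EASY (copy of `EF/LiF.lean`). **LiK.** USES: `S_Ev`, `S_Fol`, `S_Cnt`, `StDeK`. -/
def StLiK : Prop := ∀ φ : ℕ → ℕ → ℝ, IsPK φ → ∃ μ : Measure GG, IsSp φ μ

/-- EASY-MEDIUM (copy of `EF/AvF.lean`, family `AvR` in place of `Av`). **AvK.** The mean is a finite
mean of values at triples `tX κ k a n`, … with `κ = kR E w K e`, `k = kk w K e'`,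
`a = w! (v + v') + inv0 w! k`, `n = w! (u + u') + 1`. Membership `Mem E w x y z`: `2 κ = (2 w! k')^E`
(`2 * 2 ^ (E - 1) = 2 ^ E` as `E ≥ 1`), `w! ∣ κ` (`w! ∣ (w! k')^E`), `k a ≡ k inv0 w! k ≡ 1 mod w!` because
`k` is a product of powers of primes `> w`, so coprime to `w!` (`inv0 Q k = ((k : ZMod Q)⁻¹).val`,
`ZMod.coe_mul_inv_eq_one`; for `w! = 1` every congruence is trivial), `n ≡ 1 mod w!`, all parameters positive.
USES: `S_Ev`. -/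
def StAvK : Prop := ∀ E w K M : ℕ, 1 ≤ E → 1 ≤ w → 1 ≤ K → 1 ≤ M →
  (Continuous fun g : GG => (AvR E w K M (pc (ev g))).re) ∧
  (∀ g : GG, |(AvR E w K M (pc (ev g))).re| ≤ 3) ∧
  ∀ (r : ℕ) (φ : Fin r → ℕ → ℕ → ℝ) (μ : Fin r → Measure GG),
    (∀ i a b, φ i a b = φ i b a) → (∀ i, IsSp (φ i) (μ i)) →
    ∃ x y z : ℕ, Mem E w x y z ∧
      ∑ i, ∫ g, (AvR E w K M (pc (ev g))).re ∂(μ i) ≤ ∑ i, (φ i x y + φ i x z + φ i y z)

/-- EASY. **MeP.** Elementary facts on members. Positivity: `tX, tY, tZ` of positive parameters;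
`tXYZ`. -/
def StMeP : Prop := ∀ E w x y z : ℕ, Mem E w x y z → 0 < x ∧ 0 < y ∧ 0 < z ∧
  x ^ 2 + y ^ 2 = z ^ 2

/-- The general inequality for kernels. -/
def GenK : Prop := ∀ (E w₁ r : ℕ) (φ : Fin r → ℕ → ℕ → ℝ), 0 < E → (∀ i, IsPK (φ i)) →
  ∀ ε : ℝ, 0 < ε → ∃ w x y z : ℕ, w₁ ≤ w ∧ Mem E w x y z ∧
    -ε ≤ ∑ i, (φ i x y + φ i x z + φ i y z)

/-- EASY (copy of `EF/AsF.lean`, without the atom). **AsK.** `μ i` from `StLiK`, `μ = ∑ i, μ i`,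
`F w K M g = (AvR E (w + w₁ + 1) (K + 1) (M + 1) (pc (ev g))).re`, bounded by `3`, continuous. For every
`g` the function `ev g` satisfies `HD.CM` (`S_Ev`), so `PWRStmt` gives the nested lower bound.
`S_Fat` gives `w, K, M` with `∫ F dμ ≥ -ε`; `StAvK` gives the member.
USES: `S_Ev`, `StLiK`, `S_Fat`, `StAvK`, `PWRStmt`
(write `pr_AsK (hEv : S_Ev) (hLi : StLiK) (hFat : S_Fat) (hAv : StAvK) (hPW : PWRStmt) : GenK`). -/
def StAsK : Prop := GenK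

/-- EASY (from `EF/Cou.lean`: `EF.XCou.fa_sum`, `fa_mono`, `Cou_pf`). **CouK.** Counting in the cells
`P ⊇ X i`, `Q ⊇ Y i`. As in `Cou_pf` the sets `X i ∩ Y i`, `X i ∩ Z i`, `Y i ∩ Z i` (all `i`) are pairwise disjoint; they
are contained in `P ∪ Q`, and `μ (P ∪ Q) = μ P + μ Q - μ (P ∩ Q) = β` (finite additivity). The second
inequality is the second part of `S_Cou`. -/
def StCouK : Prop := ∀ (Ω : Type) (μ : Set Ω → ℝ), IsFA μ → ∀ (r : ℕ) (X Y Z : Fin r → Set Ω)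
  (P Q : Set Ω) (β : ℝ),
  (∀ i j, i ≠ j → Disjoint (X i) (X j)) → (∀ i j, i ≠ j → Disjoint (Y i) (Y j)) →
  (∀ i j, i ≠ j → Disjoint (Z i) (Z j)) → (∀ i, X i ∩ Y i ∩ Z i = ∅) →
  (∀ i, X i ⊆ P) → (∀ i, Y i ⊆ Q) → μ P = β → μ Q = β → μ (P ∩ Q) = β →
  ∑ i, (μ (X i ∩ Y i) + μ (X i ∩ Z i) + μ (Y i ∩ Z i)) ≤ β ∧
  2 * ∑ i, (μ (X i ∩ Y i) + μ (X i ∩ Z i) + μ (Y i ∩ Z i)) ≤ ∑ i, (μ (X i) + μ (Y i) + μ (Z i))

/-- EASY. **KeV.** The value of the kernel inside a cell. `X a ⊆ C a` and `μ (C a ∩ C b) = β = μ (C a)`, so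
`μ (C a \ C b) = 0`, `μ (X a \ C b) = 0` and `μ (X a ∩ C b) = μ (X a) = d`; the same with `a`, `b`
exchanged. So the value is `β² μ(X a ∩ X b) - 2 β d² + d² β`. -/
def StKeV : Prop := ∀ (Ω : Type) (μ : Set Ω → ℝ), IsFA μ → ∀ (X C : ℕ → Set Ω) (d β : ℝ)
  (a b : ℕ), X a ⊆ C a → X b ⊆ C b → μ (X a) = d → μ (X b) = d → μ (C a) = β → μ (C b) = β →
  μ (C a ∩ C b) = β → ker μ X C d β a b = β ^ 2 * μ (X a ∩ X b) - β * d ^ 2

/-- EASY-MEDIUM (as `EF/Prc.lean`). **PrcK.** `ProcK`. The kernels `ker μ (X i) C (d i) β` are `IsPK` (`StPrK`).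
For every `ε > 0` `GenK` gives `w ≥ w₁` and a member `x, y, z`; by `StKeV` the three values are
`β² μ(X i x ∩ X i y) - β (d i)²` etc. (`x, y, z > 0` by `StMeP`), so with
`S = ∑ i (μ(X x ∩ X y) + μ(X x ∩ X z) + μ(X y ∩ X z))`: `3 β ∑ (d i)² - ε ≤ β² S`. `StCouK` (cells
`C x`, `C y`): `S ≤ β` and `2 S ≤ 3 ∑ d i`. Let `ε → 0` (`β² ≥ 0`): `3 β ∑ d² ≤ β³`,
`3 β ∑ d² ≤ (3/2) β² ∑ d`. If `β > 0` divide by `3 β`. If `β = 0`: `0 ≤ d i = μ (X i 1) ≤ μ (C 1) = 0`,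
everything is `0`. USES: `StPrK`, `StCouK`, `StKeV`, `StMeP`, `GenK`
(write `pr_PrcK (h1 : StPrK) (h2 : StCouK) (h3 : StKeV) (h4 : StMeP) (h5 : GenK) : ProcK`). -/
def StPrcK : Prop := ProcK

/-- EASY-MEDIUM (as `EF.XFinF.ulg` in `EF/FinF.lean`, with the lemmas `shift`, `pair` of `EF/Ulm.lean`). **UlR.** The limit
process with a distinguished set `B j` between `A j i` and `F j`. The lemma `XUlm.pair` has to be proved for two sets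
(`a * s ∈ A ∧ b * s ∈ A'`); the proof is the same. Last clause: the number of `s ∈ F` with `x s ∈ B` and
`y s ∈ B` differs from the number of `s ∈ F` with `x s ∈ B` by at most the number of `s ∈ F` with `y s ∉ F`
(if `x s ∈ B ⊆ F` and `y s ∈ F` then `y s ∈ B`), which is `o(card F)`. -/
def StUlR : Prop := ∀ (r : ℕ) (F B : ℕ → Finset ℕ) (A : ℕ → Fin r → Finset ℕ), IsFo F →
  (∀ j i, A j i ⊆ B j) → (∀ j, B j ⊆ F j) →
  ∃ (U : Ultrafilter ℕ) (μ : Set (ℕ × ℕ) → ℝ) (d : Fin r → ℝ) (β : ℝ), (U : Filter ℕ) ≤ atTop ∧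
    IsFA μ ∧
    (∀ i, Tendsto (fun j => ((A j i).card : ℝ) / ((F j).card : ℝ)) U (𝓝 (d i))) ∧
    Tendsto (fun j => ((B j).card : ℝ) / ((F j).card : ℝ)) U (𝓝 β) ∧
    (∀ i n, 0 < n → μ {p | n * p.2 ∈ A p.1 i} = d i) ∧
    (∀ n, 0 < n → μ {p | n * p.2 ∈ B p.1} = β) ∧
    (∀ i k a b, 0 < k → 0 < a → 0 < b →
      μ ({p | k * a * p.2 ∈ A p.1 i} ∩ {p | k * b * p.2 ∈ A p.1 i}) =
        μ ({p | a * p.2 ∈ A p.1 i} ∩ {p | b * p.2 ∈ A p.1 i})) ∧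
    (∀ i k a b, 0 < k → 0 < a → 0 < b →
      μ ({p | k * a * p.2 ∈ A p.1 i} ∩ {p | k * b * p.2 ∈ B p.1}) =
        μ ({p | a * p.2 ∈ A p.1 i} ∩ {p | b * p.2 ∈ B p.1})) ∧
    (∀ k a b, 0 < k → 0 < a → 0 < b →
      μ ({p | k * a * p.2 ∈ B p.1} ∩ {p | k * b * p.2 ∈ B p.1}) =
        μ ({p | a * p.2 ∈ B p.1} ∩ {p | b * p.2 ∈ B p.1})) ∧
    ∀ x y, 0 < x → 0 < y →
      (∀ j s, x * s ∈ F j → y * s ∈ F j → (x * s ∈ B j ↔ y * s ∈ B j)) →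
      μ ({p | x * p.2 ∈ B p.1} ∩ {p | y * p.2 ∈ B p.1}) = β

/-- EASY-MEDIUM. **Cel.** Members are trivial for `φ`. `q ∣ w!` as `0 < q ≤ w`. `x = (2 κ) n (k a + κ n)`: `2 κ = c ^ E`, so
`φ (2κ) = (φ c)^E = 1` (`c > 0` as `κ > 0`); `n ≡ 1 mod w!`; `k a + κ n ≡ 1 mod w!` as `w! ∣ κ`. `y = (k a) (k a + 2 κ n)`: both
factors are `≡ 1`. `z = (k a + κ n)² + (κ n)² ≡ 1`. And `φ m.toPNat' = 1` for every positive
`m ≡ 1 mod w!` (`m ≡ 1 mod q`). For positive `m`, `m'` one has `(m * m').toPNat' = m.toPNat' * m'.toPNat'`. -/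
def StCel : Prop := ∀ (q E w x y z : ℕ), 0 < q → q ≤ w → Mem E w x y z →
  ∀ (H : Type) (_ : CommGroup H), (∀ h : H, h ^ E = 1) → ∀ φ : ℕ+ →* H,
  (∀ n : ℕ+, (n : ℕ) ≡ 1 [MOD q] → φ n = 1) →
  φ x.toPNat' = 1 ∧ φ y.toPNat' = 1 ∧ φ z.toPNat' = 1

/-- EASY-MEDIUM (as `EF.XFinF.red` in `EF/FinF.lean`, with the lemmas `lst` of `EF/Big.lean`). **BigR.** Boundedly many classes. Keep the
classes with `|A i| ≥ (ε/2) |F|` (at most `2/ε` of them: they are disjoint subsets of `F`); the others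
contribute at most `(ε/2) |F| ∑ |A i| ≤ (ε/2) |F|²` to `∑ |A i|²`, and the minimum does not increase. -/
def StBigR : Prop := ∀ (ε : ℝ), 0 < ε → ∀ F B : Finset ℕ, F.Nonempty → B ⊆ F →
  ∀ (r : ℕ) (A : Fin r → Finset ℕ), (∀ i, A i ⊆ B) → (∀ i j, i ≠ j → Disjoint (A i) (A j)) →
  min ((B.card : ℝ) ^ 2 / 3) ((B.card : ℝ) * (∑ i, ((A i).card : ℝ)) / 2) +
      ε * (F.card : ℝ) ^ 2 ≤ ∑ i, ((A i).card : ℝ) ^ 2 →
  ∃ A' : Fin ⌈2 / ε⌉₊ → Finset ℕ, (∀ i, A' i ⊆ B) ∧ (∀ i j, i ≠ j → Disjoint (A' i) (A' j)) ∧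
    min ((B.card : ℝ) ^ 2 / 3) ((B.card : ℝ) * (∑ i, ((A' i).card : ℝ)) / 2) +
      ε / 2 * (F.card : ℝ) ^ 2 ≤ ∑ i, ((A' i).card : ℝ) ^ 2 ∧
    ∀ j, A' j = ∅ ∨ ∃ i, A' j = A i

/-- `RelFin` for finite sets of natural numbers. -/
def RelFinN : Prop :=
  ∀ (q E : ℕ), 0 < q → 0 < E → ∀ ε : ℝ, 0 < ε → ∃ (k : ℕ) (δ : ℝ), 0 < δ ∧
    ∀ (H : Type) (_ : CommGroup H), (∀ h : H, h ^ E = 1) → ∀ φ : ℕ+ →* H,
    (∀ n : ℕ+, (n : ℕ) ≡ 1 [MOD q] → φ n = 1) → ∀ S : Set H,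
    ∀ F B : Finset ℕ, F.Nonempty → (∀ n ∈ F, 0 < n) →
    (∀ n, n ∈ B ↔ n ∈ F ∧ φ n.toPNat' ∈ S) →
    (∀ p ≤ k, p.Prime → (1 - δ) * (F.card : ℝ) ≤ ((F.filter fun n => p * n ∈ F).card : ℝ)) →
    ∀ (r : ℕ) (A : Fin r → Finset ℕ), (∀ i, A i ⊆ B) → (∀ i j, i ≠ j → Disjoint (A i) (A j)) →
    min ((B.card : ℝ) ^ 2 / 3) ((B.card : ℝ) * (∑ i, ((A i).card : ℝ)) / 2) +
        ε * (F.card : ℝ) ^ 2 ≤ ∑ i, ((A i).card : ℝ) ^ 2 →
    ∃ i, ∃ x ∈ A i, ∃ y ∈ A i, ∃ z ∈ A i, x ^ 2 + y ^ 2 = z ^ 2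

/-- MEDIUM (as `EF.folFin` in `EF/FinF.lean`). **FinN.** If `RelFinN` fails for `q, E, ε`, then for every `j` there
are `H j`, `φ j`, `S j`, `F j`, `B j` (with `k = j`, `δ = 1/(j+1)`) and, by `StBigR`, `r = ⌈2/ε⌉` classes `A j`
without triple (a class `A' j = ∅` contains no triple) and with the density hypothesis for `ε/2`.
`F` is a Foelner sequence (`EF.XFinF.isFo_of`); `StUlR` gives `U, μ, d, β`. Apply `ProcK` with
`X i n = {p | n * p.2 ∈ A p.1 i}`, `C n = {p | n * p.2 ∈ B p.1}`, `w₁ = q`. The cell hypothesis: for a member `x, y, z` (`StCel`, `StMeP`)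
`φ j x = φ j y = φ j z = 1`, so for `x s ∈ F j`, `y s ∈ F j` (so `s > 0`):
`x s ∈ B j ↔ φ j (x s) ∈ S j ↔ φ j s ∈ S j ↔ y s ∈ B j`. The triple hypothesis: `x² + y² = z²` gives the triple
`x s, y s, z s` in `A j i`. So `∑ d² ≤ β²/3` and `∑ d² ≤ β (∑ d)/2`, while the density hypothesis divided by
`(card F j)²` gives in the limit `min (β²/3) (β (∑ d)/2) + ε/2 ≤ ∑ d²` (`min` is continuous): contradiction.
USES: `StMeP`, `StCel`, `StBigR`, `StUlR`, `ProcK` (all of them hypotheses). -/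
def StFinN : Prop := StMeP → StCel → StBigR → StUlR → ProcK → RelFinN

/-- EASY. **FinP.** Transport along `ℕ+ → ℕ`: apply `RelFinN` to the images of `F`, `B`, `A i` under the
coercion (`Finset.map ⟨(↑), PNat.coe_injective⟩` or `Finset.image`); the cardinalities are equal
(`Finset.card_map`), `(n : ℕ).toPNat' = n` for `n : ℕ+` (`PNat.coe_toPNat'`), and
`p * n ∈ F ↔ (p * n : ℕ) ∈ F'`; for a prime `p : ℕ` use the positive natural `⟨p, p.Prime.pos⟩`. -/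
def StFinP : Prop := RelFinN → RelFin

end Pool.Agent.F0f91f8.RC
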