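import Pool.Agent.Work.MP_0f91f8_co.HD.DefsD
import Pool.Agent.Work.MP_0f91f8_co.HD.StmtsC

/-! Relative collision theorem: `p^(it)` does not pretend to be `1` for `t ≠ 0` (helper83). -/

set_option autoImplicit false

namespace Pool.Agent.F0f91f8.RC

open Filter Topology ComplexConjugate
open scoped BigOperators
open Pool.Agent.F0f91f8.HD

theorem cpow_eq {p : ℕ} (hp : 0 < p) (t : ℝ) :
    ((p : ℕ) : ℂ) ^ ((t : ℂ) * Complex.I) = Complex.exp (((t * Real.log p : ℝ) : ℂ) * Complex.I) := by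
  rw [Complex.cpow_def_of_ne_zero (by exact_mod_cast hp.ne'), Complex.natCast_log.symm]
  congr 1
  push_cast
  ring

/-- two points of the circle whose angles differ by about `π` -/
theorem far {a b : ℝ} (h1 : 2 * Real.pi / 3 ≤ |a - b|) (h2 : |a - b| ≤ 4 * Real.pi / 3) :
    1 ≤ ‖Complex.exp ((a : ℂ) * Complex.I) - Complex.exp ((b : ℂ) * Complex.I)‖ := by
  have e1 : Complex.exp ((a : ℂ) * Complex.I) - Complex.exp ((b : ℂ) * Complex.I) =
      Complex.exp ((b : ℂ) * Complex.I) * (Complex.exp (((a - b : ℝ) : ℂ) * Complex.I) - 1) := by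
    rw [mul_sub, mul_one, ← Complex.exp_add]
    congr 2
    push_cast
    ring
  rw [e1, norm_mul, Complex.norm_exp_ofReal_mul_I, one_mul]
  set θ := a - b with hθ
  have hc : Real.cos θ ≤ 0 := by
    rw [← Real.cos_abs]
    have hpi := Real.pi_pos
    refine Real.cos_nonpos_of_pi_div_two_le_of_le (by linarith) (by linarith)
  have e2 : (Complex.exp ((θ : ℂ) * Complex.I) - 1).re = Real.cos θ - 1 := by
    rw [Complex.sub_re, Complex.exp_ofReal_mul_I_re, Complex.one_re]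
  have e3 := Complex.abs_re_le_norm (Complex.exp ((θ : ℂ) * Complex.I) - 1)
  rw [e2] at e3
  have e4 : 1 ≤ |Real.cos θ - 1| := by
    rw [abs_of_nonpos (by linarith)]
    linarith
  linarith

theorem mem_blk {η : ℝ} {j p : ℕ} : p ∈ Blk η j →
    p.Prime ∧ j * η < Real.log p ∧ Real.log p ≤ (j + 1) * η := by
  intro h
  unfold Blk at h
  rw [Finset.mem_filter, Finset.mem_Ioc] at h
  obtain ⟨⟨h1, h2⟩, hp⟩ := h
  have hp0 : (0 : ℝ) < p := by exact_mod_cast hp.pos
  refine ⟨hp, ?_, ?_⟩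
  · rw [Real.lt_log_iff_exp_lt hp0]
    exact Nat.lt_of_floor_lt h1
  · rw [Real.log_le_iff_le_exp hp0]
    exact (Nat.le_floor_iff (Real.exp_pos _).le).mp h2

theorem blk_disj {η : ℝ} (hη : 0 < η) {i j p : ℕ} (hi : p ∈ Blk η i) (hj : p ∈ Blk η j) :
    i = j := by
  obtain ⟨-, a1, a2⟩ := mem_blk hi
  obtain ⟨-, b1, b2⟩ := mem_blk hj
  have h1 : (i : ℝ) < j + 1 := lt_of_mul_lt_mul_right (lt_of_lt_of_le a1 b2) hη.le
  have h2 : (j : ℝ) < i + 1 := lt_of_mul_lt_mul_right (lt_of_lt_of_le b1 a2) hη.le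
  have h3 : i < j + 1 := by exact_mod_cast h1
  have h4 : j < i + 1 := by exact_mod_cast h2
  omega

/-- `p^(it)` is far from `1` on primes with divergent reciprocal sum -/
theorem t_zero (hBL : S_BL) {t : ℝ} (hs : Summable fun p : Nat.Primes =>
    ‖1 - ((p : ℕ) : ℂ) ^ ((t : ℂ) * Complex.I)‖ ^ 2 / ((p : ℕ) : ℝ)) : t = 0 := by
  classical
  by_contra ht
  have hpi := Real.pi_pos
  have hta : 0 < |t| := abs_pos.mpr ht
  -- step
  set η : ℝ := Real.pi / (3 * |t|) with hη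
  have hη0 : 0 < η := by positivity
  have htη : |t| * η = Real.pi / 3 := by rw [hη]; field_simp
  obtain ⟨c, hc, j₀, hj₀⟩ := hBL η hη0
  let G : ℕ → ℝ := fun p => ‖1 - ((p : ℕ) : ℂ) ^ ((t : ℂ) * Complex.I)‖ ^ 2 / (p : ℝ)
  have hG0 : ∀ p, 0 ≤ G p := fun p => by positivity
  -- every finite set of primes has a bounded sum
  have hfin : ∀ S : Finset ℕ, (∀ p ∈ S, p.Prime) → ∑ p ∈ S, G p ≤ ∑' p : Nat.Primes, G p := by
    intro S hS
    have h1 : ∑ p ∈ S, G p = ∑ p ∈ S.attach.image (fun x => (⟨x.1, hS x.1 x.2⟩ : Nat.Primes)), G p := by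
      rw [Finset.sum_image]
      · exact (Finset.sum_attach S G).symm
      · intro x _ y _ hxy
        exact Subtype.ext (congrArg (fun z : Nat.Primes => (z : ℕ)) hxy)
    rw [h1]
    exact Summable.sum_le_tsum (f := fun p : Nat.Primes => G p) _ (fun p _ => hG0 p) hs
  set T := ∑' p : Nat.Primes, G p with hT
  -- one of two blocks has a large sum
  have hS0 : ∀ i, 0 ≤ ∑ p ∈ Blk η i, G p := fun i => Finset.sum_nonneg fun p _ => hG0 p
  have hhalf : ∀ i : ℕ, (∀ p ∈ Blk η i, 1 / 2 ≤ ‖1 - ((p : ℕ) : ℂ) ^ ((t : ℂ) * Complex.I)‖) →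
      (1 / 4) * ∑ p ∈ Blk η i, (1 : ℝ) / p ≤ ∑ p ∈ Blk η i, G p := by
    intro i hi
    rw [Finset.mul_sum]
    refine Finset.sum_le_sum fun p hp => ?_
    have h2 := hi p hp
    have h3 : (1 / 4 : ℝ) ≤ ‖1 - ((p : ℕ) : ℂ) ^ ((t : ℂ) * Complex.I)‖ ^ 2 := by nlinarith
    have h4 : (1 / 4 : ℝ) * (1 / p) = (1 / 4) / p := by ring
    rw [h4]
    exact div_le_div_of_nonneg_right h3 (Nat.cast_nonneg _)
  have hpair : ∀ j : ℕ, j₀ ≤ j → 1 ≤ j → (1 / 4) * (c / ((j : ℝ) + 3)) ≤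
      ∑ p ∈ Blk η j, G p + ∑ p ∈ Blk η (j + 3), G p := by
    intro j hj hj1
    have hjR : (0 : ℝ) < j := by exact_mod_cast hj1
    by_cases hA : ∀ p ∈ Blk η j, 1 / 2 ≤ ‖1 - ((p : ℕ) : ℂ) ^ ((t : ℂ) * Complex.I)‖
    · have h1 := hhalf j hA
      have h2 := hj₀ j hj
      have h3 : c / ((j : ℝ) + 3) ≤ c / (j : ℝ) :=
        div_le_div_of_nonneg_left hc.le hjR (by linarith)
      have := hS0 (j + 3)
      linarith
    · push Not at hA
      obtain ⟨q, hq, hq2⟩ := hA
      have hB : ∀ p ∈ Blk η (j + 3), 1 / 2 ≤ ‖1 - ((p : ℕ) : ℂ) ^ ((t : ℂ) * Complex.I)‖ := by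
        intro p hp
        obtain ⟨q1, q2, q3⟩ := mem_blk hq
        obtain ⟨p1, p2, p3⟩ := mem_blk hp
        have hd1 : 2 * η ≤ Real.log p - Real.log q := by
          push_cast at p2; nlinarith
        have hd2 : Real.log p - Real.log q ≤ 4 * η := by
          push_cast at p3; nlinarith
        have hab : |t * Real.log p - t * Real.log q| = |t| * (Real.log p - Real.log q) := by
          rw [← mul_sub, abs_mul, abs_of_nonneg (by linarith : (0 : ℝ) ≤ Real.log p - Real.log q)]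
        have h1 := far (a := t * Real.log p) (b := t * Real.log q)
          (by rw [hab]; nlinarith) (by rw [hab]; nlinarith)
        rw [← cpow_eq p1.pos, ← cpow_eq q1.pos] at h1
        have h2 : ‖((p : ℕ) : ℂ) ^ ((t : ℂ) * Complex.I) - ((q : ℕ) : ℂ) ^ ((t : ℂ) * Complex.I)‖ ≤
            ‖1 - ((q : ℕ) : ℂ) ^ ((t : ℂ) * Complex.I)‖ +
            ‖1 - ((p : ℕ) : ℂ) ^ ((t : ℂ) * Complex.I)‖ := by
          have e : ((p : ℕ) : ℂ) ^ ((t : ℂ) * Complex.I) - ((q : ℕ) : ℂ) ^ ((t : ℂ) * Complex.I) =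
            (1 - ((q : ℕ) : ℂ) ^ ((t : ℂ) * Complex.I)) -
              (1 - ((p : ℕ) : ℂ) ^ ((t : ℂ) * Complex.I)) := by ring
          rw [e]; exact norm_sub_le _ _
        linarith
      have h1 := hhalf (j + 3) hB
      have h2 := hj₀ (j + 3) (by omega)
      push_cast at h2
      have := hS0 j
      linarith
  -- sum over the blocks
  have hsumS : ∀ (J L s : ℕ), ∑ j ∈ Finset.Ico J (J + L), ∑ p ∈ Blk η (j + s), G p ≤ T := by
    intro J L s
    have hdisj : Set.PairwiseDisjoint (↑(Finset.Ico J (J + L)) : Set ℕ)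
        (fun j => Blk η (j + s)) := by
      intro i _ j _ hij
      rw [Function.onFun, Finset.disjoint_left]
      intro p hp1 hp2
      have := blk_disj hη0 hp1 hp2
      exact hij (by omega)
    rw [← Finset.sum_biUnion hdisj]
    refine hfin _ fun p hp => ?_
    rw [Finset.mem_biUnion] at hp
    obtain ⟨j, _, hj⟩ := hp
    exact (mem_blk hj).1
  have hbound : ∀ L : ℕ, ∑ j ∈ Finset.Ico (j₀ + 1) (j₀ + 1 + L), (1 / 4) * (c / ((j : ℝ) + 3)) ≤
      2 * T := by
    intro L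
    calc _ ≤ ∑ j ∈ Finset.Ico (j₀ + 1) (j₀ + 1 + L),
          (∑ p ∈ Blk η j, G p + ∑ p ∈ Blk η (j + 3), G p) :=
          Finset.sum_le_sum fun j hj => by
            rw [Finset.mem_Ico] at hj
            exact hpair j (by omega) (by omega)
      _ = ∑ j ∈ Finset.Ico (j₀ + 1) (j₀ + 1 + L), ∑ p ∈ Blk η (j + 0), G p +
          ∑ j ∈ Finset.Ico (j₀ + 1) (j₀ + 1 + L), ∑ p ∈ Blk η (j + 3), G p := by
          rw [Finset.sum_add_distrib]
          simp
      _ ≤ T + T := add_le_add (hsumS _ _ _) (hsumS _ _ _)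
      _ = 2 * T := by ring
  -- the harmonic series diverges
  have hsummable : Summable fun j : ℕ => (1 : ℝ) / ((j : ℝ) + (j₀ + 4 : ℕ)) := by
    refine summable_of_sum_range_le (c := 8 * T / c) (fun j => by positivity) fun L => ?_
    have h1 := hbound L
    rw [Finset.sum_Ico_eq_sum_range] at h1
    rw [show j₀ + 1 + L - (j₀ + 1) = L by omega] at h1
    have h2 : ∑ j ∈ Finset.range L, (1 : ℝ) / ((j : ℝ) + (j₀ + 4 : ℕ)) =
        (4 / c) * ∑ k ∈ Finset.range L, (1 / 4) * (c / (((j₀ + 1 + k : ℕ) : ℝ) + 3)) := by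
      rw [Finset.mul_sum]
      refine Finset.sum_congr rfl fun k _ => ?_
      push_cast
      have : (k : ℝ) + (j₀ + 4) ≠ 0 := by positivity
      have h3 : ((j₀ : ℝ) + 1 + k + 3) ≠ 0 := by positivity
      field_simp
      ring
    rw [h2]
    calc _ ≤ (4 / c) * (2 * T) := mul_le_mul_of_nonneg_left h1 (by positivity)
      _ = 8 * T / c := by ring
  have hns : ¬ Summable fun j : ℕ => (1 : ℝ) / ((j : ℝ) + (j₀ + 4 : ℕ)) := by
    have h1 := (summable_nat_add_iff (f := fun n : ℕ => (1 : ℝ) / (n : ℝ)) (j₀ + 4)).not.mpr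
      Real.not_summable_one_div_natCast
    intro h
    apply h1
    refine h.congr fun j => ?_
    push_cast
    rfl
  exact hns hsummable

theorem cm_pow {f : ℕ → ℂ} (hf : CM f) {n : ℕ} (hn : 0 < n) (k : ℕ) : f (n ^ k) = f n ^ k := by
  induction k with
  | zero =>
    rw [pow_zero, pow_zero]
    have h1 := hf.2.1 1 1
    have h2 : f 1 ≠ 0 := by
      intro h
      have := hf.2.2 1 one_pos
      rw [h] at this
      simp at this
    rw [mul_one] at h1
    have h3 : f 1 * 1 = f 1 * f 1 := by rw [mul_one]; exact h1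
    exact (mul_left_cancel₀ h2 h3).symm
  | succ k ih => rw [pow_succ, hf.2.1, ih, pow_succ]

theorem norm_one_sub_pow {z : ℂ} (hz : ‖z‖ ≤ 1) (N : ℕ) : ‖1 - z ^ N‖ ≤ N * ‖1 - z‖ := by
  induction N with
  | zero => simp
  | succ N ih =>
    have e : 1 - z ^ (N + 1) = (1 - z ^ N) + z ^ N * (1 - z) := by ring
    rw [e]
    refine (norm_add_le _ _).trans ?_
    rw [norm_mul, norm_pow]
    have h1 : ‖z‖ ^ N * ‖1 - z‖ ≤ 1 * ‖1 - z‖ :=
      mul_le_mul_of_nonneg_right (pow_le_one₀ (norm_nonneg _) hz) (norm_nonneg _)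
    push_cast
    linarith

/-- a pretentious function with values of order `E` at the primes has `t = 0`, and `g` takes finitely
many values -/
theorem dec_zero (hBL : S_BL) {f g : ℕ → ℂ} {t : ℝ} {q : ℕ} (hd : Dec f g t q) {E : ℕ}
    (hE : 1 ≤ E) (hfE : ∀ p : ℕ, p.Prime → f p ^ E = 1) :
    t = 0 ∧ ∀ p : ℕ, p.Prime → ¬ p ∣ q → g p ^ (q.totient * E) = 1 := by
  have hφ : 0 < q.totient := Nat.totient_pos.mpr hd.hq
  set N := q.totient * E with hN
  have hN0 : 0 < N := Nat.mul_pos hφ hE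
  have key : ∀ p : ℕ, p.Prime → ¬ p ∣ q →
      (((p : ℕ) : ℂ) ^ ((t : ℂ) * Complex.I)) ^ N * g p ^ N = 1 := by
    intro p hp hpq
    have hcop : p.Coprime q := (Nat.Prime.coprime_iff_not_dvd hp).mpr hpq
    have h1 : p ^ q.totient % q = 1 % q := Nat.ModEq.pow_totient hcop
    have h2 := hd.eq (p ^ q.totient) (pow_pos hp.pos _) h1
    rw [cm_pow hd.hf hp.pos, cm_pow hd.hg.cm hp.pos, Nat.cast_pow] at h2
    have h3 : (((p : ℂ)) ^ q.totient) ^ ((t : ℂ) * Complex.I) =
        (((p : ℕ) : ℂ) ^ ((t : ℂ) * Complex.I)) ^ q.totient := by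
      have : ∀ k : ℕ, (((p : ℂ)) ^ k) ^ ((t : ℂ) * Complex.I) =
          (((p : ℕ) : ℂ) ^ ((t : ℂ) * Complex.I)) ^ k := by
        intro k
        induction k with
        | zero => simp
        | succ k ih =>
          rw [pow_succ, pow_succ, ← ih]
          have := Complex.natCast_mul_natCast_cpow (p ^ k) p ((t : ℂ) * Complex.I)
          push_cast at this
          exact this
      exact this _
    rw [h3] at h2
    calc _ = ((((p : ℕ) : ℂ) ^ ((t : ℂ) * Complex.I)) ^ q.totient * g p ^ q.totient) ^ E := by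
          rw [mul_pow, ← pow_mul, ← pow_mul]
      _ = (f p ^ q.totient) ^ E := by rw [← h2]
      _ = (f p ^ E) ^ q.totient := by rw [← pow_mul, ← pow_mul, mul_comm]
      _ = 1 := by rw [hfE p hp, one_pow]
  have ht : t = 0 := by
    have h1 : Summable fun p : Nat.Primes =>
        ‖1 - ((p : ℕ) : ℂ) ^ (((N * t : ℝ) : ℂ) * Complex.I)‖ ^ 2 / ((p : ℕ) : ℝ) := by
      refine Summable.of_norm_bounded_eventually
        (g := fun p : Nat.Primes => (N : ℝ) ^ 2 * (‖1 - g p‖ ^ 2 / ((p : ℕ) : ℝ)))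
        (hd.hg.sm.mul_left _) ?_
      have hfin : {p : Nat.Primes | (p : ℕ) ∣ q}.Finite := by
        have : Set.Finite {n : ℕ | n ∣ q} := by
          refine (Finset.finite_toSet q.divisors).subset fun n hn => ?_
          rw [Finset.mem_coe, Nat.mem_divisors]
          exact ⟨hn, hd.hq.ne'⟩
        exact this.preimage (f := fun p : Nat.Primes => (p : ℕ)) (by
          intro x _ y _ hxy
          exact Subtype.ext hxy)
      rw [Filter.eventually_cofinite]
      refine hfin.subset fun p hp => ?_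
      by_contra hpq
      apply hp
      have hpp := p.2
      have hk := key p hpp hpq
      have hz : ((p : ℕ) : ℂ) ^ (((N * t : ℝ) : ℂ) * Complex.I) =
          (((p : ℕ) : ℂ) ^ ((t : ℂ) * Complex.I)) ^ N := by
        rw [← Complex.cpow_nat_mul]
        congr 1
        push_cast
        ring
      have hg1 : ‖g p‖ = 1 := hd.hg.cm.2.2 p hpp.pos
      have hgN : ‖g p ^ N‖ = 1 := by rw [norm_pow, hg1, one_pow]
      have h2 : ‖1 - ((p : ℕ) : ℂ) ^ (((N * t : ℝ) : ℂ) * Complex.I)‖ ≤ N * ‖1 - g p‖ := by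
        have h3 : ‖(1 - ((p : ℕ) : ℂ) ^ (((N * t : ℝ) : ℂ) * Complex.I)) * g p ^ N‖ =
            ‖1 - g p ^ N‖ := by
          rw [sub_mul, one_mul, hz, hk, norm_sub_rev]
        rw [norm_mul, hgN, mul_one] at h3
        rw [h3]
        exact norm_one_sub_pow hg1.le N
      rw [Real.norm_of_nonneg (by positivity), ← mul_div_assoc, ← mul_pow]
      exact div_le_div_of_nonneg_right (pow_le_pow_left₀ (norm_nonneg _) h2 2) (Nat.cast_nonneg _)
    have h2 := t_zero hBL h1
    have h3 : (N : ℝ) ≠ 0 := by exact_mod_cast hN0.ne'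
    exact (mul_eq_zero.mp h2).resolve_left h3
  refine ⟨ht, fun p hp hpq => ?_⟩
  have := key p hp hpq
  rw [ht] at this
  simpa using this

end Pool.Agent.F0f91f8.RC
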