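import Pool.Agent.Work.MP_0f91f8_co.RC.StmtsD2
import Pool.Agent.Work.MP_0f91f8_co.RC.T0
import Pool.Agent.Work.MP_0f91f8_co.HD.I_DFi

/-!
# Relative collision theorem, module D′: item RFi (helper83), the conclusion `PWRPret`
-/

set_option autoImplicit false

namespace Pool.Agent.F0f91f8.RC

open Filter Topology ComplexConjugate
open Pool.Agent.F0f91f8.HD
open scoped BigOperators

namespace IRFi

open Pool.Agent.F0f91f8.HD.DFi

theorem avg_prod {w K : ℕ} (hK : 1 ≤ K) (X : (Fin (w + 1) → Fin K) → (Fin (K + 1) → Fin K) → ℂ)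
    (A : (Fin (w + 1) → Fin K) → ℂ) (U : (Fin (K + 1) → Fin K) → ℂ) (β δ : ℝ) (hδ : 0 ≤ δ)
    (h : ∀ e e', ‖X e e' - A e * U e'‖ ≤ β)
    (hAU : (‖(∑ e, A e) / (K : ℂ) ^ (w + 1)‖ ≤ δ ∧ ∀ e', ‖U e'‖ ≤ 1) ∨
      ((∀ e, ‖A e‖ ≤ 1) ∧ ‖(∑ e', U e') / (K : ℂ) ^ (K + 1)‖ ≤ δ)) : ‖avg X‖ ≤ β + δ := by
  have e1 : avg X = avg (fun e e' => X e e' - A e * U e') + avg (fun e e' => A e * U e') := by
    rw [← avg_add]
    congr 1
    funext e e'
    ring
  rw [e1]
  refine (norm_add_le _ _).trans ?_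
  have e2 := avg_norm hK (fun e e' => X e e' - A e * U e') β h
  have e3 : ‖avg (fun (e : Fin (w + 1) → Fin K) e' => A e * U e')‖ ≤ δ := by
    rw [avg_mul, norm_mul]
    rcases hAU with ⟨h1, h2⟩ | ⟨h1, h2⟩
    · calc _ ≤ δ * 1 := mul_le_mul h1 (mean_norm hK _ 1 h2) (norm_nonneg _) hδ
        _ = δ := mul_one _
    · calc _ ≤ 1 * δ := mul_le_mul (mean_norm hK _ 1 h1) h2 (norm_nonneg _) zero_le_one
        _ = δ := one_mul _
  linarith

theorem re_of_norm {z : ℂ} {c : ℝ} (h : ‖z‖ ≤ c) : -c ≤ z.re := by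
  have c1 := Complex.abs_re_le_norm z
  have c2 := neg_abs_le z.re
  linarith

theorem sum2_le (N : ℕ) (F : ℕ → ℕ → ℂ) (hF : ∀ u v, ‖F u v‖ ≤ 1) :
    ‖(∑ u ∈ Finset.Icc 1 N, ∑ v ∈ Finset.Icc 1 N, F u v) / (N : ℂ) ^ 2‖ ≤ 1 := by
  rw [norm_div, norm_pow, Complex.norm_natCast]
  refine div_le_one_of_le₀ ?_ (by positivity)
  have hs : ∀ (F : ℕ → ℂ) (c : ℝ), (∀ u, ‖F u‖ ≤ c) → ‖∑ u ∈ Finset.Icc 1 N, F u‖ ≤ (N : ℝ) * c := by
    intro F c hF
    refine (norm_sum_le _ _).trans ?_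
    refine (Finset.sum_le_sum fun e _ => hF e).trans ?_
    simp
  refine (hs _ _ fun u => hs _ 1 fun v => hF _ _).trans (le_of_eq ?_)
  ring

end IRFi

open IRFi Pool.Agent.F0f91f8.HD.DFi in
/-- Item RFi. -/
theorem pr_RFi (hBL : S_BL) (hAv : StRAv) (hTl : StDTl) (hXm : StRXm) (hZm : StRZm)
    (hYm : StRYm) (hVy : StRVy) (hKp : StDKp) (hRKp : StRKp) (hDe : StDDe) (hFv : StRFv)
    (hX1 : StRX1) (hX2 : StRX2) (hZ2 : StRZ2) : StRFi := by
  intro E hE f hf hp
  obtain ⟨g, t, q, hd⟩ := hDe f hf hp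
  obtain ⟨cX, hcX, hX⟩ := hXm
  obtain ⟨cZ, hcZ, hZ⟩ := hZm
  obtain ⟨cY, hcY, hY⟩ := hYm
  obtain ⟨cV, hcV, hV, hU1⟩ := hVy
  obtain ⟨cX2, hcX2, hX2⟩ := hX2
  obtain ⟨cZ2, hcZ2, hZ2⟩ := hZ2
  have hg := hd.hg
  obtain ⟨-, -, htlt, hert, -, hcLQ, -⟩ := hTl g hg
  obtain ⟨P, hP⟩ : ∃ P : ℕ, (∃ p0 ≤ P, p0.Prime ∧ f p0 ^ E ≠ 1) ∨
      (∀ p : ℕ, p.Prime → f p ^ E = 1) := by
    by_cases h : ∀ p : ℕ, p.Prime → f p ^ E = 1
    · exact ⟨0, Or.inr h⟩
    · push Not at h
      obtain ⟨p0, h1, h2⟩ := h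
      exact ⟨p0, Or.inl ⟨p0, le_rfl, h1, h2⟩⟩
  intro ε hε
  set C : ℝ := cX + cZ + cY + cV + cX2 + cZ2 with hC
  have hC0 : 0 < C := by positivity
  have hXC : cX ≤ C := by linarith
  have hZC : cZ ≤ C := by linarith
  have hYC : cY ≤ C := by linarith
  have hVC : cV ≤ C := by linarith
  have hX2C : cX2 ≤ C := by linarith
  have hZ2C : cZ2 ≤ C := by linarith
  set δ : ℝ := ε / 40 with hδ
  have hδ0 : 0 < δ := by positivity
  have her0 : ∀ K, 0 ≤ er g K := fun K => Real.sqrt_nonneg _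
  refine ⟨P + q + 2 + ⌈C / δ⌉₊, fun w hw => ?_⟩
  have hwP : P ≤ w := by omega
  have hwq : q ≤ w := by omega
  have hw2 : 2 ≤ w := by omega
  have hqw : q ∣ w.factorial := Nat.dvd_factorial hd.hq hwq
  have hw0 : (0 : ℝ) < w := by
    have : 0 < w := by omega
    exact_mod_cast this
  have hCw : C * (1 / (w : ℝ)) ≤ δ := by
    have h1 : C / δ ≤ (w : ℝ) := by
      refine (Nat.le_ceil _).trans ?_
      have : ⌈C / δ⌉₊ ≤ w := by omega
      exact_mod_cast this
    rw [div_le_iff₀ hδ0] at h1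
    rw [mul_one_div, div_le_iff₀ hw0]
    linarith
  -- eventually statements in K
  have hinv : Tendsto (fun K : ℕ => ((K : ℝ))⁻¹) atTop (𝓝 0) := tendsto_inv_atTop_nhds_zero_nat
  have hevc : ∀ c : ℝ, ∀ᶠ K : ℕ in atTop, c * ((K : ℝ))⁻¹ ≤ δ := fun c => by
    have h1 : Tendsto (fun K : ℕ => c * ((K : ℝ))⁻¹) atTop (𝓝 (c * 0)) := hinv.const_mul c
    rw [mul_zero] at h1
    exact (h1.eventually (gt_mem_nhds hδ0)).mono fun K h => h.le
  have hever : ∀ᶠ K : ℕ in atTop, C * er g K ≤ δ := by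
    have h1 : Tendsto (fun K : ℕ => C * er g K) atTop (𝓝 (C * 0)) := hert.const_mul C
    rw [mul_zero] at h1
    exact (h1.eventually (gt_mem_nhds hδ0)).mono fun K h => h.le
  have hevtl : ∀ c : ℝ, ∀ᶠ K : ℕ in atTop, c * tl g K ≤ δ := fun c => by
    have h1 : Tendsto (fun K : ℕ => c * tl g K) atTop (𝓝 (c * 0)) := htlt.const_mul c
    rw [mul_zero] at h1
    exact (h1.eventually (gt_mem_nhds hδ0)).mono fun K h => h.le
  have heT : ∀ (K : ℕ) (s c : ℝ), 0 < c → c ≤ C → C * er g K ≤ δ →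
      (C * (1 + |s|)) * ((K : ℝ))⁻¹ ≤ δ → c * eT g s w K ≤ 3 * δ := by
    intro K s c hc hcC h1 h2
    have h4 : c * eT g s w K ≤ C * eT g s w K := by
      refine mul_le_mul_of_nonneg_right hcC ?_
      unfold eT
      have := her0 K
      positivity
    refine h4.trans ?_
    have h5 : C * eT g s w K = C * er g K + C * (1 / (w : ℝ)) + (C * (1 + |s|)) * ((K : ℝ))⁻¹ := by
      unfold eT; ring
    rw [h5]; linarith
  -- the case distinction for the primes beyond `w`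
  have hcase : (∃ p1 : ℕ, p1.Prime ∧ w < p1 ∧ g p1 ≠ 1) ∨ ∀ p : ℕ, p.Prime → w < p → g p = 1 := by
    by_cases h : ∃ p1 : ℕ, p1.Prime ∧ w < p1 ∧ g p1 ≠ 1
    · exact Or.inl h
    · push Not at h
      exact Or.inr h
  have hconjmean : ∀ (n K : ℕ) (F : (Fin n → Fin K) → ℂ),
      ‖(∑ e, conj (F e)) / (K : ℂ) ^ n‖ = ‖(∑ e, F e) / (K : ℂ) ^ n‖ := by
    intro n K F
    have : (∑ e, conj (F e)) / (K : ℂ) ^ n = conj ((∑ e, F e) / (K : ℂ) ^ n) := by
      rw [map_div₀, map_sum, map_pow, Complex.conj_natCast]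
    rw [this, Complex.norm_conj]
  -- the mean of `g k`
  have hgk : ∀ p1 : ℕ, p1.Prime → w < p1 → g p1 ≠ 1 → ∀ᶠ K : ℕ in atTop,
      ‖(∑ e' : Fin (K + 1) → Fin K, g (kk w K e')) / (K : ℂ) ^ (K + 1)‖ ≤ δ := by
    intro p1 hp1 hwp1 hgp1
    have hg1 : 0 < ‖1 - g p1‖ := by
      rw [norm_pos_iff, sub_ne_zero]; exact fun h => hgp1 h.symm
    filter_upwards [eventually_ge_atTop 1, eventually_ge_atTop p1,
      hevc (2 / ‖1 - g p1‖)] with K hK1 hpK h3
    have hK0 : (0 : ℝ) < K := by exact_mod_cast hK1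
    refine ((hKp g hg.cm w K p1 hK1 hp1 hgp1).2 hwp1 hpK).trans ?_
    have : 2 / (K * ‖1 - g p1‖) = (2 / ‖1 - g p1‖) * ((K : ℝ))⁻¹ := by
      field_simp
    rw [this]; exact h3
  -- the correlation `y, z`
  have hYpart : ∀ᶠ K : ℕ in atTop, ∃ M0 : ℕ, ∀ M ≥ M0,
      -(7 * δ) ≤ (avg (fun (e : Fin (w + 1) → Fin K) e' => CYR f E w K e e' M)).re := by
    rcases hcase with ⟨p1, hp1, hwp1, hgp1⟩ | h1
    · filter_upwards [eventually_ge_atTop w, hever,
        hevc (C * (1 + |t|)), hgk p1 hp1 hwp1 hgp1] with K hwK h1 h2 hk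
      have hK1 : 1 ≤ K := by omega
      obtain ⟨MY, hMY⟩ := hY f g t q hd E w K hE hw2 hwK hqw δ hδ0
      obtain ⟨MV, hMV⟩ := hV g hg E w K hE hw2 hwK δ hδ0
      refine ⟨max MY MV, fun M hM => ?_⟩
      let e0 : Fin (K + 1) → Fin K := fun _ => ⟨0, by omega⟩
      have hVle : ‖VYR g E w K e0 M‖ ≤ 1 := (hU1 f g t hf hg E w K e0 M).2.2
      have hb : ∀ (e : Fin (w + 1) → Fin K) (e' : Fin (K + 1) → Fin K),
          ‖CYR f E w K e e' M - 1 * (g (kk w K e') * VYR g E w K e0 M)‖ ≤ 6 * δ := by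
        intro e e'
        have b1 := (hMY M (le_trans (le_max_left _ _) hM) e e').1
        have b2 := hMV M (le_trans (le_max_right _ _) hM) e' e0
        have b3 : CYR f E w K e e' M - 1 * (g (kk w K e') * VYR g E w K e0 M) =
            (CYR f E w K e e' M - g (kk w K e') * VYR g E w K e' M) +
            g (kk w K e') * (VYR g E w K e' M - VYR g E w K e0 M) := by ring
        rw [b3]
        refine (norm_add_le _ _).trans ?_
        rw [norm_mul]
        have b4 : ‖g (kk w K e')‖ * ‖VYR g E w K e' M - VYR g E w K e0 M‖ ≤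
            1 * ‖VYR g E w K e' M - VYR g E w K e0 M‖ :=
          mul_le_mul_of_nonneg_right (cm_le hg.cm _) (norm_nonneg _)
        have b5 : cV * er g K ≤ C * er g K := mul_le_mul_of_nonneg_right hVC (her0 K)
        have b6 := heT K t cY hcY hYC h1 h2
        linarith
      have hm : ‖(∑ e' : Fin (K + 1) → Fin K, g (kk w K e') * VYR g E w K e0 M) /
          (K : ℂ) ^ (K + 1)‖ ≤ δ := by
        rw [← Finset.sum_mul, mul_div_right_comm, norm_mul]
        calc _ ≤ δ * 1 := mul_le_mul hk hVle (norm_nonneg _) hδ0.le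
          _ = δ := mul_one _
      have h3 := avg_prod hK1 (fun (e : Fin (w + 1) → Fin K) e' => CYR f E w K e e' M)
        (fun _ => 1) (fun e' => g (kk w K e') * VYR g E w K e0 M) (6 * δ) δ hδ0.le hb
        (Or.inr ⟨fun _ => by simp, hm⟩)
      have h4 := re_of_norm h3
      linarith
    · filter_upwards [eventually_ge_atTop w, hevc (C * (1 + |t|))] with K hwK h2
      have hK1 : 1 ≤ K := by omega
      obtain ⟨MY, hMY⟩ := hY f g t q hd E w K hE hw2 hwK hqw δ hδ0
      refine ⟨MY, fun M hM => ?_⟩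
      refine avg_re hK1 _ _ fun e e' => ?_
      have b1 := (hMY M hM e e').2 h1
      have b2 : cY * ((1 + |t|) / K) ≤ (C * (1 + |t|)) * ((K : ℝ))⁻¹ := by
        have : (C * (1 + |t|)) * ((K : ℝ))⁻¹ = C * ((1 + |t|) / K) := by
          rw [div_eq_mul_inv]; ring
        rw [this]
        exact mul_le_mul_of_nonneg_right hYC (by positivity)
      linarith
  -- the correlations `x, y` and `z, x`
  have hXZ : ∀ᶠ K : ℕ in atTop, ∃ M0 : ℕ, ∀ M ≥ M0,
      -(7 * δ) ≤ (avg (fun (e : Fin (w + 1) → Fin K) e' => CXR f E w K e e' M)).re ∧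
      -(7 * δ) ≤ (avg (fun (e : Fin (w + 1) → Fin K) e' => CZR f E w K e e' M)).re := by
    rcases hP with ⟨p0, hp0P, hp0, hfp0⟩ | hfE
    · -- averages over `e`
      have hf1 : 0 < ‖1 - f p0 ^ E‖ := by
        rw [norm_pos_iff, sub_ne_zero]; exact fun h => hfp0 h.symm
      filter_upwards [eventually_ge_atTop w, hever, hevc (C * (1 + |t|)),
        hevc (2 / ‖1 - f p0 ^ E‖)] with K hwK h1 h2 h3
      have hK1 : 1 ≤ K := by omega
      have hK0 : (0 : ℝ) < K := by exact_mod_cast hK1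
      obtain ⟨MX, hMX⟩ := hX f g t q hd E w K hE hw2 hwK hqw δ hδ0
      obtain ⟨MZ, hMZ⟩ := hZ f g t q hd E w K hE hw2 hwK hqw δ hδ0
      have hk : ‖(∑ e : Fin (w + 1) → Fin K, f (kp w K e) ^ E) / (K : ℂ) ^ (w + 1)‖ ≤ δ := by
        refine (hRKp f hf E w K p0 hE hK1 hp0 hfp0 (hp0P.trans hwP)).trans ?_
        have : 2 / (K * ‖1 - f p0 ^ E‖) = (2 / ‖1 - f p0 ^ E‖) * ((K : ℝ))⁻¹ := by
          field_simp
        rw [this]; exact h3
      have hk' : ‖(∑ e : Fin (w + 1) → Fin K, conj (f (kp w K e)) ^ E) / (K : ℂ) ^ (w + 1)‖ ≤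
          δ := by
        rw [← hconjmean] at hk
        simp only [map_pow] at hk
        exact hk
      refine ⟨max MX MZ, fun M hM => ⟨?_, ?_⟩⟩
      · have h4 := avg_prod hK1 (fun (e : Fin (w + 1) → Fin K) e' => CXR f E w K e e' M)
          (fun e => f (kp w K e) ^ E) (fun e' => UXR f g t E w K e' M) (4 * δ) δ hδ0.le
          (fun e e' => (hMX M (le_trans (le_max_left _ _) hM) e e').trans
            (by linarith [heT K t cX hcX hXC h1 h2]))
          (Or.inl ⟨hk, fun e' => (hU1 f g t hf hg E w K e' M).1⟩)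
        have h5 := re_of_norm h4
        linarith
      · have h4 := avg_prod hK1 (fun (e : Fin (w + 1) → Fin K) e' => CZR f E w K e e' M)
          (fun e => conj (f (kp w K e)) ^ E) (fun e' => UZR f g t E w K e' M) (4 * δ) δ hδ0.le
          (fun e e' => (hMZ M (le_trans (le_max_right _ _) hM) e e').trans
            (by linarith [heT K t cZ hcZ hZC h1 h2]))
          (Or.inl ⟨hk', fun e' => (hU1 f g t hf hg E w K e' M).2.1⟩)
        have h5 := re_of_norm h4
        linarith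
    · -- finite order: `t = 0`
      obtain ⟨ht, hgN⟩ := dec_zero hBL hd hE hfE
      subst ht
      set B : ℝ := ((q.totient * E : ℕ) : ℝ) with hB
      have hB0 : 0 ≤ B := Nat.cast_nonneg _
      have hN1 : 1 ≤ q.totient * E := Nat.mul_pos (Nat.totient_pos.mpr hd.hq) hE
      have hBv : ∀ K : ℕ, w ≤ K → ∀ p : ℕ, p.Prime → K < p →
          ‖1 - g p‖ ≤ B * ‖1 - g p‖ ^ 2 := by
        intro K hwK p hp hKp
        refine hFv (g p) (q.totient * E) hN1 (hgN p hp fun hpq => ?_)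
        have := Nat.le_of_dvd hd.hq hpq
        omega
      have hZpart : ∀ᶠ K : ℕ in atTop, ∃ M0 : ℕ, ∀ M ≥ M0,
          -(7 * δ) ≤ (avg (fun (e : Fin (w + 1) → Fin K) e' => CZR f E w K e e' M)).re := by
        filter_upwards [eventually_ge_atTop w, hever, hevc (C * (1 + |(0 : ℝ)|)),
          hevtl (4 * B)] with K hwK h1 h2 h3
        have hK1 : 1 ≤ K := by omega
        obtain ⟨MZ, hMZ⟩ := hZ2 f g q hd E w K hE hw2 hwK hqw hfE B hB0 (hBv K hwK) δ hδ0
        refine ⟨MZ, fun M hM => ?_⟩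
        refine avg_re hK1 _ _ fun e e' => ?_
        have b1 := hMZ M hM e e'
        have b2 := heT K 0 cZ2 hcZ2 hZ2C h1 h2
        have b3 := re_of_norm b1
        rw [Complex.sub_re, Complex.one_re] at b3
        linarith
      have hXpart : ∀ᶠ K : ℕ in atTop, ∃ M0 : ℕ, ∀ M ≥ M0,
          -(7 * δ) ≤ (avg (fun (e : Fin (w + 1) → Fin K) e' => CXR f E w K e e' M)).re := by
        rcases hcase with ⟨p1, hp1, hwp1, hgp1⟩ | h1
        · filter_upwards [eventually_ge_atTop w, hever,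
            hevc (C * (1 + |(0 : ℝ)|)), hgk p1 hp1 hwp1 hgp1] with K hwK h1 h2 hk
          have hK1 : 1 ≤ K := by omega
          obtain ⟨MX, hMX⟩ := hX2 f g q hd E w K hE hw2 hwK hqw hfE δ hδ0
          refine ⟨MX, fun M hM => ?_⟩
          let e0 : Fin (K + 1) → Fin K := fun _ => ⟨0, by omega⟩
          obtain ⟨c, hc⟩ : ∃ c, c = (cL g K M * conj (cL g K M)) * (ENR w.factorial M f *
            conj (EA w.factorial (DR E w K) (inv0 w.factorial (kk w K e0)) M g)) := ⟨_, rfl⟩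
          have hcle : ‖c‖ ≤ 1 := by
            rw [hc, norm_mul, norm_mul, norm_mul, Complex.norm_conj, Complex.norm_conj]
            have a1 : ‖ENR w.factorial M f‖ ≤ 1 := by
              unfold ENR EN
              exact sum2_le M (fun u v => f (w.factorial * (u + v) + 1)) fun u v => cm_le hf _
            have a2 : ‖EA w.factorial (DR E w K) (inv0 w.factorial (kk w K e0)) M g‖ ≤ 1 := by
              unfold EA
              exact sum2_le (DR E w K * M)
                (fun u v => g (w.factorial * (u + v) + inv0 w.factorial (kk w K e0)))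
                fun u v => cm_le hg.cm _
            exact mul_le_one₀ (mul_le_one₀ (hcLQ K M).1 (norm_nonneg _) (hcLQ K M).1)
              (by positivity) (mul_le_one₀ a1 (norm_nonneg _) a2)
          have hb : ∀ (e : Fin (w + 1) → Fin K) (e' : Fin (K + 1) → Fin K),
              ‖CXR f E w K e e' M - 1 * (conj (g (kk w K e')) * c)‖ ≤ 4 * δ := by
            intro e e'
            have b1 := hMX M hM e e' e0
            rw [← hc] at b1
            rw [one_mul]
            have b2 := heT K 0 cX2 hcX2 hX2C h1 h2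
            linarith
          have hm : ‖(∑ e' : Fin (K + 1) → Fin K, conj (g (kk w K e')) * c) /
              (K : ℂ) ^ (K + 1)‖ ≤ δ := by
            rw [← Finset.sum_mul, mul_div_right_comm, norm_mul, hconjmean]
            calc _ ≤ δ * 1 := mul_le_mul hk hcle (norm_nonneg _) hδ0.le
              _ = δ := mul_one _
          have h3 := avg_prod hK1 (fun (e : Fin (w + 1) → Fin K) e' => CXR f E w K e e' M)
            (fun _ => 1) (fun e' => conj (g (kk w K e')) * c) (4 * δ) δ hδ0.le hb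
            (Or.inr ⟨fun _ => by simp, hm⟩)
          have h4 := re_of_norm h3
          linarith
        · filter_upwards [eventually_ge_atTop w] with K hwK
          have hK1 : 1 ≤ K := by omega
          refine ⟨1, fun M hM => ?_⟩
          refine avg_re hK1 _ _ fun e e' => ?_
          rw [hX1 f g q hd E w K hE hw2 hwK hqw hfE h1 M hM e e', Complex.one_re]
          linarith
      filter_upwards [hXpart, hZpart] with K ⟨M1, h1⟩ ⟨M2, h2⟩
      exact ⟨max M1 M2, fun M hM => ⟨h1 M (le_trans (le_max_left _ _) hM),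
        h2 M (le_trans (le_max_right _ _) hM)⟩⟩
  -- conclusion
  have hall : ∀ᶠ K : ℕ in atTop, ∃ M0 : ℕ, ∀ M ≥ M0, -ε ≤ (AvR E w K M (pc f)).re := by
    filter_upwards [hXZ, hYpart] with K ⟨M1, hM1⟩ ⟨M2, hM2⟩
    refine ⟨max M1 M2, fun M hM => ?_⟩
    obtain ⟨bX, bZ⟩ := hM1 M (le_trans (le_max_left _ _) hM)
    have bY := hM2 M (le_trans (le_max_right _ _) hM)
    have e1 : AvR E w K M (pc f) =
        avg (fun (e : Fin (w + 1) → Fin K) e' => CXR f E w K e e' M) +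
        avg (fun (e : Fin (w + 1) → Fin K) e' => CYR f E w K e e' M) +
        avg (fun (e : Fin (w + 1) → Fin K) e' => CZR f E w K e e' M) := by
      rw [hAv, ← avg_add, ← avg_add]
      rfl
    rw [e1, Complex.add_re, Complex.add_re]
    have c5 : ε = 40 * δ := by rw [hδ]; ring
    linarith
  obtain ⟨K0, hK0⟩ := eventually_atTop.mp hall
  exact ⟨K0, hK0⟩

end Pool.Agent.F0f91f8.RC
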