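import Pool.Agent.Work.MP_0f91f8_co.RC.StmtsD2
import Pool.Agent.Work.MP_0f91f8_co.HD.I_DMd

/-!
# Relative collision theorem, module D′, part 2, item RPr: the family satisfies `Par`
-/

set_option autoImplicit false

namespace Pool.Agent.F0f91f8.RC

open Filter Topology ComplexConjugate
open Pool.Agent.F0f91f8.HD
open scoped BigOperators

namespace IRPr

theorem kk_sq (w K : ℕ) (e : Fin (K + 1) → Fin K) (p : ℕ) (hp : p.Prime) (hw : w < p)
    (hK : p ≤ K) : p ^ 2 ∣ kk w K e := by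
  unfold kk
  have h1 : (if ((⟨p, by omega⟩ : Fin (K + 1)) : ℕ).Prime ∧ w < ((⟨p, by omega⟩ : Fin (K + 1)) : ℕ)
      then ((⟨p, by omega⟩ : Fin (K + 1)) : ℕ) ^ ((e ⟨p, by omega⟩ : ℕ) + 2) else 1) ∣
      ∏ p : Fin (K + 1), if (p : ℕ).Prime ∧ w < (p : ℕ) then (p : ℕ) ^ ((e p : ℕ) + 2) else 1 :=
    Finset.dvd_prod_of_mem (fun p : Fin (K + 1) =>
      if (p : ℕ).Prime ∧ w < (p : ℕ) then (p : ℕ) ^ ((e p : ℕ) + 2) else 1) (Finset.mem_univ _)
  rw [if_pos ⟨hp, hw⟩] at h1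
  exact (pow_dvd_pow p (Nat.le_add_left 2 _)).trans h1

end IRPr

open IRPr in
/-- Item RPr. -/
theorem pr_RPr (hK2 : StRK2) (hMd : StDMd) : StRPr := by
  intro E w K e e' hE hw hwK
  obtain ⟨-, h2, h3, h4, -, -, -⟩ := hK2 E w K e hE hw (by omega)
  obtain ⟨m1, m2, -, m4, -, m6⟩ := hMd w K e e' hwK
  have hkp : ∀ p : ℕ, p.Prime → p ∣ kk w K e' → p ≤ K := fun p hp h => (IDMd.kk_dvd hp h).2
  refine ⟨⟨h4, m2, h2, h3, m1, hkp, fun p hp h5 h6 => kk_sq w K e' p hp h5 h6⟩, m4, ?_, ?_⟩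
  · intro p hp h
    rcases (hp.dvd_mul).1 h with h1 | h1
    · rcases (hp.dvd_mul).1 h1 with h5 | h5
      · exact (h3 p hp h5).trans hwK
      · exact hkp p hp h5
    · exact ((hp.dvd_factorial).1 h1).trans hwK
  · intro b
    exact (m6 b 0).1

end Pool.Agent.F0f91f8.RC
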