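import Pool.Agent.Work.MP_0f91f8_co.RC.StmtsD1
import Pool.Agent.Work.MP_0f91f8_co.HD.I_DLm

set_option autoImplicit false

namespace Pool.Agent.F0f91f8.HD

open Filter Topology ComplexConjugate
open scoped BigOperators

namespace IRLm

/-- one linear form in the variable `u` -/
theorem part (Q D a₀ M : ℕ) (hM : 1 ≤ M) (hD : 0 < D) (F : ℕ → ℕ → ℝ) (X : ℝ)
    (h : ∀ u' ∈ Finset.Icc 1 M, ∀ v ∈ Finset.Icc 1 (D * M), ∀ v' ∈ Finset.Icc 1 (D * M),
      ∑ u ∈ Finset.Icc 1 M, F (Q * (v + v') + a₀) (u + u') ≤ X * (M : ℝ)) :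
    BR Q D a₀ M F ≤ X := by
  have hMr : (0 : ℝ) < M := by exact_mod_cast hM
  have hDMr : (0 : ℝ) < ((D * M : ℕ) : ℝ) := by
    exact_mod_cast Nat.mul_pos hD hM
  have hden : (0 : ℝ) < (M : ℝ) ^ 2 * ((D * M : ℕ) : ℝ) ^ 2 := by positivity
  unfold BR
  rw [div_le_iff₀ hden]
  have h9 := IDLm.mv (Finset.Icc 1 M) (Finset.Icc 1 M) (Finset.Icc 1 (D * M))
    (Finset.Icc 1 (D * M)) (fun u u' v v' => F (Q * (v + v') + a₀) (u + u')) _ h
  simp only [Nat.card_Icc, Nat.add_sub_cancel] at h9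
  refine h9.trans (le_of_eq ?_)
  ring

end IRLm

theorem pr_RLm (hLin : StDLin) : StRLm := by
  obtain ⟨C, hC, hL⟩ := hLin
  refine ⟨C, hC, ?_⟩
  intro g hg K κ k Q D hK hκ hk hQ hD hp η hη
  have hK1 : 1 ≤ K := by omega
  have hpQ : ∀ p : ℕ, p.Prime → p ∣ Q → p ≤ K := fun p h1 h2 => hp p h1 (Dvd.dvd.mul_left h2 κ)
  have hp2 : ∀ p : ℕ, p.Prime → p ∣ 2 * (κ * Q) → p ≤ K := by
    intro p h1 h2
    rcases (Nat.Prime.dvd_mul h1).mp h2 with h3 | h3
    · exact (Nat.le_of_dvd (by norm_num) h3).trans hK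
    · exact hp p h1 h3
  have hκQ : 0 < κ * Q := Nat.mul_pos hκ hQ
  obtain ⟨M1, hM1⟩ := hL g hg K Q (Q + 1) hK1 hQ hpQ η hη
  obtain ⟨M2, hM2⟩ := hL g hg K (κ * Q) (k * (2 * Q * D + Q) + κ * (Q + 1)) hK1 hκQ hp η hη
  obtain ⟨M3, hM3⟩ := hL g hg K (2 * (κ * Q)) (k * (2 * Q * D + Q) + 2 * κ * (Q + 1)) hK1
    (by omega) hp2 η hη
  refine ⟨M1 + M2 + M3 + 1, fun M hM a₀ ha₀ => ?_⟩
  have hMp : 1 ≤ M := by omega
  have hMr : (0 : ℝ) < M := by exact_mod_cast hMp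
  have ha : ∀ v ∈ Finset.Icc 1 (D * M), ∀ v' ∈ Finset.Icc 1 (D * M),
      k * (Q * (v + v') + a₀) ≤ k * (2 * Q * D + Q) * M := by
    intro v hv v' hv'
    rw [Finset.mem_Icc] at hv hv'
    calc k * (Q * (v + v') + a₀) ≤ k * (Q * (D * M + D * M) + Q * M) := by
          apply Nat.mul_le_mul_left
          apply Nat.add_le_add
          · exact Nat.mul_le_mul_left Q (by omega)
          · exact ha₀.trans (Nat.le_mul_of_pos_right Q hMp)
      _ = k * (2 * Q * D + Q) * M := by ring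
  have hu : ∀ u' ∈ Finset.Icc 1 M, Q * u' + 1 ≤ (Q + 1) * M := by
    intro u' hu'
    rw [Finset.mem_Icc] at hu'
    calc Q * u' + 1 ≤ Q * M + M := Nat.add_le_add (Nat.mul_le_mul_left Q hu'.2) hMp
      _ = (Q + 1) * M := by ring
  refine ⟨?_, ?_, ?_⟩
  · refine IRLm.part Q D a₀ M hMp hD _ _ fun u' hu' v hv v' hv' => ?_
    have h5 := hM1 M (by omega) (Q * u' + 1) (hu u' hu')
    rw [div_le_iff₀ hMr] at h5
    refine le_trans (le_of_eq ?_) h5
    refine Finset.sum_congr rfl fun u _ => ?_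
    have e : Q * (u + u') + 1 = Q * u + (Q * u' + 1) := by ring
    rw [e]
  · refine IRLm.part Q D a₀ M hMp hD _ _ fun u' hu' v hv v' hv' => ?_
    have h5 := hM2 M (by omega) (k * (Q * (v + v') + a₀) + κ * (Q * u' + 1)) (by
      calc k * (Q * (v + v') + a₀) + κ * (Q * u' + 1)
          ≤ k * (2 * Q * D + Q) * M + κ * ((Q + 1) * M) :=
            Nat.add_le_add (ha v hv v' hv') (Nat.mul_le_mul_left κ (hu u' hu'))
        _ = (k * (2 * Q * D + Q) + κ * (Q + 1)) * M := by ring)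
    rw [div_le_iff₀ hMr] at h5
    refine le_trans (le_of_eq ?_) h5
    refine Finset.sum_congr rfl fun u _ => ?_
    have e : k * (Q * (v + v') + a₀) + κ * (Q * (u + u') + 1) =
        κ * Q * u + (k * (Q * (v + v') + a₀) + κ * (Q * u' + 1)) := by ring
    rw [e]
  · refine IRLm.part Q D a₀ M hMp hD _ _ fun u' hu' v hv v' hv' => ?_
    have h5 := hM3 M (by omega) (k * (Q * (v + v') + a₀) + 2 * κ * (Q * u' + 1)) (by
      calc k * (Q * (v + v') + a₀) + 2 * κ * (Q * u' + 1)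
          ≤ k * (2 * Q * D + Q) * M + 2 * κ * ((Q + 1) * M) :=
            Nat.add_le_add (ha v hv v' hv') (Nat.mul_le_mul_left (2 * κ) (hu u' hu'))
        _ = (k * (2 * Q * D + Q) + 2 * κ * (Q + 1)) * M := by ring)
    rw [div_le_iff₀ hMr] at h5
    refine le_trans (le_of_eq ?_) h5
    refine Finset.sum_congr rfl fun u _ => ?_
    have e : k * (Q * (v + v') + a₀) + 2 * (κ * (Q * (u + u') + 1)) =
        2 * (κ * Q) * u + (k * (Q * (v + v') + a₀) + 2 * κ * (Q * u' + 1)) := by ring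
    rw [e]

end Pool.Agent.F0f91f8.HD
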