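import Pool.Agent.Work.MP_0f91f8_co.RC.StmtsD1

/-! Relative collision theorem, module D prime: item RQ4 (helper59), copy of HD/I_DQ4 (helper83). -/

set_option autoImplicit false

namespace Pool.Agent.F0f91f8.HD

open Filter Topology ComplexConjugate
open scoped BigOperators

namespace IRQ4

theorem br_mono {Q D a₀ M : ℕ} {F G : ℕ → ℕ → ℝ}
    (h : ∀ u ∈ Finset.Icc 1 M, ∀ u' ∈ Finset.Icc 1 M, ∀ v ∈ Finset.Icc 1 (D * M),
      ∀ v' ∈ Finset.Icc 1 (D * M), F (Q * (v + v') + a₀) (u + u') ≤ G (Q * (v + v') + a₀) (u + u')) :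
    BR Q D a₀ M F ≤ BR Q D a₀ M G := by
  unfold BR
  refine div_le_div_of_nonneg_right ?_ (by positivity)
  exact Finset.sum_le_sum fun u hu => Finset.sum_le_sum fun u' hu' =>
    Finset.sum_le_sum fun v hv => Finset.sum_le_sum fun v' hv' => h u hu u' hu' v hv v' hv'

theorem br_sum (hBx : StDBx) (Q D a₀ M : ℕ) (P : Finset ℕ) (F : ℕ → ℕ → ℕ → ℝ) :
    BR Q D a₀ M (fun a n => ∑ p ∈ P, F p a n) = ∑ p ∈ P, BR Q D a₀ M (F p) := by
  classical
  induction P using Finset.induction_on with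
  | empty =>
    simp only [Finset.sum_empty]
    unfold BR
    simp
  | insert p P hp ih =>
    rw [Finset.sum_insert hp, ← ih, ← (hBx Q D a₀ M).2.2.2.2.1]
    congr 1
    funext a n
    rw [Finset.sum_insert hp]

theorem sqrt_le {x η : ℝ} (hx : 0 ≤ x) (hη : 0 < η) :
    Real.sqrt x ≤ (1 / (2 * η)) * x + η / 2 * 1 := by
  have h1 := Real.sq_sqrt hx
  have h2 : 0 ≤ (Real.sqrt x - η) ^ 2 := sq_nonneg _
  have h3 : (1 / (2 * η)) * x + η / 2 * 1 - Real.sqrt x = (1 / (2 * η)) * (Real.sqrt x - η) ^ 2 := by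
    have h4 : (1 / (2 * η)) * (Real.sqrt x - η) ^ 2 =
        (1 / (2 * η)) * (Real.sqrt x ^ 2 - 2 * η * Real.sqrt x + η ^ 2) := by ring
    rw [h4, h1]
    field_simp
    ring
  have h5 : 0 ≤ (1 / (2 * η)) * (Real.sqrt x - η) ^ 2 := by positivity
  linarith

end IRQ4

open IRQ4 in
theorem pr_RQ4 (hZp : StRZp) (hTl : StDTl) (hBx : StDBx) : StRQ4 := by
  classical
  intro g hg K κ k Q D hK hκ hk hQ hD η hη
  obtain ⟨C0, hC0, hZ⟩ := hZp Q D κ k hQ hD hκ hk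
  obtain ⟨htl0, -, htl, -, hsum, -, -⟩ := hTl g hg
  have hε : 0 < η ^ 2 / C0 := by positivity
  obtain ⟨L, hL⟩ := (htl.eventually (gt_mem_nhds hε)).exists
  refine ⟨max (L ^ 4) 1, fun M hM a₀ ha₀ => ?_⟩
  have hML : L ^ 4 ≤ M := le_trans (le_max_left _ _) hM
  have hM1 : 1 ≤ M := le_trans (le_max_right _ _) hM
  obtain ⟨hZ1, hZ2⟩ := hZ M hM1 a₀ ha₀
  obtain ⟨-, -, -, -, hadd, hsmul, hone⟩ := hBx Q D a₀ M
  set P : Finset ℕ := (Finset.range (⌊C0 * (M : ℝ) ^ 2⌋₊ + 1)).filter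
    (fun p => p.Prime ∧ K < p ∧ M < p ^ 4) with hP
  have hx0 : ∀ a n, 0 ≤ ∑ p ∈ (tZ κ k a (Q * n + 1)).primeFactors.filter (fun p => K < p ∧ M < p ^ 4),
      ‖1 - g p‖ ^ 2 := fun a n => Finset.sum_nonneg fun p _ => by positivity
  -- the mean square
  have h1 : (BR Q D a₀ M fun a n =>
      ∑ p ∈ (tZ κ k a (Q * n + 1)).primeFactors.filter (fun p => K < p ∧ M < p ^ 4), ‖1 - g p‖ ^ 2) ≤
      η ^ 2 := by
    have h2 : (BR Q D a₀ M fun a n =>
        ∑ p ∈ (tZ κ k a (Q * n + 1)).primeFactors.filter (fun p => K < p ∧ M < p ^ 4), ‖1 - g p‖ ^ 2) ≤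
        BR Q D a₀ M fun a n => ∑ p ∈ P, ‖1 - g p‖ ^ 2 * (if p ∣ tZ κ k a (Q * n + 1) then 1 else 0) := by
      refine br_mono fun u hu u' hu' v hv v' hv' => ?_
      have h3 := hZ2 u hu u' hu' v hv v' hv'
      set z := tZ κ k (Q * (v + v') + a₀) (Q * (u + u') + 1) with hz
      have h4 : (z.primeFactors.filter (fun p => K < p ∧ M < p ^ 4)) ⊆ P.filter (fun p => p ∣ z) := by
        intro p hp
        rw [Finset.mem_filter, Nat.mem_primeFactors] at hp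
        obtain ⟨⟨b1, b2, b3⟩, b4⟩ := hp
        rw [Finset.mem_filter, hP, Finset.mem_filter, Finset.mem_range]
        refine ⟨⟨?_, b1, b4⟩, b2⟩
        have b5 : p ≤ z := Nat.le_of_dvd (Nat.pos_of_ne_zero b3) b2
        have b6 : z ≤ ⌊C0 * (M : ℝ) ^ 2⌋₊ := Nat.le_floor h3
        omega
      refine (Finset.sum_le_sum_of_subset_of_nonneg h4 fun p _ _ => by positivity).trans
        (le_of_eq ?_)
      rw [Finset.sum_filter]
      refine Finset.sum_congr rfl fun p _ => ?_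
      by_cases hpz : p ∣ z
      · rw [if_pos hpz, if_pos hpz, mul_one]
      · rw [if_neg hpz, if_neg hpz, mul_zero]
    refine h2.trans ?_
    rw [br_sum hBx Q D a₀ M P fun p a n => ‖1 - g p‖ ^ 2 * (if p ∣ tZ κ k a (Q * n + 1) then 1 else 0)]
    have h5 : ∑ p ∈ P, BR Q D a₀ M (fun a n => ‖1 - g p‖ ^ 2 * (if p ∣ tZ κ k a (Q * n + 1) then 1 else 0)) ≤
        ∑ p ∈ P, C0 * (‖1 - g p‖ ^ 2 / (p : ℝ)) := by
      refine Finset.sum_le_sum fun p hp => ?_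
      rw [hP, Finset.mem_filter] at hp
      rw [hsmul]
      have h6 := hZ1 p hp.2.1
      calc _ ≤ ‖1 - g p‖ ^ 2 * (C0 / p) := mul_le_mul_of_nonneg_left h6 (by positivity)
        _ = C0 * (‖1 - g p‖ ^ 2 / (p : ℝ)) := by ring
    refine h5.trans ?_
    rw [← Finset.mul_sum]
    have h7 : ∑ p ∈ P, ‖1 - g p‖ ^ 2 / (p : ℝ) ≤ tl g L := by
      refine hsum L P fun p hp => ?_
      rw [hP, Finset.mem_filter] at hp
      refine ⟨hp.2.1, ?_⟩
      by_contra h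
      have : p ^ 4 ≤ L ^ 4 := Nat.pow_le_pow_left (not_lt.mp h) 4
      have := hp.2.2.2
      omega
    calc C0 * ∑ p ∈ P, ‖1 - g p‖ ^ 2 / (p : ℝ) ≤ C0 * (η ^ 2 / C0) :=
          mul_le_mul_of_nonneg_left (h7.trans hL.le) hC0.le
      _ = η ^ 2 := by field_simp
  have h8 : (BR Q D a₀ M fun a n => Real.sqrt
      (∑ p ∈ (tZ κ k a (Q * n + 1)).primeFactors.filter (fun p => K < p ∧ M < p ^ 4), ‖1 - g p‖ ^ 2)) ≤
      BR Q D a₀ M fun a n => (1 / (2 * η)) *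
        (∑ p ∈ (tZ κ k a (Q * n + 1)).primeFactors.filter (fun p => K < p ∧ M < p ^ 4), ‖1 - g p‖ ^ 2) +
        η / 2 * 1 :=
    br_mono fun u _ u' _ v _ v' _ => sqrt_le (hx0 _ _) hη
  refine h8.trans ?_
  rw [hadd (fun a n => (1 / (2 * η)) *
        (∑ p ∈ (tZ κ k a (Q * n + 1)).primeFactors.filter (fun p => K < p ∧ M < p ^ 4), ‖1 - g p‖ ^ 2))
      (fun _ _ => η / 2 * 1),
    hsmul (1 / (2 * η)) (fun a n =>
      ∑ p ∈ (tZ κ k a (Q * n + 1)).primeFactors.filter (fun p => K < p ∧ M < p ^ 4), ‖1 - g p‖ ^ 2),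
    hsmul (η / 2) (fun _ _ => 1), (hone hD hM1).2]
  calc _ ≤ (1 / (2 * η)) * η ^ 2 + η / 2 * 1 :=
        add_le_add (mul_le_mul_of_nonneg_left h1 (by positivity)) le_rfl
    _ = η := by field_simp; ring

end Pool.Agent.F0f91f8.HD
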