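import Pool.Agent.Work.MP_0f91f8_co.HD.StmtsD2

/-!
# Relative collision theorem, module D', part 1: concentration for `n = Q (u + u') + 1` and the
pointwise approximations of the three correlations (captain helper7)

The average over `n = Q (u + u') + 1`, `a = Q (v + v') + a₀` is written
`Bx Q D a₀ M (fun a s => G a (Q * s + 1))`, resp. `BR Q D a₀ M (fun a s => F a (Q * s + 1))`.
Every statement is the analogue of a landed statement of `HD/StmtsD.lean`, `HD/StmtsD2.lean`;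
START FROM A COPY OF THE LANDED FILE named in the docstring.
Item `X`: statement `StX`, file `RC/I_X.lean`, theorem `pr_X`.
-/

set_option autoImplicit false

namespace Pool.Agent.F0f91f8.HD

open Filter Topology ComplexConjugate
open scoped BigOperators

/-- the parameters `κ`, `k` of the family with `Q = w!` -/
structure Par (w K κ k : ℕ) : Prop where
  κ0 : 0 < κ
  k0 : 0 < k
  κd : w.factorial ∣ κ
  κp : ∀ p : ℕ, p.Prime → p ∣ κ → p ≤ w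
  kc : Nat.Coprime k w.factorial
  kp : ∀ p : ℕ, p.Prime → p ∣ k → p ≤ K
  ks : ∀ p : ℕ, p.Prime → w < p → p ≤ K → p ^ 2 ∣ k

/-! ## 1. Residues -/

/-- [RRs] (EASY) an affine change of variable with invertible slope permutes the residues:
`S' = {r < m : (Q r + c) % m ∈ S}`; `r ↦ (Q r + c) % m` is injective on `range m` (`Q` is invertible
modulo `m`), so it is a bijection of `range m`, and `|S'| = |S|`. -/
def StRRs : Prop := ∀ (m Q c : ℕ) (S : Finset ℕ), 0 < m → Nat.Coprime Q m → S ⊆ Finset.range m →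
  ∃ T : Finset ℕ, T ⊆ Finset.range m ∧ T.card = S.card ∧ ∀ s : ℕ, (Q * s + c) % m ∈ S ↔ s % m ∈ T

/-- [RRt] (EASY) the sets of `StDRt` in the variable `s`, `n = Q s + 1`, `p ∤ Q`: from `StDRt` and
`StRRs` (for `p²`: intersect `S` with `range (p²)` first). (hRt : StDRt) (hRs : StRRs) -/
def StRRt : Prop := ∀ p κ k a Q : ℕ, p.Prime → p ≠ 2 → ¬ p ∣ κ * k * a → ¬ p ∣ Q →
  (∃ S : Finset ℕ, S ⊆ Finset.range p ∧ (S.card = if p % 4 = 1 then 2 else 0) ∧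
    ∀ s : ℕ, p ∣ tZ κ k a (Q * s + 1) ↔ s % p ∈ S) ∧
  ∃ S : Finset ℕ, S.card ≤ 2 ∧ ∀ s : ℕ, p ^ 2 ∣ tZ κ k a (Q * s + 1) → s % p ^ 2 ∈ S

/-! ## 2. Concentration -/

/-- [RLm] (EASY, copy of `HD/I_DLm.lean`, parts 2 and 3) concentration on `n`, `k a + κ n`,
`k a + 2 κ n`, `n = Q (u + u') + 1`: fix `u', v, v'` and use `StDLin` in `u` with
`(α, β) = (Q, Q u' + 1)`, `(κ Q, k a + κ (Q u' + 1))`, `(2 κ Q, k a + 2 κ (Q u' + 1))`, `β ≤ C0 M`.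
(hLin : StDLin) -/
def StRLm : Prop := ∃ C : ℝ, 0 < C ∧ ∀ g : ℕ → ℂ, G1 g → ∀ K κ k Q D : ℕ, 2 ≤ K → 0 < κ → 0 < k →
  0 < Q → 0 < D → (∀ p : ℕ, p.Prime → p ∣ κ * Q → p ≤ K) → ∀ η : ℝ, 0 < η → ∃ M0 : ℕ,
    ∀ M ≥ M0, ∀ a₀ ≤ Q,
    (BR Q D a₀ M fun _ s => ‖gT g K (Q * s + 1) - cL g K M‖) ≤ C * er g K + η ∧
    (BR Q D a₀ M fun a s => ‖gT g K (k * a + κ * (Q * s + 1)) - cL g K M‖) ≤ C * er g K + η ∧
    (BR Q D a₀ M fun a s => ‖gT g K (k * a + 2 * (κ * (Q * s + 1))) - cL g K M‖) ≤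
      C * er g K + η

/-- [RZp] (EASY) as `StDZp`. From `StDZp` with `M' = (Q + 1) M` in place of `M`:
`(u, u') ↦ (Q u, Q u' + 1)` maps `[1, M]²` injectively into `[1, M']²` and `n = Q u + (Q u' + 1)`,
`[1, D M] ⊆ [1, D M']`, so the new average of a nonnegative function is at most `(Q + 1)^4` times the old
one for `M'`; the size of `z` in the same way. (hZp : StDZp) -/
def StRZp : Prop := ∀ Q D κ k : ℕ, 0 < Q → 0 < D → 0 < κ → 0 < k → ∃ C0 : ℝ, 0 < C0 ∧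
  ∀ M : ℕ, 1 ≤ M → ∀ a₀ ≤ Q,
    (∀ p : ℕ, p.Prime →
      (BR Q D a₀ M fun a s => if p ∣ tZ κ k a (Q * s + 1) then 1 else 0) ≤ C0 / p) ∧
    ∀ u ∈ Finset.Icc 1 M, ∀ u' ∈ Finset.Icc 1 M, ∀ v ∈ Finset.Icc 1 (D * M),
      ∀ v' ∈ Finset.Icc 1 (D * M),
      ((tZ κ k (Q * (v + v') + a₀) (Q * (u + u') + 1) : ℕ) : ℝ) ≤ C0 * (M : ℝ) ^ 2

/-- [RGc] (EASY, compare `HD/I_DGc.lean`) common prime factors `p > K` of `a` and `n = Q (u + u') + 1`; all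
prime factors of `Q` are `≤ K`. For fixed `u', v'`: at most `M/p + 1` values of `u`, `D M/p + 1` values of
`v`; `p ≤ n ≤ 3 Q M`. For `p ≤ M` the probability is `≤ 4/p²`, total `≤ 4/K`; for `M < p ≤ 3 Q M` it is
`≤ 4/M²`, total `≤ 12 Q/M`. -/
def StRGc : Prop := ∀ K Q D : ℕ, 1 ≤ K → 0 < Q → 0 < D → (∀ p : ℕ, p.Prime → p ∣ Q → p ≤ K) →
  ∀ η : ℝ, 0 < η → ∃ M0 : ℕ, ∀ M ≥ M0, ∀ a₀ ≤ Q,
    (BR Q D a₀ M fun a s => iGc K a (Q * s + 1)) ≤ 10 / (K : ℝ) + η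

/-- [RPq] (EASY, compare `HD/I_DPq.lean`) squares of primes `p > w` dividing `n = Q (u + u') + 1`, all prime
factors of `Q` are `≤ w`: for fixed `u'` at most `M/p² + 1` values of `u` (`StRRs` or directly), and
`p² ≤ n ≤ 3 Q M`, so at most `√(3 Q M)` primes; `∑_(p > w) 1/p² ≤ 1/w`, `√(3 Q M)/M → 0`. -/
def StRPq : Prop := ∀ w Q : ℕ, 1 ≤ w → 0 < Q → (∀ p : ℕ, p.Prime → p ∣ Q → p ≤ w) →
  ∀ η : ℝ, 0 < η → ∃ M0 : ℕ, ∀ M ≥ M0, ∀ D a₀ : ℕ, 0 < D →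
  (BR Q D a₀ M fun _ s => iPq w (Q * s + 1)) ≤ 1 / (w : ℝ) + η

/-- [RQ1] (EASY, copy of `HD/I_DQ1.lean` with `StRRt` in place of `StDRt`) (hRt : StRRt)
(hCt : StDCt) -/
def StRQ1 : Prop := ∀ K κ k Q D : ℕ, 2 ≤ K → 0 < κ → 0 < k → 0 < Q → 0 < D →
  (∀ p : ℕ, p.Prime → p ∣ κ * k * Q → p ≤ K) → ∀ η : ℝ, 0 < η → ∃ M0 : ℕ, ∀ M ≥ M0, ∀ a₀ ≤ Q,
    (BR Q D a₀ M fun a s =>
      if ∃ p ∈ pr4 K M, ¬ p ∣ a ∧ p ^ 2 ∣ tZ κ k a (Q * s + 1) then 1 else 0) ≤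
      2 / (K : ℝ) + η

/-- [RQ2] (EASY, copy of `HD/I_DQ2.lean` with `StRRt` in place of `StDRt`) (hRt : StRRt)
(hCt : StDCt) (hTl : StDTl) -/
def StRQ2 : Prop := ∀ g : ℕ → ℂ, G1 g → ∀ K κ k Q D : ℕ, 2 ≤ K → 0 < κ → 0 < k → 0 < Q → 0 < D →
  (∀ p : ℕ, p.Prime → p ∣ κ * k * Q → p ≤ K) → ∀ η : ℝ, 0 < η → ∃ M0 : ℕ, ∀ M ≥ M0, ∀ a₀ ≤ Q,
    (BR Q D a₀ M fun a s =>
      ∑ p ∈ (pr4 K M).filter (fun p => ¬ p ∣ a ∧ p ∣ tZ κ k a (Q * s + 1)), ‖g p - 1‖ ^ 2) ≤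
      2 * tl g K + η

/-- [RQ3] (EASY-MEDIUM, copy of `HD/I_DQ3.lean` with `StRRt` in place of `StDRt`)
(hTk hEx hTl hCt hRt hGc hBx; `hGc : StDGc`, only its second clause, which does not involve `n`) -/
def StRQ3 : Prop := ∀ g : ℕ → ℂ, G1 g → ∀ K κ k Q D : ℕ, 2 ≤ K → 0 < κ → 0 < k → 0 < Q → 0 < D →
  (∀ p : ℕ, p.Prime → p ∣ κ * k * Q → p ≤ K) → ∀ η : ℝ, 0 < η → ∃ M0 : ℕ, ∀ M ≥ M0, ∀ a₀ ≤ Q,
    (BR Q D a₀ M fun a s =>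
      ‖Complex.exp (∑ p ∈ (pr4 K M).filter (fun p => ¬ p ∣ a ∧ p ∣ tZ κ k a (Q * s + 1)),
        (g p - 1)) - cQ g K M‖) ≤ Real.sqrt (4 * tl g K + η) + 4 / (K : ℝ) + η

/-- [RQ4] (EASY, copy of `HD/I_DQ4.lean` with `StRZp` in place of `StDZp`) (hZp : StRZp)
(hTl : StDTl) (hBx : StDBx) -/
def StRQ4 : Prop := ∀ g : ℕ → ℂ, G1 g → ∀ K κ k Q D : ℕ, 2 ≤ K → 0 < κ → 0 < k → 0 < Q → 0 < D →
  ∀ η : ℝ, 0 < η → ∃ M0 : ℕ, ∀ M ≥ M0, ∀ a₀ ≤ Q,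
    (BR Q D a₀ M fun a s => Real.sqrt
      (∑ p ∈ (tZ κ k a (Q * s + 1)).primeFactors.filter (fun p => K < p ∧ M < p ^ 4),
        ‖1 - g p‖ ^ 2)) ≤ η

/-- [RQd] (EASY, copy of `HD/I_DQd.lean`) concentration on the norm form.
(hBx hLs hTl : landed) (hZp : StRZp) (hGc : StRGc) (hQ1 : StRQ1) (hQ2 : StRQ2) (hQ3 : StRQ3)
(hQ4 : StRQ4) -/
def StRQd : Prop := ∃ C : ℝ, 0 < C ∧ ∀ g : ℕ → ℂ, G1 g → ∀ K κ k Q D : ℕ, 2 ≤ K → 0 < κ → 0 < k →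
  0 < Q → 0 < D → (∀ p : ℕ, p.Prime → p ∣ κ * k * Q → p ≤ K) → ∀ η : ℝ, 0 < η → ∃ M0 : ℕ,
    ∀ M ≥ M0, ∀ a₀ ≤ Q,
    (BR Q D a₀ M fun a s => ‖gT g K (tZ κ k a (Q * s + 1)) - cQ g K M‖) ≤ C * er g K + η

/-! ## 3. Sizes, congruences, valuations (parameters `Par w K κ k`) -/

/-- [RSz] (EASY, compare `HD/I_DSz.lean`) sizes, `K² κ ≤ D`: `K κ n ≤ K κ (2 Q M + 1) ≤ 3 K κ Q M` and
`2 k a ≥ 2 Q v`, so the event is contained in `2 v < 3 K κ M`, of probability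
`≤ 3 K κ/(2 D) ≤ 2/K`. -/
def StRSz : Prop := ∀ Q D K κ k M a₀ : ℕ, 0 < Q → 1 ≤ K → 1 ≤ M → 0 < κ → 0 < k →
  K ^ 2 * κ ≤ D →
  (BR Q D a₀ M fun a s => if K * (κ * (Q * s + 1)) > 2 * (k * a) then 1 else 0) ≤ 2 / (K : ℝ)

/-- [RMd] (EASY, compare `HD/I_DMd.lean`) congruences and small primes: `k a ≡ 1` mod `w!`, `w! ∣ κ`. No
prime `≤ w` divides a number `≡ 1` mod `w!`; a prime dividing `a` divides `k a`. -/
def StRMd : Prop := ∀ w K κ k : ℕ, Par w K κ k → ∀ a n : ℕ,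
  (k * a) % w.factorial = 1 % w.factorial →
  (k * a + κ * n) % w.factorial = 1 % w.factorial ∧
  (k * a + 2 * (κ * n)) % w.factorial = 1 % w.factorial ∧
  tZ κ k a n % w.factorial = 1 % w.factorial ∧
  ∀ p : ℕ, p.Prime → p ≤ w → ¬ p ∣ a ∧ ¬ p ∣ k ∧ ¬ p ∣ (k * a + κ * n) ∧
    ¬ p ∣ (k * a + 2 * (κ * n)) ∧ ¬ p ∣ tZ κ k a n

/-- [RSp] (EASY, copy of `HD/I_DSp.lean`) the primes in `(w, K]` divide `k` to the power `≥ 2` and do not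
divide `2 κ` (`2 ≤ w`). If `p² ∤ n` for the primes `p > w` then `v_p(k a + κ n) = v_p(k a + 2 κ n) = v_p(n)`,
`v_p(z) = 2 v_p(n)`. -/
def StRSp : Prop := ∀ g : ℕ → ℂ, CM g → ∀ w K κ k : ℕ, 2 ≤ w → w ≤ K → Par w K κ k →
  ∀ a n : ℕ, 0 < a → 0 < n → (∀ p : ℕ, p.Prime → w < p → ¬ p ^ 2 ∣ n) →
  gP g w K (k * a + κ * n) = gP g w K n ∧
  gP g w K (k * a + 2 * (κ * n)) = gP g w K n ∧
  gP g w K (tZ κ k a n) = gP g w K n ^ 2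

/-! ## 4. Pointwise approximations of the three correlations -/

/-- [RPX] (EASY, copy of `HD/I_DPX.lean`) pointwise approximation of `f(x) conj f(y)`:
`x = 2 κ n m`, `y = k a m'`, `f(x) = f(2 κ) f(n) f(m)`, all of `m`, `k a`, `m'` are `≡ 1` mod `q`.
(hFc : StDFc) (hMd : StRMd) (hSp : StRSp) (hAr : StDAr) (hTl : StDTl) -/
def StRPX : Prop := ∀ (f g : ℕ → ℂ) (t : ℝ) (q : ℕ), Dec f g t q →
  ∀ w K κ k : ℕ, 2 ≤ w → w ≤ K → q ∣ w.factorial → Par w K κ k →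
  ∀ M a n : ℕ, (k * a) % w.factorial = 1 % w.factorial → 0 < a → 0 < n →
    ‖f (tX κ k a n) * conj (f (tY κ k a n)) -
      f (2 * κ) * (conj (g k) * (cL g K M * conj (cL g K M)) *
        (f n * conj (((k * a : ℕ) : ℂ) ^ (t * Complex.I)) * conj (g a)))‖ ≤
      10 * |t| / K + 2 * (if K * (κ * n) > 2 * (k * a) then 1 else 0) + 2 * iPq w n +
      ‖gT g K (k * a + κ * n) - cL g K M‖ + ‖gT g K (k * a + 2 * (κ * n)) - cL g K M‖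

/-- [RPZ] (EASY, copy of `HD/I_DPZ.lean`) pointwise approximation of `f(z) conj f(x)`.
(hFc : StDFc) (hMd : StRMd) (hSp : StRSp) (hAr : StDAr) (hTl : StDTl) -/
def StRPZ : Prop := ∀ (f g : ℕ → ℂ) (t : ℝ) (q : ℕ), Dec f g t q →
  ∀ w K κ k : ℕ, 2 ≤ w → w ≤ K → q ∣ w.factorial → Par w K κ k →
  ∀ M a n : ℕ, (k * a) % w.factorial = 1 % w.factorial → 0 < a → 0 < n →
    ‖f (tZ κ k a n) * conj (f (tX κ k a n)) -
      conj (f (2 * κ)) * ((cQ g K M * conj (cL g K M)) *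
        (conj (f n) * ((k * a : ℕ) : ℂ) ^ (t * Complex.I) * gP g w K n))‖ ≤
      10 * |t| / K + 2 * (if K * (κ * n) > 2 * (k * a) then 1 else 0) + 2 * iPq w n +
      ‖gT g K (tZ κ k a n) - cQ g K M‖ + ‖gT g K (k * a + κ * n) - cL g K M‖

/-- [RPY] (EASY, copy of `HD/I_DPY.lean`) pointwise approximation of `f(y) conj f(z)` and the second
clause (`g p = 1` for the primes `p > w`).
(hFc : StDFc) (hMd : StRMd) (hSp : StRSp) (hAr : StDAr) (hTl : StDTl) -/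
def StRPY : Prop := ∀ (f g : ℕ → ℂ) (t : ℝ) (q : ℕ), Dec f g t q →
  ∀ w K κ k : ℕ, 2 ≤ w → w ≤ K → q ∣ w.factorial → Par w K κ k →
  ∀ M a n : ℕ, (k * a) % w.factorial = 1 % w.factorial → 0 < a → 0 < n →
    ‖f (tY κ k a n) * conj (f (tZ κ k a n)) -
      g k * (cL g K M * conj (cQ g K M) * (g a * conj (gP g w K n)))‖ ≤
      10 * |t| / K + 2 * (if K * (κ * n) > 2 * (k * a) then 1 else 0) + 2 * iPq w n +
      ‖gT g K (k * a + 2 * (κ * n)) - cL g K M‖ + ‖gT g K (tZ κ k a n) - cQ g K M‖ ∧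
    ((∀ p : ℕ, p.Prime → w < p → g p = 1) →
      1 - 10 * |t| / K - 2 * (if K * (κ * n) > 2 * (k * a) then 1 else 0) ≤
      (f (tY κ k a n) * conj (f (tZ κ k a n))).re)

end Pool.Agent.F0f91f8.HD
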