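import Pool.Agent.Work.MP_0f91f8_co.HD.Defs

/-!
# Relative collision theorem: definitions and interface statements (block RC, MP_0f91f8_co)

The family of Pythagorean triples of `HD/Defs.lean` with two changes: `2κ` is an `E`-th power and
`n ≡ 1` modulo `w!`. So `x`, `y`, `z` have the value `1` under every completely multiplicative
function into a group of exponent dividing `E` which is `1` on the integers `≡ 1 mod q`, `q ∣ w!`.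

* B′ `AperR`     : the three pair correlations tend to 0 for aperiodic `f` (helper75, helper68);
* D′ `PWRPret`   : the lower bound for pretentious `f` (helper7, helper83);
* assembly `pr_PWR : AperR → PretStmt → PWRPret → PWRStmt` (as `HD/PWA.lean`);
* E′ `ProcK`, `RelFin` : Bochner, Fatou, counting in the cell, from `PWRStmt` (helper79, helper40).
-/

set_option autoImplicit false

namespace Pool.Agent.F0f91f8.RC

open Filter Topology ComplexConjugate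
open Pool.Agent.F0f91f8.HD
open scoped BigOperators

/-- the average of `G a n` over `n = Q (u + u') + 1`, `a = Q (v + v') + a₀`, `1 ≤ u, u' ≤ M`,
`1 ≤ v, v' ≤ D M` -/
noncomputable def BxR (Q D a₀ M : ℕ) (G : ℕ → ℕ → ℂ) : ℂ := Bx Q D a₀ M fun a n => G a (Q * n + 1)

/-- MODULE B′ -/
def AperR : Prop :=
  ∀ f : ℕ → ℂ, CM f → Aper f → ∀ κ k Q D a₀ : ℕ, 0 < κ → 0 < k → 0 < Q → 0 < D →
    Tendsto (fun M : ℕ => BxR Q D a₀ M fun a n => f (tX κ k a n) * conj (f (tY κ k a n)))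
      atTop (𝓝 0) ∧
    Tendsto (fun M : ℕ => BxR Q D a₀ M fun a n => f (tY κ k a n) * conj (f (tZ κ k a n)))
      atTop (𝓝 0) ∧
    Tendsto (fun M : ℕ => BxR Q D a₀ M fun a n => f (tZ κ k a n) * conj (f (tX κ k a n)))
      atTop (𝓝 0)

/-- `κ = (2 w! k')^E / 2`, `k' = kp w K e` -/
def kR (E w K : ℕ) (e : Fin (w + 1) → Fin K) : ℕ := 2 ^ (E - 1) * (w.factorial * kp w K e) ^ E

/-- side ratio; `K² κ ≤ DR E w K` for `κ = kR E w K e` -/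
def DR (E w K : ℕ) : ℕ := K ^ 2 * (2 ^ (E - 1) * (w.factorial * w.factorial ^ K) ^ E)

/-- the average of `Φ(x,y,z)` over the family with parameters `E w K M` -/
noncomputable def AvR (E w K M : ℕ) (Φ : ℕ → ℕ → ℕ → ℂ) : ℂ :=
  (∑ e : Fin (w + 1) → Fin K, ∑ e' : Fin (K + 1) → Fin K,
    BxR w.factorial (DR E w K) (inv0 w.factorial (kk w K e')) M fun a n =>
      Φ (tX (kR E w K e) (kk w K e') a n) (tY (kR E w K e) (kk w K e') a n)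
        (tZ (kR E w K e) (kk w K e') a n)) /
    ((K : ℂ) ^ (w + 1) * (K : ℂ) ^ (K + 1))

/-- the pointwise lower bound in nested limits -/
def PWR (E : ℕ) (f : ℕ → ℂ) : Prop :=
  ∀ ε : ℝ, 0 < ε → ∃ w₀ : ℕ, ∀ w ≥ w₀, ∃ K₀ : ℕ, ∀ K ≥ K₀, ∃ M₀ : ℕ, ∀ M ≥ M₀,
    -ε ≤ (AvR E w K M (pc f)).re

/-- MODULE D′ -/
def PWRPret : Prop := ∀ E : ℕ, 0 < E → ∀ f : ℕ → ℂ, CM f → Pret f → PWR E f

def PWRStmt : Prop := ∀ E : ℕ, 0 < E → ∀ f : ℕ → ℂ, CM f → PWR E f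

/-- the members of the family -/
def Mem (E w x y z : ℕ) : Prop :=
  ∃ κ k a n : ℕ, 0 < κ ∧ 0 < k ∧ 0 < a ∧ 0 < n ∧ (∃ c, 2 * κ = c ^ E) ∧ w.factorial ∣ κ ∧
    k * a ≡ 1 [MOD w.factorial] ∧ n ≡ 1 [MOD w.factorial] ∧
    x = tX κ k a n ∧ y = tY κ k a n ∧ z = tZ κ k a n

/-- MODULE E′, process form -/
def ProcK : Prop :=
  ∀ (Ω : Type) (μ : Set Ω → ℝ), (∀ A, 0 ≤ μ A) → μ Set.univ = 1 →
    (∀ A B, Disjoint A B → μ (A ∪ B) = μ A + μ B) →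
    ∀ (r : ℕ) (X : Fin r → ℕ → Set Ω) (C : ℕ → Set Ω) (d : Fin r → ℝ) (β : ℝ) (E w₁ : ℕ), 0 < E →
      (∀ n i j, i ≠ j → Disjoint (X i n) (X j n)) →
      (∀ i n, X i n ⊆ C n) →
      (∀ i n, 0 < n → μ (X i n) = d i) → (∀ n, 0 < n → μ (C n) = β) →
      (∀ i k a b, 0 < k → 0 < a → 0 < b → μ (X i (k * a) ∩ X i (k * b)) = μ (X i a ∩ X i b)) →
      (∀ i k a b, 0 < k → 0 < a → 0 < b → μ (X i (k * a) ∩ C (k * b)) = μ (X i a ∩ C b)) →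
      (∀ k a b, 0 < k → 0 < a → 0 < b → μ (C (k * a) ∩ C (k * b)) = μ (C a ∩ C b)) →
      (∀ w x y z, w₁ ≤ w → Mem E w x y z →
        μ (C x ∩ C y) = β ∧ μ (C x ∩ C z) = β ∧ μ (C y ∩ C z) = β) →
      (∀ i x y z, 0 < x → 0 < y → x ^ 2 + y ^ 2 = z ^ 2 → X i x ∩ X i y ∩ X i z = ∅) →
      ∑ i, d i ^ 2 ≤ β ^ 2 / 3 ∧ ∑ i, d i ^ 2 ≤ β * (∑ i, d i) / 2

/-- the final form: `B = F ∩ φ⁻¹(S)` -/
def RelFin : Prop :=
  ∀ (q E : ℕ), 0 < q → 0 < E → ∀ ε : ℝ, 0 < ε → ∃ (k : ℕ) (δ : ℝ), 0 < δ ∧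
    ∀ (H : Type) (_ : CommGroup H), (∀ h : H, h ^ E = 1) → ∀ φ : ℕ+ →* H,
    (∀ n : ℕ+, (n : ℕ) ≡ 1 [MOD q] → φ n = 1) → ∀ S : Set H,
    ∀ F B : Finset ℕ+, F.Nonempty → (∀ n, n ∈ B ↔ n ∈ F ∧ φ n ∈ S) →
    (∀ p : ℕ+, (p : ℕ) ≤ k → (p : ℕ).Prime →
      (1 - δ) * (F.card : ℝ) ≤ ((F.filter fun n => p * n ∈ F).card : ℝ)) →
    ∀ (r : ℕ) (A : Fin r → Finset ℕ+), (∀ i, A i ⊆ B) → (∀ i j, i ≠ j → Disjoint (A i) (A j)) →
    min ((B.card : ℝ) ^ 2 / 3) ((B.card : ℝ) * (∑ i, ((A i).card : ℝ)) / 2) +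
        ε * (F.card : ℝ) ^ 2 ≤ ∑ i, ((A i).card : ℝ) ^ 2 →
    ∃ i, ∃ x ∈ A i, ∃ y ∈ A i, ∃ z ∈ A i, x ^ 2 + y ^ 2 = z ^ 2

end Pool.Agent.F0f91f8.RC
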