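import Pool.Agent.Work.MP_0f91f8_co.HD.DefsD
import Pool.Agent.Work.MP_0f91f8_co.RC.Defs

/-!
# Relative collision theorem, module D′, part 2: definitions (helper83)

Correlations and main terms for the family with `κ = kR E w K e`, `k = kk w K e'`, `n ≡ 1 mod w!`.
-/

set_option autoImplicit false

namespace Pool.Agent.F0f91f8.RC

open Filter Topology ComplexConjugate
open Pool.Agent.F0f91f8.HD
open scoped BigOperators

/-- the average with the parameters of the family -/
noncomputable def BFR (E w K : ℕ) (e' : Fin (K + 1) → Fin K) (M : ℕ) (G : ℕ → ℕ → ℂ) : ℂ :=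
  BxR w.factorial (DR E w K) (inv0 w.factorial (kk w K e')) M G

/-- the correlation `x, y` -/
noncomputable def CXR (f : ℕ → ℂ) (E w K : ℕ) (e : Fin (w + 1) → Fin K)
    (e' : Fin (K + 1) → Fin K) (M : ℕ) : ℂ :=
  BFR E w K e' M fun a n => f (tX (kR E w K e) (kk w K e') a n) *
    conj (f (tY (kR E w K e) (kk w K e') a n))

/-- the correlation `y, z` -/
noncomputable def CYR (f : ℕ → ℂ) (E w K : ℕ) (e : Fin (w + 1) → Fin K)
    (e' : Fin (K + 1) → Fin K) (M : ℕ) : ℂ :=
  BFR E w K e' M fun a n => f (tY (kR E w K e) (kk w K e') a n) *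
    conj (f (tZ (kR E w K e) (kk w K e') a n))

/-- the correlation `z, x` -/
noncomputable def CZR (f : ℕ → ℂ) (E w K : ℕ) (e : Fin (w + 1) → Fin K)
    (e' : Fin (K + 1) → Fin K) (M : ℕ) : ℂ :=
  BFR E w K e' M fun a n => f (tZ (kR E w K e) (kk w K e') a n) *
    conj (f (tX (kR E w K e) (kk w K e') a n))

/-- main term of `CXR` without the factor `f (kp w K e) ^ E` (it does not depend on `e`) -/
noncomputable def UXR (f g : ℕ → ℂ) (t : ℝ) (E w K : ℕ) (e' : Fin (K + 1) → Fin K) (M : ℕ) : ℂ :=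
  f (2 * w.factorial) ^ E * conj (g (kk w K e')) * (cL g K M * conj (cL g K M)) *
    BFR E w K e' M fun a n => f n * conj (((kk w K e' * a : ℕ) : ℂ) ^ (t * Complex.I)) * conj (g a)

/-- main term of `CZR` without the factor `conj (f (kp w K e)) ^ E` -/
noncomputable def UZR (f g : ℕ → ℂ) (t : ℝ) (E w K : ℕ) (e' : Fin (K + 1) → Fin K) (M : ℕ) : ℂ :=
  conj (f (2 * w.factorial)) ^ E * (cQ g K M * conj (cL g K M)) *
    BFR E w K e' M fun a n => conj (f n) * ((kk w K e' * a : ℕ) : ℂ) ^ (t * Complex.I) * gP g w K n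

/-- main term of `CYR` without the factor `g (kk w K e')` -/
noncomputable def VYR (g : ℕ → ℂ) (E w K : ℕ) (e' : Fin (K + 1) → Fin K) (M : ℕ) : ℂ :=
  cL g K M * conj (cQ g K M) * BFR E w K e' M fun a n => g a * conj (gP g w K n)

/-- the average over `n = Q (u + u') + 1` alone -/
noncomputable def ENR (Q M : ℕ) (F : ℕ → ℂ) : ℂ := EN M fun n => F (Q * n + 1)

end Pool.Agent.F0f91f8.RC
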