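import Mathlib
import Pool.Agent.Work.MP_0f91f8_co.RC.StmtsE

/-!
# MP_0f91f8_co, relative collision theorem, item AsK: the general inequality for kernels
-/

set_option autoImplicit false

open Filter Topology MeasureTheory

noncomputable section

namespace Pool.Agent.F0f91f8.RC

open Pool.Agent.F0f91f8.HD
open Pool.Agent.Work.MP_0f91f8_co.EF
open Pool.Agent.Work.MP_0f91f8_co.COL

namespace IAsK

/-- the mean with shifted parameters -/
def G (E w₁ w K M : ℕ) (g : GG) : ℝ :=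
  (AvR E (w + w₁ + 1) (K + 1) (M + 1) (pc (ev g))).re

theorem intble (μ : Measure GG) [IsFiniteMeasure μ] (f : GG → ℝ) (C : ℝ) (hf : Measurable f)
    (hC : ∀ g, |f g| ≤ C) : Integrable f μ :=
  Integrable.of_bound hf.aestronglyMeasurable C (Eventually.of_forall fun g => by
    rw [Real.norm_eq_abs]; exact hC g)

end IAsK

open IAsK in
/-- item AsK -/
theorem pr_AsK (hEv : S_Ev) (hLi : StLiK) (hFat : S_Fat) (hAv : StAvK) (hPW : PWRStmt) :
    GenK := by
  intro E w₁ r φ hE hφ ε hε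
  choose μ hμ using fun i => hLi (φ i) (hφ i)
  have : ∀ i, IsFiniteMeasure (μ i) := fun i => (hμ i).fin
  have hGm : ∀ w K M, Measurable (G E w₁ w K M) := fun w K M =>
    (hAv E (w + w₁ + 1) (K + 1) (M + 1) (by omega) (by omega) (by omega)
      (by omega)).1.measurable
  have hGb : ∀ w K M g, |G E w₁ w K M g| ≤ 3 := fun w K M g =>
    (hAv E (w + w₁ + 1) (K + 1) (M + 1) (by omega) (by omega) (by omega) (by omega)).2.1 g
  have : IsFiniteMeasure (∑ i, μ i) := ⟨by
    rw [Measure.finsetSum_apply]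
    exact ENNReal.sum_lt_top.2 fun i _ => measure_lt_top _ _⟩
  obtain ⟨w, K, M, hF⟩ := hFat (∑ i, μ i) (fun w K M g => G E w₁ w K M g) 3
    (fun w K M => hGm w K M)
    (fun w K M g => hGb w K M g)
    (by
      intro g δ hδ
      have hcm : CM (ev g) := ⟨(hEv.1 g).zero, (hEv.1 g).mul, (hEv.1 g).norm⟩
      obtain ⟨w0, hw⟩ := hPW E hE (ev g) hcm δ hδ
      filter_upwards [eventually_ge_atTop w0] with w hw0
      obtain ⟨K0, hK⟩ := hw (w + w₁ + 1) (by omega)
      filter_upwards [eventually_ge_atTop K0] with K hK0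
      obtain ⟨M0, hM⟩ := hK (K + 1) (by omega)
      filter_upwards [eventually_ge_atTop M0] with M hM0
      exact hM (M + 1) (by omega))
    ε hε
  obtain ⟨x, y, z, hmem, hle⟩ :=
    (hAv E (w + w₁ + 1) (K + 1) (M + 1) (by omega) (by omega) (by omega) (by omega)).2.2 r φ μ
      (fun i a b => (hφ i).symm a b) hμ
  refine ⟨w + w₁ + 1, x, y, z, by omega, hmem, ?_⟩
  have h1 : ∫ g, G E w₁ w K M g ∂(∑ i, μ i) = ∑ i, ∫ g, G E w₁ w K M g ∂(μ i) := by
    have h5 : ∀ i ∈ Finset.univ, Integrable (fun g => G E w₁ w K M g) (μ i) := fun i _ =>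
      intble (μ i) (G E w₁ w K M) 3 (hGm w K M) (hGb w K M)
    rw [integral_finsetSum_measure h5]
  have h3 : -ε ≤ ∫ g, G E w₁ w K M g ∂(∑ i, μ i) := hF
  rw [h1] at h3
  have h4 : ∑ i, ∫ g, G E w₁ w K M g ∂(μ i) ≤ ∑ i, (φ i x y + φ i x z + φ i y z) := hle
  linarith

end Pool.Agent.F0f91f8.RC
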