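import Pool.Agent.Work.MP_0f91f8_co.RC.StmtsE
import Pool.Agent.Work.MP_0f91f8_co.EF.AvF

/-!
# Relative collision theorem, module E′, item AvK: the mean over the family of triples
-/

set_option autoImplicit false

open Filter Topology MeasureTheory

noncomputable section

namespace Pool.Agent.F0f91f8.RC

open Pool.Agent.F0f91f8.HD
open Pool.Agent.Work.MP_0f91f8_co.EF

namespace IAvK

lemma DR_pos (E w K : ℕ) (hK : 1 ≤ K) : 0 < DR E w K := by
  unfold DR
  have := Nat.factorial_pos w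
  positivity

/-- the index type of the family -/
abbrev IX (w K : ℕ) : Type :=
  ((Fin (w + 1) → Fin K) × (Fin (K + 1) → Fin K)) × ((ℕ × ℕ) × (ℕ × ℕ))

/-- the index set of the family -/
def SX (E w K M : ℕ) : Finset (IX w K) := (Finset.univ ×ˢ Finset.univ) ×ˢ
    ((Finset.Icc 1 M ×ˢ Finset.Icc 1 M) ×ˢ
      (Finset.Icc 1 (DR E w K * M) ×ˢ Finset.Icc 1 (DR E w K * M)))

lemma mem_SX (E w K M : ℕ) (i : IX w K) : i ∈ SX E w K M ↔
    ((1 ≤ i.2.1.1 ∧ i.2.1.1 ≤ M) ∧ (1 ≤ i.2.1.2 ∧ i.2.1.2 ≤ M)) ∧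
    ((1 ≤ i.2.2.1 ∧ i.2.2.1 ≤ DR E w K * M) ∧ (1 ≤ i.2.2.2 ∧ i.2.2.2 ≤ DR E w K * M)) := by
  simp only [SX, Finset.mem_product, Finset.mem_univ, Finset.mem_Icc, true_and]

lemma card_SX (E w K M : ℕ) : (SX E w K M).card =
    (K ^ (w + 1) * K ^ (K + 1)) * ((M * M) * ((DR E w K * M) * (DR E w K * M))) := by
  simp only [SX, Finset.card_product, Nat.card_Icc, Nat.add_sub_cancel, Finset.card_univ,
    Fintype.card_pi, Fintype.card_fin, Finset.prod_const]

/-- the parameters of a triple of the family -/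
def kX (w K : ℕ) (i : IX w K) : ℕ := kk w K i.1.2

/-- the parameters of a triple of the family -/
def aX (w K : ℕ) (i : IX w K) : ℕ :=
  w.factorial * (i.2.2.1 + i.2.2.2) + inv0 w.factorial (kk w K i.1.2)

/-- the parameters of a triple of the family -/
def nX (w K : ℕ) (i : IX w K) : ℕ := w.factorial * (i.2.1.1 + i.2.1.2) + 1

lemma coprime_kk (w K : ℕ) (e : Fin (K + 1) → Fin K) : Nat.Coprime (kk w K e) w.factorial := by
  unfold kk
  refine Nat.Coprime.prod_left fun p _ => ?_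
  split_ifs with h
  · refine Nat.Coprime.pow_left _ ?_
    rw [Nat.Prime.coprime_iff_not_dvd h.1, h.1.dvd_factorial]
    omega
  · exact Nat.coprime_one_left _

lemma mul_inv0 (Q k : ℕ) (hQ : 0 < Q) (h : Nat.Coprime k Q) : k * inv0 Q k ≡ 1 [MOD Q] := by
  have : NeZero Q := ⟨hQ.ne'⟩
  rw [← ZMod.natCast_eq_natCast_iff]
  unfold inv0
  rw [Nat.cast_mul, ZMod.natCast_zmod_val, ZMod.coe_mul_inv_eq_one k h, Nat.cast_one]

/-- the mean is the mean over a finite family of members -/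
lemma rep (E w K M : ℕ) (hE : 1 ≤ E) (hK : 1 ≤ K) (hM : 1 ≤ M) :
    ∃ (ι : Type) (S : Finset ι) (X Y Z : ι → ℕ), S.Nonempty ∧
      (∀ i ∈ S, 0 < X i ∧ 0 < Y i ∧ 0 < Z i ∧ Mem E w (X i) (Y i) (Z i)) ∧
      ∀ Φ : ℕ → ℕ → ℕ → ℂ, AvR E w K M Φ = (∑ i ∈ S, Φ (X i) (Y i) (Z i)) / (S.card : ℂ) := by
  classical
  have hD0 : 0 < DR E w K := DR_pos E w K hK
  have hQ0 : 0 < w.factorial := Nat.factorial_pos w
  refine ⟨IX w K, SX E w K M, fun i => tX (kR E w K i.1.1) (kX w K i) (aX w K i) (nX w K i),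
    fun i => tY (kR E w K i.1.1) (kX w K i) (aX w K i) (nX w K i),
    fun i => tZ (kR E w K i.1.1) (kX w K i) (aX w K i) (nX w K i), ?_, ?_, ?_⟩
  · have hDM : 1 ≤ DR E w K * M := Nat.succ_le_of_lt (Nat.mul_pos hD0 hM)
    refine ⟨((fun _ => ⟨0, hK⟩, fun _ => ⟨0, hK⟩), ((1, 1), (1, 1))), ?_⟩
    rw [mem_SX]
    exact ⟨⟨⟨le_rfl, hM⟩, le_rfl, hM⟩, ⟨le_rfl, hDM⟩, le_rfl, hDM⟩
  · intro i hi
    rw [mem_SX] at hi
    obtain ⟨⟨⟨h1, -⟩, -⟩, ⟨h2, -⟩, -⟩ := hi
    have hkp : 0 < kp w K i.1.1 := XAvF.kp_pos w K _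
    have hκ : 0 < kR E w K i.1.1 := by
      unfold kR
      positivity
    have hk : 0 < kX w K i := XAvF.kk_pos w K _
    have hn : 0 < nX w K i := by unfold nX; omega
    have ha : 0 < aX w K i := by
      have : 0 < w.factorial * (i.2.2.1 + i.2.2.2) := Nat.mul_pos hQ0 (by omega)
      unfold aX; omega
    refine ⟨?_, ?_, ?_, ?_⟩
    · show 0 < tX (kR E w K i.1.1) (kX w K i) (aX w K i) (nX w K i)
      unfold tX
      positivity
    · show 0 < tY (kR E w K i.1.1) (kX w K i) (aX w K i) (nX w K i)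
      unfold tY
      positivity
    · show 0 < tZ (kR E w K i.1.1) (kX w K i) (aX w K i) (nX w K i)
      unfold tZ
      positivity
    · refine ⟨kR E w K i.1.1, kX w K i, aX w K i, nX w K i, hκ, hk, ha, hn,
        ⟨2 * (w.factorial * kp w K i.1.1), ?_⟩, ?_, ?_, ?_, rfl, rfl, rfl⟩
      · unfold kR
        obtain ⟨E', rfl⟩ : ∃ E', E = E' + 1 := ⟨E - 1, by omega⟩
        rw [Nat.add_sub_cancel]
        ring
      · unfold kR
        refine Dvd.dvd.mul_left ?_ _
        exact (Dvd.intro _ rfl).trans (dvd_pow_self _ (by omega))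
      · have e1 := mul_inv0 w.factorial (kk w K i.1.2) hQ0 (coprime_kk w K i.1.2)
        have e2 : kX w K i * aX w K i = w.factorial * (kk w K i.1.2 * (i.2.2.1 + i.2.2.2)) +
            kk w K i.1.2 * inv0 w.factorial (kk w K i.1.2) := by
          unfold kX aX
          ring
        rw [e2]
        have e3 : w.factorial * (kk w K i.1.2 * (i.2.2.1 + i.2.2.2)) ≡ 0 [MOD w.factorial] :=
          (Nat.modEq_zero_iff_dvd).2 (Dvd.intro _ rfl)
        simpa using e3.add e1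
      · have e3 : w.factorial * (i.2.1.1 + i.2.1.2) ≡ 0 [MOD w.factorial] :=
          (Nat.modEq_zero_iff_dvd).2 (Dvd.intro _ rfl)
        have e4 := e3.add_right 1
        rw [zero_add] at e4
        exact e4
  · intro Φ
    have hcard : ((SX E w K M).card : ℂ) = ((M : ℂ) ^ 2 * ((DR E w K * M : ℕ) : ℂ) ^ 2) *
        ((K : ℂ) ^ (w + 1) * (K : ℂ) ^ (K + 1)) := by
      rw [card_SX]
      push_cast
      ring
    rw [hcard, ← div_div]
    unfold AvR
    congr 1
    simp only [SX, Finset.sum_product, Finset.sum_div]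
    refine Finset.sum_congr rfl fun e _ => Finset.sum_congr rfl fun e' _ => ?_
    unfold BxR Pool.Agent.F0f91f8.HD.Bx
    simp only [Finset.sum_div]
    rfl

end IAvK

open IAvK in
theorem pr_AvK (h1 : S_Ev) : StAvK := by
  classical
  intro E w K M hE _ hK hM
  obtain ⟨ι, S, X, Y, Z, hS, hT, hAv⟩ := rep E w K M hE hK hM
  have hc : (0 : ℝ) < (S.card : ℝ) := by exact_mod_cast hS.card_pos
  refine ⟨?_, ?_, ?_⟩
  · simp only [hAv]
    refine Complex.continuous_re.comp (Continuous.div_const ?_ _)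
    exact continuous_finsetSum _ fun i _ => XAvF.pc_cont h1 _ _ _
  · intro g
    rw [hAv]
    refine (Complex.abs_re_le_norm _).trans ?_
    rw [norm_div, Complex.norm_natCast, div_le_iff₀ hc]
    refine (norm_sum_le _ _).trans ?_
    calc ∑ i ∈ S, ‖pc (ev g) (X i) (Y i) (Z i)‖ ≤ ∑ _i ∈ S, (3 : ℝ) :=
          Finset.sum_le_sum fun i _ => XAvF.pc_le h1 g _ _ _
      _ = 3 * S.card := by rw [Finset.sum_const, nsmul_eq_mul, mul_comm]
  · intro r φ μ hs hsp
    have key : ∑ i, ∫ g, (AvR E w K M (pc (ev g))).re ∂(μ i)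
        = (∑ s ∈ S, ∑ i, (φ i (X s) (Y s) + φ i (X s) (Z s) + φ i (Y s) (Z s))) / S.card := by
      rw [Finset.sum_comm, Finset.sum_div]
      refine Finset.sum_congr rfl fun i _ => ?_
      have := (hsp i).fin
      simp only [hAv]
      have e1 : ∀ g : GG, ((∑ s ∈ S, pc (ev g) (X s) (Y s) (Z s)) /
          (S.card : ℂ)).re = (∑ s ∈ S, (pc (ev g) (X s) (Y s) (Z s)).re) /
            (S.card : ℝ) := by
        intro g
        have : (S.card : ℂ) = ((S.card : ℝ) : ℂ) := by push_cast; rfl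
        rw [this, Complex.div_ofReal_re, Complex.re_sum]
      simp only [e1]
      have hre : ∀ s : ι, Integrable (fun g : GG =>
          (pc (ev g) (X s) (Y s) (Z s)).re) (μ i) :=
        fun s => (XAvF.pc_int h1 (μ i) (X s) (Y s) (Z s)).re
      rw [integral_div, integral_finsetSum _ fun s _ => hre s]
      congr 1
      refine Finset.sum_congr rfl fun s hs' => ?_
      obtain ⟨hx, hy, hz, -⟩ := hT s hs'
      have e2 := XAvF.int_pc h1 (φ i) (μ i) (hs i) (hsp i) (X s) (Y s) (Z s) hx hy hz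
      have e3 := integral_re (XAvF.pc_int h1 (μ i) (X s) (Y s) (Z s))
      rw [e2] at e3
      simpa using e3
    rw [key]
    obtain ⟨s, hsS, hle⟩ := Finset.exists_le_of_sum_le (s := S)
      (f := fun _ => (∑ s ∈ S, ∑ i, (φ i (X s) (Y s) + φ i (X s) (Z s) + φ i (Y s) (Z s))) / S.card)
      (g := fun s => ∑ i, (φ i (X s) (Y s) + φ i (X s) (Z s) + φ i (Y s) (Z s))) hS (by
        rw [Finset.sum_const, nsmul_eq_mul, mul_div_cancel₀ _ hc.ne'])
    obtain ⟨-, -, -, hp⟩ := hT s hsS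
    exact ⟨X s, Y s, Z s, hp, hle⟩

end Pool.Agent.F0f91f8.RC
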