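import Mathlib
import Pool.Agent.Work.MP_0f91f8_co.RC.StmtsE
import Pool.Agent.Work.MP_0f91f8_co.EF.Big

/-!
# Block RC, item BigR: reduction to boundedly many classes in a cell
-/

set_option autoImplicit false

namespace Pool.Agent.F0f91f8.RC

open Pool.Agent.Work.MP_0f91f8_co.EF.XBig

theorem pr_BigR : StBigR := by
  intro ε hε F B hne hBF r A hA hd hyp
  have hFpos : (0 : ℝ) < (F.card : ℝ) := by exact_mod_cast Finset.card_pos.2 hne
  have htot : ∑ i, ((A i).card : ℝ) ≤ (F.card : ℝ) := by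
    have h1 : (Finset.univ.biUnion A).card = ∑ i, (A i).card :=
      Finset.card_biUnion fun i _ j _ hij => hd i j hij
    have h2 : (Finset.univ.biUnion A).card ≤ F.card :=
      Finset.card_le_card (Finset.biUnion_subset.2 fun i _ => (hA i).trans hBF)
    rw [h1] at h2
    exact_mod_cast h2
  let I : Finset (Fin r) := Finset.univ.filter fun i => ε / 2 * (F.card : ℝ) ≤ ((A i).card : ℝ)
  have hIc : I.card ≤ ⌈2 / ε⌉₊ := by
    have h1 : (I.card : ℝ) * (ε / 2 * (F.card : ℝ)) ≤ ∑ i ∈ I, ((A i).card : ℝ) := by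
      rw [← nsmul_eq_mul]
      exact Finset.card_nsmul_le_sum _ _ _ fun i hi => (Finset.mem_filter.1 hi).2
    have h2 : ∑ i ∈ I, ((A i).card : ℝ) ≤ ∑ i, ((A i).card : ℝ) :=
      Finset.sum_le_sum_of_subset_of_nonneg (Finset.subset_univ _) fun i _ _ => Nat.cast_nonneg _
    have h3 : (I.card : ℝ) * (ε / 2) ≤ 1 := by
      have h4 : (I.card : ℝ) * (ε / 2) * (F.card : ℝ) ≤ 1 * (F.card : ℝ) := by
        calc (I.card : ℝ) * (ε / 2) * (F.card : ℝ) = (I.card : ℝ) * (ε / 2 * (F.card : ℝ)) := by ring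
          _ ≤ (F.card : ℝ) := le_trans h1 (le_trans h2 htot)
          _ = 1 * (F.card : ℝ) := by ring
      exact le_of_mul_le_mul_right h4 hFpos
    have h5 : (I.card : ℝ) ≤ 2 / ε := by
      rw [le_div_iff₀ hε]
      linarith
    exact_mod_cast le_trans h5 (Nat.le_ceil _)
  have hsq : ∑ i, ((A i).card : ℝ) ^ 2 ≤
      ∑ i ∈ I, ((A i).card : ℝ) ^ 2 + ε / 2 * (F.card : ℝ) ^ 2 := by
    have h0 := Finset.sum_filter_add_sum_filter_not (Finset.univ : Finset (Fin r))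
      (fun i => ε / 2 * (F.card : ℝ) ≤ ((A i).card : ℝ)) fun i => ((A i).card : ℝ) ^ 2
    have h1 : ∑ i ∈ Finset.univ.filter (fun i => ¬ ε / 2 * (F.card : ℝ) ≤ ((A i).card : ℝ)),
        ((A i).card : ℝ) ^ 2 ≤
        ∑ i ∈ Finset.univ.filter (fun i => ¬ ε / 2 * (F.card : ℝ) ≤ ((A i).card : ℝ)),
        ε / 2 * (F.card : ℝ) * ((A i).card : ℝ) := by
      refine Finset.sum_le_sum fun i hi => ?_
      have h2 := not_le.1 (Finset.mem_filter.1 hi).2
      rw [sq]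
      exact mul_le_mul_of_nonneg_right h2.le (Nat.cast_nonneg _)
    have h3 : ∑ i ∈ Finset.univ.filter (fun i => ¬ ε / 2 * (F.card : ℝ) ≤ ((A i).card : ℝ)),
        ε / 2 * (F.card : ℝ) * ((A i).card : ℝ) ≤ ∑ i, ε / 2 * (F.card : ℝ) * ((A i).card : ℝ) :=
      Finset.sum_le_sum_of_subset_of_nonneg (Finset.subset_univ _) fun i _ _ => by positivity
    have h6 : ∑ i, ε / 2 * (F.card : ℝ) * ((A i).card : ℝ) =
        ε / 2 * (F.card : ℝ) * ∑ i, ((A i).card : ℝ) := (Finset.mul_sum _ _ _).symm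
    have h4 : ε / 2 * (F.card : ℝ) * ∑ i, ((A i).card : ℝ) ≤
        ε / 2 * (F.card : ℝ) * (F.card : ℝ) :=
      mul_le_mul_of_nonneg_left htot (by positivity)
    have h5 : ε / 2 * (F.card : ℝ) * (F.card : ℝ) = ε / 2 * (F.card : ℝ) ^ 2 := by ring
    change ∑ i, ((A i).card : ℝ) ^ 2 ≤ ∑ i ∈ Finset.univ.filter
      (fun i => ε / 2 * (F.card : ℝ) ≤ ((A i).card : ℝ)), ((A i).card : ℝ) ^ 2 + _
    linarith
  have hs2 := lst_sum I A ⌈2 / ε⌉₊ hIc (fun S => (S.card : ℝ) ^ 2) (by simp)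
  have hs1 := lst_sum I A ⌈2 / ε⌉₊ hIc (fun S => (S.card : ℝ)) (by simp)
  have hle : ∑ i ∈ I, ((A i).card : ℝ) ≤ ∑ i, ((A i).card : ℝ) :=
    Finset.sum_le_sum_of_subset_of_nonneg (Finset.subset_univ _) fun i _ _ => by positivity
  refine ⟨lst I A ⌈2 / ε⌉₊, ?_, ?_, ?_, ?_⟩
  · intro j
    rcases lst_cases I A _ j with h | ⟨h, e⟩
    · rw [h]; exact Finset.empty_subset _
    · rw [e]; exact hA _
  · intro i j hij
    rcases lst_cases I A _ i with h | ⟨h, e⟩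
    · rw [h]; exact Finset.disjoint_empty_left _
    rcases lst_cases I A _ j with h' | ⟨h', e'⟩
    · rw [h']; exact Finset.disjoint_empty_right _
    rw [e, e']
    refine hd _ _ fun hh => hij ?_
    have h1 := I.equivFin.symm.injective (Subtype.ext hh)
    exact Fin.ext (Fin.mk.inj_iff.1 h1)
  · rw [hs1, hs2]
    have hm : min ((B.card : ℝ) ^ 2 / 3) ((B.card : ℝ) * (∑ i ∈ I, ((A i).card : ℝ)) / 2) ≤
        min ((B.card : ℝ) ^ 2 / 3) ((B.card : ℝ) * (∑ i, ((A i).card : ℝ)) / 2) := by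
      refine min_le_min le_rfl ?_
      have := mul_le_mul_of_nonneg_left hle (Nat.cast_nonneg (α := ℝ) B.card)
      linarith
    have e5 : ε * (F.card : ℝ) ^ 2 = ε / 2 * (F.card : ℝ) ^ 2 + ε / 2 * (F.card : ℝ) ^ 2 := by ring
    linarith
  · intro j
    rcases lst_cases I A _ j with h | ⟨h, e⟩
    · exact Or.inl h
    · exact Or.inr ⟨_, e⟩

end Pool.Agent.F0f91f8.RC
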