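import Mathlib
import Pool.Agent.Work.MP_0f91f8_co.RC.StmtsE
import Pool.Agent.Work.MP_0f91f8_co.EF.Cou

/-!
# Relative collision theorem, item CouK: counting in the cells
-/

set_option autoImplicit false

open Filter Topology MeasureTheory

namespace Pool.Agent.F0f91f8.RC

open Pool.Agent.F0f91f8.HD
open Pool.Agent.Work.MP_0f91f8_co.EF

namespace ICouK

/-- the union of two sets -/
theorem fa_union {Ω : Type} {μ : Set Ω → ℝ} (h : IsFA μ) (P Q : Set Ω) :
    μ (P ∪ Q) + μ (P ∩ Q) = μ P + μ Q := by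
  have h1 := h.union P (Q \ P) Set.disjoint_sdiff_right
  rw [Set.union_sdiff_self] at h1
  have h2 := h.union (P ∩ Q) (Q \ P) (by
    rw [Set.disjoint_left]
    exact fun x hx hx' => hx'.2 hx.1)
  have h3 : P ∩ Q ∪ Q \ P = Q := by
    ext x
    simp only [Set.mem_union, Set.mem_inter_iff, Set.mem_sdiff]
    tauto
  rw [h3] at h2
  linarith

end ICouK

theorem pr_CouK : StCouK := by
  intro Ω μ h r X Y Z P Q β hX hY hZ hXYZ hP hQ hPb hQb hPQ
  refine ⟨?_, (Cou_pf Ω μ h r X Y Z hX hY hZ hXYZ).2⟩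
  have hU : ∀ i, μ (X i ∩ Y i) + μ (X i ∩ Z i) + μ (Y i ∩ Z i) =
      μ (X i ∩ Y i ∪ X i ∩ Z i ∪ Y i ∩ Z i) := by
    intro i
    have hno : ∀ x, x ∈ X i → x ∈ Y i → x ∈ Z i → False := by
      intro x h1 h2 h3
      have : x ∈ X i ∩ Y i ∩ Z i := ⟨⟨h1, h2⟩, h3⟩
      rw [hXYZ i] at this
      exact this
    have d1 : Disjoint (X i ∩ Y i) (X i ∩ Z i) := by
      rw [Set.disjoint_left]
      exact fun x hx hx' => hno x hx.1 hx.2 hx'.2
    have d2 : Disjoint (X i ∩ Y i ∪ X i ∩ Z i) (Y i ∩ Z i) := by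
      rw [Set.disjoint_left]
      rintro x (hx | hx) hx'
      · exact hno x hx.1 hx.2 hx'.2
      · exact hno x hx.1 hx'.1 hx.2
    rw [h.union _ _ d2, h.union _ _ d1]
  have hb : μ (P ∪ Q) = β := by
    have := ICouK.fa_union h P Q
    rw [hPb, hQb, hPQ] at this
    linarith
  rw [Finset.sum_congr rfl fun i _ => hU i,
    XCou.fa_sum h Finset.univ (fun i => X i ∩ Y i ∪ X i ∩ Z i ∪ Y i ∩ Z i)]
  · rw [← hb]
    refine XCou.fa_mono h ?_
    intro x hx
    simp only [Set.mem_iUnion] at hx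
    obtain ⟨i, -, (hx | hx) | hx⟩ := hx
    · exact Or.inl (hP i hx.1)
    · exact Or.inl (hP i hx.1)
    · exact Or.inr (hQ i hx.1)
  · intro i j hij
    have dX := Set.disjoint_left.1 (hX i j hij)
    have dY := Set.disjoint_left.1 (hY i j hij)
    have dZ := Set.disjoint_left.1 (hZ i j hij)
    rw [Set.disjoint_left]
    rintro x ((hx | hx) | hx) ((hx' | hx') | hx')
    · exact dX hx.1 hx'.1
    · exact dX hx.1 hx'.1
    · exact dY hx.2 hx'.1
    · exact dX hx.1 hx'.1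
    · exact dX hx.1 hx'.1
    · exact dZ hx.2 hx'.2
    · exact dY hx.1 hx'.2
    · exact dZ hx.2 hx'.2
    · exact dY hx.1 hx'.1

end Pool.Agent.F0f91f8.RC
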