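import Pool.Agent.Work.MP_0f91f8_co.RC.StmtsE

/-!
# MP_0f91f8_co, relative collision theorem, module E', item DeK: the approximate spectral measures
-/

set_option autoImplicit false

open Filter Topology MeasureTheory

noncomputable section

namespace Pool.Agent.F0f91f8.RC

open Pool.Agent.F0f91f8.HD
open Pool.Agent.Work.MP_0f91f8_co.EF

namespace IDeK

/-- the kernel sum -/
def Ps (φ : ℕ → ℕ → ℝ) (F : Finset ℕ) (g : GG) : ℂ :=
  ∑ k ∈ F, ∑ l ∈ F, (starRingEnd ℂ) (ev g k) * ev g l * ((φ k l : ℝ) : ℂ)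

/-- the density -/
def P (φ : ℕ → ℕ → ℝ) (F : Finset ℕ) (g : GG) : ℝ := (Ps φ F g).re / (F.card : ℝ)

theorem Ps_real {φ : ℕ → ℕ → ℝ} (h : IsPK φ) (F : Finset ℕ) (hF : ∀ a ∈ F, 0 < a)
    (g : GG) : 0 ≤ (Ps φ F g).re ∧ Ps φ F g = (((Ps φ F g).re : ℝ) : ℂ) := by
  obtain ⟨s, hs, he⟩ := h.psd F hF (fun k => (starRingEnd ℂ) (ev g k))
  have h1 : Ps φ F g = (s : ℂ) := by
    rw [← he]
    unfold Ps
    refine Finset.sum_congr rfl fun k _ => Finset.sum_congr rfl fun l _ => ?_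
    rw [Complex.conj_conj]
  rw [h1, Complex.ofReal_re]
  exact ⟨hs, rfl⟩

theorem P_nonneg {φ : ℕ → ℕ → ℝ} (h : IsPK φ) (F : Finset ℕ) (hF : ∀ a ∈ F, 0 < a)
    (g : GG) : 0 ≤ P φ F g :=
  div_nonneg (Ps_real h F hF g).1 (Nat.cast_nonneg _)

theorem P_eq {φ : ℕ → ℕ → ℝ} (h : IsPK φ) (F : Finset ℕ) (hF : ∀ a ∈ F, 0 < a)
    (g : GG) : ((P φ F g : ℝ) : ℂ) = Ps φ F g / (F.card : ℂ) := by
  unfold P
  rw [Complex.ofReal_div, ← (Ps_real h F hF g).2]
  simp

theorem Ps_cont (hEv : S_Ev) (φ : ℕ → ℕ → ℝ) (F : Finset ℕ) : Continuous (Ps φ F) := by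
  unfold Ps
  refine continuous_finset_sum _ fun k _ => continuous_finset_sum _ fun l _ => ?_
  exact ((Complex.continuous_conj.comp (hEv.2.1 k)).mul (hEv.2.1 l)).mul continuous_const

theorem P_cont (hEv : S_Ev) (φ : ℕ → ℕ → ℝ) (F : Finset ℕ) : Continuous (P φ F) := by
  unfold P
  exact (Complex.continuous_re.comp (Ps_cont hEv φ F)).div_const _

theorem ev_int (hEv : S_Ev) (ν : Measure GG) [IsProbabilityMeasure ν] (a b : ℕ) (ha : 0 < a)
    (hb : 0 < b) : Integrable (fun g : GG => ev g a * (starRingEnd ℂ) (ev g b)) ν := by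
  refine (integrable_const (1 : ℝ)).mono'
    ((hEv.2.1 a).mul (Complex.continuous_conj.comp (hEv.2.1 b))).aestronglyMeasurable
    (Eventually.of_forall fun g => ?_)
  rw [norm_mul, RCLike.norm_conj, (hEv.1 g).norm a ha, (hEv.1 g).norm b hb, one_mul]

/-- the integral against the density -/
theorem key (hEv : S_Ev) {φ : ℕ → ℕ → ℝ} (h : IsPK φ) (F : Finset ℕ)
    (hF : ∀ a ∈ F, 0 < a) (ν : Measure GG) [IsProbabilityMeasure ν]
    (hν : ∀ a b : ℕ, 0 < a → 0 < b →
      ∫ g, ev g a * (starRingEnd ℂ) (ev g b) ∂ν = if a = b then 1 else 0) (a b : ℕ) (ha : 0 < a)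
    (hb : 0 < b) :
    ∫ g, ((P φ F g : ℝ) : ℂ) * (ev g a * (starRingEnd ℂ) (ev g b)) ∂ν =
      ((φ a b * ct F a b : ℝ) : ℂ) := by
  have h1 : ∀ g : GG, ((P φ F g : ℝ) : ℂ) * (ev g a * (starRingEnd ℂ) (ev g b)) =
      (F.card : ℂ)⁻¹ * ∑ k ∈ F, ∑ l ∈ F, ((φ k l : ℝ) : ℂ) *
        (ev g (a * l) * (starRingEnd ℂ) (ev g (b * k))) := by
    intro g
    rw [P_eq h F hF, Ps, div_eq_inv_mul, mul_assoc, Finset.sum_mul]
    congr 1
    refine Finset.sum_congr rfl fun k _ => ?_
    rw [Finset.sum_mul]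
    refine Finset.sum_congr rfl fun l _ => ?_
    rw [(hEv.1 g).mul, (hEv.1 g).mul, map_mul]
    ring
  simp only [h1]
  rw [integral_const_mul]
  have h2 : ∫ g, ∑ k ∈ F, ∑ l ∈ F, ((φ k l : ℝ) : ℂ) *
      (ev g (a * l) * (starRingEnd ℂ) (ev g (b * k))) ∂ν =
      ∑ k ∈ F, ∑ l ∈ F, ((φ k l : ℝ) : ℂ) * (if a * l = b * k then 1 else 0) := by
    rw [integral_finset_sum _ fun k hk => integrable_finset_sum _ fun l hl =>
      (ev_int hEv ν _ _ (Nat.mul_pos ha (hF l hl)) (Nat.mul_pos hb (hF k hk))).const_mul _]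
    refine Finset.sum_congr rfl fun k hk => ?_
    rw [integral_finset_sum _ fun l hl =>
      (ev_int hEv ν _ _ (Nat.mul_pos ha (hF l hl)) (Nat.mul_pos hb (hF k hk))).const_mul _]
    refine Finset.sum_congr rfl fun l hl => ?_
    rw [integral_const_mul, hν _ _ (Nat.mul_pos ha (hF l hl)) (Nat.mul_pos hb (hF k hk))]
  rw [h2]
  have h3 : ∑ k ∈ F, ∑ l ∈ F, ((φ k l : ℝ) : ℂ) * (if a * l = b * k then 1 else 0) =
      ((φ a b : ℝ) : ℂ) * (((F ×ˢ F).filter fun k : ℕ × ℕ => a * k.2 = b * k.1).card : ℂ) := by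
    rw [← Finset.sum_product' F F (fun k l => ((φ k l : ℝ) : ℂ) *
      (if a * l = b * k then (1 : ℂ) else 0)), Finset.card_filter]
    push_cast
    rw [Finset.mul_sum]
    refine Finset.sum_congr rfl fun p hp => ?_
    rw [Finset.mem_product] at hp
    by_cases he : a * p.2 = b * p.1
    · rw [if_pos he]
      have hk := hF p.1 hp.1
      have hl := hF p.2 hp.2
      have e1 : φ p.1 p.2 = φ a b := by
        calc φ p.1 p.2 = φ (b * p.1) (b * p.2) := (h.hom b _ _ hb hk hl).symm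
          _ = φ (a * p.2) (b * p.2) := by rw [he]
          _ = φ (p.2 * a) (p.2 * b) := by rw [mul_comm a, mul_comm b]
          _ = φ a b := h.hom _ _ _ hl ha hb
      rw [e1]
    · rw [if_neg he, mul_zero, mul_zero]
  rw [h3]
  unfold ct
  push_cast
  ring

end IDeK

/-- **DeK.** -/
theorem pr_DeK (hEv : S_Ev) (hHaar : S_Haar) : StDeK := by
  intro φ h F hne hF
  obtain ⟨ν, hprob, hν⟩ := hHaar
  have hPc := IDeK.P_cont hEv φ F
  have hPm : Measurable (fun g : GG => ENNReal.ofReal (IDeK.P φ F g)) :=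
    hPc.measurable.ennreal_ofReal
  have hFc : (0 : ℝ) < F.card := by exact_mod_cast hne.card_pos
  have hone : ∀ g : GG, ev g 1 = 1 := fun g => (hEv.1 g).one
  refine ⟨ν.withDensity fun g => ENNReal.ofReal (IDeK.P φ F g), ?_, fun a b ha hb => ?_⟩
  · rw [withDensity_apply _ MeasurableSet.univ, Measure.restrict_univ]
    have hPint : Integrable (IDeK.P φ F) ν := by
      obtain ⟨C, hC⟩ := isCompact_univ.exists_bound_of_continuousOn hPc.continuousOn
      exact (integrable_const C).mono' hPc.aestronglyMeasurable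
        (Eventually.of_forall fun g => hC g (Set.mem_univ g))
    rw [← ofReal_integral_eq_lintegral_ofReal hPint
      (Eventually.of_forall fun g => IDeK.P_nonneg h F hF g)]
    have hk := IDeK.key hEv h F hF ν hν 1 1 one_pos one_pos
    have hct : ct F 1 1 = 1 := by
      unfold ct
      have hcard : ((F ×ˢ F).filter fun k : ℕ × ℕ => 1 * k.2 = 1 * k.1).card = F.card := by
        have : ((F ×ˢ F).filter fun k : ℕ × ℕ => 1 * k.2 = 1 * k.1) =
            F.image (fun k => (k, k)) := by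
          ext ⟨k, l⟩
          simp only [Finset.mem_filter, Finset.mem_product, Finset.mem_image, one_mul,
            Prod.mk.injEq]
          constructor
          · rintro ⟨⟨h1, h2⟩, h3⟩
            exact ⟨k, h1, rfl, h3.symm⟩
          · rintro ⟨m, hm, rfl, rfl⟩
            exact ⟨⟨hm, hm⟩, rfl⟩
        rw [this, Finset.card_image_of_injective]
        intro x y hxy
        exact (Prod.mk.inj hxy).1
      rw [hcard, div_self hFc.ne']
    simp only [hone, map_one, mul_one, hct] at hk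
    rw [integral_complex_ofReal] at hk
    have hk2 : ∫ g, IDeK.P φ F g ∂ν = φ 1 1 := by exact_mod_cast hk
    rw [hk2, ← ENNReal.ofReal_one]
    exact ENNReal.ofReal_le_ofReal h.le
  · rw [integral_withDensity_eq_integral_toReal_smul hPm
      (Eventually.of_forall fun g => ENNReal.ofReal_lt_top)]
    rw [← IDeK.key hEv h F hF ν hν a b ha hb]
    refine integral_congr_ae (Eventually.of_forall fun g => ?_)
    simp only
    rw [ENNReal.toReal_ofReal (IDeK.P_nonneg h F hF g), Complex.real_smul]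

end Pool.Agent.F0f91f8.RC
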