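import Pool.Agent.Work.MP_0f91f8_co.RC.StmtsE
import Pool.Agent.Work.MP_0f91f8_co.EF.FinF

set_option autoImplicit false

open Filter Topology MeasureTheory

noncomputable section

namespace Pool.Agent.F0f91f8.RC

open Pool.Agent.F0f91f8.HD
open Pool.Agent.Work.MP_0f91f8_co.EF

namespace IFinN

theorem toPNat_mul (m n : ℕ) (hm : 0 < m) (hn : 0 < n) :
    (m * n).toPNat' = m.toPNat' * n.toPNat' := by
  apply PNat.coe_injective
  rw [PNat.mul_coe, Nat.toPNat'_coe, Nat.toPNat'_coe, Nat.toPNat'_coe, if_pos hm, if_pos hn,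
    if_pos (Nat.mul_pos hm hn)]

/-- equality in the cell -/
theorem cell {H : Type} [CommGroup H] (φ : ℕ+ →* H) (S : Set H) (F B : Finset ℕ)
    (hF : ∀ n ∈ F, 0 < n) (hB : ∀ n, n ∈ B ↔ n ∈ F ∧ φ n.toPNat' ∈ S) (x y : ℕ)
    (hx : 0 < x) (hy : 0 < y) (hφx : φ x.toPNat' = 1) (hφy : φ y.toPNat' = 1) (s : ℕ)
    (h1 : x * s ∈ F) (h2 : y * s ∈ F) : x * s ∈ B ↔ y * s ∈ B := by
  have hs : 0 < s := Nat.pos_of_mul_pos_left (hF _ h1)
  rw [hB, hB, toPNat_mul x s hx hs, toPNat_mul y s hy hs, map_mul, map_mul, hφx, hφy, one_mul]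
  exact ⟨fun h => ⟨h2, h.2⟩, fun h => ⟨h1, h.2⟩⟩

end IFinN

theorem pr_FinN : StFinN := by
  intro hMeP hCel hBig hUl hP q E hq hE ε hε
  by_contra hcon
  have hcon' : ∀ j : ℕ, ∃ F B : Finset ℕ, F.Nonempty ∧ (∀ n ∈ F, 0 < n) ∧ B ⊆ F ∧
      (∀ w x y z, q ≤ w → Mem E w x y z → ∀ s,
        (x * s ∈ F → y * s ∈ F → (x * s ∈ B ↔ y * s ∈ B)) ∧
        (x * s ∈ F → z * s ∈ F → (x * s ∈ B ↔ z * s ∈ B)) ∧
        (y * s ∈ F → z * s ∈ F → (y * s ∈ B ↔ z * s ∈ B))) ∧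
      (∀ p ≤ j, p.Prime → (1 - 1 / ((j : ℝ) + 1)) * (F.card : ℝ) ≤
        ((F.filter fun n => p * n ∈ F).card : ℝ)) ∧
      ∃ A : Fin ⌈2 / ε⌉₊ → Finset ℕ, (∀ i, A i ⊆ B) ∧ (∀ i j, i ≠ j → Disjoint (A i) (A j)) ∧
      min ((B.card : ℝ) ^ 2 / 3) ((B.card : ℝ) * (∑ i, ((A i).card : ℝ)) / 2) +
        ε / 2 * (F.card : ℝ) ^ 2 ≤ ∑ i, ((A i).card : ℝ) ^ 2 ∧
      ¬ ∃ i, ∃ x ∈ A i, ∃ y ∈ A i, ∃ z ∈ A i, x ^ 2 + y ^ 2 = z ^ 2 := by
    intro j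
    by_contra hno
    apply hcon
    refine ⟨j, 1 / ((j : ℝ) + 1), by positivity,
      fun H iH hH φ hφ S F B a1 a2 a3 a4 r A a5 a6 a7 => ?_⟩
    by_contra a8
    have hBF : B ⊆ F := fun n hn => ((a3 n).1 hn).1
    obtain ⟨A', b1, b2, b3, b4⟩ := hBig ε hε F B a1 hBF r A a5 a6 a7
    refine hno ⟨F, B, a1, a2, hBF, ?_, a4, A', b1, b2, b3, ?_⟩
    · intro w x y z hw hM s
      obtain ⟨c1, c2, c3⟩ := hCel q E w x y z hq hw hM H iH hH φ hφ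
      obtain ⟨p1, p2, p3, -⟩ := hMeP E w x y z hM
      exact ⟨IFinN.cell φ S F B a2 a3 x y p1 p2 c1 c2 s, IFinN.cell φ S F B a2 a3 x z p1 p3 c1 c3 s,
        IFinN.cell φ S F B a2 a3 y z p2 p3 c2 c3 s⟩
    · rintro ⟨i, x, hx, y, hy, z, hz, h⟩
      rcases b4 i with e | ⟨i', e⟩
      · rw [e] at hx
        exact absurd hx (Finset.notMem_empty _)
      · rw [e] at hx hy hz
        exact a8 ⟨i', x, hx, y, hy, z, hz, h⟩
  choose F B hne hpos hBF hcel hinv0 A hA hD hdens hno using hcon'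
  have hFo := XFinF.isFo_of hne hpos fun j p hp1 hp2 => hinv0 j p hp1 hp2
  obtain ⟨U, μ, d, β, hU, hFA, hd, hβ, hμA, hμB, hAA, hAB, hBB, hcc⟩ :=
    hUl ⌈2 / ε⌉₊ F B A hFo hA hBF
  obtain ⟨b1, b2⟩ := hP (ℕ × ℕ) μ hFA.nonneg hFA.univ hFA.union ⌈2 / ε⌉₊
    (fun i n => {p | n * p.2 ∈ A p.1 i}) (fun n => {p | n * p.2 ∈ B p.1}) d β E q hE
    (fun n i j hij => Set.disjoint_left.2 fun p hp hp' =>
      (Finset.disjoint_left.1 (hD p.1 i j hij)) hp hp')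
    (fun i n p hp => hA p.1 i hp)
    hμA hμB hAA hAB hBB
    (fun w x y z hw hM => by
      obtain ⟨p1, p2, p3, -⟩ := hMeP E w x y z hM
      exact ⟨hcc x y p1 p2 fun j s h1 h2 => (hcel j w x y z hw hM s).1 h1 h2,
        hcc x z p1 p3 fun j s h1 h2 => (hcel j w x y z hw hM s).2.1 h1 h2,
        hcc y z p2 p3 fun j s h1 h2 => (hcel j w x y z hw hM s).2.2 h1 h2⟩)
    (fun i x y z _ _ hxyz => by
      rw [Set.eq_empty_iff_forall_notMem]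
      rintro p ⟨⟨hx, hy⟩, hz⟩
      refine hno p.1 ⟨i, _, hx, _, hy, _, hz, ?_⟩
      rw [mul_pow, mul_pow, mul_pow, ← add_mul, hxyz])
  have hF : ∀ j, (0 : ℝ) < ((F j).card : ℝ) := fun j => by
    exact_mod_cast (hne j).card_pos
  set a : ℕ → Fin ⌈2 / ε⌉₊ → ℝ := fun j i => ((A j i).card : ℝ) / ((F j).card : ℝ) with ha
  set b : ℕ → ℝ := fun j => ((B j).card : ℝ) / ((F j).card : ℝ) with hb
  have hs2 : Tendsto (fun j => ∑ i, a j i ^ 2) U (𝓝 (∑ i, d i ^ 2)) :=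
    tendsto_finsetSum _ fun i _ => (hd i).pow 2
  have hs1 : Tendsto (fun j => ∑ i, a j i) U (𝓝 (∑ i, d i)) :=
    tendsto_finsetSum _ fun i _ => hd i
  have e1 : ∀ᶠ j in (U : Filter ℕ), ∑ i, a j i ^ 2 - b j ^ 2 / 3 < ε / 2 :=
    (hs2.sub ((hβ.pow 2).div_const 3)).eventually_lt_const (by linarith)
  have e2 : ∀ᶠ j in (U : Filter ℕ), ∑ i, a j i ^ 2 - b j * (∑ i, a j i) / 2 < ε / 2 :=
    (hs2.sub ((hβ.mul hs1).div_const 2)).eventually_lt_const (by linarith)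
  obtain ⟨j, c1, c2⟩ := (e1.and e2).exists
  have hFF : 0 < ((F j).card : ℝ) ^ 2 := by
    have := hF j
    positivity
  have q2 : ∑ i, ((A j i).card : ℝ) ^ 2 = (∑ i, a j i ^ 2) * ((F j).card : ℝ) ^ 2 := by
    rw [Finset.sum_mul]
    refine Finset.sum_congr rfl fun i _ => ?_
    rw [ha]
    have := (hF j).ne'
    field_simp
  have q1 : (∑ i, ((A j i).card : ℝ)) = (∑ i, a j i) * ((F j).card : ℝ) := by
    rw [ha, ← Finset.sum_div, div_mul_cancel₀ _ (hF j).ne']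
  have q0 : ((B j).card : ℝ) = b j * ((F j).card : ℝ) := by
    rw [hb, div_mul_cancel₀ _ (hF j).ne']
  have h := hdens j
  rw [q2, q1, q0] at h
  rcases min_choice ((b j * ((F j).card : ℝ)) ^ 2 / 3)
    ((b j * ((F j).card : ℝ)) * ((∑ i, a j i) * ((F j).card : ℝ)) / 2) with h6 | h6
  · rw [h6] at h
    have h7 : (b j ^ 2 / 3 + ε / 2) * ((F j).card : ℝ) ^ 2 ≤
        (∑ i, a j i ^ 2) * ((F j).card : ℝ) ^ 2 := by
      linarith [h]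
    have h8 := le_of_mul_le_mul_right h7 hFF
    linarith
  · rw [h6] at h
    have h7 : (b j * (∑ i, a j i) / 2 + ε / 2) * ((F j).card : ℝ) ^ 2 ≤
        (∑ i, a j i ^ 2) * ((F j).card : ℝ) ^ 2 := by
      linarith [h]
    have h8 := le_of_mul_le_mul_right h7 hFF
    linarith

end Pool.Agent.F0f91f8.RC
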