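import Mathlib
import Pool.Agent.Work.MP_0f91f8_co.RC.StmtsE

/-! # FinP: from finite sets of naturals to finite sets of positive naturals -/

set_option autoImplicit false

namespace Pool.Agent.F0f91f8.RC

open Filter Topology ComplexConjugate
open Pool.Agent.F0f91f8.HD
open scoped BigOperators

namespace IFinP

/-- the inclusion of the positive naturals -/
def cc : ℕ+ ↪ ℕ := ⟨fun n => (n : ℕ), PNat.coe_injective⟩

theorem mem_cc (F : Finset ℕ+) (n : ℕ+) : (n : ℕ) ∈ F.map cc ↔ n ∈ F := by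
  rw [Finset.mem_map]
  constructor
  · rintro ⟨m, hm, h⟩
    have : m = n := PNat.coe_injective h
    exact this ▸ hm
  · intro h
    exact ⟨n, h, rfl⟩

theorem mem_cc' (F : Finset ℕ+) (n : ℕ) : n ∈ F.map cc ↔ ∃ m : ℕ+, m ∈ F ∧ (m : ℕ) = n := by
  rw [Finset.mem_map]
  rfl

theorem card_filt (F : Finset ℕ+) (p : ℕ+) :
    ((F.map cc).filter fun n => (p : ℕ) * n ∈ F.map cc).card =
      (F.filter fun n => p * n ∈ F).card := by
  have h : ((F.map cc).filter fun n => (p : ℕ) * n ∈ F.map cc) =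
      (F.filter fun n => p * n ∈ F).map cc := by
    ext n
    rw [Finset.mem_filter, mem_cc' F n, mem_cc' _ n]
    constructor
    · rintro ⟨⟨m, hm, rfl⟩, h2⟩
      refine ⟨m, Finset.mem_filter.2 ⟨hm, ?_⟩, rfl⟩
      rw [← PNat.mul_coe, mem_cc] at h2
      exact h2
    · rintro ⟨m, hm, rfl⟩
      rw [Finset.mem_filter] at hm
      refine ⟨⟨m, hm.1, rfl⟩, ?_⟩
      rw [← PNat.mul_coe, mem_cc]
      exact hm.2
  rw [h, Finset.card_map]

end IFinP

open IFinP in
theorem pr_FinP : StFinP := by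
  intro h q E hq hE ε hε
  obtain ⟨k, δ, hδ, H⟩ := h q E hq hE ε hε
  refine ⟨k, δ, hδ, ?_⟩
  intro G _ hG φ hφ S F B hF hB hd r A hA hdis hmin
  obtain ⟨i, x, hx, y, hy, z, hz, he⟩ := H G _ hG φ hφ S (F.map cc) (B.map cc)
    (Finset.map_nonempty.2 hF) (by
      intro n hn
      obtain ⟨m, _, rfl⟩ := (mem_cc' F n).1 hn
      exact m.pos) (by
      intro n
      rw [mem_cc', mem_cc']
      constructor
      · rintro ⟨m, hm, rfl⟩
        have := (hB m).1 hm
        refine ⟨⟨m, this.1, rfl⟩, ?_⟩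
        rw [PNat.coe_toPNat']
        exact this.2
      · rintro ⟨⟨m, hm, rfl⟩, h2⟩
        rw [PNat.coe_toPNat'] at h2
        exact ⟨m, (hB m).2 ⟨hm, h2⟩, rfl⟩) (by
      intro p hp hpp
      have h1 := hd ⟨p, hpp.pos⟩ hp hpp
      rw [Finset.card_map]
      have h2 := card_filt F ⟨p, hpp.pos⟩
      rw [← h2] at h1
      exact h1) r (fun i => (A i).map cc) (fun i => Finset.map_subset_map.2 (hA i))
    (fun i j hij => (Finset.disjoint_map cc).2 (hdis i j hij)) (by
      simp only [Finset.card_map]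
      exact hmin)
  obtain ⟨x', hx', rfl⟩ := (mem_cc' _ x).1 hx
  obtain ⟨y', hy', rfl⟩ := (mem_cc' _ y).1 hy
  obtain ⟨z', hz', rfl⟩ := (mem_cc' _ z).1 hz
  exact ⟨i, x', hx', y', hy', z', hz', by exact_mod_cast he⟩

end Pool.Agent.F0f91f8.RC
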