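import Mathlib
import Pool.Agent.Work.MP_0f91f8_co.RC.StmtsE
import Pool.Agent.Work.MP_0f91f8_co.EF.Cou

/-!
# Relative collision theorem, item KeV: the value of the kernel inside a cell
-/

set_option autoImplicit false

open Filter Topology MeasureTheory

noncomputable section

namespace Pool.Agent.F0f91f8.RC

open Pool.Agent.F0f91f8.HD
open Pool.Agent.Work.MP_0f91f8_co.EF

namespace IKeV

/-- If `X ⊆ P` and `P` is almost contained in `Q` then `μ (X ∩ Q) = μ X`. -/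
theorem cap {Ω : Type} {μ : Set Ω → ℝ} (h : IsFA μ) {X P Q : Set Ω} (hX : X ⊆ P)
    (hPQ : μ (P ∩ Q) = μ P) : μ (X ∩ Q) = μ X := by
  have h1 : μ P = μ (P ∩ Q) + μ (P \ Q) := by
    rw [← h.union _ _ (by
      rw [Set.disjoint_left]
      rintro x ⟨-, hx⟩ ⟨-, hx'⟩
      exact hx' hx), Set.inter_union_diff]
  have h2 : μ X = μ (X ∩ Q) + μ (X \ Q) := by
    rw [← h.union _ _ (by
      rw [Set.disjoint_left]
      rintro x ⟨-, hx⟩ ⟨-, hx'⟩
      exact hx' hx), Set.inter_union_diff]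
  have h3 : μ (X \ Q) ≤ μ (P \ Q) := XCou.fa_mono h (Set.diff_subset_diff_left hX)
  have h4 : 0 ≤ μ (X \ Q) := h.nonneg _
  linarith

end IKeV

/-- **KeV.** -/
theorem pr_KeV : StKeV := by
  intro Ω μ h X C d β a b hXa hXb ha hb hCa hCb hCC
  have h1 : μ (X a ∩ C b) = μ (X a) := IKeV.cap h hXa (by rw [hCC, hCa])
  have h2 : μ (X b ∩ C a) = μ (X b) := IKeV.cap h hXb (by rw [Set.inter_comm, hCC, hCb])
  unfold ker
  rw [h1, h2, hCC, ha, hb]
  ring

end Pool.Agent.F0f91f8.RC
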