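import Mathlib
import Pool.Agent.Work.MP_0f91f8_co.RC.StmtsE
import Pool.Agent.Work.MP_0f91f8_co.EF.LiF

/-!
# Relative collision theorem, module E′, item LiK: the spectral measure of a kernel (weak limit)
-/

set_option autoImplicit false

open Filter Topology MeasureTheory

noncomputable section

namespace Pool.Agent.F0f91f8.RC

open Pool.Agent.F0f91f8.HD
open Pool.Agent.Work.MP_0f91f8_co.EF

theorem pr_LiK (h1 : S_Ev) (h2 : S_Fol) (h3 : S_Cnt) (h4 : StDeK) : StLiK := by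
  intro φ hφ
  obtain ⟨F, hF⟩ := h2
  choose μ hμ1 hμ2 using fun j => h4 φ hφ (F j) (hF.ne j) (hF.pos j)
  have hfin : ∀ j, IsFiniteMeasure (μ j) :=
    fun j => ⟨lt_of_le_of_lt (hμ1 j) ENNReal.one_lt_top⟩
  let M : ℕ → FiniteMeasure GG := fun j => ⟨μ j, hfin j⟩
  have hM : ∀ j, (M j).mass ≤ 1 := by
    intro j
    rw [← ENNReal.coe_le_coe, FiniteMeasure.ennreal_mass]
    exact hμ1 j
  obtain ⟨U, ν, hU, hlim⟩ := XLiF.lim M hM
  refine ⟨(ν : Measure GG), inferInstance, ?_⟩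
  intro a b ha hb
  have ht : Tendsto (fun j => ∫ g, XLiF.bf h1 a b g ∂(μ j)) U
      (𝓝 (∫ g, XLiF.bf h1 a b g ∂(ν : Measure GG))) :=
    (FiniteMeasure.tendsto_iff_forall_integral_rclike_tendsto ℂ).1 hlim (XLiF.bf h1 a b)
  have h5 : (fun j => ∫ g, XLiF.bf h1 a b g ∂(μ j)) =
      fun j => ((φ a b * ct (F j) a b : ℝ) : ℂ) := by
    funext j
    exact hμ2 j a b ha hb
  rw [h5] at ht
  have ht2 : Tendsto (fun j => ((φ a b * ct (F j) a b : ℝ) : ℂ)) U (𝓝 ((φ a b : ℝ) : ℂ)) := by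
    have h6 : Tendsto (fun j => φ a b * ct (F j) a b) U (𝓝 (φ a b * 1)) :=
      ((h3 F hF a b ha hb).mono_left hU).const_mul _
    rw [mul_one] at h6
    exact (Complex.continuous_ofReal.tendsto _).comp h6
  exact tendsto_nhds_unique ht ht2

end Pool.Agent.F0f91f8.RC
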