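import Mathlib
import Pool.Agent.Work.MP_0f91f8_co.RC.StmtsE

/-!
# Relative collision theorem, item MeP: elementary facts on members
-/

set_option autoImplicit false

namespace Pool.Agent.F0f91f8.RC

open Pool.Agent.F0f91f8.HD

theorem pr_MeP : StMeP := by
  intro E w x y z hM
  obtain ⟨κ, k, a, n, hκ, hk, ha, hn, _, _, _, _, rfl, rfl, rfl⟩ := hM
  refine ⟨?_, ?_, ?_, ?_⟩
  · unfold tX
    positivity
  · unfold tY
    positivity
  · unfold tZ
    positivity
  · unfold tX tY tZ
    ring

end Pool.Agent.F0f91f8.RC
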