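import Mathlib
import Pool.Agent.Work.MP_0f91f8_co.RC.StmtsE
import Pool.Agent.Work.MP_0f91f8_co.EF.PrP
import Pool.Agent.Work.MP_0f91f8_co.EF.Cou

/-!
# Relative collision theorem, module E′, item PrK: the kernel of `β 1_X - d 1_C`
-/

set_option autoImplicit false

open Filter Topology MeasureTheory

noncomputable section

namespace Pool.Agent.F0f91f8.RC

open Pool.Agent.F0f91f8.HD
open Pool.Agent.Work.MP_0f91f8_co.EF

namespace IPrK

/-- the doubled index set -/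
def FF (F : Finset ℕ) : Finset ℕ := F.image (fun a => 2 * a) ∪ F.image (fun a => 2 * a + 1)

theorem sumF (F : Finset ℕ) (g : ℕ → ℂ) :
    ∑ n ∈ FF F, g n = ∑ a ∈ F, (g (2 * a) + g (2 * a + 1)) := by
  unfold FF
  rw [Finset.sum_union, Finset.sum_image, Finset.sum_image, Finset.sum_add_distrib]
  · intro a _ b _ h
    simp only at h
    omega
  · intro a _ b _ h
    simp only at h
    omega
  · rw [Finset.disjoint_left]
    intro n h1 h2
    rw [Finset.mem_image] at h1 h2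
    obtain ⟨a, _, rfl⟩ := h1
    obtain ⟨b, _, hb⟩ := h2
    omega

/-- the doubled family -/
def EE {Ω : Type} (X C : ℕ → Set Ω) (n : ℕ) : Set Ω := if n % 2 = 0 then X (n / 2) else C (n / 2)

theorem EE0 {Ω : Type} (X C : ℕ → Set Ω) (a : ℕ) : EE X C (2 * a) = X a := by
  unfold EE
  rw [if_pos (by omega), show 2 * a / 2 = a by omega]

theorem EE1 {Ω : Type} (X C : ℕ → Set Ω) (a : ℕ) : EE X C (2 * a + 1) = C a := by
  unfold EE
  rw [if_neg (by omega), show (2 * a + 1) / 2 = a by omega]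

/-- the doubled coefficients -/
def cc (c : ℕ → ℂ) (d β : ℝ) (n : ℕ) : ℂ :=
  if n % 2 = 0 then (β : ℂ) * c (n / 2) else -((d : ℂ) * c (n / 2))

theorem cc0 (c : ℕ → ℂ) (d β : ℝ) (a : ℕ) : cc c d β (2 * a) = (β : ℂ) * c a := by
  unfold cc
  rw [if_pos (by omega), show 2 * a / 2 = a by omega]

theorem cc1 (c : ℕ → ℂ) (d β : ℝ) (a : ℕ) : cc c d β (2 * a + 1) = -((d : ℂ) * c a) := by
  unfold cc
  rw [if_neg (by omega), show (2 * a + 1) / 2 = a by omega]

theorem psd {Ω : Type} {μ : Set Ω → ℝ} (h : IsFA μ) (X C : ℕ → Set Ω) (d β : ℝ) (F : Finset ℕ)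
    (c : ℕ → ℂ) : ∃ s : ℝ, 0 ≤ s ∧
    ∑ a ∈ F, ∑ b ∈ F, c a * (starRingEnd ℂ) (c b) * ((ker μ X C d β a b : ℝ) : ℂ) = (s : ℂ) := by
  obtain ⟨s, hs, h1⟩ := XPrP.psd h (EE X C) (FF F) (cc c d β)
  refine ⟨s, hs, ?_⟩
  rw [← h1, sumF]
  refine Finset.sum_congr rfl fun a _ => ?_
  rw [sumF, sumF, ← Finset.sum_add_distrib]
  refine Finset.sum_congr rfl fun b _ => ?_
  rw [EE0, EE0, EE1, EE1, cc0, cc0, cc1, cc1, Set.inter_comm (C a) (X b)]
  unfold ker
  push_cast
  rw [map_neg, map_mul, map_mul, Complex.conj_ofReal, Complex.conj_ofReal]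
  ring

end IPrK

/-- **PrK.** -/
theorem pr_PrK : StPrK := by
  intro Ω μ h X C d β hXC hX hC hXX hXC2 hCC
  refine ⟨?_, ?_, ?_, ?_⟩
  · intro a b
    unfold ker
    rw [Set.inter_comm (X b) (X a), Set.inter_comm (C b) (C a)]
    ring
  · intro k a b hk ha hb
    unfold ker
    rw [hXX k a b hk ha hb, hXC2 k a b hk ha hb, hXC2 k b a hk hb ha, hCC k a b hk ha hb]
  · have h1 : X 1 ∩ C 1 = X 1 := Set.inter_eq_left.mpr (hXC 1)
    unfold ker
    rw [Set.inter_self, Set.inter_self, h1, hX 1 one_pos, hC 1 one_pos]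
    have h2 : 0 ≤ d := by
      rw [← hX 1 one_pos]
      exact h.nonneg _
    have h3 : d ≤ β := by
      rw [← hX 1 one_pos, ← hC 1 one_pos]
      exact XCou.fa_mono h (hXC 1)
    have h4 : β ≤ 1 := by
      rw [← h.univ, ← hC 1 one_pos]
      exact XCou.fa_mono h (Set.subset_univ _)
    have h5 : β ^ 2 * d - β * d * (d + d) + d ^ 2 * β = β * (d * (β - d)) := by ring
    rw [h5]
    have h6 : 0 ≤ d * (β - d) := mul_nonneg h2 (by linarith)
    have h7 : d * (β - d) ≤ 1 := by nlinarith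
    calc β * (d * (β - d)) ≤ 1 * (d * (β - d)) := mul_le_mul_of_nonneg_right h4 h6
      _ ≤ 1 := by linarith
  · intro F _ c
    exact IPrK.psd h X C d β F c

end Pool.Agent.F0f91f8.RC
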