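import Mathlib
import Pool.Agent.Work.MP_0f91f8_co.RC.StmtsE
import Pool.Agent.Work.MP_0f91f8_co.EF.Cou

/-!
# Relative collision theorem, module E′: item PrcK

From the general inequality for kernels (`GenK`) to the process form (`ProcK`).
-/

set_option autoImplicit false

open Filter Topology MeasureTheory

noncomputable section

namespace Pool.Agent.F0f91f8.RC

open Pool.Agent.F0f91f8.HD
open Pool.Agent.Work.MP_0f91f8_co.EF

namespace IPrcK

/-- division by `3 β` -/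
theorem fin1 {β D T : ℝ} (hβ : 0 < β) (h1 : 3 * β * D ≤ β ^ 3)
    (h2 : 3 * β * D ≤ 3 / 2 * β ^ 2 * T) : D ≤ β ^ 2 / 3 ∧ D ≤ β * T / 2 := by
  constructor
  · have h : β * (3 * D) ≤ β * β ^ 2 := by nlinarith
    have := le_of_mul_le_mul_left h hβ
    linarith
  · have h : β * (3 * D) ≤ β * (3 / 2 * β * T) := by nlinarith
    have := le_of_mul_le_mul_left h hβ
    linarith

end IPrcK

open IPrcK in
/-- **PrcK.** -/
theorem pr_PrcK (h1 : StPrK) (h2 : StCouK) (h3 : StKeV) (h4 : StMeP) (h5 : GenK) : ProcK := by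
  intro Ω μ hn hu hU r X C d β E w₁ hE hdis hsub hd hβ hX hXC hC hcell hpyth
  have hFA : IsFA μ := ⟨hn, hu, hU⟩
  have hK : ∀ i, IsPK (ker μ (X i) C (d i) β) := fun i =>
    h1 Ω μ hFA (X i) C (d i) β (fun n => hsub i n) (fun n hn' => hd i n hn') hβ (hX i) (hXC i) hC
  have key : ∀ ε : ℝ, 0 < ε → 3 * β * ∑ i, d i ^ 2 ≤ β ^ 3 + ε ∧
      3 * β * ∑ i, d i ^ 2 ≤ 3 / 2 * β ^ 2 * ∑ i, d i + ε := by
    intro ε hε
    obtain ⟨w, x, y, z, hw, hM, hle⟩ :=
      h5 E w₁ r (fun i => ker μ (X i) C (d i) β) hE hK ε hε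
    obtain ⟨hx, hy, hz, hxyz⟩ := h4 E w x y z hM
    obtain ⟨cxy, cxz, cyz⟩ := hcell w x y z hw hM
    have hval : ∑ i, (ker μ (X i) C (d i) β x y + ker μ (X i) C (d i) β x z +
        ker μ (X i) C (d i) β y z) =
        β ^ 2 * (∑ i, (μ (X i x ∩ X i y) + μ (X i x ∩ X i z) + μ (X i y ∩ X i z))) -
          3 * β * ∑ i, d i ^ 2 := by
      rw [Finset.mul_sum, Finset.mul_sum, ← Finset.sum_sub_distrib]
      refine Finset.sum_congr rfl fun i _ => ?_
      rw [h3 Ω μ hFA (X i) C (d i) β x y (hsub i x) (hsub i y) (hd i x hx) (hd i y hy)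
          (hβ x hx) (hβ y hy) cxy,
        h3 Ω μ hFA (X i) C (d i) β x z (hsub i x) (hsub i z) (hd i x hx) (hd i z hz)
          (hβ x hx) (hβ z hz) cxz,
        h3 Ω μ hFA (X i) C (d i) β y z (hsub i y) (hsub i z) (hd i y hy) (hd i z hz)
          (hβ y hy) (hβ z hz) cyz]
      ring
    obtain ⟨c1, c2⟩ := h2 Ω μ hFA r (fun i => X i x) (fun i => X i y) (fun i => X i z)
      (C x) (C y) β (fun i j hij => hdis x i j hij) (fun i j hij => hdis y i j hij)
      (fun i j hij => hdis z i j hij) (fun i => hpyth i x y z hx hy hxyz)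
      (fun i => hsub i x) (fun i => hsub i y) (hβ x hx) (hβ y hy) cxy
    have hs : ∑ i, (μ (X i x) + μ (X i y) + μ (X i z)) = 3 * ∑ i, d i := by
      rw [Finset.mul_sum]
      refine Finset.sum_congr rfl fun i _ => ?_
      rw [hd i x hx, hd i y hy, hd i z hz]
      ring
    rw [hs] at c2
    rw [hval] at hle
    have hβ2 : 0 ≤ β ^ 2 := sq_nonneg β
    constructor
    · have := mul_le_mul_of_nonneg_left c1 hβ2
      nlinarith
    · have := mul_le_mul_of_nonneg_left c2 hβ2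
      nlinarith
  have k1 : 3 * β * ∑ i, d i ^ 2 ≤ β ^ 3 :=
    le_of_forall_pos_le_add fun ε hε => (key ε hε).1
  have k2 : 3 * β * ∑ i, d i ^ 2 ≤ 3 / 2 * β ^ 2 * ∑ i, d i :=
    le_of_forall_pos_le_add fun ε hε => (key ε hε).2
  have hβ0 : 0 ≤ β := by
    rw [← hβ 1 one_pos]
    exact hn _
  rcases hβ0.lt_or_eq with hpos | hzero
  · exact fin1 hpos k1 k2
  · have hd0 : ∀ i, d i = 0 := by
      intro i
      have e1 : d i ≤ β := by
        rw [← hd i 1 one_pos, ← hβ 1 one_pos]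
        exact XCou.fa_mono hFA (hsub i 1)
      have e2 : 0 ≤ d i := by
        rw [← hd i 1 one_pos]
        exact hn _
      linarith
    simp [hd0, ← hzero]

end Pool.Agent.F0f91f8.RC
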