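import Pool.Agent.Work.MP_0f91f8_co.EF.Chr
import Pool.Agent.Work.MP_0f91f8_co.EF.Cnt
import Pool.Agent.Work.MP_0f91f8_co.EF.Ev
import Pool.Agent.Work.MP_0f91f8_co.EF.Fat
import Pool.Agent.Work.MP_0f91f8_co.EF.Fol
import Pool.Agent.Work.MP_0f91f8_co.EF.Haar
import Pool.Agent.Work.MP_0f91f8_co.RC.I_AsK
import Pool.Agent.Work.MP_0f91f8_co.RC.I_AvK
import Pool.Agent.Work.MP_0f91f8_co.RC.I_BigR
import Pool.Agent.Work.MP_0f91f8_co.RC.I_Cel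
import Pool.Agent.Work.MP_0f91f8_co.RC.I_CouK
import Pool.Agent.Work.MP_0f91f8_co.RC.I_DeK
import Pool.Agent.Work.MP_0f91f8_co.RC.I_FinN
import Pool.Agent.Work.MP_0f91f8_co.RC.I_FinP
import Pool.Agent.Work.MP_0f91f8_co.RC.I_KeV
import Pool.Agent.Work.MP_0f91f8_co.RC.I_LiK
import Pool.Agent.Work.MP_0f91f8_co.RC.I_MeP
import Pool.Agent.Work.MP_0f91f8_co.RC.I_PrK
import Pool.Agent.Work.MP_0f91f8_co.RC.I_PrcK
import Pool.Agent.Work.MP_0f91f8_co.RC.I_UlR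

/-!
# Relative collision theorem, module E′: composition
-/

set_option autoImplicit false

namespace Pool.Agent.F0f91f8.RC

open Pool.Agent.F0f91f8.HD Pool.Agent.Work.MP_0f91f8_co.EF

theorem genK (hPW : PWRStmt) : GenK :=
  pr_AsK Ev_pf (pr_LiK Ev_pf Fol_pf Cnt_pf (pr_DeK Ev_pf (Haar_pf Ev_pf))) Fat_pf (pr_AvK Ev_pf) hPW

theorem procK (hPW : PWRStmt) : ProcK :=
  pr_PrcK pr_PrK pr_CouK pr_KeV pr_MeP (genK hPW)

theorem relFinN (hPW : PWRStmt) : RelFinN :=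
  pr_FinN pr_MeP pr_Cel pr_BigR pr_UlR (procK hPW)

theorem relFin (hPW : PWRStmt) : RelFin := pr_FinP (relFinN hPW)

end Pool.Agent.F0f91f8.RC
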