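import Pool.Agent.Work.MP_0f91f8_co.RC.StmtsD2
import Pool.Agent.Work.MP_0f91f8_co.HD.I_DFi

/-! Relative collision theorem, module D′, part 2: item RVy. -/

set_option autoImplicit false

namespace Pool.Agent.F0f91f8.RC

open Filter Topology ComplexConjugate
open Pool.Agent.F0f91f8.HD
open scoped BigOperators

namespace IRVy

theorem en_le (M : ℕ) (F : ℕ → ℂ) (h : ∀ n, ‖F n‖ ≤ 1) : ‖EN M F‖ ≤ 1 := by
  unfold EN
  rw [norm_div, norm_pow, Complex.norm_natCast]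
  refine div_le_one_of_le₀ ?_ (by positivity)
  refine (norm_sum_le _ _).trans ?_
  have h1 : ∀ u ∈ Finset.Icc 1 M, ‖∑ u' ∈ Finset.Icc 1 M, F (u + u')‖ ≤ (M : ℝ) := by
    intro u _
    refine (norm_sum_le _ _).trans ?_
    refine (Finset.sum_le_sum fun e _ => h _).trans ?_
    simp
  refine (Finset.sum_le_sum h1).trans ?_
  simp only [Finset.sum_const, Nat.card_Icc, Nat.add_sub_cancel, nsmul_eq_mul]
  exact le_of_eq (by ring)

theorem bxr_le (Q D a₀ M : ℕ) (G : ℕ → ℕ → ℂ) (h : ∀ a n, ‖G a n‖ ≤ 1) :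
    ‖BxR Q D a₀ M G‖ ≤ 1 :=
  DFi.bx_le Q D a₀ M _ fun a _ => h a _

theorem bxr_mul (hPd : StDPd) (Q D a₀ M : ℕ) (F G : ℕ → ℂ) :
    BxR Q D a₀ M (fun a n => F a * G n) = EA Q D a₀ M F * ENR Q M G := by
  unfold BxR ENR
  exact hPd Q D a₀ M F fun n => G (Q * n + 1)

theorem dr_pos (E w K : ℕ) (hK : 1 ≤ K) : 0 < DR E w K := by
  unfold DR
  have := w.factorial_pos
  positivity

theorem conj_le {z : ℂ} (h : ‖z‖ ≤ 1) : ‖conj z‖ ≤ 1 := by
  rwa [Complex.norm_conj]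

theorem mul_le {z w : ℂ} (h : ‖z‖ ≤ 1) (h' : ‖w‖ ≤ 1) : ‖z * w‖ ≤ 1 := by
  rw [norm_mul]
  exact mul_le_one₀ h (norm_nonneg _) h'

theorem npow_le {z : ℂ} (h : ‖z‖ ≤ 1) (n : ℕ) : ‖z ^ n‖ ≤ 1 := by
  rw [norm_pow]
  exact pow_le_one₀ (norm_nonneg _) h

end IRVy

open IRVy in
theorem pr_RVy (hPd : StDPd) (hTl : StDTl) (hVe : StRVe) : StRVy := by
  obtain ⟨C, hC, h⟩ := hVe
  refine ⟨C, hC, ?_, ?_⟩
  · intro g hg E w K hE hw hK η hη
    obtain ⟨M0, hM⟩ := h g hg w K (DR E w K) hw hK (dr_pos E w K (by omega)) η hη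
    refine ⟨M0, fun M hM0 e' e'' => ?_⟩
    have h1 := hM M hM0 e' e''
    have hT := (hTl g hg).2.2.2.2.2.1 K M
    unfold VYR BFR
    rw [bxr_mul hPd _ _ _ _ g (fun n => conj (gP g w K n)),
      bxr_mul hPd _ _ _ _ g (fun n => conj (gP g w K n))]
    set A := EA w.factorial (DR E w K) (inv0 w.factorial (kk w K e')) M g
    set B := EA w.factorial (DR E w K) (inv0 w.factorial (kk w K e'')) M g
    have h2 : ‖ENR w.factorial M (fun n => conj (gP g w K n))‖ ≤ 1 :=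
      en_le _ _ fun n => conj_le (DFi.gP_le hg.cm _ _ _)
    set N := ENR w.factorial M (fun n => conj (gP g w K n))
    have h3 : cL g K M * conj (cQ g K M) * (A * N) - cL g K M * conj (cQ g K M) * (B * N) =
        (cL g K M * conj (cQ g K M) * N) * (A - B) := by ring
    rw [h3, norm_mul]
    have h4 : ‖cL g K M * conj (cQ g K M) * N‖ ≤ 1 := mul_le (mul_le hT.1 (conj_le hT.2)) h2
    calc ‖cL g K M * conj (cQ g K M) * N‖ * ‖A - B‖ ≤ 1 * ‖A - B‖ :=
          mul_le_mul_of_nonneg_right h4 (norm_nonneg _)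
      _ = ‖A - B‖ := one_mul _
      _ ≤ C * er g K + η := h1
  · intro f g t hf hg E w K e' M
    have hT := (hTl g hg).2.2.2.2.2.1 K M
    refine ⟨?_, ?_, ?_⟩
    · unfold UXR BFR
      refine mul_le (mul_le (mul_le (npow_le (DFi.cm_le hf _) _)
        (conj_le (DFi.cm_le hg.cm _))) (mul_le hT.1 (conj_le hT.1))) (bxr_le _ _ _ _ _ ?_)
      intro a n
      exact mul_le (mul_le (DFi.cm_le hf _) (conj_le (DFi.pow_le _ _)))
        (conj_le (DFi.cm_le hg.cm _))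
    · unfold UZR BFR
      refine mul_le (mul_le (npow_le (conj_le (DFi.cm_le hf _)) _)
        (mul_le hT.2 (conj_le hT.1))) (bxr_le _ _ _ _ _ ?_)
      intro a n
      exact mul_le (mul_le (conj_le (DFi.cm_le hf _)) (DFi.pow_le _ _)) (DFi.gP_le hg.cm _ _ _)
    · unfold VYR BFR
      refine mul_le (mul_le hT.1 (conj_le hT.2)) (bxr_le _ _ _ _ _ ?_)
      intro a n
      exact mul_le (DFi.cm_le hg.cm _) (conj_le (DFi.gP_le hg.cm _ _ _))

end Pool.Agent.F0f91f8.RC
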