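import Pool.Agent.Work.MP_0f91f8_co.RC.StmtsD2

/-!
# Relative collision theorem, module D', item RYm: the correlation of `y` and `z`
-/

set_option autoImplicit false

namespace Pool.Agent.F0f91f8.RC

open Filter Topology ComplexConjugate
open Pool.Agent.F0f91f8.HD
open scoped BigOperators

namespace IRYm

lemma mono (Q D a₀ M : ℕ) (F G : ℕ → ℕ → ℝ)
    (h : ∀ b n, 0 < b → 0 < n → F (Q * b + a₀) n ≤ G (Q * b + a₀) n) :
    BR Q D a₀ M F ≤ BR Q D a₀ M G := by
  unfold BR
  refine div_le_div_of_nonneg_right ?_ (by positivity)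
  refine Finset.sum_le_sum fun u hu => Finset.sum_le_sum fun u' hu' =>
    Finset.sum_le_sum fun v hv => Finset.sum_le_sum fun v' hv' => ?_
  rw [Finset.mem_Icc] at hu hu' hv hv'
  exact h (v + v') (u + u') (by omega) (by omega)

lemma re (Q D a₀ M : ℕ) (F : ℕ → ℕ → ℂ) :
    (Bx Q D a₀ M F).re = BR Q D a₀ M fun a n => (F a n).re := by
  unfold Bx BR
  have e : ((M : ℂ) ^ 2 * ((D * M : ℕ) : ℂ) ^ 2) =
      (((M : ℝ) ^ 2 * ((D * M : ℕ) : ℝ) ^ 2 : ℝ) : ℂ) := by push_cast; ring
  rw [e, Complex.div_ofReal_re]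
  simp only [Complex.re_sum]

/-- the average of a bound of the form of `StRPY` -/
lemma five (hBx : StDBx) (Q D a₀ M : ℕ) (hD : 0 < D) (hM : 0 < M) (c x1 x2 x3 x4 : ℝ)
    (I P N1 N2 : ℕ → ℕ → ℝ) (h1 : BR Q D a₀ M I ≤ x1) (h2 : BR Q D a₀ M P ≤ x2)
    (h3 : BR Q D a₀ M N1 ≤ x3) (h4 : BR Q D a₀ M N2 ≤ x4) :
    BR Q D a₀ M (fun a n => c + 2 * I a n + 2 * P a n + N1 a n + N2 a n) ≤
      c + 2 * x1 + 2 * x2 + x3 + x4 := by
  obtain ⟨-, -, -, -, hadd, hmul, hone⟩ := hBx Q D a₀ M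
  have e0 : BR Q D a₀ M (fun _ _ => c) = c := by
    have := hmul c (fun _ _ => 1)
    rw [(hone hD hM).2, mul_one] at this
    simpa only [mul_one] using this
  have e1 : BR Q D a₀ M (fun a n => c + 2 * I a n + 2 * P a n + N1 a n + N2 a n) =
      c + 2 * BR Q D a₀ M I + 2 * BR Q D a₀ M P + BR Q D a₀ M N1 + BR Q D a₀ M N2 := by
    rw [hadd (fun a n => c + 2 * I a n + 2 * P a n + N1 a n) N2,
      hadd (fun a n => c + 2 * I a n + 2 * P a n) N1,
      hadd (fun a n => c + 2 * I a n) (fun a n => 2 * P a n),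
      hadd (fun _ _ => c) (fun a n => 2 * I a n), hmul 2 P, hmul 2 I, e0]
  rw [e1]
  linarith

/-- one choice of the exponents -/
lemma one (hPY : StRPY) (hBx : StDBx) (hSz : StRSz) (hK2 : StRK2) (hPr : StRPr) (C1 C2 : ℝ)
    (f g : ℕ → ℂ) (t : ℝ) (q : ℕ) (hDec : Dec f g t q) (E w K : ℕ) (hE : 1 ≤ E) (hw : 2 ≤ w)
    (hK : w ≤ K) (hq : q ∣ w.factorial) (η : ℝ) (e : Fin (w + 1) → Fin K)
    (e' : Fin (K + 1) → Fin K) (M : ℕ) (hM : 0 < M)
    (hPq : (BR w.factorial (DR E w K) (inv0 w.factorial (kk w K e')) M fun _ s =>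
      iPq w (w.factorial * s + 1)) ≤ 1 / (w : ℝ) + η)
    (hL : (BR w.factorial (DR E w K) (inv0 w.factorial (kk w K e')) M fun a s =>
      ‖gT g K (kk w K e' * a + 2 * (kR E w K e * (w.factorial * s + 1))) - cL g K M‖) ≤
        C1 * er g K + η)
    (hQ : (BR w.factorial (DR E w K) (inv0 w.factorial (kk w K e')) M fun a s =>
      ‖gT g K (tZ (kR E w K e) (kk w K e') a (w.factorial * s + 1)) - cQ g K M‖) ≤
        C2 * er g K + η) :
    ‖CYR f E w K e e' M - g (kk w K e') * VYR g E w K e' M‖ ≤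
      10 * |t| / K + 2 * (2 / (K : ℝ)) + 2 * (1 / (w : ℝ) + η) + (C1 * er g K + η) +
        (C2 * er g K + η) ∧
    ((∀ p : ℕ, p.Prime → w < p → g p = 1) →
      1 - 10 * |t| / K - 2 * (2 / (K : ℝ)) ≤ (CYR f E w K e e' M).re) := by
  have hK1 : 1 ≤ K := by omega
  obtain ⟨-, -, -, hκ0, hκD, hDp, -⟩ := hK2 E w K e hE hw hK1
  obtain ⟨hPar, -, -, hcon⟩ := hPr E w K e e' hE hw hK
  have hSz' := hSz w.factorial (DR E w K) K (kR E w K e) (kk w K e') M
    (inv0 w.factorial (kk w K e')) (Nat.factorial_pos w) hK1 hM hκ0 hPar.k0 hκD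
  have hbx := hBx w.factorial (DR E w K) (inv0 w.factorial (kk w K e')) M
  have hpos : ∀ b, 0 < b → 0 < w.factorial * b + inv0 w.factorial (kk w K e') := fun b hb =>
    Nat.add_pos_left (Nat.mul_pos (Nat.factorial_pos w) hb) _
  refine ⟨?_, fun hg => ?_⟩
  · have e1 : CYR f E w K e e' M - g (kk w K e') * VYR g E w K e' M =
        Bx w.factorial (DR E w K) (inv0 w.factorial (kk w K e')) M (fun a s =>
          f (tY (kR E w K e) (kk w K e') a (w.factorial * s + 1)) *
            conj (f (tZ (kR E w K e) (kk w K e') a (w.factorial * s + 1))) +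
          -1 * (g (kk w K e') * (cL g K M * conj (cQ g K M)) *
            (g a * conj (gP g w K (w.factorial * s + 1))))) := by
      rw [hbx.1 (fun a s => f (tY (kR E w K e) (kk w K e') a (w.factorial * s + 1)) *
            conj (f (tZ (kR E w K e) (kk w K e') a (w.factorial * s + 1))))
          (fun a s => -1 * (g (kk w K e') * (cL g K M * conj (cQ g K M)) *
            (g a * conj (gP g w K (w.factorial * s + 1))))),
        hbx.2.1 (-1) (fun a s => g (kk w K e') * (cL g K M * conj (cQ g K M)) *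
            (g a * conj (gP g w K (w.factorial * s + 1)))),
        hbx.2.1 (g (kk w K e') * (cL g K M * conj (cQ g K M)))
          (fun a s => g a * conj (gP g w K (w.factorial * s + 1)))]
      unfold CYR VYR BFR BxR
      ring
    rw [e1]
    refine (hbx.2.2.1 _).trans ?_
    refine le_trans ?_ (five hBx w.factorial (DR E w K) (inv0 w.factorial (kk w K e')) M hDp hM
      (10 * |t| / K) _ _ _ _ _ _ _ _ hSz' hPq hL hQ)
    refine mono _ _ _ _ _ _ fun b s hb hs => ?_
    have h1 := (hPY f g t q hDec w K (kR E w K e) (kk w K e') hw hK hq hPar M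
      (w.factorial * b + inv0 w.factorial (kk w K e')) (w.factorial * s + 1) (hcon b)
      (hpos b hb) (Nat.succ_pos _)).1
    refine le_trans (le_of_eq ?_) h1
    congr 1
    ring
  · have e1 : (CYR f E w K e e' M).re =
        BR w.factorial (DR E w K) (inv0 w.factorial (kk w K e')) M fun a s =>
          (f (tY (kR E w K e) (kk w K e') a (w.factorial * s + 1)) *
            conj (f (tZ (kR E w K e) (kk w K e') a (w.factorial * s + 1)))).re := by
      unfold CYR BFR BxR
      exact re _ _ _ _ _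
    obtain ⟨-, -, -, -, hadd, hmul, hone⟩ := hbx
    have e0 : ∀ c : ℝ, BR w.factorial (DR E w K) (inv0 w.factorial (kk w K e')) M
        (fun _ _ => c) = c := by
      intro c
      have := hmul c (fun _ _ => 1)
      rw [(hone hDp hM).2, mul_one] at this
      simpa only [mul_one] using this
    have e2 : BR w.factorial (DR E w K) (inv0 w.factorial (kk w K e')) M (fun a s =>
        (1 - 10 * |t| / K) + -2 * (if K * (kR E w K e * (w.factorial * s + 1)) >
          2 * (kk w K e' * a) then 1 else 0)) ≤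
        BR w.factorial (DR E w K) (inv0 w.factorial (kk w K e')) M fun a s =>
          (f (tY (kR E w K e) (kk w K e') a (w.factorial * s + 1)) *
            conj (f (tZ (kR E w K e) (kk w K e') a (w.factorial * s + 1)))).re := by
      refine mono _ _ _ _ _ _ fun b s hb hs => ?_
      have h1 := (hPY f g t q hDec w K (kR E w K e) (kk w K e') hw hK hq hPar M
        (w.factorial * b + inv0 w.factorial (kk w K e')) (w.factorial * s + 1) (hcon b)
        (hpos b hb) (Nat.succ_pos _)).2 hg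
      refine le_trans (le_of_eq ?_) h1
      ring
    rw [hadd (fun _ _ => 1 - 10 * |t| / K) (fun a s =>
        -2 * (if K * (kR E w K e * (w.factorial * s + 1)) > 2 * (kk w K e' * a) then 1 else 0)),
      hmul (-2) (fun a s =>
        if K * (kR E w K e * (w.factorial * s + 1)) > 2 * (kk w K e' * a) then 1 else 0), e0] at e2
    rw [e1]
    refine le_trans ?_ e2
    linarith

end IRYm

/-- Item RYm. -/
theorem pr_RYm (hBx : StDBx) (hK2 : StRK2) (hPr : StRPr) (hSz : StRSz) (hPq : StRPq)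
    (hLm : StRLm) (hQd : StRQd) (hPY : StRPY) : StRYm := by
  obtain ⟨C1, hC1, hL⟩ := hLm
  obtain ⟨C2, hC2, hQ⟩ := hQd
  refine ⟨10 + C1 + C2, by positivity, ?_⟩
  intro f g t q hDec E w K hE hw hK hq η hη
  have hK1 : 1 ≤ K := by omega
  have hη4 : 0 < η / 4 := by positivity
  have hQ0 : 0 < w.factorial := Nat.factorial_pos w
  obtain ⟨M0, hM0⟩ := hPq w w.factorial (by omega) hQ0
    (fun p hp hd => (hp.dvd_factorial).1 hd) (η / 4) hη4
  have hL' : ∀ (e : Fin (w + 1) → Fin K) (e' : Fin (K + 1) → Fin K), ∃ M1 : ℕ, ∀ M ≥ M1,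
      (BR w.factorial (DR E w K) (inv0 w.factorial (kk w K e')) M fun a s =>
        ‖gT g K (kk w K e' * a + 2 * (kR E w K e * (w.factorial * s + 1))) - cL g K M‖) ≤
          C1 * er g K + η / 4 := by
    intro e e'
    obtain ⟨-, -, -, hκ0, -, hDp, -⟩ := hK2 E w K e hE hw hK1
    obtain ⟨hPar, hi, hpr, -⟩ := hPr E w K e e' hE hw hK
    obtain ⟨M1, hM1⟩ := hL g hDec.hg K (kR E w K e) (kk w K e') w.factorial (DR E w K)
      (by omega) hκ0 hPar.k0 hQ0 hDp (fun p hp hd => hpr p hp (hd.trans (by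
        refine ⟨kk w K e', ?_⟩
        ring))) (η / 4) hη4
    exact ⟨M1, fun M hM => (hM1 M hM _ hi).2.2⟩
  have hQ' : ∀ (e : Fin (w + 1) → Fin K) (e' : Fin (K + 1) → Fin K), ∃ M1 : ℕ, ∀ M ≥ M1,
      (BR w.factorial (DR E w K) (inv0 w.factorial (kk w K e')) M fun a s =>
        ‖gT g K (tZ (kR E w K e) (kk w K e') a (w.factorial * s + 1)) - cQ g K M‖) ≤
          C2 * er g K + η / 4 := by
    intro e e'
    obtain ⟨-, -, -, hκ0, -, hDp, -⟩ := hK2 E w K e hE hw hK1
    obtain ⟨hPar, hi, hpr, -⟩ := hPr E w K e e' hE hw hK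
    obtain ⟨M1, hM1⟩ := hQ g hDec.hg K (kR E w K e) (kk w K e') w.factorial (DR E w K)
      (by omega) hκ0 hPar.k0 hQ0 hDp hpr (η / 4) hη4
    exact ⟨M1, fun M hM => hM1 M hM _ hi⟩
  choose M1 hM1 using hL'
  choose M2 hM2 using hQ'
  refine ⟨M0 + 1 + (∑ e, ∑ e', M1 e e') + ∑ e, ∑ e', M2 e e', fun M hM e e' => ?_⟩
  have s1 : M1 e e' ≤ ∑ e, ∑ e', M1 e e' :=
    (Finset.single_le_sum (f := fun e' => M1 e e') (fun _ _ => Nat.zero_le _)
      (Finset.mem_univ e')).trans
      (Finset.single_le_sum (f := fun e => ∑ e', M1 e e') (fun _ _ => Nat.zero_le _)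
        (Finset.mem_univ e))
  have s2 : M2 e e' ≤ ∑ e, ∑ e', M2 e e' :=
    (Finset.single_le_sum (f := fun e' => M2 e e') (fun _ _ => Nat.zero_le _)
      (Finset.mem_univ e')).trans
      (Finset.single_le_sum (f := fun e => ∑ e', M2 e e') (fun _ _ => Nat.zero_le _)
        (Finset.mem_univ e))
  obtain ⟨-, -, -, -, -, hDp, -⟩ := hK2 E w K e hE hw hK1
  have hmain := IRYm.one hPY hBx hSz hK2 hPr C1 C2 f g t q hDec E w K hE hw hK hq (η / 4) e e' M
    (by omega) (hM0 M (by omega) _ _ hDp) (hM1 e e' M (by omega)) (hM2 e e' M (by omega))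
  have hKr : (0 : ℝ) < K := by exact_mod_cast (by omega : 0 < K)
  have hwr : (0 : ℝ) < w := by exact_mod_cast (by omega : 0 < w)
  have her : 0 ≤ er g K := Real.sqrt_nonneg _
  have ht : 0 ≤ |t| := abs_nonneg t
  have b1 : 10 * |t| / K + 2 * (2 / (K : ℝ)) ≤ 10 * ((1 + |t|) / K) := by
    rw [← sub_nonneg]
    have : 10 * ((1 + |t|) / K) - (10 * |t| / K + 2 * (2 / (K : ℝ))) = 6 / K := by ring
    rw [this]
    positivity
  have b2 : 0 ≤ (1 + |t|) / (K : ℝ) := by positivity
  have b3 : 0 ≤ 1 / (w : ℝ) := by positivity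
  refine ⟨hmain.1.trans ?_, fun hg => le_trans ?_ (hmain.2 hg)⟩
  · unfold eT
    nlinarith [mul_nonneg hC1.le b3, mul_nonneg hC2.le b3, mul_nonneg hC1.le b2,
      mul_nonneg hC2.le b2, mul_nonneg hC1.le her, mul_nonneg hC2.le her]
  · nlinarith [mul_nonneg hC1.le b2, mul_nonneg hC2.le b2]

end Pool.Agent.F0f91f8.RC
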