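import Pool.Agent.Work.MP_0f91f8_co.HD.StmtsC
import Pool.Agent.Work.MP_0f91f8_co.RC.DefsD2
import Pool.Agent.Work.MP_0f91f8_co.RC.StmtsD1

/-!
# Relative collision theorem, module D′, part 2: statements with complete proofs (helper83)

Item `X`: statement `StX`, file `RC/I_X.lean`, theorem `pr_X`, namespace `Pool.Agent.F0f91f8.RC`. The
statements `StD..` are the landed items of `HD/StmtsD.lean`; `Par`, `StRLm`, `StRPq`, `StRQd`, `StRSz`, `StRMd`,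
`StRPX`, `StRPZ`, `StRPY` are the items of `RC/StmtsD1.lean` (namespace `HD`, opened here): take them as
hypotheses. `κ = kR E w K e`, `k = kk w K e'`, `Q = w!`, `n = Q s + 1`.
-/

set_option autoImplicit false

namespace Pool.Agent.F0f91f8.RC

open Filter Topology ComplexConjugate
open Pool.Agent.F0f91f8.HD
open scoped BigOperators

/-! ## 1. Algebra of the family -/

/-- [RAv] (EASY) the average of the pair correlations. As `HD/I_DAv.lean`: unfold `AvR`, `pc`, and use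
the linearity of `Bx` (`StDBx`). (hBx : StDBx) -/
def StRAv : Prop := ∀ (f : ℕ → ℂ) (E w K M : ℕ),
  AvR E w K M (pc f) = (∑ e : Fin (w + 1) → Fin K, ∑ e' : Fin (K + 1) → Fin K,
    (CXR f E w K e e' M + CYR f E w K e e' M + CZR f E w K e e' M)) /
      ((K : ℂ) ^ (w + 1) * (K : ℂ) ^ (K + 1))

/-- [RK2] (EASY) the parameter `κ`: `2 κ = (2 w! k')^E`; `w!` divides `κ`; a prime divisor of `κ` is at
most `w` (`2 ≤ w`; prime divisors of `kp` are `≤ w`, as in `HD/I_DMd.lean`); `κ > 0`;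
`K² κ ≤ DR E w K` (`kp w K e ≤ w!^K`, see `HD/I_DSz.lean`); for completely multiplicative `f`
`f (2 κ) = f (2 w!)^E f (k')^E`. (hMd : StDMd) -/
def StRK2 : Prop := ∀ (E w K : ℕ) (e : Fin (w + 1) → Fin K), 1 ≤ E → 2 ≤ w → 1 ≤ K →
  2 * kR E w K e = (2 * (w.factorial * kp w K e)) ^ E ∧ w.factorial ∣ kR E w K e ∧
  (∀ p : ℕ, p.Prime → p ∣ kR E w K e → p ≤ w) ∧ 0 < kR E w K e ∧
  K ^ 2 * kR E w K e ≤ DR E w K ∧ 0 < DR E w K ∧
  ∀ f : ℕ → ℂ, CM f → f (2 * kR E w K e) = f (2 * w.factorial) ^ E * f (kp w K e) ^ E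

/-- [RPr] (EASY) the family satisfies `Par`. `StRK2` for `κ`; `kk w K e'` is a product of powers
`p ^ (e p + 2)` of the primes `w < p ≤ K`: positive, coprime to `w!`, prime divisors `≤ K`, and `p ^ 2` divides
it for every prime `w < p ≤ K` (`Finset.dvd_prod_of_mem`). The last clauses are in `StDMd`, and the congruence
`k a ≡ 1` too (`IDMd.mod_main` in `HD/I_DMd.lean`). (hK2 : StRK2) (hMd : StDMd) -/
def StRPr : Prop := ∀ (E w K : ℕ) (e : Fin (w + 1) → Fin K) (e' : Fin (K + 1) → Fin K),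
  1 ≤ E → 2 ≤ w → w ≤ K →
  Par w K (kR E w K e) (kk w K e') ∧ inv0 w.factorial (kk w K e') ≤ w.factorial ∧
  (∀ p : ℕ, p.Prime → p ∣ kR E w K e * kk w K e' * w.factorial → p ≤ K) ∧
  ∀ b : ℕ, (kk w K e' * (w.factorial * b + inv0 w.factorial (kk w K e'))) % w.factorial =
    1 % w.factorial

/-- [RKp] (EASY) averages of `f (k')^E` over the exponents. The function `n ↦ f n ^ E` is `CM` (`E ≥ 1`):
apply the first clause of `StDKp` to it. (hKp : StDKp) -/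
def StRKp : Prop := ∀ f : ℕ → ℂ, CM f → ∀ E w K p : ℕ, 1 ≤ E → 1 ≤ K → p.Prime → f p ^ E ≠ 1 →
  p ≤ w → ‖(∑ e : Fin (w + 1) → Fin K, f (kp w K e) ^ E) / (K : ℂ) ^ (w + 1)‖ ≤
    2 / (K * ‖1 - f p ^ E‖)

/-! ## 2. The three correlations, averaged -/

/-- [RXm] (EASY-MEDIUM, COPY of `HD/I_DXm.lean`) `CXR = f(k')^E UXR + error`. The same proof: pointwise bound
`StRPX` for `n = Q s + 1`, averages `StRSz` (`2/K` in place of `1/K`, `D = DR E w K`, `StRK2`), `StRPq`,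
`StRLm` (last two clauses); `f (2 κ) = f (2 w!)^E f (k')^E` (`StRK2`).
(hBx : StDBx) (hK2 : StRK2) (hPr : StRPr) (hSz : StRSz) (hPq : StRPq) (hLm : StRLm) (hPX : StRPX) -/
def StRXm : Prop := ∃ C : ℝ, 0 < C ∧ ∀ (f g : ℕ → ℂ) (t : ℝ) (q : ℕ), Dec f g t q →
  ∀ E w K : ℕ, 1 ≤ E → 2 ≤ w → w ≤ K → q ∣ w.factorial → ∀ η : ℝ, 0 < η → ∃ M0 : ℕ, ∀ M ≥ M0,
  ∀ (e : Fin (w + 1) → Fin K) (e' : Fin (K + 1) → Fin K),
    ‖CXR f E w K e e' M - f (kp w K e) ^ E * UXR f g t E w K e' M‖ ≤ C * eT g t w K + η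

/-- [RZm] (EASY-MEDIUM, COPY of `HD/I_DZm.lean`) `CZR = conj f(k')^E UZR + error`. As `StRXm`.
(hBx : StDBx) (hK2 : StRK2) (hPr : StRPr) (hSz : StRSz) (hPq : StRPq) (hLm : StRLm) (hQd : StRQd)
(hPZ : StRPZ) -/
def StRZm : Prop := ∃ C : ℝ, 0 < C ∧ ∀ (f g : ℕ → ℂ) (t : ℝ) (q : ℕ), Dec f g t q →
  ∀ E w K : ℕ, 1 ≤ E → 2 ≤ w → w ≤ K → q ∣ w.factorial → ∀ η : ℝ, 0 < η → ∃ M0 : ℕ, ∀ M ≥ M0,
  ∀ (e : Fin (w + 1) → Fin K) (e' : Fin (K + 1) → Fin K),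
    ‖CZR f E w K e e' M - conj (f (kp w K e)) ^ E * UZR f g t E w K e' M‖ ≤ C * eT g t w K + η

/-- [RYm] (EASY-MEDIUM, COPY of `HD/I_DYm.lean`) `CYR = g(k) VYR + error` and the exact clause.
(hBx : StDBx) (hK2 : StRK2) (hPr : StRPr) (hSz : StRSz) (hPq : StRPq) (hLm : StRLm) (hQd : StRQd)
(hPY : StRPY) -/
def StRYm : Prop := ∃ C : ℝ, 0 < C ∧ ∀ (f g : ℕ → ℂ) (t : ℝ) (q : ℕ), Dec f g t q →
  ∀ E w K : ℕ, 1 ≤ E → 2 ≤ w → w ≤ K → q ∣ w.factorial → ∀ η : ℝ, 0 < η → ∃ M0 : ℕ, ∀ M ≥ M0,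
  ∀ (e : Fin (w + 1) → Fin K) (e' : Fin (K + 1) → Fin K),
    ‖CYR f E w K e e' M - g (kk w K e') * VYR g E w K e' M‖ ≤ C * eT g t w K + η ∧
    ((∀ p : ℕ, p.Prime → w < p → g p = 1) →
      1 - C * ((1 + |t|) / K) - η ≤ (CYR f E w K e e' M).re)

/-- [RVe] (EASY, COPY of the part `h5` of the proof in `HD/I_DVe.lean`) the mean of `g a` does not depend
on the class of `a`, up to the error; with an arbitrary `D > 0` (there `D = DD w K`).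
(hTl : StDTl) (hLm : StDLm) (hFc : StDFc) (hMd : StDMd) (hPe : StDPe) -/
def StRVe : Prop := ∃ C : ℝ, 0 < C ∧ ∀ g : ℕ → ℂ, G1 g → ∀ w K D : ℕ, 2 ≤ w → w ≤ K → 0 < D →
  ∀ η : ℝ, 0 < η → ∃ M0 : ℕ, ∀ M ≥ M0, ∀ e' e'' : Fin (K + 1) → Fin K,
    ‖EA w.factorial D (inv0 w.factorial (kk w K e')) M g -
      EA w.factorial D (inv0 w.factorial (kk w K e'')) M g‖ ≤ C * er g K + η

/-- [RVy] (EASY) `VYR` does not depend on `e'` up to the error, and `|UXR|, |UZR|, |VYR| ≤ 1` (for `M ≥ 1`).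
`BFR` of a product `F a * G n` is `EA .. F * ENR w! M G` (`StDPd`), all factors have modulus `≤ 1`
(`cm_le`, `gP_le`, `pow_le`, `bx_le` in `HD/I_DFi.lean`, namespace `DFi`), so
`|VYR e' - VYR e''| ≤ |EA .. g - EA .. g|`. (hPd : StDPd) (hTl : StDTl) (hVe : StRVe) -/
def StRVy : Prop := ∃ C : ℝ, 0 < C ∧
  (∀ (g : ℕ → ℂ), G1 g → ∀ E w K : ℕ, 1 ≤ E → 2 ≤ w → w ≤ K → ∀ η : ℝ, 0 < η →
    ∃ M0 : ℕ, ∀ M ≥ M0, ∀ e' e'' : Fin (K + 1) → Fin K,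
      ‖VYR g E w K e' M - VYR g E w K e'' M‖ ≤ C * er g K + η) ∧
  ∀ (f g : ℕ → ℂ) (t : ℝ), CM f → G1 g → ∀ (E w K : ℕ) (e' : Fin (K + 1) → Fin K) (M : ℕ),
    ‖UXR f g t E w K e' M‖ ≤ 1 ∧ ‖UZR f g t E w K e' M‖ ≤ 1 ∧ ‖VYR g E w K e' M‖ ≤ 1

/-! ## 3. Functions of finite order: `f p ^ E = 1` for all primes, `t = 0` -/

/-- [RFv] (EASY) roots of unity: `|1 - z| ≤ N |1 - z|²` if `z^N = 1`. For `z ≠ 1`:
`1 + z + ... + z^(N-1) = 0`, so `N = ∑_(j<N) (1 - z^j)`, `|1 - z^j| ≤ j |1 - z|`, `N ≤ N² |1 - z|`. -/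
def StRFv : Prop := ∀ (z : ℂ) (N : ℕ), 1 ≤ N → z ^ N = 1 → ‖1 - z‖ ≤ N * ‖1 - z‖ ^ 2

/-- [RcT] (EASY) the constants of concentration are close to `1` if `|1 - g p| ≤ B |1 - g p|²` for the primes
`p > K`: by (i) of `StDEx` (with `w = 0`; the exponents have real part `≤ 0`)
`|cL - 1| ≤ ∑_(p ∈ pr4) |g p - 1|/p ≤ B ∑ |g p - 1|²/p ≤ B tl g K`, and twice that for `cQ`.
(hEx : StDEx) (hTl : StDTl) -/
def StRcT : Prop := ∀ g : ℕ → ℂ, G1 g → ∀ (B : ℝ) (K : ℕ), 0 ≤ B →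
  (∀ p : ℕ, p.Prime → K < p → ‖1 - g p‖ ≤ B * ‖1 - g p‖ ^ 2) → ∀ M : ℕ,
    ‖cL g K M - 1‖ ≤ B * tl g K ∧ ‖cQ g K M - 1‖ ≤ 2 * B * tl g K

/-- [RX1] (EASY) the exact case. `Dec f g 0 q`, `f p ^ E = 1` for all primes and `g p = 1` for the primes
`p > w`: then `f(x) conj f(y) = 1` for all members, so `CXR = 1` (`M ≥ 1`). Proof: `f n ^ E = 1` for all
`n ≥ 1` (induction on primes, `Nat.recOnMul`), so `f (2 κ) = 1` (`2 κ` is an `E`-th power, `StRK2`);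
`n`, `m = k a + κ n`, `k a`, `m' = k a + 2 κ n` are `≡ 1` mod `w!`, hence mod `q`, and have no prime
factor `≤ w` (`StRPr`, `StRMd`), so `f` of them is `g` of them (`Dec.eq` with `t = 0`), which is `1` (`g` is
`1` on a product of primes `> w`: induction, or `CM`). `x = 2 κ n m`, `y = (k a) m'`. Then the average of the
constant `1` (`StDBx`). (hBx : StDBx) (hK2 : StRK2) (hPr : StRPr) (hMd : StRMd) -/
def StRX1 : Prop := ∀ (f g : ℕ → ℂ) (q : ℕ), Dec f g 0 q → ∀ E w K : ℕ, 1 ≤ E → 2 ≤ w → w ≤ K →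
  q ∣ w.factorial → (∀ p : ℕ, p.Prime → f p ^ E = 1) → (∀ p : ℕ, p.Prime → w < p → g p = 1) →
  ∀ M : ℕ, 1 ≤ M → ∀ (e : Fin (w + 1) → Fin K) (e' : Fin (K + 1) → Fin K),
    CXR f E w K e e' M = 1

/-- [RX2] (EASY-MEDIUM) `CXR = conj g(k) * (a number independent of e, e') + error`. By `StRXm`; here
`f (k')^E = 1`, `f (2 w!)^E = 1` (`f n ^ E = 1` for `n ≥ 1`), `t = 0` (`x ^ 0 = 1`), and
`BFR (f n conj (g a)) = ENR w! M f * EA .. (conj g)` (`StDPd`); `EA (conj g) = conj (EA g)` and `StRVe`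
replace the class of `e'` by that of `e''`. (hXm : StRXm) (hPd : StDPd) (hTl : StDTl) (hVe : StRVe) -/
def StRX2 : Prop := ∃ C : ℝ, 0 < C ∧ ∀ (f g : ℕ → ℂ) (q : ℕ), Dec f g 0 q →
  ∀ E w K : ℕ, 1 ≤ E → 2 ≤ w → w ≤ K → q ∣ w.factorial → (∀ p : ℕ, p.Prime → f p ^ E = 1) →
  ∀ η : ℝ, 0 < η → ∃ M0 : ℕ, ∀ M ≥ M0,
  ∀ (e : Fin (w + 1) → Fin K) (e' e'' : Fin (K + 1) → Fin K),
    ‖CXR f E w K e e' M - conj (g (kk w K e')) * ((cL g K M * conj (cL g K M)) *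
      (ENR w.factorial M f *
        conj (EA w.factorial (DR E w K) (inv0 w.factorial (kk w K e'')) M g)))‖ ≤
      C * eT g 0 w K + η

/-- [RZ2] (EASY-MEDIUM) `CZR` is close to `1`. By `StRZm`; `f (k')^E = f (2 w!)^E = 1`, `t = 0`, so the main
term is `cQ conj cL * BFR (conj (f n) gP g w K n)`; for `n = w! s + 1` `f n = g n = gP g w K n * gT g K n`
(`Dec.eq`, `StDFc`; no prime `≤ w` divides `n`), `|gP| = 1`, so `conj (f n) gP g w K n = conj (gT g K n)`, whose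
average is `conj cL` up to `C er g K + η` (first clause of `StRLm` with `κ = k = 1`, `Q = w!`, `a₀ = inv0 ..`). So
`CZR = cQ (conj cL)² + error`, and `|cQ (conj cL)² - 1| ≤ |cQ - 1| + 2 |cL - 1| ≤ 4 B tl g K` (`StRcT`,
`|cL|, |cQ| ≤ 1` by `StDTl`). (hBx : StDBx) (hZm : StRZm) (hLm : StRLm) (hTl : StDTl) (hFc : StDFc)
(hMd : StDMd) (hcT : StRcT) -/
def StRZ2 : Prop := ∃ C : ℝ, 0 < C ∧ ∀ (f g : ℕ → ℂ) (q : ℕ), Dec f g 0 q →
  ∀ E w K : ℕ, 1 ≤ E → 2 ≤ w → w ≤ K → q ∣ w.factorial → (∀ p : ℕ, p.Prime → f p ^ E = 1) →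
  ∀ B : ℝ, 0 ≤ B → (∀ p : ℕ, p.Prime → K < p → ‖1 - g p‖ ≤ B * ‖1 - g p‖ ^ 2) →
  ∀ η : ℝ, 0 < η → ∃ M0 : ℕ, ∀ M ≥ M0,
  ∀ (e : Fin (w + 1) → Fin K) (e' : Fin (K + 1) → Fin K),
    ‖CZR f E w K e e' M - 1‖ ≤ C * eT g 0 w K + 4 * B * tl g K + η

/-! ## 4. Conclusion -/

/-- [RFi] (MEDIUM) MODULE D′. `Dec f g t q` from `StDDe`; as `HD/I_DFi.lean` (its lemmas `avg_..` apply
verbatim). Case A: `f p₀ ^ E ≠ 1` for a prime `p₀`, `w ≥ p₀, q, 2`: `StRXm`, `StRZm`, `|UXR|, |UZR| ≤ 1`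
(`StRVy`) and `StRKp`. Case B: `f p ^ E = 1` for all primes: `t = 0` and `g p ^ N = 1` for `p ∤ q`,
`N = φ(q) E` (`dec_zero` in `RC/T0.lean`, hypothesis `S_BL`); `B = N` in `StRZ2` (`StRFv`), `tl g K → 0`;
`StRX2` and the average of `conj g(k)` (`StDKp`) if some `g p₁ ≠ 1`, `p₁ > w`, `StRX1` if not. `CYR` in both
cases: `StRYm`, `StRVy`, `StDKp` if some `g p₁ ≠ 1`, `p₁ > w`, the exact clause if not.
(hBL hAv hTl hXm hZm hYm hVy hKp hRKp hDe hFv hX1 hX2 hZ2) -/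
def StRFi : Prop := PWRPret

end Pool.Agent.F0f91f8.RC
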