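import Pool.Agent.Work.MP_0f91f8_co.RC.StmtsD1
import Pool.Agent.Work.MP_0f91f8_co.HD.I_DGc

/-!
# Relative collision theorem, module D', item RGc: common prime factors of `a` and `n`
-/

set_option autoImplicit false

namespace Pool.Agent.F0f91f8.HD

open Filter Topology ComplexConjugate
open scoped BigOperators

namespace IRGc

theorem BR_eq' (Q D a₀ M : ℕ) (G : ℕ → ℕ → ℝ) :
    (BR Q D a₀ M fun a s => G a (Q * s + 1)) = (∑ x ∈ Finset.Icc 1 M ×ˢ Finset.Icc 1 M,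
      ∑ y ∈ Finset.Icc 1 (D * M) ×ˢ Finset.Icc 1 (D * M),
        G (Q * (y.1 + y.2) + a₀) (Q * (x.1 + x.2) + 1)) /
          ((M : ℝ) ^ 2 * ((D * M : ℕ) : ℝ) ^ 2) :=
  IDGc.BR_eq Q D a₀ M (fun a s => G a (Q * s + 1))

end IRGc

open IDGc IRGc in
theorem pr_RGc : StRGc := by
  classical
  intro K Q D hK hQ hD hKQ η hη
  refine ⟨⌈6 * (Q : ℝ) / η⌉₊ + 1, ?_⟩
  intro M hM a₀ _
  have hM1 : 1 ≤ M := by omega
  have hM0 : (0 : ℝ) < M := by exact_mod_cast hM1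
  have hL1 : M ≤ D * M := Nat.le_mul_of_pos_left M hD
  have hLM : (M : ℝ) ≤ ((D * M : ℕ) : ℝ) := by exact_mod_cast hL1
  have hL0 : (0 : ℝ) < ((D * M : ℕ) : ℝ) := lt_of_lt_of_le hM0 hLM
  have hK0 : (0 : ℝ) < K := by exact_mod_cast hK
  have hQ0 : (0 : ℝ) < Q := by exact_mod_cast hQ
  have hden : 0 < (M : ℝ) ^ 2 * ((D * M : ℕ) : ℝ) ^ 2 := by positivity
  have hnQ : ∀ p : ℕ, p.Prime → K < p → ¬ p ∣ Q := fun p hp hKp hd => by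
    have := hKQ p hp hd
    omega
  have hMQ : 6 * (Q : ℝ) / M ≤ η := by
    have h1 : 6 * (Q : ℝ) / η ≤ M := by
      refine (Nat.le_ceil _).trans ?_
      exact_mod_cast (by omega : ⌈6 * (Q : ℝ) / η⌉₊ ≤ M)
    rw [div_le_iff₀ hη] at h1
    rw [div_le_iff₀ hM0]
    linarith
  rw [BR_eq', div_le_iff₀ hden]
  set PP : Finset ℕ := (Finset.Ioc K (3 * (Q * M))).filter Nat.Prime with hPP
  have h1 : ∀ x ∈ Finset.Icc 1 M ×ˢ Finset.Icc 1 M,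
      ∀ y ∈ Finset.Icc 1 (D * M) ×ˢ Finset.Icc 1 (D * M),
      iGc K (Q * (y.1 + y.2) + a₀) (Q * (x.1 + x.2) + 1) ≤
        ∑ p ∈ PP, (if p ∣ Q * (x.1 + x.2) + 1 then (1 : ℝ) else 0) *
          (if p ∣ Q * (y.1 + y.2) + a₀ then (1 : ℝ) else 0) := by
    intro x hx y _
    have hx' := Finset.mem_product.1 hx
    have hx1 := Finset.mem_Icc.1 hx'.1
    have hx2 := Finset.mem_Icc.1 hx'.2
    have hnn : ∀ p ∈ PP, (0 : ℝ) ≤ (if p ∣ Q * (x.1 + x.2) + 1 then (1 : ℝ) else 0) *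
          (if p ∣ Q * (y.1 + y.2) + a₀ then (1 : ℝ) else 0) := by
      intro p _
      split_ifs <;> norm_num
    unfold iGc
    split_ifs with hex
    · obtain ⟨p, hp, hKp, hpa, hpn⟩ := hex
      have hple : p ≤ Q * (x.1 + x.2) + 1 := Nat.le_of_dvd (by omega) hpn
      have h2 : Q * (x.1 + x.2) ≤ Q * (2 * M) := Nat.mul_le_mul_left Q (by omega)
      have h3 : 1 ≤ Q * M := Nat.mul_pos hQ hM1
      have h4 : Q * (2 * M) = 2 * (Q * M) := by ring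
      have hpP : p ∈ PP := Finset.mem_filter.2 ⟨Finset.mem_Ioc.2 ⟨hKp, by omega⟩, hp⟩
      refine le_trans (le_of_eq ?_) (Finset.single_le_sum hnn hpP)
      rw [if_pos hpn, if_pos hpa, mul_one]
    · exact Finset.sum_nonneg hnn
  have h2 : ∑ x ∈ Finset.Icc 1 M ×ˢ Finset.Icc 1 M,
      ∑ y ∈ Finset.Icc 1 (D * M) ×ˢ Finset.Icc 1 (D * M),
      iGc K (Q * (y.1 + y.2) + a₀) (Q * (x.1 + x.2) + 1) ≤
      ∑ p ∈ PP, (∑ x ∈ Finset.Icc 1 M ×ˢ Finset.Icc 1 M,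
          (if p ∣ Q * (x.1 + x.2) + 1 then (1 : ℝ) else 0)) *
        (∑ y ∈ Finset.Icc 1 (D * M) ×ˢ Finset.Icc 1 (D * M),
          (if p ∣ Q * (y.1 + y.2) + a₀ then (1 : ℝ) else 0)) := by
    refine (Finset.sum_le_sum fun x hx => Finset.sum_le_sum fun y hy => h1 x hx y hy).trans
      (le_of_eq ?_)
    rw [Finset.sum_congr rfl fun x _ => Finset.sum_comm, Finset.sum_comm]
    refine Finset.sum_congr rfl fun p _ => ?_
    rw [Finset.sum_mul_sum]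
  refine h2.trans ?_
  have h3 : ∀ p ∈ PP, (∑ x ∈ Finset.Icc 1 M ×ˢ Finset.Icc 1 M,
          (if p ∣ Q * (x.1 + x.2) + 1 then (1 : ℝ) else 0)) *
        (∑ y ∈ Finset.Icc 1 (D * M) ×ˢ Finset.Icc 1 (D * M),
          (if p ∣ Q * (y.1 + y.2) + a₀ then (1 : ℝ) else 0)) ≤
        (2 * ((M : ℝ) ^ 2 * ((D * M : ℕ) : ℝ) ^ 2)) * (1 / (p : ℝ) ^ 2) +
          2 * ((D * M : ℕ) : ℝ) ^ 2 := by
    intro p hp
    obtain ⟨hp1, hp2⟩ := Finset.mem_filter.1 hp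
    obtain ⟨hp3, hp4⟩ := Finset.mem_Ioc.1 hp1
    have hp0 : (0 : ℝ) < p := by exact_mod_cast hp2.pos
    have hA := ca p M Q 1 hp2 (hnQ p hp2 hp3)
    have hB := ca p (D * M) Q a₀ hp2 (hnQ p hp2 hp3)
    have hB' : ((D * M : ℕ) : ℝ) * (((D * M : ℕ) : ℝ) / p + 1) ≤
        ((D * M : ℕ) : ℝ) ^ 2 * (1 / p + 1 / M) := by
      have h4 : (1 : ℝ) ≤ ((D * M : ℕ) : ℝ) * (1 / M) := by
        rw [mul_one_div, le_div_iff₀ hM0]
        linarith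
      calc ((D * M : ℕ) : ℝ) * (((D * M : ℕ) : ℝ) / p + 1) ≤
            ((D * M : ℕ) : ℝ) * (((D * M : ℕ) : ℝ) / p + ((D * M : ℕ) : ℝ) * (1 / M)) :=
            mul_le_mul_of_nonneg_left (by linarith) hL0.le
        _ = _ := by ring
    have hA' : (M : ℝ) * ((M : ℝ) / p + 1) = (M : ℝ) ^ 2 * (1 / p + 1 / M) := by
      field_simp
    have hBnn : (0 : ℝ) ≤ ∑ y ∈ Finset.Icc 1 (D * M) ×ˢ Finset.Icc 1 (D * M),
          (if p ∣ Q * (y.1 + y.2) + a₀ then (1 : ℝ) else 0) :=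
      Finset.sum_nonneg fun _ _ => by split_ifs <;> norm_num
    rw [hA'] at hA
    refine (mul_le_mul hA (hB.trans hB') hBnn (by positivity)).trans ?_
    have h5 : (1 / (p : ℝ) + 1 / M) ^ 2 ≤ 2 * (1 / (p : ℝ) ^ 2) + 2 * (1 / (M : ℝ) ^ 2) := by
      have h6 : 1 / (p : ℝ) ^ 2 = (1 / (p : ℝ)) ^ 2 := by rw [one_div_pow]
      have h7 : 1 / (M : ℝ) ^ 2 = (1 / (M : ℝ)) ^ 2 := by rw [one_div_pow]
      rw [h6, h7]
      nlinarith [sq_nonneg (1 / (p : ℝ) - 1 / M)]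
    calc (M : ℝ) ^ 2 * (1 / p + 1 / M) * (((D * M : ℕ) : ℝ) ^ 2 * (1 / p + 1 / M)) =
          ((M : ℝ) ^ 2 * ((D * M : ℕ) : ℝ) ^ 2) * (1 / (p : ℝ) + 1 / M) ^ 2 := by ring
      _ ≤ ((M : ℝ) ^ 2 * ((D * M : ℕ) : ℝ) ^ 2) *
            (2 * (1 / (p : ℝ) ^ 2) + 2 * (1 / (M : ℝ) ^ 2)) :=
          mul_le_mul_of_nonneg_left h5 hden.le
      _ = (2 * ((M : ℝ) ^ 2 * ((D * M : ℕ) : ℝ) ^ 2)) * (1 / (p : ℝ) ^ 2) +
            2 * ((D * M : ℕ) : ℝ) ^ 2 * ((M : ℝ) ^ 2 * (1 / (M : ℝ) ^ 2)) := by ring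
      _ = _ := by
          rw [mul_one_div_cancel (by positivity), mul_one]
  refine (Finset.sum_le_sum h3).trans ?_
  rw [Finset.sum_add_distrib, ← Finset.mul_sum, Finset.sum_const, nsmul_eq_mul]
  have h4 := sqs K (3 * (Q * M)) hK PP (fun n hn => by
    exact Finset.mem_Ioc.1 (Finset.mem_filter.1 hn).1)
  have h5 := mul_le_mul_of_nonneg_left h4
    (show (0 : ℝ) ≤ 2 * ((M : ℝ) ^ 2 * ((D * M : ℕ) : ℝ) ^ 2) by positivity)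
  have hcard : (PP.card : ℝ) ≤ 3 * (Q * M) := by
    have h6 : PP.card ≤ 3 * (Q * M) := by
      refine (Finset.card_filter_le _ _).trans ?_
      rw [Nat.card_Ioc]
      omega
    exact_mod_cast h6
  have h6 : (PP.card : ℝ) * (2 * ((D * M : ℕ) : ℝ) ^ 2) ≤
      η * ((M : ℝ) ^ 2 * ((D * M : ℕ) : ℝ) ^ 2) := by
    calc (PP.card : ℝ) * (2 * ((D * M : ℕ) : ℝ) ^ 2) ≤
          (3 * (Q * M)) * (2 * ((D * M : ℕ) : ℝ) ^ 2) :=
          mul_le_mul_of_nonneg_right hcard (by positivity)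
      _ = (6 * (Q : ℝ) / M) * ((M : ℝ) ^ 2 * ((D * M : ℕ) : ℝ) ^ 2) := by
          field_simp
          ring
      _ ≤ η * ((M : ℝ) ^ 2 * ((D * M : ℕ) : ℝ) ^ 2) :=
          mul_le_mul_of_nonneg_right hMQ hden.le
  have h7 : (2 : ℝ) * (1 / K) ≤ 10 / K := by
    rw [mul_one_div]
    gcongr
    norm_num
  have h8 : 2 * ((M : ℝ) ^ 2 * ((D * M : ℕ) : ℝ) ^ 2) * (1 / (K : ℝ)) ≤
      10 / K * ((M : ℝ) ^ 2 * ((D * M : ℕ) : ℝ) ^ 2) := by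
    calc 2 * ((M : ℝ) ^ 2 * ((D * M : ℕ) : ℝ) ^ 2) * (1 / (K : ℝ)) =
          (2 * (1 / K)) * ((M : ℝ) ^ 2 * ((D * M : ℕ) : ℝ) ^ 2) := by ring
      _ ≤ 10 / K * ((M : ℝ) ^ 2 * ((D * M : ℕ) : ℝ) ^ 2) :=
          mul_le_mul_of_nonneg_right h7 hden.le
  calc _ ≤ 10 / K * ((M : ℝ) ^ 2 * ((D * M : ℕ) : ℝ) ^ 2) +
        η * ((M : ℝ) ^ 2 * ((D * M : ℕ) : ℝ) ^ 2) := add_le_add (h5.trans h8) h6
    _ = (10 / K + η) * ((M : ℝ) ^ 2 * ((D * M : ℕ) : ℝ) ^ 2) := by ring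

end Pool.Agent.F0f91f8.HD
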