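import Pool.Agent.Work.MP_0f91f8_co.RC.StmtsD1

/-!
# Relative collision theorem, module D', part 1, item RMd: congruences and small primes
-/

set_option autoImplicit false

namespace Pool.Agent.F0f91f8.HD

open Filter Topology ComplexConjugate
open scoped BigOperators

namespace IRMd

theorem ndvd {W x p : ℕ} (h : x % W = 1 % W) (hp : p.Prime) (hpW : p ∣ W) : ¬ p ∣ x := by
  intro hx
  have h1 : x ≡ 1 [MOD W] := h
  have h2 : x ≡ 1 [MOD p] := h1.of_dvd hpW
  have h3 : x ≡ 0 [MOD p] := (Nat.modEq_zero_iff_dvd).2 hx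
  have h4 : 1 ≡ 0 [MOD p] := h2.symm.trans h3
  exact hp.one_lt.ne' (Nat.dvd_one.1 ((Nat.modEq_zero_iff_dvd).1 h4))

theorem mod_add {W x : ℕ} (h : x % W = 1 % W) (c : ℕ) : (x + W * c) % W = 1 % W := by
  rw [Nat.add_mul_mod_self_left, h]

end IRMd

open IRMd in
/-- Item RMd. -/
theorem pr_RMd : StRMd := by
  intro w K κ k hPar a n m1
  obtain ⟨c, hc⟩ := hPar.κd
  set W := w.factorial with hWd
  have m2 : (k * a + κ * n) % W = 1 % W := by
    rw [hc, mul_assoc]
    exact mod_add m1 _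
  have m3 : (k * a + 2 * (κ * n)) % W = 1 % W := by
    have h1 : 2 * (κ * n) = W * (2 * c * n) := by rw [hc]; ring
    rw [h1]
    exact mod_add m1 _
  have m4 : tZ κ k a n % W = 1 % W := by
    unfold tZ
    have h1 : (k * a + κ * n) ^ 2 + (κ * n) ^ 2 =
        (k * a + κ * n) ^ 2 + W * (c * n * (κ * n)) := by
      have h2 : (κ * n) ^ 2 = W * (c * n * (κ * n)) := by
        rw [pow_two]
        nth_rewrite 1 [hc]
        ring
      rw [h2]
    rw [h1]
    refine mod_add ?_ _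
    have h2 : (k * a + κ * n) ≡ 1 [MOD W] := m2
    have h3 := h2.pow 2
    rw [one_pow] at h3
    exact h3
  refine ⟨m2, m3, m4, fun p hp hpw => ?_⟩
  have hpW : p ∣ W := (hp.dvd_factorial).2 hpw
  exact ⟨fun h => ndvd m1 hp hpW (h.mul_left k), fun h => ndvd m1 hp hpW (h.mul_right a),
    ndvd m2 hp hpW, ndvd m3 hp hpW, ndvd m4 hp hpW⟩

end Pool.Agent.F0f91f8.HD
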