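import Pool.Agent.Work.MP_0f91f8_co.RC.StmtsD1
import Pool.Agent.Work.MP_0f91f8_co.HD.I_DPX

/-!
# Relative collision theorem, item RPX: pointwise approximation of `f(x) conj f(y)`
-/

set_option autoImplicit false

namespace Pool.Agent.F0f91f8.HD

open Filter Topology ComplexConjugate
open scoped BigOperators

open IDPX in
theorem pr_RPX (hFc : StDFc) (hMd : StRMd) (hSp : StRSp) (hAr : StDAr) (hTl : StDTl) :
    StRPX := by
  intro f g t q hD w K κ k hw hwK hq hP M a n hmod ha hn
  obtain ⟨c2, c3, -, c5⟩ := hMd w K κ k hP a n hmod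
  obtain ⟨-, -, -, -, -, hc, -⟩ := hTl g hD.hg
  have hκ0 : 0 < κ := hP.κ0
  have hk0 : 0 < k := hP.k0
  have hka : 0 < k * a := Nat.mul_pos hk0 ha
  have hm : 0 < k * a + κ * n := by omega
  have hm' : 0 < k * a + 2 * (κ * n) := by omega
  have hf := hD.hf
  have hg := hD.hg.cm
  have hK : 1 ≤ K := by omega
  have fa : f (k * a) = E t (k * a) * (g k * g a) := by
    rw [hD.eq _ hka (mod_of_dvd hq hmod), hD.hg.cm.2.1]
    rfl
  have fm : f (k * a + κ * n) = E t (k * a + κ * n) * g (k * a + κ * n) := by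
    rw [hD.eq _ (by omega) (mod_of_dvd hq c2)]
    rfl
  have fm' : f (k * a + 2 * (κ * n)) = E t (k * a + 2 * (κ * n)) * g (k * a + 2 * (κ * n)) := by
    rw [hD.eq _ (by omega) (mod_of_dvd hq c3)]
    rfl
  have ex : f (tX κ k a n) = f (2 * κ) * f n * f (k * a + κ * n) := by
    rw [← hf.2.1, ← hf.2.1]
    congr 1
    unfold tX
    ring
  have ey : f (tY κ k a n) = f (k * a) * f (k * a + 2 * (κ * n)) := by
    rw [← hf.2.1]
    rfl
  have main := two
    (E t (k * a + κ * n) * conj (E t (k * a)) * conj (E t (k * a + 2 * (κ * n))))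
    (conj (E t (k * a)))
    (g (k * a + κ * n) * conj (g (k * a + 2 * (κ * n))))
    (cL g K M * conj (cL g K M))
    (by rw [norm_conj]; exact (norm_E t hka).le)
    (by
      rw [norm_mul, norm_conj]
      exact mul_le_one₀ (norm_le hg (by omega)) (norm_nonneg _) (norm_le hg (by omega)))
  have h1 : ‖E t (k * a + κ * n) * conj (E t (k * a)) * conj (E t (k * a + 2 * (κ * n))) -
      conj (E t (k * a))‖ ≤ 10 * |t| / K +
        2 * (if K * (κ * n) > 2 * (k * a) then 1 else 0) := by
    refine arch (by positivity) ?_ ?_ fun hP => ?_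
    · rw [norm_mul, norm_mul, norm_conj, norm_conj, norm_E t hka, norm_E t (by omega),
        norm_E t (by omega)]
      norm_num
    · rw [norm_conj, norm_E t hka]
    · exact (hAr t K κ k a n hK hκ0 hk0 ha hn (not_lt.1 hP)).1
  have h2 := gg (G1 := g (k * a + κ * n)) (G2 := g (k * a + 2 * (κ * n))) (P := 1)
    (C1 := cL g K M) (C2 := cL g K M) (T1 := gT g K (k * a + κ * n))
    (T2 := gT g K (k * a + 2 * (κ * n))) (iPq01 w n)
    (norm_le hg (by omega)) (norm_le hg (by omega)) (by norm_num)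
    (hFc g hg w K (k * a + κ * n) (by omega) hwK).2.2.le (hc K M).1 (hc K M).1 (by
      intro h0
      obtain ⟨s1, s2, -⟩ := hSp g hg w K κ k hw hwK hP a n ha hn (iPq0 h0)
      rw [gval hFc hg hm hwK (fun p hp hpw => (c5 p hp hpw).2.2.1),
        gval hFc hg hm' hwK (fun p hp hpw => (c5 p hp hpw).2.2.2.1), s1, s2, map_mul]
      have h5 := mul_conj_one (hFc g hg w K n hn hwK).2.1
      calc gP g w K n * gT g K (k * a + κ * n) *
            (conj (gP g w K n) * conj (gT g K (k * a + 2 * (κ * n)))) =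
          (gP g w K n * conj (gP g w K n)) *
            (gT g K (k * a + κ * n) * conj (gT g K (k * a + 2 * (κ * n)))) := by ring
        _ = _ := by rw [h5])
  rw [one_mul] at h2
  have e1 : f (tX κ k a n) * conj (f (tY κ k a n)) -
      f (2 * κ) * (conj (g k) * (cL g K M * conj (cL g K M)) *
        (f n * conj (((k * a : ℕ) : ℂ) ^ (t * Complex.I)) * conj (g a))) =
      (f (2 * κ) * f n * conj (g k) * conj (g a)) *
      (E t (k * a + κ * n) * conj (E t (k * a)) * conj (E t (k * a + 2 * (κ * n))) *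
          (g (k * a + κ * n) * conj (g (k * a + 2 * (κ * n)))) -
        conj (E t (k * a)) * (cL g K M * conj (cL g K M))) := by
    rw [ex, ey, fa, fm, fm', map_mul, map_mul, map_mul, map_mul]
    unfold E
    ring
  rw [e1, norm_mul]
  have e2 : ‖f (2 * κ) * f n * conj (g k) * conj (g a)‖ = 1 := by
    rw [norm_mul, norm_mul, norm_mul, norm_conj, norm_conj,
      hf.2.2 _ (Nat.mul_pos two_pos hκ0), hf.2.2 _ hn, hg.2.2 _ hk0, hg.2.2 _ ha]
    norm_num
  rw [e2, one_mul]
  linarith

end Pool.Agent.F0f91f8.HD
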