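import Pool.Agent.Work.MP_0f91f8_co.RC.StmtsD1
import Pool.Agent.Work.MP_0f91f8_co.HD.I_DPY

/-!
# Relative collision theorem, item RPY: pointwise approximation of `f(y) conj f(z)`
-/

set_option autoImplicit false

namespace Pool.Agent.F0f91f8.HD

open Filter Topology ComplexConjugate
open scoped BigOperators

namespace IRPY

open IDPX

/-- data at a point -/
structure DatR (f g : ℕ → ℂ) (t : ℝ) (w κ k a n : ℕ) : Prop where
  cp : ∀ p : ℕ, p.Prime → p ≤ w → ¬ p ∣ k
  fa : f (k * a) = E t (k * a) * (g k * g a)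
  fm' : f (k * a + 2 * (κ * n)) = E t (k * a + 2 * (κ * n)) * g (k * a + 2 * (κ * n))
  fz : f (tZ κ k a n) = E t (tZ κ k a n) * g (tZ κ k a n)
  da : ∀ p : ℕ, p.Prime → p ≤ w → ¬ p ∣ a
  dm' : ∀ p : ℕ, p.Prime → p ≤ w → ¬ p ∣ k * a + 2 * (κ * n)
  dz : ∀ p : ℕ, p.Prime → p ≤ w → ¬ p ∣ tZ κ k a n

lemma datR (hMd : StRMd) {f g : ℕ → ℂ} {t : ℝ} {q : ℕ} (hD : Dec f g t q) {w K κ k : ℕ}
    (hq : q ∣ w.factorial) (hP : Par w K κ k) {a n : ℕ}
    (hka : (k * a) % w.factorial = 1 % w.factorial) (ha : 0 < a) :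
    DatR f g t w κ k a n := by
  obtain ⟨c2, c3, c4, c5⟩ := hMd w K κ k hP a n hka
  have ka : 0 < k * a := Nat.mul_pos hP.k0 ha
  refine ⟨fun p hp hpw => (c5 p hp hpw).2.1, ?_, ?_, ?_, fun p hp hpw => (c5 p hp hpw).1,
    fun p hp hpw => (c5 p hp hpw).2.2.2.1, fun p hp hpw => (c5 p hp hpw).2.2.2.2⟩
  · rw [hD.eq _ ka (mod_of_dvd hq hka), hD.hg.cm.2.1]
    rfl
  · rw [hD.eq _ (by omega) (mod_of_dvd hq c3)]
    rfl
  · rw [hD.eq _ (tZ_pos hP.k0 ha) (mod_of_dvd hq c4)]
    rfl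

end IRPY

open IDPX IDPY IRPY in
theorem pr_RPY (hFc : StDFc) (hMd : StRMd) (hSp : StRSp) (hAr : StDAr) (hTl : StDTl) : StRPY := by
  intro f g t q hD w K κ k hw hwK hq hP M a n hka1 ha hn
  have hd := datR hMd hD hq hP (n := n) hka1 ha
  obtain ⟨-, -, -, -, -, hc, -⟩ := hTl g hD.hg
  have hκ0 : 0 < κ := hP.κ0
  have hk0 : 0 < k := hP.k0
  have hka : 0 < k * a := Nat.mul_pos hk0 ha
  have hm' : 0 < k * a + 2 * (κ * n) := by omega
  have hz : 0 < tZ κ k a n := tZ_pos hk0 ha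
  have hf := hD.hf
  have hg := hD.hg.cm
  have hK : 1 ≤ K := by omega
  have ey : f (tY κ k a n) = f (k * a) * f (k * a + 2 * (κ * n)) := by
    rw [← hf.2.1]
    rfl
  have h1 : ‖E t (k * a) * E t (k * a + 2 * (κ * n)) * conj (E t (tZ κ k a n)) - 1‖ ≤
      10 * |t| / K + 2 * (if K * (κ * n) > 2 * (k * a) then 1 else 0) := by
    refine arch (by positivity) ?_ (by norm_num) fun hP => ?_
    · rw [norm_mul, norm_mul, norm_conj, norm_E t hz, norm_E t hm', norm_E t hka]
      norm_num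
    · exact (hAr t K κ k a n hK hκ0 hk0 ha hn (not_lt.1 hP)).2.2
  refine ⟨?_, fun hg1 => ?_⟩
  · have main := two
      (E t (k * a) * E t (k * a + 2 * (κ * n)) * conj (E t (tZ κ k a n)))
      1
      (g (k * a + 2 * (κ * n)) * conj (g (tZ κ k a n)))
      (conj (gP g w K n) * (cL g K M * conj (cQ g K M)))
      (by norm_num)
      (by
        rw [norm_mul, norm_conj]
        exact mul_le_one₀ (norm_le hg hm') (norm_nonneg _) (norm_le hg hz))
    have h2 := gg (G1 := g (k * a + 2 * (κ * n))) (G2 := g (tZ κ k a n))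
      (P := conj (gP g w K n))
      (C1 := cL g K M) (C2 := cQ g K M) (T1 := gT g K (k * a + 2 * (κ * n)))
      (T2 := gT g K (tZ κ k a n)) (iPq01 w n)
      (norm_le hg hm') (norm_le hg hz)
      (by rw [norm_conj]; exact (hFc g hg w K n hn hwK).2.1.le)
      (hFc g hg w K (k * a + 2 * (κ * n)) hm' hwK).2.2.le (hc K M).1 (hc K M).2 (by
        intro h0
        obtain ⟨-, s2, s3⟩ := hSp g hg w K κ k hw hwK hP a n ha hn (iPq0 h0)
        rw [gval hFc hg hz hwK hd.dz, gval hFc hg hm' hwK hd.dm', s2, s3, map_mul, map_pow]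
        have h5 := mul_conj_one (hFc g hg w K n hn hwK).2.1
        calc gP g w K n * gT g K (k * a + 2 * (κ * n)) *
              (conj (gP g w K n) ^ 2 * conj (gT g K (tZ κ k a n))) =
            (gP g w K n * conj (gP g w K n)) *
              (conj (gP g w K n) *
                (gT g K (k * a + 2 * (κ * n)) * conj (gT g K (tZ κ k a n)))) := by ring
          _ = _ := by rw [h5, one_mul])
    have e1 : f (tY κ k a n) * conj (f (tZ κ k a n)) -
        g k * (cL g K M * conj (cQ g K M) * (g a * conj (gP g w K n))) =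
        (g k * g a) *
        (E t (k * a) * E t (k * a + 2 * (κ * n)) * conj (E t (tZ κ k a n)) *
            (g (k * a + 2 * (κ * n)) * conj (g (tZ κ k a n))) -
          1 * (conj (gP g w K n) * (cL g K M * conj (cQ g K M)))) := by
      rw [ey, hd.fz, hd.fm', hd.fa, map_mul]
      ring
    rw [e1, norm_mul]
    have e2 : ‖g k * g a‖ = 1 := by
      rw [norm_mul, hg.2.2 _ hk0, hg.2.2 _ ha]
      norm_num
    rw [e2, one_mul]
    linarith
  · have g1 : g k = 1 := g_one hg hg1 k hk0 hd.cp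
    have g2 : g a = 1 := g_one hg hg1 a ha hd.da
    have g3 : g (k * a + 2 * (κ * n)) = 1 := g_one hg hg1 _ hm' hd.dm'
    have g4 : g (tZ κ k a n) = 1 := g_one hg hg1 _ hz hd.dz
    have e1 : f (tY κ k a n) * conj (f (tZ κ k a n)) =
        1 + (E t (k * a) * E t (k * a + 2 * (κ * n)) * conj (E t (tZ κ k a n)) - 1) := by
      rw [ey, hd.fz, hd.fm', hd.fa, g1, g2, g3, g4, map_mul, map_one]
      ring
    rw [e1, Complex.add_re, Complex.one_re]
    have h6 := Complex.abs_re_le_norm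
      (E t (k * a) * E t (k * a + 2 * (κ * n)) * conj (E t (tZ κ k a n)) - 1)
    have h7 := neg_abs_le
      (E t (k * a) * E t (k * a + 2 * (κ * n)) * conj (E t (tZ κ k a n)) - 1).re
    linarith

end Pool.Agent.F0f91f8.HD
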