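import Pool.Agent.Work.MP_0f91f8_co.RC.StmtsD1
import Pool.Agent.Work.MP_0f91f8_co.HD.I_DPX

/-!
# Relative collision theorem, module D', item RPZ: pointwise approximation of `f(z) conj f(x)`
(helper24, copy of `HD/I_DPZ.lean` of helper33)
-/

set_option autoImplicit false

namespace Pool.Agent.F0f91f8.HD

open Filter Topology ComplexConjugate
open scoped BigOperators

open IDPX in
theorem pr_RPZ (hFc : StDFc) (hMd : StRMd) (hSp : StRSp) (hAr : StDAr) (hTl : StDTl) : StRPZ := by
  intro f g t q hD w K κ k hw hwK hq hPar M a n hka1 ha hn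
  obtain ⟨c2, -, c4, c5⟩ := hMd w K κ k hPar a n hka1
  obtain ⟨-, -, -, -, -, hc, -⟩ := hTl g hD.hg
  have hκ0 : 0 < κ := hPar.κ0
  have hk0 : 0 < k := hPar.k0
  have hka : 0 < k * a := Nat.mul_pos hk0 ha
  have hm : 0 < k * a + κ * n := by omega
  have hz : 0 < tZ κ k a n := tZ_pos hk0 ha
  have hf := hD.hf
  have hg := hD.hg.cm
  have hK : 1 ≤ K := by omega
  have hdm : ∀ p : ℕ, p.Prime → p ≤ w → ¬ p ∣ k * a + κ * n :=
    fun p hp hpw => (c5 p hp hpw).2.2.1
  have hdz : ∀ p : ℕ, p.Prime → p ≤ w → ¬ p ∣ tZ κ k a n :=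
    fun p hp hpw => (c5 p hp hpw).2.2.2.2
  have hfm : f (k * a + κ * n) = E t (k * a + κ * n) * g (k * a + κ * n) := by
    rw [hD.eq _ hm (mod_of_dvd hq c2)]
    rfl
  have hfz : f (tZ κ k a n) = E t (tZ κ k a n) * g (tZ κ k a n) := by
    rw [hD.eq _ hz (mod_of_dvd hq c4)]
    rfl
  have ex : f (tX κ k a n) = f (2 * κ) * f n * f (k * a + κ * n) := by
    rw [← hf.2.1, ← hf.2.1]
    congr 1
    unfold tX
    ring
  have main := two
    (E t (tZ κ k a n) * conj (E t (k * a + κ * n)))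
    (E t (k * a))
    (g (tZ κ k a n) * conj (g (k * a + κ * n)))
    (gP g w K n * (cQ g K M * conj (cL g K M)))
    (norm_E t hka).le
    (by
      rw [norm_mul, norm_conj]
      exact mul_le_one₀ (norm_le hg hz) (norm_nonneg _) (norm_le hg hm))
  have h1 : ‖E t (tZ κ k a n) * conj (E t (k * a + κ * n)) - E t (k * a)‖ ≤ 10 * |t| / K +
        2 * (if K * (κ * n) > 2 * (k * a) then 1 else 0) := by
    refine arch (by positivity) ?_ (norm_E t hka).le fun hP => ?_
    · rw [norm_mul, norm_conj, norm_E t hz, norm_E t hm]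
      norm_num
    · exact (hAr t K κ k a n hK hκ0 hk0 ha hn (not_lt.1 hP)).2.1
  have h2 := gg (G1 := g (tZ κ k a n)) (G2 := g (k * a + κ * n)) (P := gP g w K n)
    (C1 := cQ g K M) (C2 := cL g K M) (T1 := gT g K (tZ κ k a n))
    (T2 := gT g K (k * a + κ * n)) (iPq01 w n)
    (norm_le hg hz) (norm_le hg hm) (hFc g hg w K n hn hwK).2.1.le
    (hFc g hg w K (tZ κ k a n) hz hwK).2.2.le (hc K M).2 (hc K M).1 (by
      intro h0
      obtain ⟨s1, -, s3⟩ := hSp g hg w K κ k hw hwK hPar a n ha hn (iPq0 h0)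
      rw [gval hFc hg hz hwK hdz, gval hFc hg hm hwK hdm, s1, s3, map_mul]
      have h5 := mul_conj_one (hFc g hg w K n hn hwK).2.1
      calc gP g w K n ^ 2 * gT g K (tZ κ k a n) *
            (conj (gP g w K n) * conj (gT g K (k * a + κ * n))) =
          (gP g w K n * conj (gP g w K n)) *
            (gP g w K n * (gT g K (tZ κ k a n) * conj (gT g K (k * a + κ * n)))) := by ring
        _ = _ := by rw [h5, one_mul])
  have e1 : f (tZ κ k a n) * conj (f (tX κ k a n)) -
      conj (f (2 * κ)) * ((cQ g K M * conj (cL g K M)) *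
        (conj (f n) * ((k * a : ℕ) : ℂ) ^ (t * Complex.I) * gP g w K n)) =
      (conj (f (2 * κ)) * conj (f n)) *
      (E t (tZ κ k a n) * conj (E t (k * a + κ * n)) *
          (g (tZ κ k a n) * conj (g (k * a + κ * n))) -
        E t (k * a) * (gP g w K n * (cQ g K M * conj (cL g K M)))) := by
    rw [ex, hfz, hfm, map_mul, map_mul, map_mul]
    unfold E
    ring
  rw [e1, norm_mul]
  have e2 : ‖conj (f (2 * κ)) * conj (f n)‖ = 1 := by
    rw [norm_mul, norm_conj, norm_conj, hf.2.2 _ (Nat.mul_pos two_pos hκ0), hf.2.2 _ hn]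
    norm_num
  rw [e2, one_mul]
  linarith

end Pool.Agent.F0f91f8.HD
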