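import Pool.Agent.Work.MP_0f91f8_co.RC.StmtsD1
import Pool.Agent.Work.MP_0f91f8_co.HD.I_DQ1

/-! Item [0f91f8 RC-D1 RQ1]: squares of primes not dividing `a`, relative form. -/

set_option autoImplicit false

namespace Pool.Agent.F0f91f8.HD

open Filter Topology ComplexConjugate
open scoped BigOperators

open IDQ1 in
theorem pr_RQ1 (hRt : StRRt) (hCt : StDCt) : StRQ1 := by
  intro K κ k Q D hK hκ hk hQ hD hp η hη
  obtain ⟨hc1, -, hc3, -, hc5, -⟩ := hCt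
  obtain ⟨M1, hM1⟩ := hc5 (η / 2) (by positivity)
  refine ⟨max M1 1, ?_⟩
  intro M hM a₀ ha₀
  have hMM : M1 ≤ M := le_trans (le_max_left _ _) hM
  have hM0 : 0 < M := le_trans (le_max_right _ _) hM
  have hMp : (0 : ℝ) < M := by exact_mod_cast hM0
  apply BR_le_of_u Q D a₀ M _ _ hM0 hD
  intro u' _ v _ v' _
  set a := Q * (v + v') + a₀ with ha
  have hcard : ((pr4 K M).card : ℝ) ≤ η / 2 * M := by
    have h1 := hM1 M hMM K
    have h2 : ((pr4 K M).card : ℝ) ≤ ((pr4 K M).card : ℝ) ^ 2 := by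
      have : (pr4 K M).card ≤ (pr4 K M).card ^ 2 := Nat.le_self_pow (by norm_num) _
      exact_mod_cast this
    linarith
  have h1 : ∑ u ∈ Finset.Icc 1 M,
      (if ∃ p ∈ pr4 K M, ¬ p ∣ a ∧ p ^ 2 ∣ tZ κ k a (Q * (u + u') + 1) then (1 : ℝ) else 0) ≤
      ∑ u ∈ Finset.Icc 1 M, ∑ p ∈ (pr4 K M).filter (fun p => ¬ p ∣ a),
        (if p ^ 2 ∣ tZ κ k a (Q * (u + u') + 1) then (1 : ℝ) else 0) := by
    apply Finset.sum_le_sum
    intro u _
    split_ifs with hex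
    · obtain ⟨p, hp1, hp2, hp3⟩ := hex
      have hmem : p ∈ (pr4 K M).filter (fun p => ¬ p ∣ a) := Finset.mem_filter.mpr ⟨hp1, hp2⟩
      have h2 := Finset.single_le_sum (f := fun p =>
        (if p ^ 2 ∣ tZ κ k a (Q * (u + u') + 1) then (1 : ℝ) else 0)) (fun q _ => by split_ifs <;> norm_num)
        hmem
      simp only [hp3, if_true] at h2
      exact h2
    · apply Finset.sum_nonneg
      intro q _
      split_ifs <;> norm_num
  refine le_trans h1 ?_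
  rw [Finset.sum_comm]
  have h2 : ∀ p ∈ (pr4 K M).filter (fun p => ¬ p ∣ a),
      ∑ u ∈ Finset.Icc 1 M, (if p ^ 2 ∣ tZ κ k a (Q * (u + u') + 1) then (1 : ℝ) else 0) ≤
      2 * ((M : ℝ) * (1 / (p : ℝ) ^ 2) + 1) := by
    intro p hpm
    have hp1 := Finset.mem_filter.mp hpm
    have hp2 := (Finset.mem_filter.mp hp1.1).2
    have hpr : p.Prime := hp2.1
    have hpK : K < p := hp2.2.1
    have hne2 : p ≠ 2 := by omega
    have hnd : ¬ p ∣ κ * k * a := by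
      intro hd
      rcases (hpr.dvd_mul).mp hd with h3 | h3
      · have := hp p hpr (Dvd.dvd.mul_right h3 Q)
        omega
      · exact hp1.2 h3
    have hnQ : ¬ p ∣ Q := by
      intro hd
      have := hp p hpr (Dvd.dvd.mul_left hd (κ * k))
      omega
    obtain ⟨-, S, hS, hSn⟩ := hRt p κ k a Q hpr hne2 hnd hnQ
    have hpp : 0 < p ^ 2 := pow_pos hpr.pos 2
    have h4 := hc1 (p ^ 2) M u' S hpp
    rw [← Finset.sum_filter, Finset.sum_const, nsmul_eq_mul, mul_one]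
    have h5 : ((((Finset.Icc 1 M).filter fun u => p ^ 2 ∣ tZ κ k a (Q * (u + u') + 1)).card : ℝ)) ≤
        ((((Finset.Icc 1 M).filter fun u => (u + u') % p ^ 2 ∈ S).card : ℝ)) := by
      have : ((Finset.Icc 1 M).filter fun u => p ^ 2 ∣ tZ κ k a (Q * (u + u') + 1)) ⊆
          ((Finset.Icc 1 M).filter fun u => (u + u') % p ^ 2 ∈ S) := by
        intro u hu
        have h6 := Finset.mem_filter.mp hu
        exact Finset.mem_filter.mpr ⟨h6.1, hSn _ h6.2⟩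
      exact_mod_cast Finset.card_le_card this
    have h6 : (0 : ℝ) ≤ (M : ℝ) / ((p ^ 2 : ℕ) : ℝ) + 1 := by positivity
    have h7 : (S.card : ℝ) ≤ 2 := by exact_mod_cast hS
    calc _ ≤ _ := h5
      _ ≤ S.card * ((M : ℝ) / ((p ^ 2 : ℕ) : ℝ) + 1) := h4
      _ ≤ 2 * ((M : ℝ) / ((p ^ 2 : ℕ) : ℝ) + 1) := mul_le_mul_of_nonneg_right h7 h6
      _ = 2 * ((M : ℝ) * (1 / (p : ℝ) ^ 2) + 1) := by push_cast; ring
  refine le_trans (Finset.sum_le_sum h2) ?_
  have h8 : ∑ p ∈ (pr4 K M).filter (fun p => ¬ p ∣ a), 2 * ((M : ℝ) * (1 / (p : ℝ) ^ 2) + 1) ≤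
      ∑ p ∈ pr4 K M, 2 * ((M : ℝ) * (1 / (p : ℝ) ^ 2) + 1) :=
    Finset.sum_le_sum_of_subset_of_nonneg (Finset.filter_subset _ _) (fun p _ _ => by positivity)
  refine le_trans h8 ?_
  rw [← Finset.mul_sum, Finset.sum_add_distrib, ← Finset.mul_sum, Finset.sum_const, nsmul_eq_mul,
    mul_one]
  have h9 := hc3 K M (by omega)
  have h10 : (M : ℝ) * ∑ p ∈ pr4 K M, 1 / (p : ℝ) ^ 2 ≤ M * (1 / (K : ℝ)) :=
    mul_le_mul_of_nonneg_left h9 hMp.le
  calc 2 * ((M : ℝ) * ∑ p ∈ pr4 K M, 1 / (p : ℝ) ^ 2 + ((pr4 K M).card : ℝ)) ≤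
      2 * (M * (1 / (K : ℝ)) + η / 2 * M) := by linarith
    _ = M * (2 / (K : ℝ) + η) := by ring

end Pool.Agent.F0f91f8.HD
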