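import Mathlib
import Pool.Agent.Work.MP_0f91f8_co.RC.StmtsD1
import Pool.Agent.Work.MP_0f91f8_co.HD.I_DQ3

/-!
# Item RQ3 of the block RC-D1: Turan and Kubilius for the norm form, relative version
-/

set_option autoImplicit false

namespace Pool.Agent.F0f91f8.HD

open Filter Topology ComplexConjugate
open scoped BigOperators

namespace IRQ3

open IDQ3 (br_le shift mem_pr4 re_le norm_le)

/-- the inner average -/
theorem inner (hTk : StDTk) (hTl : StDTl) (hCt : StDCt) (hRt : StRRt) {g : ℕ → ℂ} (hg : G1 g)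
    {K κ k Q : ℕ} (hK : 2 ≤ K) (hpr : ∀ p : ℕ, p.Prime → p ∣ κ * k * Q → p ≤ K) {η : ℝ} {M : ℕ}
    (hM : 0 < M) (hη : ((pr4 K M).card : ℝ) ^ 2 ≤ η / 48 * M) (u' a : ℕ) :
    (∑ u ∈ Finset.Icc 1 M,
      ‖(∑ p ∈ (pr4 K M).filter (fun p => ¬ p ∣ a ∧ p ∣ tZ κ k a (Q * (u + u') + 1)), (g p - 1)) -
        ∑ p ∈ (pr4 K M).filter (fun p => ¬ p ∣ a ∧ p % 4 = 1), 2 * (g p - 1) / p‖) / (M : ℝ) ≤
      Real.sqrt (4 * tl g K + η) := by
  classical
  have hMr : (0 : ℝ) < M := by exact_mod_cast hM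
  -- the sets of residues
  have hex : ∀ p : ℕ, ∃ S : Finset ℕ, p ∈ pr4 K M → ¬ p ∣ a →
      S ⊆ Finset.range p ∧ (S.card = if p % 4 = 1 then 2 else 0) ∧
      ∀ u : ℕ, p ∣ tZ κ k a (Q * (u + u') + 1) ↔ u % p ∈ S := by
    intro p
    by_cases hp : p ∈ pr4 K M ∧ ¬ p ∣ a
    · obtain ⟨hpp, hKp⟩ := mem_pr4 hp.1
      have h2 : p ≠ 2 := by omega
      have h3 : ¬ p ∣ κ * k * a := by
        intro h
        rcases hpp.dvd_mul.1 h with h | h
        · have := hpr p hpp (h.mul_right Q)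
          omega
        · exact hp.2 h
      have h4 : ¬ p ∣ Q := by
        intro h
        have := hpr p hpp (h.mul_left (κ * k))
        omega
      obtain ⟨⟨S, hS1, hS2, hS3⟩, -⟩ := hRt p κ k a Q hpp h2 h3 h4
      refine ⟨(Finset.range p).filter (fun r => (r + u') % p ∈ S), fun _ _ => ⟨?_, ?_, ?_⟩⟩
      · exact Finset.filter_subset _ _
      · rw [shift p u' hpp.pos S hS1, hS2]
      · intro u
        rw [hS3, Finset.mem_filter, Finset.mem_range, Nat.mod_add_mod]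
        exact ⟨fun h => ⟨Nat.mod_lt _ hpp.pos, h⟩, fun h => h.2⟩
    · refine ⟨∅, fun h1 h2 => absurd ⟨h1, h2⟩ hp⟩
  choose S hS using hex
  obtain ⟨P0, hP0⟩ : ∃ P0 : Finset ℕ, P0 = (pr4 K M).filter (fun p => ¬ p ∣ a) := ⟨_, rfl⟩
  have hP0m : ∀ p ∈ P0, p ∈ pr4 K M ∧ ¬ p ∣ a := by
    intro p hp
    rw [hP0, Finset.mem_filter] at hp
    exact hp
  have key := hTk P0 S (fun p => g p - 1) M (fun p hp => (mem_pr4 (hP0m p hp).1).1)
    (fun p hp => by
      obtain ⟨h1, h2, -⟩ := hS p (hP0m p hp).1 (hP0m p hp).2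
      refine ⟨h1, ?_⟩
      rw [h2]
      split_ifs <;> norm_num)
    (fun p hp => norm_le hg (mem_pr4 (hP0m p hp).1).1.pos)
  -- identify the two sums
  have e1 : ∀ u : ℕ, (∑ p ∈ P0, if u % p ∈ S p then (g p - 1) else 0) =
      ∑ p ∈ (pr4 K M).filter (fun p => ¬ p ∣ a ∧ p ∣ tZ κ k a (Q * (u + u') + 1)), (g p - 1) := by
    intro u
    rw [← Finset.sum_filter]
    apply Finset.sum_congr
    · ext p
      rw [hP0]
      simp only [Finset.mem_filter]
      constructor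
      · rintro ⟨⟨h1, h2⟩, h3⟩
        exact ⟨h1, h2, ((hS p h1 h2).2.2 u).2 h3⟩
      · rintro ⟨h1, h2, h3⟩
        exact ⟨⟨h1, h2⟩, ((hS p h1 h2).2.2 u).1 h3⟩
    · intro p _
      rfl
  have e2 : ∑ p ∈ P0, ((S p).card : ℂ) * (g p - 1) / p =
      ∑ p ∈ (pr4 K M).filter (fun p => ¬ p ∣ a ∧ p % 4 = 1), 2 * (g p - 1) / p := by
    have h1 : ∀ p ∈ P0, ((S p).card : ℂ) * (g p - 1) / p =
        if p % 4 = 1 then 2 * (g p - 1) / p else 0 := by
      intro p hp
      rw [(hS p (hP0m p hp).1 (hP0m p hp).2).2.1]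
      by_cases h4 : p % 4 = 1
      · rw [if_pos h4, if_pos h4]
        norm_num
      · rw [if_neg h4, if_neg h4]
        simp
    rw [Finset.sum_congr rfl h1, ← Finset.sum_filter, hP0, Finset.filter_filter]
  rw [e2] at key
  simp only [e1] at key
  -- the right side
  have h3 : ∑ p ∈ P0, ((S p).card : ℝ) * ‖g p - 1‖ ^ 2 / p ≤ 2 * tl g K := by
    have h4 : ∑ p ∈ P0, ((S p).card : ℝ) * ‖g p - 1‖ ^ 2 / p ≤
        2 * ∑ p ∈ P0, ‖1 - g p‖ ^ 2 / (p : ℝ) := by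
      rw [Finset.mul_sum]
      refine Finset.sum_le_sum fun p hp => ?_
      have h5 : ((S p).card : ℝ) ≤ 2 := by
        rw [(hS p (hP0m p hp).1 (hP0m p hp).2).2.1]
        split_ifs <;> norm_num
      rw [norm_sub_rev, mul_div_assoc]
      exact mul_le_mul_of_nonneg_right h5 (by positivity)
    have h6 := (hTl g hg).2.2.2.2.1 K P0 (fun p hp => mem_pr4 (hP0m p hp).1)
    linarith
  have h4 : ((P0.card : ℝ)) ^ 2 ≤ η / 48 * M := by
    refine le_trans ?_ hη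
    have : P0.card ≤ (pr4 K M).card := by
      rw [hP0]
      exact Finset.card_filter_le _ _
    have h5 : (P0.card : ℝ) ≤ ((pr4 K M).card : ℝ) := by exact_mod_cast this
    exact pow_le_pow_left₀ (by positivity) h5 2
  refine (hCt.2.2.2.2.2 M _ (fun u => norm_nonneg _)).trans (Real.sqrt_le_sqrt ?_)
  rw [div_le_iff₀ hMr]
  refine key.trans ?_
  have h5 : 2 * (M : ℝ) * (∑ p ∈ P0, ((S p).card : ℝ) * ‖g p - 1‖ ^ 2 / p) ≤
      2 * M * (2 * tl g K) := mul_le_mul_of_nonneg_left h3 (by positivity)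
  linarith

end IRQ3

open IRQ3 in
open IDQ3 (br_le mem_pr4 re_le norm_le) in
/-- Item RQ3. -/
theorem pr_RQ3 (hTk : StDTk) (hEx : StDEx) (hTl : StDTl) (hCt : StDCt) (hRt : StRRt)
    (hGc : StDGc) (hBx : StDBx) : StRQ3 := by
  classical
  intro g hg K κ k Q D hK hκ hk hQ hD hpr η hη
  obtain ⟨M1, hM1⟩ := hCt.2.2.2.2.1 (η / 48) (by positivity)
  obtain ⟨M2, hM2⟩ := hGc K Q D (by omega) hQ hD
    (fun p hp h => hpr p hp (h.mul_left _)) (η / 4) (by positivity)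
  refine ⟨max (max M1 M2) 1, fun M hM a₀ ha₀ => ?_⟩
  have hMM1 : M1 ≤ M := (le_max_left _ _).trans ((le_max_left _ _).trans hM)
  have hMM2 : M2 ≤ M := (le_max_right _ _).trans ((le_max_left _ _).trans hM)
  have hM0 : 0 < M := lt_of_lt_of_le one_pos ((le_max_right _ _).trans hM)
  obtain ⟨-, -, -, hmono, hadd, hsmul, -⟩ := hBx Q D a₀ M
  -- the three functions
  have hpt : ∀ a n : ℕ,
      ‖Complex.exp (∑ p ∈ (pr4 K M).filter (fun p => ¬ p ∣ a ∧ p ∣ tZ κ k a n), (g p - 1)) -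
        cQ g K M‖ ≤
      ‖(∑ p ∈ (pr4 K M).filter (fun p => ¬ p ∣ a ∧ p ∣ tZ κ k a n), (g p - 1)) -
        ∑ p ∈ (pr4 K M).filter (fun p => ¬ p ∣ a ∧ p % 4 = 1), 2 * (g p - 1) / p‖ +
      4 * ∑ p ∈ (pr4 K M).filter (fun p => p ∣ a), 1 / (p : ℝ) := by
    intro a n
    obtain ⟨E, hE⟩ : ∃ E : ℂ,
      E = ∑ p ∈ (pr4 K M).filter (fun p => ¬ p ∣ a ∧ p ∣ tZ κ k a n), (g p - 1) := ⟨_, rfl⟩
    obtain ⟨T, hT⟩ : ∃ T : ℂ,
      T = ∑ p ∈ (pr4 K M).filter (fun p => ¬ p ∣ a ∧ p % 4 = 1), 2 * (g p - 1) / p := ⟨_, rfl⟩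
    obtain ⟨U, hU⟩ : ∃ U : ℂ,
      U = ∑ p ∈ (pr4 K M).filter (fun p => p % 4 = 1), 2 * (g p - 1) / p := ⟨_, rfl⟩
    have hre2 : ∀ p : ℕ, 0 < p → (2 * (g p - 1) / p : ℂ).re ≤ 0 := by
      intro p hp
      have e : (2 * (g p - 1) / p : ℂ) = ((2 / (p : ℝ) : ℝ) : ℂ) * (g p - 1) := by
        push_cast
        ring
      rw [e, Complex.re_ofReal_mul]
      exact mul_nonpos_of_nonneg_of_nonpos (by positivity) (re_le hg hp)
    have hEre : E.re ≤ 0 := by
      rw [hE, Complex.re_sum]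
      refine Finset.sum_nonpos fun p hp => re_le hg ?_
      exact (mem_pr4 (Finset.mem_filter.1 hp).1).1.pos
    have hTre : T.re ≤ 0 := by
      rw [hT, Complex.re_sum]
      refine Finset.sum_nonpos fun p hp => hre2 p ?_
      exact (mem_pr4 (Finset.mem_filter.1 hp).1).1.pos
    have hUre : U.re ≤ 0 := by
      rw [hU, Complex.re_sum]
      refine Finset.sum_nonpos fun p hp => hre2 p ?_
      exact (mem_pr4 (Finset.mem_filter.1 hp).1).1.pos
    have hcQ : cQ g K M = Complex.exp U := by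
      rw [hU]
      rfl
    rw [← hE, ← hT, hcQ]
    have h1 : ‖Complex.exp E - Complex.exp U‖ ≤ ‖E - T‖ + ‖T - U‖ := by
      have e : Complex.exp E - Complex.exp U =
          (Complex.exp E - Complex.exp T) + (Complex.exp T - Complex.exp U) := by ring
      rw [e]
      exact (norm_add_le _ _).trans (add_le_add (hEx.1 E T hEre hTre) (hEx.1 T U hTre hUre))
    have h2 : ‖T - U‖ ≤ 4 * ∑ p ∈ (pr4 K M).filter (fun p => p ∣ a), 1 / (p : ℝ) := by
      have e : U - T = ∑ p ∈ (pr4 K M).filter (fun p => p ∣ a ∧ p % 4 = 1),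
          2 * (g p - 1) / (p : ℂ) := by
        rw [hU, hT]
        have h3 : (pr4 K M).filter (fun p => p % 4 = 1) =
            (pr4 K M).filter (fun p => p ∣ a ∧ p % 4 = 1) ∪
            (pr4 K M).filter (fun p => ¬ p ∣ a ∧ p % 4 = 1) := by
          ext p
          simp only [Finset.mem_union, Finset.mem_filter]
          tauto
        rw [h3, Finset.sum_union, add_sub_cancel_right]
        rw [Finset.disjoint_left]
        intro p h4 h5
        exact (Finset.mem_filter.1 h5).2.1 (Finset.mem_filter.1 h4).2.1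
      rw [norm_sub_rev, e, Finset.mul_sum]
      refine (norm_sum_le _ _).trans ?_
      have h4 : ∀ p ∈ (pr4 K M).filter (fun p => p ∣ a ∧ p % 4 = 1),
          ‖2 * (g p - 1) / (p : ℂ)‖ ≤ 4 * (1 / (p : ℝ)) := by
        intro p hp
        have hpp := (mem_pr4 (Finset.mem_filter.1 hp).1).1.pos
        rw [norm_div, norm_mul, Complex.norm_natCast, Complex.norm_ofNat, mul_one_div]
        apply div_le_div_of_nonneg_right _ (by positivity)
        have := norm_le hg hpp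
        linarith
      refine (Finset.sum_le_sum h4).trans ?_
      apply Finset.sum_le_sum_of_subset_of_nonneg
      · intro p hp
        rw [Finset.mem_filter] at hp ⊢
        exact ⟨hp.1, hp.2.1⟩
      · intro p _ _
        positivity
    linarith
  refine (hmono _ _ (fun a s _ _ => hpt a (Q * s + 1))).trans ?_
  rw [hadd, hsmul]
  have h1 := (hM2 M hMM2 a₀ ha₀).2
  have h2 := br_le Q D a₀ M (fun a s =>
      ‖(∑ p ∈ (pr4 K M).filter (fun p => ¬ p ∣ a ∧ p ∣ tZ κ k a (Q * s + 1)), (g p - 1)) -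
        ∑ p ∈ (pr4 K M).filter (fun p => ¬ p ∣ a ∧ p % 4 = 1), 2 * (g p - 1) / p‖)
    (Real.sqrt (4 * tl g K + η)) hM0 hD
    (fun u' a => inner hTk hTl hCt hRt hg hK hpr hM0 (hM1 M hMM1 K) u' a)
  have h3 : 4 * (BR Q D a₀ M fun a _ => ∑ p ∈ (pr4 K M).filter (fun p => p ∣ a), 1 / (p : ℝ)) ≤
      4 / (K : ℝ) + η := by
    have : 4 * (1 / (K : ℝ) + η / 4) = 4 / (K : ℝ) + η := by ring
    linarith
  linarith

end Pool.Agent.F0f91f8.HD
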