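import Pool.Agent.Work.MP_0f91f8_co.HD.I_DQd
import Pool.Agent.Work.MP_0f91f8_co.RC.StmtsD1

/-!
# Relative collision theorem, item RQd: concentration on the norm form, `n = Q s + 1`
-/

set_option autoImplicit false

namespace Pool.Agent.F0f91f8.HD

open Filter Topology ComplexConjugate
open scoped BigOperators

/-- concentration of a function at finite distance from `1` on the norm form -/
theorem pr_RQd (hBx : StDBx) (hLs : StDLs) (hTl : StDTl) (hZp : StRZp) (hGc : StRGc)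
    (hQ1 : StRQ1) (hQ2 : StRQ2) (hQ3 : StRQ3) (hQ4 : StRQ4) : StRQd := by
  refine ⟨32, by norm_num, ?_⟩
  intro g hg K κ k Q D hK hκ hk hQ hD hpr η hη
  have htl := hTl g hg
  have hE0 : 0 ≤ er g K := Real.sqrt_nonneg _
  by_cases hE1 : er g K ≤ 1
  · obtain ⟨η', hη', hη1, hη2⟩ := IDQd.eta η hη
    obtain ⟨C0, hC0, hZ⟩ := hZp Q D κ k hQ hD hκ hk
    obtain ⟨M1, hM1⟩ := hGc K Q D (by omega) hQ hD
      (fun p hp hd => hpr p hp (dvd_mul_of_dvd_right hd _)) η' hη'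
    obtain ⟨M2, hM2⟩ := hQ1 K κ k Q D hK hκ hk hQ hD hpr η' hη'
    obtain ⟨M3, hM3⟩ := hQ2 g hg K κ k Q D hK hκ hk hQ hD hpr η' hη'
    obtain ⟨M4, hM4⟩ := hQ4 g hg K κ k Q D hK hκ hk hQ hD η' hη'
    obtain ⟨M5, hM5⟩ := hQ3 g hg K κ k Q D hK hκ hk hQ hD hpr η' hη'
    obtain ⟨M6, hM6⟩ := exists_nat_ge C0
    refine ⟨M1 + M2 + M3 + M4 + M5 + M6 + 1, fun M hM a₀ ha₀ => ?_⟩
    have hM0 : 1 ≤ M := by omega
    have hCM : C0 ≤ M := hM6.trans (by exact_mod_cast (by omega : M6 ≤ M))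
    have hmono := IDQd.BR_mono Q D a₀ M
      (fun a s => ‖gT g K (tZ κ k a (Q * s + 1)) - cQ g K M‖)
      (fun a s => 2 * iGc K a (Q * s + 1) +
        2 * (if ∃ p ∈ pr4 K M, ¬ p ∣ a ∧ p ^ 2 ∣ tZ κ k a (Q * s + 1) then 1 else 0) +
        (∑ p ∈ (pr4 K M).filter (fun p => ¬ p ∣ a ∧ p ∣ tZ κ k a (Q * s + 1)), ‖g p - 1‖ ^ 2) +
        12 * Real.sqrt
          (∑ p ∈ (tZ κ k a (Q * s + 1)).primeFactors.filter
            (fun p => K < p ∧ M < p ^ 4), ‖1 - g p‖ ^ 2) +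
        ‖Complex.exp (∑ p ∈ (pr4 K M).filter
          (fun p => ¬ p ∣ a ∧ p ∣ tZ κ k a (Q * s + 1)), (g p - 1)) - cQ g K M‖)
      (by
        intro u hu u' hu' v hv v' hv'
        have hz := (hZ M hM0 a₀ ha₀).2 u hu u' hu' v hv v' hv'
        refine IDQd.point hLs hTl g hg K κ k M _ _ hK hκ (by omega)
          (fun q hq hd => hpr q hq (dvd_mul_of_dvd_left (dvd_mul_of_dvd_left hd _) _)) hM0 ?_
        have h3 : C0 * (M : ℝ) ^ 2 ≤ (M : ℝ) ^ 3 := by
          have : (0 : ℝ) ≤ (M : ℝ) ^ 2 := by positivity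
          nlinarith
        exact_mod_cast hz.trans h3)
    refine hmono.trans ?_
    rw [IDQd.BR_lin hBx]
    have b1 := hM1 M (by omega) a₀ ha₀
    have b2 := hM2 M (by omega) a₀ ha₀
    have b3 := hM3 M (by omega) a₀ ha₀
    have b4 := hM4 M (by omega) a₀ ha₀
    have b5 := hM5 M (by omega) a₀ ha₀
    have hb := htl.2.2.2.2.2.2 K (by omega)
    have hfin := IDQd.final (er g K) (tl g K) (1 / (K : ℝ)) (η / 2) η' hE0 hE1 hb.1
      hb.2 hη' hη2
    have e1 : 10 / (K : ℝ) = 10 * (1 / (K : ℝ)) := by ring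
    have e2 : 2 / (K : ℝ) = 2 * (1 / (K : ℝ)) := by ring
    have e3 : 4 / (K : ℝ) = 4 * (1 / (K : ℝ)) := by ring
    rw [e1] at b1
    rw [e2] at b2
    rw [e3] at b5
    linarith
  · push Not at hE1
    refine ⟨1, fun M hM a₀ ha₀ => ?_⟩
    have hmono := IDQd.BR_mono Q D a₀ M
      (fun a s => ‖gT g K (tZ κ k a (Q * s + 1)) - cQ g K M‖) (fun _ _ => 2 * 1)
      (by
        intro u hu u' hu' v hv v' hv'
        refine (norm_sub_le _ _).trans ?_
        have := (htl.2.2.2.2.2.1 K M).2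
        rw [IDQd.norm_gT g hg.cm]
        linarith)
    refine hmono.trans ?_
    obtain ⟨-, -, -, -, -, hmul, hone⟩ := hBx Q D a₀ M
    have h := hmul 2 (fun _ _ => 1)
    rw [(hone hD hM).2] at h
    rw [h]
    linarith

end Pool.Agent.F0f91f8.HD
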