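import Pool.Agent.Work.MP_0f91f8_co.RC.StmtsD1

/-!
# Item RRs: an affine change of variable permutes the residues
-/

set_option autoImplicit false

namespace Pool.Agent.F0f91f8.HD

namespace IRRs

theorem mod_eq (m Q c s : ℕ) : (Q * (s % m) + c) % m = (Q * s + c) % m :=
  Nat.ModEq.add_right c ((Nat.mod_modEq s m).mul_left Q)

theorem inj {m Q : ℕ} (c : ℕ) (hc : Nat.Coprime Q m) {r r' : ℕ} (hr : r < m) (hr' : r' < m)
    (h : (Q * r + c) % m = (Q * r' + c) % m) : r = r' := by
  have h1 : Q * r ≡ Q * r' [MOD m] := Nat.ModEq.add_right_cancel' c h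
  have h2 : r ≡ r' [MOD m] := Nat.ModEq.cancel_left_of_coprime (by
    rw [Nat.gcd_comm]
    exact hc) h1
  have h3 : r % m = r' % m := h2
  rwa [Nat.mod_eq_of_lt hr, Nat.mod_eq_of_lt hr'] at h3

end IRRs

theorem pr_RRs : StRRs := by
  intro m Q c S hm hc hS
  classical
  set φ : ℕ → ℕ := fun r => (Q * r + c) % m with hφ
  set T : Finset ℕ := (Finset.range m).filter fun r => φ r ∈ S with hT
  have hinj : Set.InjOn φ (Finset.range m : Set ℕ) := by
    intro r hr r' hr' h
    rw [Finset.mem_coe, Finset.mem_range] at hr hr'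
    exact IRRs.inj c hc hr hr' h
  have himg : (Finset.range m).image φ = Finset.range m := by
    refine Finset.eq_of_subset_of_card_le ?_ ?_
    · intro x hx
      obtain ⟨r, -, rfl⟩ := Finset.mem_image.1 hx
      exact Finset.mem_range.2 (Nat.mod_lt _ hm)
    · rw [Finset.card_image_of_injOn hinj]
  refine ⟨T, Finset.filter_subset _ _, ?_, ?_⟩
  · have h1 : T.image φ = S := by
      ext x
      rw [Finset.mem_image]
      constructor
      · rintro ⟨r, hr, rfl⟩
        exact (Finset.mem_filter.1 hr).2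
      · intro hx
        have h2 : x ∈ (Finset.range m).image φ := by
          rw [himg]
          exact hS hx
        obtain ⟨r, hr, rfl⟩ := Finset.mem_image.1 h2
        exact ⟨r, Finset.mem_filter.2 ⟨hr, hx⟩, rfl⟩
    rw [← h1, Finset.card_image_of_injOn]
    exact hinj.mono (Finset.coe_subset.2 (Finset.filter_subset _ _))
  · intro s
    rw [hT, Finset.mem_filter, Finset.mem_range]
    have h3 : φ (s % m) = (Q * s + c) % m := IRRs.mod_eq m Q c s
    rw [h3]
    exact ⟨fun h => ⟨Nat.mod_lt _ hm, h⟩, fun h => h.2⟩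

end Pool.Agent.F0f91f8.HD
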