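import Pool.Agent.Work.MP_0f91f8_co.RC.StmtsD1

/-! Block RC-D1 of MP_0f91f8_co, item RRt (helper63): the residues in the variable `s`. -/

namespace Pool.Agent.F0f91f8.HD

theorem pr_RRt (hRt : StDRt) (hRs : StRRs) : StRRt := by
  intro p κ k a Q hp hp2 hd hQ
  obtain ⟨⟨S, hS, hSc, hSi⟩, S₂, hS₂c, hS₂i⟩ := hRt p κ k a hp hp2 hd
  have hcop : Nat.Coprime Q p := ((Nat.Prime.coprime_iff_not_dvd hp).2 hQ).symm
  refine ⟨?_, ?_⟩
  · obtain ⟨T, hT, hTc, hTi⟩ := hRs p Q 1 S hp.pos hcop hS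
    refine ⟨T, hT, hTc.trans hSc, fun s => ?_⟩
    rw [hSi, hTi]
  · have hcop2 : Nat.Coprime Q (p ^ 2) := Nat.Coprime.pow_right 2 hcop
    have hpos : 0 < p ^ 2 := pow_pos hp.pos 2
    obtain ⟨T, hT, hTc, hTi⟩ := hRs (p ^ 2) Q 1 (S₂ ∩ Finset.range (p ^ 2)) hpos hcop2
      Finset.inter_subset_right
    refine ⟨T, ?_, fun s hs => ?_⟩
    · rw [hTc]
      exact (Finset.card_le_card Finset.inter_subset_left).trans hS₂c
    · rw [← hTi, Finset.mem_inter, Finset.mem_range]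
      exact ⟨hS₂i _ hs, Nat.mod_lt _ hpos⟩

end Pool.Agent.F0f91f8.HD
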