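import Pool.Agent.Work.MP_0f91f8_co.RC.StmtsD1
import Pool.Agent.Work.MP_0f91f8_co.HD.I_DSp

/-!
# Relative collision theorem, module D', item RSp (the primes between `w` and `K`)
-/

set_option autoImplicit false

namespace Pool.Agent.F0f91f8.HD

open Filter Topology ComplexConjugate
open scoped BigOperators

namespace IRSp

lemma not_dvd_κ {w K κ k : ℕ} (h : Par w K κ k) {p : ℕ} (hp : p.Prime) (hw : w < p) :
    ¬ p ∣ κ := fun hd => by
  have := h.κp p hp hd
  omega

end IRSp

open IRSp in
theorem pr_RSp : StRSp := by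
  intro g _ w K κ k hw hK hPar a n ha hn hpn
  have hv : ∀ p ∈ (Finset.range (K + 1)).filter (fun p => p.Prime ∧ w < p),
      (k * a + κ * n).factorization p = n.factorization p ∧
      (k * a + 2 * (κ * n)).factorization p = n.factorization p ∧
      (tZ κ k a n).factorization p = 2 * n.factorization p := by
    intro p hp
    rw [Finset.mem_filter, Finset.mem_range] at hp
    exact XDSp.vals hp.2.1 (by omega) (hPar.ks p hp.2.1 hp.2.2 (by omega))
      (not_dvd_κ hPar hp.2.1 hp.2.2) hn (hpn p hp.2.1 hp.2.2)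
  refine ⟨?_, ?_, ?_⟩
  · rw [XDSp.gP_eq, XDSp.gP_eq]
    exact Finset.prod_congr rfl fun p hp => by rw [(hv p hp).1]
  · rw [XDSp.gP_eq, XDSp.gP_eq]
    exact Finset.prod_congr rfl fun p hp => by rw [(hv p hp).2.1]
  · rw [XDSp.gP_eq, XDSp.gP_eq, ← Finset.prod_pow]
    exact Finset.prod_congr rfl fun p hp => by rw [(hv p hp).2.2, mul_comm, pow_mul]

end Pool.Agent.F0f91f8.HD
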