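import Pool.Agent.Work.MP_0f91f8_co.RC.StmtsD1

/-!
# Relative collision theorem, module D' part 1: item RSz (sizes)
-/

set_option autoImplicit false

namespace Pool.Agent.F0f91f8.HD

open Filter Topology ComplexConjugate
open scoped BigOperators

namespace IRSz

/-- the event is contained in `K v < 2 D M` -/
lemma imp {Q D K κ k M a₀ : ℕ} (hQ : 0 < Q) (hK : 1 ≤ K) (hM : 1 ≤ M) (hk : 0 < k)
    (hD : K ^ 2 * κ ≤ D) {u u' v v' : ℕ} (hu : u ≤ M) (hu' : u' ≤ M)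
    (h : K * (κ * (Q * (u + u') + 1)) > 2 * (k * (Q * (v + v') + a₀))) :
    K * v < 2 * (D * M) := by
  by_contra hc
  push Not at hc
  have hQM : 1 ≤ Q * M := Nat.mul_pos hQ hM
  have h2 : K * (K * (κ * (Q * (u + u') + 1))) ≤ D * (3 * (Q * M)) := by
    calc K * (K * (κ * (Q * (u + u') + 1))) = K ^ 2 * κ * (Q * (u + u') + 1) := by ring
      _ ≤ D * (3 * (Q * M)) := by
        refine Nat.mul_le_mul hD ?_
        have h3 : Q * (u + u') ≤ Q * (2 * M) := Nat.mul_le_mul_left Q (by omega)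
        have h4 : Q * (2 * M) = 2 * (Q * M) := by ring
        omega
  have h3 : 4 * (D * (Q * M)) ≤ K * (2 * (k * (Q * (v + v') + a₀))) := by
    calc 4 * (D * (Q * M)) = 2 * Q * (2 * (D * M)) := by ring
      _ ≤ 2 * Q * (K * v) := Nat.mul_le_mul_left _ hc
      _ = K * (2 * (1 * (Q * v))) := by ring
      _ ≤ K * (2 * (k * (Q * (v + v') + a₀))) := by
        refine Nat.mul_le_mul_left K (Nat.mul_le_mul_left 2 (Nat.mul_le_mul hk ?_))
        have h5 : Q * v ≤ Q * (v + v') := Nat.mul_le_mul_left Q (by omega)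
        omega
  have h4 : K * (2 * (k * (Q * (v + v') + a₀))) < K * (K * (κ * (Q * (u + u') + 1))) :=
    Nat.mul_lt_mul_of_pos_left h hK
  have h5 : D * (3 * (Q * M)) = 3 * (D * (Q * M)) := by ring
  omega

/-- the number of `v` with `K v < 2 L` -/
lemma cnt (K L : ℕ) (hK : 1 ≤ K) :
    (K : ℝ) * ∑ v ∈ Finset.Icc 1 L, (if K * v < 2 * L then (1 : ℝ) else 0) ≤ 2 * L := by
  rw [← Finset.sum_filter, Finset.sum_const, nsmul_eq_mul, mul_one]
  have h : K * ((Finset.Icc 1 L).filter fun v => K * v < 2 * L).card ≤ 2 * L := by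
    have hs : ((Finset.Icc 1 L).filter fun v => K * v < 2 * L) ⊆ Finset.Icc 1 (2 * L / K) := by
      intro v hv
      rw [Finset.mem_filter, Finset.mem_Icc] at hv
      rw [Finset.mem_Icc]
      refine ⟨hv.1.1, ?_⟩
      rw [Nat.le_div_iff_mul_le hK, mul_comm]
      exact hv.2.le
    have h1 := Finset.card_le_card hs
    rw [Nat.card_Icc, Nat.add_sub_cancel] at h1
    calc K * _ ≤ K * (2 * L / K) := Nat.mul_le_mul_left K h1
      _ ≤ 2 * L := Nat.mul_div_le _ K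
  exact_mod_cast h

end IRSz

open IRSz in
theorem pr_RSz : StRSz := by
  intro Q D K κ k M a₀ hQ hK hM hκ hk hD
  have hDpos : 0 < D := lt_of_lt_of_le (Nat.mul_pos (pow_pos hK 2) hκ) hD
  have hDM : (0 : ℝ) < ((D * M : ℕ) : ℝ) := by
    exact_mod_cast Nat.mul_pos hDpos hM
  have hM0 : (0 : ℝ) < (M : ℝ) := by exact_mod_cast hM
  have hK0 : (0 : ℝ) < (K : ℝ) := by exact_mod_cast hK
  have hsum : ∑ u ∈ Finset.Icc 1 M, ∑ u' ∈ Finset.Icc 1 M, ∑ v ∈ Finset.Icc 1 (D * M),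
      ∑ v' ∈ Finset.Icc 1 (D * M),
        (if K * (κ * (Q * (u + u') + 1)) > 2 * (k * (Q * (v + v') + a₀))
          then (1 : ℝ) else 0) ≤
      ∑ u ∈ Finset.Icc 1 M, ∑ u' ∈ Finset.Icc 1 M, ∑ v ∈ Finset.Icc 1 (D * M),
      ∑ v' ∈ Finset.Icc 1 (D * M), (if K * v < 2 * (D * M) then (1 : ℝ) else 0) := by
    refine Finset.sum_le_sum fun u hu => Finset.sum_le_sum fun u' hu' =>
      Finset.sum_le_sum fun v _ => Finset.sum_le_sum fun v' _ => ?_
    by_cases h : K * (κ * (Q * (u + u') + 1)) > 2 * (k * (Q * (v + v') + a₀))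
    · rw [if_pos h, if_pos (imp hQ hK hM hk hD (Finset.mem_Icc.1 hu).2 (Finset.mem_Icc.1 hu').2 h)]
    · rw [if_neg h]
      split_ifs
      · exact zero_le_one
      · exact le_rfl
  have heq : ∑ u ∈ Finset.Icc 1 M, ∑ u' ∈ Finset.Icc 1 M, ∑ v ∈ Finset.Icc 1 (D * M),
      ∑ v' ∈ Finset.Icc 1 (D * M), (if K * v < 2 * (D * M) then (1 : ℝ) else 0) =
      (M : ℝ) ^ 2 * (((D * M : ℕ) : ℝ) * ∑ v ∈ Finset.Icc 1 (D * M),
        (if K * v < 2 * (D * M) then (1 : ℝ) else 0)) := by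
    simp only [Finset.sum_const, Nat.card_Icc, Nat.add_sub_cancel, nsmul_eq_mul]
    rw [← Finset.mul_sum]
    ring
  unfold BR
  rw [div_le_div_iff₀ (by positivity) hK0]
  have hc := cnt K (D * M) hK
  calc _ ≤ (M : ℝ) ^ 2 * (((D * M : ℕ) : ℝ) * ∑ v ∈ Finset.Icc 1 (D * M),
        (if K * v < 2 * (D * M) then (1 : ℝ) else 0)) * K :=
        mul_le_mul_of_nonneg_right (hsum.trans heq.le) hK0.le
    _ = (M : ℝ) ^ 2 * ((D * M : ℕ) : ℝ) * ((K : ℝ) * ∑ v ∈ Finset.Icc 1 (D * M),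
        (if K * v < 2 * (D * M) then (1 : ℝ) else 0)) := by ring
    _ ≤ (M : ℝ) ^ 2 * ((D * M : ℕ) : ℝ) * (2 * ((D * M : ℕ) : ℝ)) :=
        mul_le_mul_of_nonneg_left hc (by positivity)
    _ = _ := by ring

end Pool.Agent.F0f91f8.HD
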