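import Pool.Agent.Work.MP_0f91f8_co.RC.StmtsD1

/-!
# Relative collision theorem, module D', item RZp
-/

set_option autoImplicit false

namespace Pool.Agent.F0f91f8.HD

open Filter Topology ComplexConjugate
open scoped BigOperators

namespace IRZp

/-- the sum over the small boxes is at most the sum over the large boxes -/
lemma sum_le (Q M M' N N' : ℕ) (hQ : 0 < Q) (hM : 1 ≤ M) (hM' : M' = (Q + 1) * M) (hN : N ≤ N')
    (F : ℕ → ℕ → ℕ → ℝ) (hF : ∀ v v' n, 0 ≤ F v v' n) :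
    ∑ u ∈ Finset.Icc 1 M, ∑ u' ∈ Finset.Icc 1 M, ∑ v ∈ Finset.Icc 1 N, ∑ v' ∈ Finset.Icc 1 N,
      F v v' (Q * (u + u') + 1) ≤
    ∑ u ∈ Finset.Icc 1 M', ∑ u' ∈ Finset.Icc 1 M', ∑ v ∈ Finset.Icc 1 N', ∑ v' ∈ Finset.Icc 1 N',
      F v v' (u + u') := by
  have hsub : Finset.Icc 1 N ⊆ Finset.Icc 1 N' := Finset.Icc_subset_Icc_right hN
  have h1 : ∀ n, ∑ v ∈ Finset.Icc 1 N, ∑ v' ∈ Finset.Icc 1 N, F v v' n ≤
      ∑ v ∈ Finset.Icc 1 N', ∑ v' ∈ Finset.Icc 1 N', F v v' n := by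
    intro n
    calc ∑ v ∈ Finset.Icc 1 N, ∑ v' ∈ Finset.Icc 1 N, F v v' n
        ≤ ∑ v ∈ Finset.Icc 1 N, ∑ v' ∈ Finset.Icc 1 N', F v v' n :=
          Finset.sum_le_sum fun v _ => Finset.sum_le_sum_of_subset_of_nonneg hsub
            fun v' _ _ => hF v v' n
      _ ≤ _ := Finset.sum_le_sum_of_subset_of_nonneg hsub
            fun v _ _ => Finset.sum_nonneg fun v' _ => hF v v' n
  have hnn : ∀ n, 0 ≤ ∑ v ∈ Finset.Icc 1 N', ∑ v' ∈ Finset.Icc 1 N', F v v' n :=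
    fun n => Finset.sum_nonneg fun v _ => Finset.sum_nonneg fun v' _ => hF v v' n
  calc _ ≤ ∑ u ∈ Finset.Icc 1 M, ∑ u' ∈ Finset.Icc 1 M,
      ∑ v ∈ Finset.Icc 1 N', ∑ v' ∈ Finset.Icc 1 N', F v v' (Q * u + (Q * u' + 1)) := by
        refine Finset.sum_le_sum fun u _ => Finset.sum_le_sum fun u' _ => ?_
        have e : Q * (u + u') + 1 = Q * u + (Q * u' + 1) := by ring
        rw [e]
        exact h1 _
    _ = ∑ u ∈ (Finset.Icc 1 M).image (fun u => Q * u), ∑ u' ∈ (Finset.Icc 1 M).image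
        (fun u => Q * u + 1), ∑ v ∈ Finset.Icc 1 N', ∑ v' ∈ Finset.Icc 1 N', F v v' (u + u') := by
        rw [Finset.sum_image]
        · refine Finset.sum_congr rfl fun u _ => ?_
          rw [Finset.sum_image]
          intro a _ b _ hab
          have hab' : Q * a = Q * b := by
            have : Q * a + 1 = Q * b + 1 := hab
            omega
          exact Nat.eq_of_mul_eq_mul_left hQ hab'
        · intro a _ b _ hab
          exact Nat.eq_of_mul_eq_mul_left hQ hab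
    _ ≤ _ := by
        have hs1 : (Finset.Icc 1 M).image (fun u => Q * u) ⊆ Finset.Icc 1 M' := by
          intro x hx
          obtain ⟨u, hu, rfl⟩ := Finset.mem_image.1 hx
          rw [Finset.mem_Icc] at hu ⊢
          constructor
          · exact Nat.mul_pos hQ hu.1
          · rw [hM']
            calc Q * u ≤ Q * M := Nat.mul_le_mul_left _ hu.2
              _ ≤ (Q + 1) * M := Nat.mul_le_mul_right _ (Nat.le_succ _)
        have hs2 : (Finset.Icc 1 M).image (fun u => Q * u + 1) ⊆ Finset.Icc 1 M' := by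
          intro x hx
          obtain ⟨u, hu, rfl⟩ := Finset.mem_image.1 hx
          rw [Finset.mem_Icc] at hu ⊢
          constructor
          · exact Nat.le_add_left _ _
          · rw [hM']
            calc Q * u + 1 ≤ Q * M + M := Nat.add_le_add (Nat.mul_le_mul_left _ hu.2) hM
              _ = (Q + 1) * M := by ring
        calc _ ≤ ∑ u ∈ (Finset.Icc 1 M).image (fun u => Q * u), ∑ u' ∈ Finset.Icc 1 M',
            ∑ v ∈ Finset.Icc 1 N', ∑ v' ∈ Finset.Icc 1 N', F v v' (u + u') :=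
              Finset.sum_le_sum fun u _ => Finset.sum_le_sum_of_subset_of_nonneg hs2
                fun u' _ _ => hnn _
          _ ≤ _ := Finset.sum_le_sum_of_subset_of_nonneg hs1
                fun u _ _ => Finset.sum_nonneg fun u' _ => hnn _

end IRZp

open IRZp in
theorem pr_RZp (hZp : StDZp) : StRZp := by
  intro Q D κ k hQ hD hκ hk
  obtain ⟨C0, hC0, h⟩ := hZp Q D κ k hQ hD hκ hk
  refine ⟨((Q : ℝ) + 1) ^ 4 * C0, by positivity, ?_⟩
  intro M hM a₀ ha₀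
  have hM' : 1 ≤ (Q + 1) * M := Nat.mul_pos (Nat.succ_pos _) hM
  obtain ⟨h1, h2⟩ := h ((Q + 1) * M) hM' a₀ ha₀
  have hMr : (0 : ℝ) < M := by exact_mod_cast hM
  have hDr : (0 : ℝ) < D := by exact_mod_cast hD
  have hN : D * M ≤ D * ((Q + 1) * M) :=
    Nat.mul_le_mul_left _ (Nat.le_mul_of_pos_left _ (Nat.succ_pos _))
  constructor
  · intro p hp
    have h3 := h1 p hp
    have h4 := sum_le Q M ((Q + 1) * M) (D * M) (D * ((Q + 1) * M)) hQ hM rfl hN
      (fun v v' n => if p ∣ tZ κ k (Q * (v + v') + a₀) n then 1 else 0)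
      (fun v v' n => by split_ifs <;> norm_num)
    unfold BR at h3 ⊢
    have hd : (0 : ℝ) < (M : ℝ) ^ 2 * ((D * M : ℕ) : ℝ) ^ 2 := by
      push_cast
      positivity
    have hd' : (((Q + 1) * M : ℕ) : ℝ) ^ 2 * ((D * ((Q + 1) * M) : ℕ) : ℝ) ^ 2 =
        ((Q : ℝ) + 1) ^ 4 * ((M : ℝ) ^ 2 * ((D * M : ℕ) : ℝ) ^ 2) := by
      push_cast
      ring
    have hq : (0 : ℝ) < ((Q : ℝ) + 1) ^ 4 := by positivity
    rw [hd', div_le_iff₀ (mul_pos hq hd)] at h3
    rw [div_le_iff₀ hd]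
    refine h4.trans (h3.trans (le_of_eq ?_))
    ring
  · intro u hu u' hu' v hv v' hv'
    rw [Finset.mem_Icc] at hu hu' hv hv'
    have h5 := h2 (Q * u) (Finset.mem_Icc.2 ⟨Nat.mul_pos hQ hu.1, by
        calc Q * u ≤ Q * M := Nat.mul_le_mul_left _ hu.2
          _ ≤ (Q + 1) * M := Nat.mul_le_mul_right _ (Nat.le_succ _)⟩)
      (Q * u' + 1) (Finset.mem_Icc.2 ⟨Nat.le_add_left _ _, by
        calc Q * u' + 1 ≤ Q * M + M := Nat.add_le_add (Nat.mul_le_mul_left _ hu'.2) hM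
          _ = (Q + 1) * M := by ring⟩)
      v (Finset.mem_Icc.2 ⟨hv.1, hv.2.trans hN⟩) v' (Finset.mem_Icc.2 ⟨hv'.1, hv'.2.trans hN⟩)
    have e : Q * (u + u') + 1 = Q * u + (Q * u' + 1) := by ring
    rw [e]
    refine h5.trans ?_
    push_cast
    have hQ1 : (1 : ℝ) ≤ (Q : ℝ) + 1 := by
      have : (0 : ℝ) ≤ Q := Nat.cast_nonneg _
      linarith
    have h6 : ((Q : ℝ) + 1) ^ 2 ≤ ((Q : ℝ) + 1) ^ 4 := pow_le_pow_right₀ hQ1 (by norm_num)
    calc C0 * (((Q : ℝ) + 1) * M) ^ 2 = ((Q : ℝ) + 1) ^ 2 * (C0 * (M : ℝ) ^ 2) := by ring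
      _ ≤ ((Q : ℝ) + 1) ^ 4 * (C0 * (M : ℝ) ^ 2) :=
        mul_le_mul_of_nonneg_right h6 (by positivity)
      _ = ((Q : ℝ) + 1) ^ 4 * C0 * (M : ℝ) ^ 2 := by ring

end Pool.Agent.F0f91f8.HD
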