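import Pool.Agent.Work.MP_0f91f8_co.HD.AllD
import Pool.Agent.Work.MP_0f91f8_co.RC.I_RGc
import Pool.Agent.Work.MP_0f91f8_co.RC.I_RLm
import Pool.Agent.Work.MP_0f91f8_co.RC.I_RMd
import Pool.Agent.Work.MP_0f91f8_co.RC.I_RPX
import Pool.Agent.Work.MP_0f91f8_co.RC.I_RPY
import Pool.Agent.Work.MP_0f91f8_co.RC.I_RPZ
import Pool.Agent.Work.MP_0f91f8_co.RC.I_RPq
import Pool.Agent.Work.MP_0f91f8_co.RC.I_RQ1
import Pool.Agent.Work.MP_0f91f8_co.RC.I_RQ2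
import Pool.Agent.Work.MP_0f91f8_co.RC.I_RQ3
import Pool.Agent.Work.MP_0f91f8_co.RC.I_RQ4
import Pool.Agent.Work.MP_0f91f8_co.RC.I_RQd
import Pool.Agent.Work.MP_0f91f8_co.RC.I_RRs
import Pool.Agent.Work.MP_0f91f8_co.RC.I_RRt
import Pool.Agent.Work.MP_0f91f8_co.RC.I_RSp
import Pool.Agent.Work.MP_0f91f8_co.RC.I_RSz
import Pool.Agent.Work.MP_0f91f8_co.RC.I_RZp

/-!
# Relative collision theorem, module D′, part 1: composition
-/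

set_option autoImplicit false

namespace Pool.Agent.F0f91f8.HD

theorem all_RRt : StRRt := pr_RRt pr_DRt pr_RRs

theorem all_RLm : StRLm := pr_RLm all_DLin

theorem all_RZp : StRZp := pr_RZp all_DZp

theorem all_RPX : StRPX := pr_RPX pr_DFc pr_RMd pr_RSp pr_DAr pr_DTl

theorem all_RPZ : StRPZ := pr_RPZ pr_DFc pr_RMd pr_RSp pr_DAr pr_DTl

theorem all_RPY : StRPY := pr_RPY pr_DFc pr_RMd pr_RSp pr_DAr pr_DTl

theorem all_RQ1 : StRQ1 := pr_RQ1 all_RRt pr_DCt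

theorem all_RQ2 : StRQ2 := pr_RQ2 all_RRt pr_DCt pr_DTl

theorem all_RQ3 : StRQ3 := pr_RQ3 pr_DTk pr_DEx pr_DTl pr_DCt all_RRt pr_DGc pr_DBx

theorem all_RQ4 : StRQ4 := pr_RQ4 all_RZp pr_DTl pr_DBx

theorem all_RQd : StRQd :=
  pr_RQd pr_DBx all_DLs pr_DTl all_RZp pr_RGc all_RQ1 all_RQ2 all_RQ3 all_RQ4

end Pool.Agent.F0f91f8.HD
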