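import Pool.Agent.Work.MP_0f91f8_co.RC.StmtsD2

/-!
# Item RAv: `AvR` of the pair correlations
-/

set_option autoImplicit false

namespace Pool.Agent.F0f91f8.RC

open Filter Topology ComplexConjugate
open Pool.Agent.F0f91f8.HD
open scoped BigOperators

/-- item RAv -/
theorem pr_RAv (hBx : StDBx) : StRAv := by
  intro f E w K M
  unfold AvR
  congr 1
  refine Finset.sum_congr rfl fun e _ => Finset.sum_congr rfl fun e' _ => ?_
  obtain ⟨h, -⟩ := hBx w.factorial (DR E w K) (inv0 w.factorial (kk w K e')) M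
  unfold CXR CYR CZR BFR BxR pc
  rw [← h, ← h]

end Pool.Agent.F0f91f8.RC
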