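import Pool.Agent.Work.MP_0f91f8_co.RC.StmtsD2

/-!
# Relative collision theorem, module D', part 2, item RFv: roots of unity
-/

set_option autoImplicit false

namespace Pool.Agent.F0f91f8.RC

open Filter Topology ComplexConjugate
open Pool.Agent.F0f91f8.HD
open scoped BigOperators

namespace IRFv

theorem norm_one_sub_pow {z : ℂ} (hz : ‖z‖ = 1) (j : ℕ) : ‖1 - z ^ j‖ ≤ j * ‖1 - z‖ := by
  induction j with
  | zero => simp
  | succ j ih =>
    have h1 : 1 - z ^ (j + 1) = (1 - z ^ j) + z ^ j * (1 - z) := by ring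
    rw [h1]
    refine (norm_add_le _ _).trans ?_
    rw [norm_mul, norm_pow, hz, one_pow, one_mul]
    push_cast
    linarith

end IRFv

open IRFv in
/-- Item RFv. -/
theorem pr_RFv : StRFv := by
  intro z N hN hz
  have hz1 : ‖z‖ = 1 := Complex.norm_eq_one_of_pow_eq_one hz (by omega)
  rcases eq_or_ne z 1 with rfl | hne
  · simp
  have h0 : ∑ j ∈ Finset.range N, z ^ j = 0 := by
    have h1 : (∑ j ∈ Finset.range N, z ^ j) * (z - 1) = z ^ N - 1 := geom_sum_mul z N
    rw [hz, sub_self] at h1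
    exact (mul_eq_zero.1 h1).resolve_right (sub_ne_zero.2 hne)
  have h2 : ((N : ℕ) : ℂ) = ∑ j ∈ Finset.range N, (1 - z ^ j) := by
    rw [Finset.sum_sub_distrib, h0, sub_zero, Finset.sum_const, Finset.card_range, nsmul_eq_mul,
      mul_one]
  have h3 : (N : ℝ) ≤ N * (N * ‖1 - z‖) := by
    calc (N : ℝ) = ‖((N : ℕ) : ℂ)‖ := (Complex.norm_natCast N).symm
      _ ≤ ∑ j ∈ Finset.range N, ‖1 - z ^ j‖ := by
          rw [h2]
          exact norm_sum_le _ _
      _ ≤ ∑ j ∈ Finset.range N, (N * ‖1 - z‖) := by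
          refine Finset.sum_le_sum fun j hj => (norm_one_sub_pow hz1 j).trans ?_
          have h4 : (j : ℝ) ≤ N := by exact_mod_cast (Finset.mem_range.1 hj).le
          exact mul_le_mul_of_nonneg_right h4 (norm_nonneg _)
      _ = N * (N * ‖1 - z‖) := by rw [Finset.sum_const, Finset.card_range, nsmul_eq_mul]
  have hN0 : (0 : ℝ) < N := by exact_mod_cast hN
  have h5 : 1 ≤ N * ‖1 - z‖ := by
    by_contra hlt
    rw [not_le] at hlt
    have h6 := mul_lt_mul_of_pos_left hlt hN0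
    linarith
  calc ‖1 - z‖ = 1 * ‖1 - z‖ := (one_mul _).symm
    _ ≤ (N * ‖1 - z‖) * ‖1 - z‖ := mul_le_mul_of_nonneg_right h5 (norm_nonneg _)
    _ = N * ‖1 - z‖ ^ 2 := by ring

end Pool.Agent.F0f91f8.RC
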