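import Pool.Agent.Work.MP_0f91f8_co.RC.StmtsD2
import Pool.Agent.Work.MP_0f91f8_co.HD.I_DMd
import Pool.Agent.Work.MP_0f91f8_co.HD.I_DSz

set_option autoImplicit false

/-! Relative collision theorem, module D′, item RK2: the parameter `κ`. -/

namespace Pool.Agent.F0f91f8.RC

open Filter Topology ComplexConjugate
open Pool.Agent.F0f91f8.HD
open scoped BigOperators

namespace IRK2

theorem f_pow (f : ℕ → ℂ) (hf : CM f) (n : ℕ) : ∀ E : ℕ, 1 ≤ E → f (n ^ E) = f n ^ E := by
  intro E hE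
  induction E, hE using Nat.le_induction with
  | base => rw [pow_one, pow_one]
  | succ m _ ih => rw [pow_succ, hf.2.1, ih, pow_succ]

theorem two_kR (E w K : ℕ) (e : Fin (w + 1) → Fin K) (hE : 1 ≤ E) :
    2 * kR E w K e = (2 * (w.factorial * kp w K e)) ^ E := by
  obtain ⟨m, rfl⟩ : ∃ m, E = m + 1 := ⟨E - 1, by omega⟩
  unfold kR
  rw [Nat.add_sub_cancel]
  ring

end IRK2

theorem pr_RK2 : StRK2 := by
  intro E w K e hE hw hK
  have hW : 0 < w.factorial := Nat.factorial_pos w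
  have hkp : 0 < kp w K e := IDMd.kp_pos w K e
  refine ⟨IRK2.two_kR E w K e hE, ?_, ?_, ?_, ?_, ?_, ?_⟩
  · unfold kR
    exact Dvd.dvd.mul_left ((Dvd.intro _ rfl : w.factorial ∣ w.factorial * kp w K e).trans
      (dvd_pow_self _ (by omega))) _
  · intro p hp h
    unfold kR at h
    rcases (hp.dvd_mul).1 h with h1 | h1
    · exact (Nat.le_of_dvd (by norm_num) (hp.dvd_of_dvd_pow h1)).trans hw
    · rcases (hp.dvd_mul).1 (hp.dvd_of_dvd_pow h1) with h2 | h2
      · exact (hp.dvd_factorial).1 h2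
      · exact IDMd.kp_dvd hp h2
  · unfold kR
    exact Nat.mul_pos (pow_pos (by norm_num) _) (pow_pos (Nat.mul_pos hW hkp) _)
  · unfold kR DR
    refine Nat.mul_le_mul_left _ (Nat.mul_le_mul_left _ (Nat.pow_le_pow_left ?_ _))
    exact Nat.mul_le_mul_left _ (XDSz.kp_le w K e)
  · unfold DR
    exact Nat.mul_pos (pow_pos (by omega) _) (Nat.mul_pos (pow_pos (by norm_num) _)
      (pow_pos (Nat.mul_pos hW (pow_pos hW _)) _))
  · intro f hf
    rw [IRK2.two_kR E w K e hE, IRK2.f_pow f hf _ E hE, ← mul_assoc, hf.2.1, mul_pow]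

end Pool.Agent.F0f91f8.RC
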