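import Pool.Agent.Work.MP_0f91f8_co.RC.StmtsD2

/-!
# Item RKp of the block RC-D2 (MP_0f91f8_co): averages of powers over the exponents
-/

set_option autoImplicit false

namespace Pool.Agent.F0f91f8.RC

open Filter Topology ComplexConjugate
open Pool.Agent.F0f91f8.HD
open scoped BigOperators

namespace IRKp

/-- a positive power of a function in `CM` is in `CM` -/
theorem cm_pow (f : ℕ → ℂ) (hf : CM f) (E : ℕ) (hE : 1 ≤ E) : CM (fun n => f n ^ E) := by
  refine ⟨?_, ?_, ?_⟩
  · show f 0 ^ E = 0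
    rw [hf.1]
    exact zero_pow (by omega)
  · intro m n
    show f (m * n) ^ E = f m ^ E * f n ^ E
    rw [hf.2.1 m n, mul_pow]
  · intro n hn
    show ‖f n ^ E‖ = 1
    rw [norm_pow, hf.2.2 n hn, one_pow]

end IRKp

theorem pr_RKp (hKp : StDKp) : StRKp := by
  intro f hf E w K p hE hK hp h1 hpw
  exact (hKp (fun n => f n ^ E) (IRKp.cm_pow f hf E hE) w K p hK hp h1).1 hpw

end Pool.Agent.F0f91f8.RC
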