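import Pool.Agent.Work.MP_0f91f8_co.RC.StmtsD2

/-!
# Relative collision theorem, item RX1: the exact case of the correlation `x, y` (helper17)
-/

set_option autoImplicit false

namespace Pool.Agent.F0f91f8.RC

open Filter Topology ComplexConjugate
open Pool.Agent.F0f91f8.HD
open scoped BigOperators

namespace IRX1

theorem cm_one {f : ℕ → ℂ} (hf : CM f) : f 1 = 1 := by
  have h1 : f (1 * 1) = f 1 * f 1 := hf.2.1 1 1
  rw [one_mul] at h1
  have h2 : f 1 ≠ 0 := by
    intro h
    have := hf.2.2 1 one_pos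
    rw [h, norm_zero] at this
    exact zero_ne_one this
  exact mul_left_cancel₀ h2 (by rw [← h1, mul_one])

/-- a completely multiplicative function which is `1` on the primes `p > w` is `1` on the numbers
without prime factor `≤ w` -/
theorem g_one {g : ℕ → ℂ} (hg : CM g) (w : ℕ) (h : ∀ p : ℕ, p.Prime → w < p → g p = 1) :
    ∀ n : ℕ, 0 < n → (∀ p : ℕ, p.Prime → p ≤ w → ¬ p ∣ n) → g n = 1 := by
  intro n
  induction n using Nat.recOnMul with
  | zero => intro h0; exact absurd h0 (lt_irrefl 0)
  | one => intro _ _; exact cm_one hg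
  | prime p hp =>
    intro _ h2
    refine h p hp ?_
    by_contra hc
    exact h2 p hp (not_lt.mp hc) (dvd_refl p)
  | mul a b iha ihb =>
    intro h1 h2
    have ha : 0 < a := Nat.pos_of_mul_pos_right h1
    have hb : 0 < b := Nat.pos_of_mul_pos_left h1
    rw [hg.2.1, iha ha (fun p hp hw hd => h2 p hp hw (Dvd.dvd.mul_right hd b)),
      ihb hb (fun p hp hw hd => h2 p hp hw (Dvd.dvd.mul_left hd a)), one_mul]

theorem f_pow {f : ℕ → ℂ} (hf : CM f) (E : ℕ) (h : ∀ p : ℕ, p.Prime → f p ^ E = 1) :
    ∀ n : ℕ, 0 < n → f n ^ E = 1 := by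
  intro n
  induction n using Nat.recOnMul with
  | zero => intro h0; exact absurd h0 (lt_irrefl 0)
  | one => intro _; rw [cm_one hf, one_pow]
  | prime p hp => intro _; exact h p hp
  | mul a b iha ihb =>
    intro h1
    have ha : 0 < a := Nat.pos_of_mul_pos_right h1
    have hb : 0 < b := Nat.pos_of_mul_pos_left h1
    rw [hf.2.1, mul_pow, iha ha, ihb hb, one_mul]

theorem mod_q {q Q n : ℕ} (hq : q ∣ Q) (h : n % Q = 1 % Q) : n % q = 1 % q := by
  have h1 : n ≡ 1 [MOD Q] := h
  exact h1.of_dvd hq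

end IRX1

theorem pr_RX1 (hBx : StDBx) (hK2 : StRK2) (hPr : StRPr) (hMd : StRMd) : StRX1 := by
  intro f g q hD E w K hE hw hwK hq hf hg M hM e e'
  have hK : 1 ≤ K := le_trans (le_trans (by norm_num) hw) hwK
  obtain ⟨_, _, _, hκ0, _, hD0, hfκ⟩ := hK2 E w K e hE hw hK
  obtain ⟨hPar, _, _, hka⟩ := hPr E w K e e' hE hw hwK
  have hfE := IRX1.f_pow hD.hf E hf
  have hw0 : 0 < w.factorial := Nat.factorial_pos w
  have hkp : 0 < kp w K e := by
    unfold kp
    refine Finset.prod_pos fun p _ => ?_
    split_ifs with h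
    · exact pow_pos h.pos _
    · exact one_pos
  have h2κ : f (2 * kR E w K e) = 1 := by
    rw [hfκ f hD.hf, hfE _ (Nat.mul_pos two_pos hw0), hfE _ hkp, one_mul]
  -- values of `f` on the class of `1` without small prime factors
  have hval : ∀ n : ℕ, 0 < n → n % w.factorial = 1 % w.factorial →
      (∀ p : ℕ, p.Prime → p ≤ w → ¬ p ∣ n) → f n = 1 := by
    intro n hn hm hp
    have h1 := hD.eq n hn (IRX1.mod_q hq hm)
    rw [h1, IRX1.g_one hD.hg.cm w hg n hn hp]
    simp
  have hsmall : ∀ n : ℕ, n % w.factorial = 1 % w.factorial →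
      ∀ p : ℕ, p.Prime → p ≤ w → ¬ p ∣ n := by
    intro n hm p hp hpw hd
    have h1 : n % p = 1 % p := IRX1.mod_q (hp.dvd_factorial.mpr hpw) hm
    rw [Nat.mod_eq_zero_of_dvd hd, Nat.mod_eq_of_lt hp.one_lt] at h1
    exact zero_ne_one h1
  have hpos : ∀ n : ℕ, n % w.factorial = 1 % w.factorial → 0 < n := by
    intro n hm
    rcases Nat.eq_zero_or_pos n with h0 | h0
    · exfalso
      exact hsmall n hm 2 Nat.prime_two hw (by rw [h0]; exact dvd_zero 2)
    · exact h0
  have hval' : ∀ n : ℕ, n % w.factorial = 1 % w.factorial → f n = 1 := fun n hm =>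
    hval n (hpos n hm) hm (hsmall n hm)
  have hpt : ∀ b s : ℕ,
      f (tX (kR E w K e) (kk w K e') (w.factorial * b + inv0 w.factorial (kk w K e'))
        (w.factorial * s + 1)) *
      conj (f (tY (kR E w K e) (kk w K e') (w.factorial * b + inv0 w.factorial (kk w K e'))
        (w.factorial * s + 1))) = 1 := by
    intro b s
    have h1 := hka b
    obtain ⟨m1, m2, _, _⟩ := hMd w K _ _ hPar _ (w.factorial * s + 1) h1
    have hn : (w.factorial * s + 1) % w.factorial = 1 % w.factorial := by
      rw [add_comm, Nat.add_mul_mod_self_left]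
    have e1 : f (tX (kR E w K e) (kk w K e') (w.factorial * b + inv0 w.factorial (kk w K e'))
        (w.factorial * s + 1)) = 1 := by
      have h2 : tX (kR E w K e) (kk w K e') (w.factorial * b + inv0 w.factorial (kk w K e'))
          (w.factorial * s + 1) = (2 * kR E w K e) * (w.factorial * s + 1) *
          (kk w K e' * (w.factorial * b + inv0 w.factorial (kk w K e')) +
            kR E w K e * (w.factorial * s + 1)) := by
        unfold tX; ring
      rw [h2, hD.hf.2.1, hD.hf.2.1, h2κ, hval' _ hn, hval' _ m1, one_mul, one_mul]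
    have e2 : f (tY (kR E w K e) (kk w K e') (w.factorial * b + inv0 w.factorial (kk w K e'))
        (w.factorial * s + 1)) = 1 := by
      unfold tY
      rw [hD.hf.2.1, hval' _ h1, hval' _ m2, one_mul]
    rw [e1, e2, map_one, one_mul]
  have hB := ((hBx w.factorial (DR E w K) (inv0 w.factorial (kk w K e')) M).2.2.2.2.2.2 hD0 hM).1
  unfold CXR BFR BxR
  rw [← hB]
  unfold Bx
  congr 1
  refine Finset.sum_congr rfl fun u _ => Finset.sum_congr rfl fun u' _ =>
    Finset.sum_congr rfl fun v _ => Finset.sum_congr rfl fun v' _ => ?_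
  exact hpt (v + v') (u + u')

end Pool.Agent.F0f91f8.RC
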