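import Pool.Agent.Work.MP_0f91f8_co.RC.StmtsD2

/-!
# Relative collision theorem, module D′, part 2, item RX2
-/

set_option autoImplicit false

namespace Pool.Agent.F0f91f8.RC

open Filter Topology ComplexConjugate
open Pool.Agent.F0f91f8.HD
open scoped BigOperators

namespace IRX2

theorem cm_le (f : ℕ → ℂ) (hf : CM f) (n : ℕ) : ‖f n‖ ≤ 1 := by
  rcases Nat.eq_zero_or_pos n with rfl | h
  · rw [hf.1, norm_zero]
    exact zero_le_one
  · exact (hf.2.2 n h).le

theorem cm_one (f : ℕ → ℂ) (hf : CM f) : f 1 = 1 := by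
  have h1 := hf.2.1 1 1
  have h2 : f 1 ≠ 0 := by
    intro h
    have := hf.2.2 1 one_pos
    rw [h, norm_zero] at this
    exact zero_ne_one this
  rw [mul_one] at h1
  exact mul_left_cancel₀ h2 (by rw [← h1, mul_one])

/-- functions of finite order on primes -/
theorem pow_one (f : ℕ → ℂ) (hf : CM f) (E : ℕ) (hE : ∀ p : ℕ, p.Prime → f p ^ E = 1) (n : ℕ)
    (hn : 0 < n) : f n ^ E = 1 := by
  induction n using Nat.recOnMul with
  | zero => exact absurd hn (lt_irrefl 0)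
  | one => rw [cm_one f hf, one_pow]
  | prime p hp => exact hE p hp
  | mul a b ha hb =>
    rw [hf.2.1, mul_pow, ha (Nat.pos_of_mul_pos_right hn), hb (Nat.pos_of_mul_pos_left hn), one_mul]

theorem en_le (M : ℕ) (F : ℕ → ℂ) (hF : ∀ n, ‖F n‖ ≤ 1) : ‖EN M F‖ ≤ 1 := by
  unfold EN
  rw [norm_div, norm_pow, Complex.norm_natCast]
  rcases Nat.eq_zero_or_pos M with rfl | hM
  · simp
  have hM' : (0 : ℝ) < M := by exact_mod_cast hM
  rw [div_le_one (by positivity)]
  calc ‖∑ u ∈ Finset.Icc 1 M, ∑ u' ∈ Finset.Icc 1 M, F (u + u')‖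
      ≤ ∑ u ∈ Finset.Icc 1 M, ‖∑ u' ∈ Finset.Icc 1 M, F (u + u')‖ := norm_sum_le _ _
    _ ≤ ∑ _u ∈ Finset.Icc 1 M, (M : ℝ) := by
        refine Finset.sum_le_sum fun u _ => ?_
        refine (norm_sum_le _ _).trans ((Finset.sum_le_sum fun u' _ => hF _).trans ?_)
        rw [Finset.sum_const, Nat.card_Icc, nsmul_eq_mul, mul_one]
        simp
    _ = (M : ℝ) ^ 2 := by
        rw [Finset.sum_const, Nat.card_Icc, nsmul_eq_mul, Nat.add_sub_cancel, pow_two]

theorem ea_conj (Q D a₀ M : ℕ) (F : ℕ → ℂ) :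
    EA Q D a₀ M (fun a => conj (F a)) = conj (EA Q D a₀ M F) := by
  unfold EA
  rw [map_div₀, map_pow, map_natCast, map_sum]
  congr 1
  refine Finset.sum_congr rfl fun v _ => ?_
  rw [map_sum]

theorem dr_pos (E w K : ℕ) (hK : 0 < K) : 0 < DR E w K := by
  unfold DR
  have : 0 < w.factorial := Nat.factorial_pos w
  positivity

/-- the main term for `t = 0` -/
theorem uxr (hPd : StDPd) (f g : ℕ → ℂ) (E w K : ℕ) (e' : Fin (K + 1) → Fin K) (M : ℕ) :
    UXR f g 0 E w K e' M = f (2 * w.factorial) ^ E * conj (g (kk w K e')) *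
      (cL g K M * conj (cL g K M)) * (conj (EA w.factorial (DR E w K)
        (inv0 w.factorial (kk w K e')) M g) * ENR w.factorial M f) := by
  unfold UXR BFR BxR
  congr 1
  rw [← ea_conj, ENR, ← hPd]
  congr 1
  funext a n
  simp only [Complex.ofReal_zero, zero_mul, Complex.cpow_zero, map_one, mul_one]
  rw [mul_comm]

end IRX2

open IRX2 in
theorem pr_RX2 (hXm : StRXm) (hPd : StDPd) (hTl : StDTl) (hVe : StRVe) : StRX2 := by
  obtain ⟨C₁, hC₁, h1⟩ := hXm
  obtain ⟨C₂, hC₂, h2⟩ := hVe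
  refine ⟨C₁ + C₂, by linarith, ?_⟩
  intro f g q hD E w K hE hw hwK hq hfp η hη
  have hK : 0 < K := by omega
  obtain ⟨M₁, hM₁⟩ := h1 f g 0 q hD E w K hE hw hwK hq (η / 2) (by linarith)
  obtain ⟨M₂, hM₂⟩ := h2 g hD.hg w K (DR E w K) hw hwK (dr_pos E w K hK) (η / 2) (by linarith)
  refine ⟨max M₁ M₂, fun M hM e e' e'' => ?_⟩
  have g1 := hM₁ M ((le_max_left _ _).trans hM) e e'
  have g2 := hM₂ M ((le_max_right _ _).trans hM) e' e''
  have hw0 : 0 < w.factorial := Nat.factorial_pos w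
  have hcL : ‖cL g K M‖ ≤ 1 := ((hTl g hD.hg).2.2.2.2.2.1 K M).1
  have hEN : ‖ENR w.factorial M f‖ ≤ 1 := en_le M _ fun n => cm_le f hD.hf _
  have hg1 : ‖g (kk w K e')‖ ≤ 1 := cm_le g hD.hg.cm _
  have hkp0 : 0 < kp w K e := by
    unfold kp
    refine Finset.prod_pos fun p _ => ?_
    split_ifs with hp
    · exact pow_pos hp.pos _
    · exact one_pos
  have f1 : f (kp w K e) ^ E = 1 := pow_one f hD.hf E hfp _ hkp0
  have f2 : f (2 * w.factorial) ^ E = 1 := pow_one f hD.hf E hfp _ (by omega)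
  rw [f1, one_mul, uxr hPd, f2, one_mul] at g1
  set A' := EA w.factorial (DR E w K) (inv0 w.factorial (kk w K e')) M g with hA'
  set A'' := EA w.factorial (DR E w K) (inv0 w.factorial (kk w K e'')) M g with hA''
  set N := ENR w.factorial M f with hN
  set c := cL g K M with hc
  have hdiff : ‖conj (g (kk w K e')) * (c * conj c) * (conj A' * N) -
      conj (g (kk w K e')) * ((c * conj c) * (N * conj A''))‖ ≤ ‖A' - A''‖ := by
    have e1 : conj (g (kk w K e')) * (c * conj c) * (conj A' * N) -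
        conj (g (kk w K e')) * ((c * conj c) * (N * conj A'')) =
        (conj (g (kk w K e')) * (c * conj c) * N) * conj (A' - A'') := by
      rw [map_sub]
      ring
    rw [e1, norm_mul, Complex.norm_conj, norm_mul, norm_mul, norm_mul, Complex.norm_conj,
      Complex.norm_conj]
    have e2 : ‖g (kk w K e')‖ * (‖c‖ * ‖c‖) * ‖N‖ ≤ 1 := by
      have e3 : ‖c‖ * ‖c‖ ≤ 1 := mul_le_one₀ hcL (norm_nonneg _) hcL
      have e4 : ‖g (kk w K e')‖ * (‖c‖ * ‖c‖) ≤ 1 :=
        mul_le_one₀ hg1 (mul_nonneg (norm_nonneg _) (norm_nonneg _)) e3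
      exact mul_le_one₀ e4 (norm_nonneg _) hEN
    calc ‖g (kk w K e')‖ * (‖c‖ * ‖c‖) * ‖N‖ * ‖A' - A''‖ ≤ 1 * ‖A' - A''‖ :=
          mul_le_mul_of_nonneg_right e2 (norm_nonneg _)
      _ = ‖A' - A''‖ := one_mul _
  have her : er g K ≤ eT g 0 w K := by
    unfold eT
    have h1 : (0 : ℝ) ≤ 1 / (w : ℝ) := by positivity
    have h2 : (0 : ℝ) ≤ (1 + |(0 : ℝ)|) / (K : ℝ) := by positivity
    linarith
  have her' : C₂ * er g K ≤ C₂ * eT g 0 w K := mul_le_mul_of_nonneg_left her hC₂.le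
  have htri := norm_sub_le_norm_sub_add_norm_sub (CXR f E w K e e' M)
    (conj (g (kk w K e')) * (c * conj c) * (conj A' * N))
    (conj (g (kk w K e')) * ((c * conj c) * (N * conj A'')))
  calc _ ≤ _ := htri
    _ ≤ (C₁ * eT g 0 w K + η / 2) + (C₂ * er g K + η / 2) :=
        add_le_add g1 (hdiff.trans g2)
    _ ≤ (C₁ + C₂) * eT g 0 w K + η := by linarith

end Pool.Agent.F0f91f8.RC
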