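import Pool.Agent.Work.MP_0f91f8_co.RC.StmtsD2
import Pool.Agent.Work.MP_0f91f8_co.HD.I_DXm

/-!
# Item RXm of the relative collision theorem, module D': the correlation `x, y`
-/

set_option autoImplicit false

namespace Pool.Agent.F0f91f8.RC

open Filter Topology ComplexConjugate
open Pool.Agent.F0f91f8.HD
open scoped BigOperators

namespace IRXm

/-- averaging a pointwise bound -/
theorem avg (hBx : StDBx) (Q D a₀ M : ℕ) (hD : 0 < D) (hM : 0 < M)
    (F G : ℕ → ℕ → ℂ) (c : ℂ) (A s p x y : ℝ) (F₁ F₂ F₃ F₄ : ℕ → ℕ → ℝ)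
    (hpt : ∀ b n : ℕ, 0 < b → 0 < n →
      ‖F (Q * b + a₀) n - c * G (Q * b + a₀) n‖ ≤
      A + 2 * F₁ (Q * b + a₀) n + 2 * F₂ (Q * b + a₀) n + F₃ (Q * b + a₀) n + F₄ (Q * b + a₀) n)
    (h₁ : BR Q D a₀ M F₁ ≤ s) (h₂ : BR Q D a₀ M F₂ ≤ p) (h₃ : BR Q D a₀ M F₃ ≤ x)
    (h₄ : BR Q D a₀ M F₄ ≤ y) :
    ‖Bx Q D a₀ M F - c * Bx Q D a₀ M G‖ ≤ A + 2 * s + 2 * p + x + y := by
  obtain ⟨hadd, hmul, hnorm, -, -, -, -⟩ := hBx Q D a₀ M
  have h0 : Bx Q D a₀ M F - c * Bx Q D a₀ M G =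
      Bx Q D a₀ M (fun a n => F a n - c * G a n) := by
    have h1 := hadd F (fun a n => (-c) * G a n)
    have h2 := hmul (-c) G
    rw [h2] at h1
    have h3 : (fun a n => F a n + -c * G a n) = (fun a n => F a n - c * G a n) := by
      funext a n; ring
    rw [h3] at h1
    rw [h1]; ring
  rw [h0]
  refine (hnorm _).trans ?_
  refine (IDXm.BR_mono Q D a₀ M _ (fun a n => A + 2 * F₁ a n + 2 * F₂ a n + F₃ a n + F₄ a n)
    (fun b n hb hn => hpt b n hb hn)).trans ?_
  rw [IDXm.BR_lin hBx Q D a₀ M hD hM]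
  linarith

/-- the correlation for one pair of parameters -/
theorem one (hBx : StDBx) (hK2 : StRK2) (hPr : StRPr) (hSz : StRSz) (hPX : StRPX)
    (f g : ℕ → ℂ) (t : ℝ) (q : ℕ) (hdec : Dec f g t q) (E w K : ℕ) (hE : 1 ≤ E) (hw : 2 ≤ w)
    (hwK : w ≤ K) (hq : q ∣ w.factorial) (M : ℕ) (hM : 0 < M) (e : Fin (w + 1) → Fin K)
    (e' : Fin (K + 1) → Fin K) (p x : ℝ)
    (hp : (BR w.factorial (DR E w K) (inv0 w.factorial (kk w K e')) M fun _ s =>
      iPq w (w.factorial * s + 1)) ≤ p)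
    (h₃ : (BR w.factorial (DR E w K) (inv0 w.factorial (kk w K e')) M fun a s =>
      ‖gT g K (kk w K e' * a + kR E w K e * (w.factorial * s + 1)) - cL g K M‖) ≤ x)
    (h₄ : (BR w.factorial (DR E w K) (inv0 w.factorial (kk w K e')) M fun a s =>
      ‖gT g K (kk w K e' * a + 2 * (kR E w K e * (w.factorial * s + 1))) - cL g K M‖) ≤ x) :
    ‖CXR f E w K e e' M - f (kp w K e) ^ E * UXR f g t E w K e' M‖ ≤
      10 * |t| / K + 2 * (2 / (K : ℝ)) + 2 * p + x + x := by
  have hK : 0 < K := by omega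
  obtain ⟨-, -, -, hκ0, hKκ, hD0, hfκ⟩ := hK2 E w K e hE hw (by omega)
  obtain ⟨hPar, -, -, hcong⟩ := hPr E w K e e' hE hw hwK
  have hrew : CXR f E w K e e' M - f (kp w K e) ^ E * UXR f g t E w K e' M =
      Bx w.factorial (DR E w K) (inv0 w.factorial (kk w K e')) M
        (fun a s => f (tX (kR E w K e) (kk w K e') a (w.factorial * s + 1)) *
          conj (f (tY (kR E w K e) (kk w K e') a (w.factorial * s + 1)))) -
      (f (2 * kR E w K e) * (conj (g (kk w K e')) * (cL g K M * conj (cL g K M)))) *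
      Bx w.factorial (DR E w K) (inv0 w.factorial (kk w K e')) M
        (fun a s => f (w.factorial * s + 1) *
          conj (((kk w K e' * a : ℕ) : ℂ) ^ (t * Complex.I)) * conj (g a)) := by
    rw [hfκ f hdec.hf]
    unfold CXR UXR BFR BxR
    ring
  rw [hrew]
  refine avg hBx w.factorial (DR E w K) (inv0 w.factorial (kk w K e')) M hD0 hM _ _ _
    (10 * |t| / K) (2 / (K : ℝ)) p x x
    (fun a s => if K * (kR E w K e * (w.factorial * s + 1)) > 2 * (kk w K e' * a) then 1 else 0)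
    (fun _ s => iPq w (w.factorial * s + 1))
    (fun a s => ‖gT g K (kk w K e' * a + kR E w K e * (w.factorial * s + 1)) - cL g K M‖)
    (fun a s => ‖gT g K (kk w K e' * a + 2 * (kR E w K e * (w.factorial * s + 1))) - cL g K M‖)
    ?_ ?_ hp h₃ h₄
  · intro b s hb hs
    have h := hPX f g t q hdec w K (kR E w K e) (kk w K e') hw hwK hq hPar M
      (w.factorial * b + inv0 w.factorial (kk w K e')) (w.factorial * s + 1) (hcong b)
      (by have := Nat.mul_pos (Nat.factorial_pos w) hb; omega) (Nat.succ_pos _)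
    refine le_trans (le_of_eq ?_) h
    congr 1
    ring
  · exact hSz w.factorial (DR E w K) K (kR E w K e) (kk w K e') M
      (inv0 w.factorial (kk w K e')) (Nat.factorial_pos w) hK hM hκ0 hPar.k0 hKκ

theorem final (t E w K C η : ℝ) (hE : 0 ≤ E) (hw : 0 < w) (hK : 0 < K) (hC : 0 < C)
    (ht : 0 ≤ t) :
    10 * t / K + 2 * (2 / K) + 2 * (1 / w + η / 4) + (C * E + η / 4) + (C * E + η / 4) ≤
      (14 + 2 * C) * (E + 1 / w + (1 + t) / K) + η := by
  have h1 : 0 ≤ 1 / w := by positivity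
  have h2 : 0 ≤ 1 / K := by positivity
  have h3 : 0 ≤ t / K := by positivity
  have e1 : 10 * t / K = 10 * (t / K) := by ring
  have e2 : (1 + t) / K = 1 / K + t / K := by ring
  have e3 : 2 / K = 2 * (1 / K) := by ring
  rw [e1, e2, e3]
  nlinarith [mul_nonneg hC.le h1, mul_nonneg hC.le h2, mul_nonneg hC.le h3, mul_nonneg hC.le hE]

end IRXm

/-- the correlation `x, y` of a pretentious function, main term and error -/
theorem pr_RXm (hBx : StDBx) (hK2 : StRK2) (hPr : StRPr) (hSz : StRSz) (hPq : StRPq)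
    (hLm : StRLm) (hPX : StRPX) : StRXm := by
  obtain ⟨C, hC, hLm⟩ := hLm
  refine ⟨14 + 2 * C, by positivity, ?_⟩
  intro f g t q hdec E w K hE hw hwK hq η hη
  have hK : 0 < K := by omega
  have hw0 : 0 < w := by omega
  have hfac : ∀ p : ℕ, p.Prime → p ∣ w.factorial → p ≤ w := fun p hp h =>
    (hp.dvd_factorial).1 h
  obtain ⟨M1, hM1⟩ := hPq w w.factorial (by omega) (Nat.factorial_pos w) hfac (η / 4)
    (by positivity)
  have hpar : ∀ i : (Fin (w + 1) → Fin K) × (Fin (K + 1) → Fin K), ∃ M0 : ℕ, ∀ M ≥ M0,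
      0 < DR E w K ∧
      (BR w.factorial (DR E w K) (inv0 w.factorial (kk w K i.2)) M fun a s =>
        ‖gT g K (kk w K i.2 * a + kR E w K i.1 * (w.factorial * s + 1)) - cL g K M‖) ≤
          C * er g K + η / 4 ∧
      (BR w.factorial (DR E w K) (inv0 w.factorial (kk w K i.2)) M fun a s =>
        ‖gT g K (kk w K i.2 * a + 2 * (kR E w K i.1 * (w.factorial * s + 1))) - cL g K M‖) ≤
          C * er g K + η / 4 := by
    rintro ⟨e, e'⟩
    obtain ⟨-, -, -, hκ0, -, hD0, -⟩ := hK2 E w K e hE hw (by omega)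
    obtain ⟨hPar, hinv, hpr, -⟩ := hPr E w K e e' hE hw hwK
    obtain ⟨M2, hM2⟩ := hLm g hdec.hg K (kR E w K e) (kk w K e') w.factorial (DR E w K)
      (by omega) hκ0 hPar.k0 (Nat.factorial_pos w) hD0
      (fun p hp hdvd => hpr p hp (by
        rcases (Nat.Prime.dvd_mul hp).1 hdvd with h | h
        · exact dvd_mul_of_dvd_left (dvd_mul_of_dvd_left h _) _
        · exact dvd_mul_of_dvd_right h _)) (η / 4) (by positivity)
    exact ⟨M2, fun M hM => ⟨hD0, (hM2 M hM _ hinv).2⟩⟩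
  obtain ⟨M3, hM3⟩ := IDXm.common _ hpar
  refine ⟨max (max M1 M3) 1, fun M hM e e' => ?_⟩
  have ha : M1 ≤ M := le_trans (le_trans (le_max_left _ _) (le_max_left _ _)) hM
  have hb : M3 ≤ M := le_trans (le_trans (le_max_right _ _) (le_max_left _ _)) hM
  have hc : 0 < M := le_trans (le_max_right _ _) hM
  obtain ⟨hD0, h3, h4⟩ := hM3 M hb (e, e')
  refine (IRXm.one hBx hK2 hPr hSz hPX f g t q hdec E w K hE hw hwK hq M hc e e' _ _
    (hM1 M ha _ _ hD0) h3 h4).trans ?_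
  unfold eT
  exact IRXm.final |t| (er g K) w K C η (Real.sqrt_nonneg _) (by exact_mod_cast hw0)
    (by exact_mod_cast hK) hC (abs_nonneg t)

end Pool.Agent.F0f91f8.RC
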