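import Pool.Agent.Work.MP_0f91f8_co.RC.StmtsD2

/-! Relative collision theorem, module D′, part 2: item RZ2. -/

set_option autoImplicit false

namespace Pool.Agent.F0f91f8.RC

open Filter Topology ComplexConjugate
open Pool.Agent.F0f91f8.HD
open scoped BigOperators

namespace IRZ2

theorem pw {f : ℕ → ℂ} (hf : CM f) {E : ℕ} (hp : ∀ p : ℕ, p.Prime → f p ^ E = 1) :
    ∀ n : ℕ, 0 < n → f n ^ E = 1 := by
  have h1 : f 1 = 1 := by
    have h2 := hf.2.1 1 1
    rw [mul_one] at h2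
    have h3 : f 1 ≠ 0 := by
      intro h4
      have h5 := hf.2.2 1 one_pos
      rw [h4, norm_zero] at h5
      exact zero_ne_one h5
    exact (mul_left_cancel₀ h3 (by rw [mul_one]; exact h2)).symm
  intro n
  induction n using Nat.recOnMul with
  | zero => intro h; exact absurd h (lt_irrefl 0)
  | one => intro _; rw [h1, one_pow]
  | prime p h => intro _; exact hp p h
  | mul a b ha hb =>
    intro h
    rw [hf.2.1, mul_pow, ha (Nat.pos_of_mul_pos_right h), hb (Nat.pos_of_mul_pos_left h), mul_one]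

theorem alg {q l b : ℂ} {A F δ : ℝ} (hq : ‖q‖ ≤ 1) (hl : ‖l‖ ≤ 1) (h1 : ‖l - 1‖ ≤ A)
    (h2 : ‖q - 1‖ ≤ F) (h3 : ‖b - conj l‖ ≤ δ) :
    ‖q * conj l * b - 1‖ ≤ δ + (F + 2 * A) := by
  have hl' : ‖conj l‖ ≤ 1 := by rw [Complex.norm_conj]; exact hl
  have h4 : ‖conj l - 1‖ ≤ A := by
    have : conj l - 1 = conj (l - 1) := by rw [map_sub, map_one]
    rw [this, Complex.norm_conj]
    exact h1
  have e : q * conj l * b - 1 = q * conj l * (b - conj l) + ((q - 1) + q * ((conj l - 1) *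
      (conj l + 1))) := by ring
  rw [e]
  refine (norm_add_le _ _).trans (add_le_add ?_ ((norm_add_le _ _).trans (add_le_add h2 ?_)))
  · rw [norm_mul]
    have h5 : ‖q * conj l‖ ≤ 1 := by
      rw [norm_mul]
      exact mul_le_one₀ hq (norm_nonneg _) hl'
    calc ‖q * conj l‖ * ‖b - conj l‖ ≤ 1 * δ :=
          mul_le_mul h5 h3 (norm_nonneg _) zero_le_one
      _ = δ := one_mul _
  · rw [norm_mul, norm_mul]
    have h6 : ‖conj l + 1‖ ≤ 2 := by
      refine (norm_add_le _ _).trans ?_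
      rw [norm_one]
      linarith
    have hA : 0 ≤ A := (norm_nonneg _).trans h1
    calc ‖q‖ * (‖conj l - 1‖ * ‖conj l + 1‖) ≤ 1 * (A * 2) :=
          mul_le_mul hq (mul_le_mul h4 h6 (norm_nonneg _) hA) (by positivity) zero_le_one
      _ = 2 * A := by ring

theorem DRpos {E w K : ℕ} (hK : 0 < K) : 0 < DR E w K := by
  unfold DR
  have := Nat.factorial_pos w
  positivity

end IRZ2

open IRZ2 in
theorem pr_RZ2 (hBx : StDBx) (hZm : StRZm) (hLm : StRLm) (hTl : StDTl) (hFc : StDFc)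
    (hMd : StDMd) (hcT : StRcT) : StRZ2 := by
  obtain ⟨C1, hC1, hZ⟩ := hZm
  obtain ⟨C2, hC2, hL⟩ := hLm
  refine ⟨C1 + C2, by positivity, ?_⟩
  intro f g q hD E w K hE hw hwK hq hfE B hB hgB η hη
  have hK0 : 0 < K := by omega
  obtain ⟨M1, hM1⟩ := hZ f g 0 q hD E w K hE hw hwK hq (η / 2) (by positivity)
  obtain ⟨M2, hM2⟩ := hL g hD.hg K 1 1 w.factorial (DR E w K) (by omega) one_pos one_pos
    (Nat.factorial_pos w) (DRpos hK0)
    (by
      intro p hp hpd
      rw [one_mul] at hpd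
      exact ((hp.dvd_factorial).1 hpd).trans hwK) (η / 2) (by positivity)
  refine ⟨M1 + M2 + 1, fun M hM e e' => ?_⟩
  obtain ⟨hcop, hk0, hkp0, hinv, -, -⟩ := hMd w K e e' hwK
  have hz := hM1 M (by omega) e e'
  obtain ⟨hl, -, -⟩ := hM2 M (by omega) (inv0 w.factorial (kk w K e')) hinv
  obtain ⟨-, -, -, -, -, hc, -⟩ := hTl g hD.hg
  obtain ⟨hcL, hcQ⟩ := hcT g hD.hg B K hB hgB M
  have hpw := pw hD.hf hfE
  set Q := w.factorial with hQ
  have hQ0 : 0 < Q := Nat.factorial_pos w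
  set a₀ := inv0 Q (kk w K e') with ha₀
  obtain ⟨b1, b2, b3, b4, b5, b6, b7⟩ := hBx Q (DR E w K) a₀ M
  obtain ⟨b7, -⟩ := b7 (DRpos hK0) (by omega)
  have hkey : ∀ s : ℕ, conj (f (Q * s + 1)) * gP g w K (Q * s + 1) =
      conj (gT g K (Q * s + 1)) := by
    intro s
    have hn : 0 < Q * s + 1 := Nat.succ_pos _
    have hmod : (Q * s + 1) % q = 1 % q := by
      obtain ⟨c, hc⟩ := hq
      rw [hc, mul_assoc, Nat.mul_add_mod]
    have hfn := hD.eq (Q * s + 1) hn hmod
    have h0 : ((0 : ℝ) : ℂ) * Complex.I = 0 := by rw [Complex.ofReal_zero, zero_mul]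
    rw [h0, Complex.cpow_zero, one_mul] at hfn
    obtain ⟨f1, f2, -⟩ := hFc g hD.hg.cm w K (Q * s + 1) hn hwK
    have f3 := f1 (by
      intro p hp hpd
      by_contra hlt
      have hpQ : p ∣ Q := (hp.dvd_factorial).2 (not_lt.1 hlt)
      have h1 : p ∣ 1 := (Nat.dvd_add_right (hpQ.mul_right s)).1 hpd
      exact hp.one_lt.ne' (Nat.dvd_one.1 h1))
    have f4 : gP g w K (Q * s + 1) * conj (gP g w K (Q * s + 1)) = 1 := by
      rw [Complex.mul_conj, Complex.normSq_eq_norm_sq, f2]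
      norm_num
    rw [hfn, f3, map_mul]
    calc conj (gP g w K (Q * s + 1)) * conj (gT g K (Q * s + 1)) * gP g w K (Q * s + 1) =
        (gP g w K (Q * s + 1) * conj (gP g w K (Q * s + 1))) * conj (gT g K (Q * s + 1)) := by ring
      _ = _ := by rw [f4, one_mul]
  have hBF : (BFR E w K e' M fun a n => conj (f n) *
      ((kk w K e' * a : ℕ) : ℂ) ^ (((0 : ℝ) : ℂ) * Complex.I) * gP g w K n) =
      Bx Q (DR E w K) a₀ M fun _ s => conj (gT g K (Q * s + 1)) := by
    unfold BFR BxR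
    have : ∀ a s : ℕ, conj (f (Q * s + 1)) *
        ((kk w K e' * a : ℕ) : ℂ) ^ (((0 : ℝ) : ℂ) * Complex.I) * gP g w K (Q * s + 1) =
        conj (gT g K (Q * s + 1)) := by
      intro a s
      rw [Complex.ofReal_zero, zero_mul, Complex.cpow_zero, mul_one, hkey]
    exact congrArg (Bx Q (DR E w K) a₀ M) (funext fun a => funext fun s => this a s)
  have hdiff : (Bx Q (DR E w K) a₀ M fun _ s => conj (gT g K (Q * s + 1))) - conj (cL g K M) =
      Bx Q (DR E w K) a₀ M fun _ s => conj (gT g K (Q * s + 1)) - conj (cL g K M) := by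
    have h1 := b1 (fun _ s => conj (gT g K (Q * s + 1))) (fun _ _ => (-conj (cL g K M)) * 1)
    have h2 := b2 (-conj (cL g K M)) (fun _ _ => 1)
    rw [h2, b7] at h1
    have h3 : (Bx Q (DR E w K) a₀ M fun _ s => conj (gT g K (Q * s + 1)) - conj (cL g K M)) =
        Bx Q (DR E w K) a₀ M fun _ s => conj (gT g K (Q * s + 1)) + -conj (cL g K M) * 1 := by
      congr 1
      funext a s
      ring
    rw [h3, h1]
    ring
  have hb : ‖(Bx Q (DR E w K) a₀ M fun _ s => conj (gT g K (Q * s + 1))) - conj (cL g K M)‖ ≤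
      C2 * er g K + η / 2 := by
    rw [hdiff]
    refine (b3 _).trans (le_trans (le_of_eq ?_) hl)
    congr 1
    funext a s
    rw [← map_sub, Complex.norm_conj]
  have hmain := alg (hc K M).2 (hc K M).1 hcL hcQ hb
  have hU : conj (f (kp w K e)) ^ E * UZR f g 0 E w K e' M = cQ g K M * conj (cL g K M) *
      Bx Q (DR E w K) a₀ M fun _ s => conj (gT g K (Q * s + 1)) := by
    unfold UZR
    rw [hBF, ← map_pow, ← map_pow, hpw _ hkp0, hpw _ (Nat.mul_pos two_pos (Nat.factorial_pos w)),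
      map_one, one_mul, one_mul]
  rw [hU] at hz
  have her : er g K ≤ eT g 0 w K := by
    unfold eT
    have : (0 : ℝ) ≤ 1 / (w : ℝ) + (1 + |(0 : ℝ)|) / (K : ℝ) := by positivity
    linarith
  calc ‖CZR f E w K e e' M - 1‖ = ‖(CZR f E w K e e' M - cQ g K M * conj (cL g K M) *
        Bx Q (DR E w K) a₀ M fun _ s => conj (gT g K (Q * s + 1))) + (cQ g K M *
        conj (cL g K M) * (Bx Q (DR E w K) a₀ M fun _ s => conj (gT g K (Q * s + 1))) - 1)‖ := by
        congr 1
        ring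
    _ ≤ (C1 * eT g 0 w K + η / 2) + ((C2 * er g K + η / 2) + (2 * B * tl g K +
        2 * (B * tl g K))) := (norm_add_le _ _).trans (add_le_add hz hmain)
    _ ≤ (C1 + C2) * eT g 0 w K + 4 * B * tl g K + η := by nlinarith [her, hC2]

end Pool.Agent.F0f91f8.RC
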