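import Pool.Agent.Work.MP_0f91f8_co.RC.StmtsD2

/-!
# Item RcT of the block RC-D2 (helper74): the constants of concentration are close to one
-/

set_option autoImplicit false

namespace Pool.Agent.F0f91f8.RC

open Filter Topology ComplexConjugate
open Pool.Agent.F0f91f8.HD
open scoped BigOperators

namespace IRcT

theorem key (hEx : StDEx) (hTl : StDTl) (g : ℕ → ℂ) (hg : G1 g) (B : ℝ) (K : ℕ) (hB : 0 ≤ B)
    (h : ∀ p : ℕ, p.Prime → K < p → ‖1 - g p‖ ≤ B * ‖1 - g p‖ ^ 2) (S : Finset ℕ)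
    (hS : ∀ p ∈ S, p.Prime ∧ K < p) (c : ℝ) (hc : 0 ≤ c) :
    ‖Complex.exp (∑ p ∈ S, (c : ℂ) * (g p - 1) / p) - 1‖ ≤ c * B * tl g K := by
  have h0 : (∑ p ∈ S, (c : ℂ) * (g p - 1) / p).re ≤ 0 := by
    rw [Complex.re_sum]
    refine Finset.sum_nonpos fun p hp => ?_
    have hpp := (hS p hp).1
    have hp0 : (0 : ℝ) < p := by exact_mod_cast hpp.pos
    have e : (c : ℂ) * (g p - 1) / p = ((c / p : ℝ) : ℂ) * (g p - 1) := by
      push_cast
      ring
    rw [e, Complex.re_ofReal_mul]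
    have h1 : (g p - 1).re ≤ 0 := by
      have h2 : (g p).re ≤ ‖g p‖ := Complex.re_le_norm _
      rw [hg.cm.2.2 p hpp.pos] at h2
      rw [Complex.sub_re, Complex.one_re]
      linarith
    exact mul_nonpos_of_nonneg_of_nonpos (by positivity) h1
  have h1 := hEx.1 _ 0 h0 (by simp)
  rw [Complex.exp_zero, sub_zero] at h1
  refine h1.trans ((norm_sum_le _ _).trans ?_)
  have h2 : ∀ p ∈ S, ‖(c : ℂ) * (g p - 1) / p‖ ≤ c * B * (‖1 - g p‖ ^ 2 / p) := by
    intro p hp
    obtain ⟨hpp, hK⟩ := hS p hp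
    have hp0 : (0 : ℝ) < p := by exact_mod_cast hpp.pos
    rw [norm_div, norm_mul, Complex.norm_real, Complex.norm_natCast, Real.norm_of_nonneg hc,
      norm_sub_rev (g p)]
    have h3 := h p hpp hK
    calc c * ‖1 - g p‖ / p ≤ c * (B * ‖1 - g p‖ ^ 2) / p := by gcongr
      _ = c * B * (‖1 - g p‖ ^ 2 / p) := by ring
  refine (Finset.sum_le_sum h2).trans ?_
  rw [← Finset.mul_sum]
  exact mul_le_mul_of_nonneg_left ((hTl g hg).2.2.2.2.1 K S hS) (by positivity)

end IRcT

open IRcT in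
/-- the constants of concentration are close to one -/
theorem pr_RcT (hEx : StDEx) (hTl : StDTl) : StRcT := by
  intro g hg B K hB h M
  have hpm : ∀ p ∈ pr4 K M, p.Prime ∧ K < p := by
    intro p hp
    rw [pr4, Finset.mem_filter] at hp
    exact ⟨hp.2.1, hp.2.2.1⟩
  constructor
  · have h1 := key hEx hTl g hg B K hB h (pr4 K M) hpm 1 zero_le_one
    unfold cL
    simpa using h1
  · have h1 := key hEx hTl g hg B K hB h ((pr4 K M).filter fun p => p % 4 = 1)
      (fun p hp => hpm p (Finset.mem_filter.1 hp).1) 2 (by norm_num)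
    unfold cQ
    simpa using h1

end Pool.Agent.F0f91f8.RC
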