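import Pool.Agent.Work.MP_a8fbd7_nt.ZF.All
import Pool.Agent.Work.MP_0f91f8_co.HD.C_BL
import Pool.Agent.Work.MP_0f91f8_co.RC.AllD1
import Pool.Agent.Work.MP_0f91f8_co.RC.I_RAv
import Pool.Agent.Work.MP_0f91f8_co.RC.I_RFi
import Pool.Agent.Work.MP_0f91f8_co.RC.I_RFv
import Pool.Agent.Work.MP_0f91f8_co.RC.I_RK2
import Pool.Agent.Work.MP_0f91f8_co.RC.I_RKp
import Pool.Agent.Work.MP_0f91f8_co.RC.I_RPr
import Pool.Agent.Work.MP_0f91f8_co.RC.I_RVe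
import Pool.Agent.Work.MP_0f91f8_co.RC.I_RVy
import Pool.Agent.Work.MP_0f91f8_co.RC.I_RX1
import Pool.Agent.Work.MP_0f91f8_co.RC.I_RX2
import Pool.Agent.Work.MP_0f91f8_co.RC.I_RXm
import Pool.Agent.Work.MP_0f91f8_co.RC.I_RYm
import Pool.Agent.Work.MP_0f91f8_co.RC.I_RZ2
import Pool.Agent.Work.MP_0f91f8_co.RC.I_RZm
import Pool.Agent.Work.MP_0f91f8_co.RC.I_RcT

/-!
# Relative collision theorem, module D′: composition
-/

set_option autoImplicit false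

namespace Pool.Agent.F0f91f8.RC

open Pool.Agent.F0f91f8.HD

theorem dBL : S_BL := pr_BL Pool.Agent.Work.MP_a8fbd7_nt.ZF.all_Pnt

theorem all_RPr : StRPr := pr_RPr pr_RK2 pr_DMd

theorem all_RXm : StRXm := pr_RXm pr_DBx pr_RK2 all_RPr pr_RSz pr_RPq all_RLm all_RPX

theorem all_RZm : StRZm := pr_RZm pr_DBx pr_RK2 all_RPr pr_RSz pr_RPq all_RLm all_RQd all_RPZ

theorem all_RYm : StRYm := pr_RYm pr_DBx pr_RK2 all_RPr pr_RSz pr_RPq all_RLm all_RQd all_RPY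

theorem all_RVe : StRVe := pr_RVe pr_DTl all_DLm pr_DFc pr_DMd pr_DPe

theorem all_RVy : StRVy := pr_RVy pr_DPd pr_DTl all_RVe

theorem all_RX1 : StRX1 := pr_RX1 pr_DBx pr_RK2 all_RPr pr_RMd

theorem all_RX2 : StRX2 := pr_RX2 all_RXm pr_DPd pr_DTl all_RVe

theorem all_RcT : StRcT := pr_RcT pr_DEx pr_DTl

theorem all_RZ2 : StRZ2 := pr_RZ2 pr_DBx all_RZm all_RLm pr_DTl pr_DFc pr_DMd all_RcT

/-- MODULE D′ -/
theorem pr_PWRPret : PWRPret :=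
  pr_RFi dBL (pr_RAv pr_DBx) pr_DTl all_RXm all_RZm all_RYm all_RVy pr_DKp (pr_RKp pr_DKp)
    pr_DDe pr_RFv all_RX1 all_RX2 all_RZ2

end Pool.Agent.F0f91f8.RC
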