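import Pool.Agent.Work.MP_0f91f8_co.RC.Defs
import Pool.Agent.Work.MP_0f91f8_co.HD.B_All

/-!
# Relative collision theorem, module B′: `AperR`

Adaptation of `HD/B3_Sup, B3_Rew, B3_GK2, B3_XY, B3_Fin` (authors: see there) to the family with
`n = Q (u + u') + 1`.
-/

set_option autoImplicit false

namespace Pool.Agent.F0f91f8.RC

open Filter Topology ComplexConjugate
open Pool.Agent.F0f91f8.HD
open Pool.Agent.F0f91f8.HD.B2
open Pool.Agent.F0f91f8.HD.B3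
open Pool.Agent.U3 (ee lf dt sz bx)
open scoped BigOperators Classical

/-- the weight of a Gaussian integer `b = m + i n`, `n = κ (Q (u + u') + 1)`,
`m - n = k (Q (v + v') + a₀)` -/
noncomputable def WR (κ k Q D a₀ M : ℕ) (b : ℤ × ℤ) : ℕ :=
  tent M (κ * Q) κ b.2 * tent (D * M) (k * Q) ((k * a₀ : ℕ) : ℤ) (b.1 - b.2)

/-- the box of the support -/
def CR (κ k Q D a₀ : ℕ) : ℕ := 2 * k * Q * D + k * a₀ + (2 * κ * Q + κ)

def StSupR : Prop := ∀ κ k Q D a₀ M : ℕ, 0 < κ → 0 < k → 0 < Q →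
  (∀ b : ℤ × ℤ, WR κ k Q D a₀ M b ≠ 0 → 0 < b.2 ∧ b.2 < b.1 ∧ b ∈ box (CR κ k Q D a₀ * M)) ∧
  (∀ b : ℤ × ℤ, WR κ k Q D a₀ M b ≤ M * (D * M))

def StRewR : Prop := ∀ (κ k Q D a₀ M : ℕ) (Φ : ℕ → ℕ → ℂ), 0 < κ → 0 < k → 0 < Q →
  BxR Q D a₀ M (fun a n => Φ (k * a + κ * n) (κ * n)) =
    (∑ b ∈ box (CR κ k Q D a₀ * M), (WR κ k Q D a₀ M b : ℂ) * Φ b.1.toNat b.2.toNat) /
      ((M : ℂ) ^ 2 * ((D * M : ℕ) : ℂ) ^ 2)

def StGKR : Prop := ∀ f : ℕ → ℂ, CM f → Aper f → ∀ κ k Q D a₀ : ℕ, 0 < κ → 0 < k → 0 < Q →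
  ∀ r₁ r₂ : ℤ × ℤ, (r₁ = (1, -1) ∧ r₂ = (1, 1)) ∨ (r₁ = (1, 0) ∧ r₂ = (0, 1)) →
  ∀ ε : ℝ, 0 < ε → ∃ M₀ : ℕ, ∀ M ≥ M₀,
    ‖∑ b ∈ box (CR κ k Q D a₀ * M), (WR κ k Q D a₀ M b : ℂ) *
      (f (lf r₁ b).toNat * f (lf r₂ b).toNat * conj (f (nm b)))‖ ≤
      ε * (M : ℝ) ^ 2 * ((M : ℝ) * (D * M : ℕ))

def StXYR : Prop := ∀ f : ℕ → ℂ, CM f → Aper f → ∀ κ k Q D a₀ : ℕ, 0 < κ → 0 < k → 0 < Q →
  ∀ ε : ℝ, 0 < ε → ∃ M₀ : ℕ, ∀ M ≥ M₀,
    ‖∑ b ∈ box (CR κ k Q D a₀ * M), (WR κ k Q D a₀ M b : ℂ) *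
      (f b.1.toNat * f b.2.toNat * conj (f (b.1 - b.2).toNat * f (b.1 + b.2).toNat))‖ ≤
      ε * (M : ℝ) ^ 2 * ((M : ℝ) * (D * M : ℕ))

open Pool.Agent.F0f91f8.HD.B3.XSup in
theorem SupR_pf : StSupR := by
  intro κ k Q D a₀ M hκ hk hQ
  constructor
  · intro b hb
    unfold WR at hb
    obtain ⟨u, u', hu1, hu2, hu3, hu4, hu5⟩ := tent_ne (left_ne_zero_of_mul hb)
    obtain ⟨v, v', hv1, hv2, hv3, hv4, hv5⟩ := tent_ne (right_ne_zero_of_mul hb)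
    push_cast at hu5 hv5
    have hκ' : (1 : ℤ) ≤ κ := by exact_mod_cast hκ
    have hk' : (1 : ℤ) ≤ k := by exact_mod_cast hk
    have hQ' : (1 : ℤ) ≤ Q := by exact_mod_cast hQ
    have hu1' : (1 : ℤ) ≤ u := by exact_mod_cast hu1
    have hu2' : (u : ℤ) ≤ M := by exact_mod_cast hu2
    have hu3' : (1 : ℤ) ≤ u' := by exact_mod_cast hu3
    have hu4' : (u' : ℤ) ≤ M := by exact_mod_cast hu4
    have hv1' : (1 : ℤ) ≤ v := by exact_mod_cast hv1
    have hv2' : (v : ℤ) ≤ D * M := by exact_mod_cast hv2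
    have hv3' : (1 : ℤ) ≤ v' := by exact_mod_cast hv3
    have hv4' : (v' : ℤ) ≤ D * M := by exact_mod_cast hv4
    have ha : (0 : ℤ) ≤ a₀ := by positivity
    have hM : (1 : ℤ) ≤ M := by linarith
    have hkQ : (1 : ℤ) ≤ k * Q := by nlinarith
    have hka : (0 : ℤ) ≤ k * a₀ := by positivity
    have hκQ : (1 : ℤ) ≤ κ * Q := by nlinarith
    have e1 : 0 < b.2 := by
      rw [← hu5]
      nlinarith
    have e2 : b.2 ≤ (2 * κ * Q + κ) * M := by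
      rw [← hu5]
      have f1 : (κ : ℤ) * Q * (u + u') ≤ κ * Q * (M + M) :=
        mul_le_mul_of_nonneg_left (by linarith) (by linarith)
      have f2 : (κ : ℤ) ≤ κ * M := by nlinarith
      nlinarith
    have e3 : 0 < b.1 - b.2 := by
      rw [← hv5]
      nlinarith
    have e4 : b.1 - b.2 ≤ (2 * k * Q * D + k * a₀) * M := by
      rw [← hv5]
      have f1 : (k : ℤ) * Q * (v + v') ≤ k * Q * (D * M + D * M) :=
        mul_le_mul_of_nonneg_left (by linarith) (by linarith)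
      have f2 : (k : ℤ) * a₀ ≤ k * a₀ * M := by nlinarith
      nlinarith
    refine ⟨e1, by linarith, ?_⟩
    unfold box CR
    rw [Finset.mem_product, Finset.mem_Icc, Finset.mem_Icc]
    push_cast
    have g0 : (0 : ℤ) ≤ (2 * k * Q * D + k * a₀) * M := by positivity
    have e5 : b.1 ≤ (2 * k * Q * D + k * a₀ + (2 * κ * Q + κ)) * M := by
      rw [add_mul (2 * (k : ℤ) * Q * D + k * a₀) (2 * κ * Q + κ) M]; linarith
    have e6 : b.2 ≤ (2 * k * Q * D + k * a₀ + (2 * κ * Q + κ)) * M := by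
      rw [add_mul (2 * (k : ℤ) * Q * D + k * a₀) (2 * κ * Q + κ) M]; linarith
    have e7 : 0 ≤ b.1 := by linarith
    refine ⟨⟨by linarith, e5⟩, by linarith, e6⟩
  · intro b
    unfold WR
    exact Nat.mul_le_mul (tent_le M (κ * Q) κ b.2 (Nat.mul_pos hκ hQ))
      (tent_le (D * M) (k * Q) _ _ (Nat.mul_pos hk hQ))




theorem RewR_pf : StRewR := by
  intro κ k Q D a₀ M Φ hκ hk hQ
  unfold BxR Bx
  congr 1
  obtain ⟨A, hA⟩ : ∃ A : Finset (ℕ × ℕ), A = Finset.Icc 1 M ×ˢ Finset.Icc 1 M := ⟨_, rfl⟩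
  obtain ⟨B, hB⟩ : ∃ B : Finset (ℕ × ℕ), B = Finset.Icc 1 (D * M) ×ˢ Finset.Icc 1 (D * M) :=
    ⟨_, rfl⟩
  have h1 : (∑ u ∈ Finset.Icc 1 M, ∑ u' ∈ Finset.Icc 1 M, ∑ v ∈ Finset.Icc 1 (D * M),
      ∑ v' ∈ Finset.Icc 1 (D * M),
        Φ (k * (Q * (v + v') + a₀) + κ * (Q * (u + u') + 1)) (κ * (Q * (u + u') + 1)))
      = ∑ p ∈ A ×ˢ B, Φ (k * (Q * (p.2.1 + p.2.2) + a₀) + κ * (Q * (p.1.1 + p.1.2) + 1))
        (κ * (Q * (p.1.1 + p.1.2) + 1)) := by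
    rw [Finset.sum_product, hA, hB, Finset.sum_product]
    apply Finset.sum_congr rfl
    intro u _
    apply Finset.sum_congr rfl
    intro u' _
    rw [Finset.sum_product]
  obtain ⟨φ, hφ⟩ : ∃ φ : (ℕ × ℕ) × (ℕ × ℕ) → ℤ × ℤ, φ = fun p =>
      (((k * (Q * (p.2.1 + p.2.2) + a₀) + κ * (Q * (p.1.1 + p.1.2) + 1) : ℕ) : ℤ),
        ((κ * (Q * (p.1.1 + p.1.2) + 1) : ℕ) : ℤ)) := ⟨_, rfl⟩
  have hmaps : ∀ p ∈ A ×ˢ B, φ p ∈ box (CR κ k Q D a₀ * M) := by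
    intro p hp
    rw [Finset.mem_product, hA, hB, Finset.mem_product, Finset.mem_product] at hp
    simp only [Finset.mem_Icc] at hp
    obtain ⟨⟨⟨h1, h2⟩, h3, h4⟩, ⟨h5, h6⟩, h7, h8⟩ := hp
    have hM1 : 1 ≤ M := by omega
    have hu : κ * (Q * (p.1.1 + p.1.2) + 1) ≤ (2 * κ * Q + κ) * M := by
      calc κ * (Q * (p.1.1 + p.1.2) + 1) ≤ κ * (Q * (M + M) + M) := by
            apply Nat.mul_le_mul_left κ
            apply Nat.add_le_add
            · exact Nat.mul_le_mul_left Q (by omega)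
            · exact hM1
        _ = (2 * κ * Q + κ) * M := by ring
    have hv : k * (Q * (p.2.1 + p.2.2) + a₀) ≤ (2 * k * Q * D + k * a₀) * M := by
      calc k * (Q * (p.2.1 + p.2.2) + a₀) ≤ k * (Q * (D * M + D * M) + a₀ * M) := by
            apply Nat.mul_le_mul_left k
            apply Nat.add_le_add
            · exact Nat.mul_le_mul_left Q (by omega)
            · exact Nat.le_mul_of_pos_right a₀ hM1
        _ = (2 * k * Q * D + k * a₀) * M := by ring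
    have htot : k * (Q * (p.2.1 + p.2.2) + a₀) + κ * (Q * (p.1.1 + p.1.2) + 1) ≤ CR κ k Q D a₀ * M := by
      unfold CR
      calc k * (Q * (p.2.1 + p.2.2) + a₀) + κ * (Q * (p.1.1 + p.1.2) + 1)
          ≤ (2 * k * Q * D + k * a₀) * M + (2 * κ * Q + κ) * M := Nat.add_le_add hv hu
        _ = (2 * k * Q * D + k * a₀ + (2 * κ * Q + κ)) * M := by ring
    have h9 : κ * (Q * (p.1.1 + p.1.2) + 1) ≤ CR κ k Q D a₀ * M := le_trans (Nat.le_add_left _ _) htot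
    rw [hφ]
    unfold box
    rw [Finset.mem_product, Finset.mem_Icc, Finset.mem_Icc]
    dsimp only
    refine ⟨⟨?_, by exact_mod_cast htot⟩, ?_, by exact_mod_cast h9⟩
    · have h10 : (0 : ℤ) ≤ ((k * (Q * (p.2.1 + p.2.2) + a₀) + κ * (Q * (p.1.1 + p.1.2) + 1) : ℕ) : ℤ) :=
        Int.natCast_nonneg _
      have h11 : (0 : ℤ) ≤ ((CR κ k Q D a₀ * M : ℕ) : ℤ) := Int.natCast_nonneg _
      linarith
    · have h10 : (0 : ℤ) ≤ ((κ * (Q * (p.1.1 + p.1.2) + 1) : ℕ) : ℤ) := Int.natCast_nonneg _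
      have h11 : (0 : ℤ) ≤ ((CR κ k Q D a₀ * M : ℕ) : ℤ) := Int.natCast_nonneg _
      linarith
  rw [h1, ← Finset.sum_fiberwise_of_maps_to hmaps]
  apply Finset.sum_congr rfl
  intro b _
  have h2 : ∀ p ∈ (A ×ˢ B).filter (fun p => φ p = b),
      Φ (k * (Q * (p.2.1 + p.2.2) + a₀) + κ * (Q * (p.1.1 + p.1.2) + 1)) (κ * (Q * (p.1.1 + p.1.2) + 1))
        = Φ b.1.toNat b.2.toNat := by
    intro p hp
    have h3 := (Finset.mem_filter.mp hp).2
    rw [← h3, hφ]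
    dsimp only
    rw [Int.toNat_natCast, Int.toNat_natCast]
  rw [Finset.sum_congr rfl h2, Finset.sum_const, nsmul_eq_mul]
  congr 1
  have h3 : (A ×ˢ B).filter (fun p => φ p = b)
      = (A.filter (fun u : ℕ × ℕ => ((κ * Q : ℕ) : ℤ) * ((u.1 : ℤ) + u.2) + (κ : ℤ) = b.2)) ×ˢ
        (B.filter (fun u : ℕ × ℕ => ((k * Q : ℕ) : ℤ) * ((u.1 : ℤ) + u.2) + ((k * a₀ : ℕ) : ℤ)
          = b.1 - b.2)) := by
    ext p
    rw [Finset.mem_filter, Finset.mem_product, Finset.mem_product, Finset.mem_filter,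
      Finset.mem_filter, hφ]
    dsimp only
    constructor
    · rintro ⟨⟨ha, hb⟩, h⟩
      have h4 := congrArg Prod.fst h
      have h5 := congrArg Prod.snd h
      dsimp only at h4 h5
      push_cast at h4 h5 ⊢
      refine ⟨⟨ha, ?_⟩, hb, ?_⟩
      · rw [← h5]
        ring
      · rw [← h4, ← h5]
        ring
    · rintro ⟨⟨ha, h4⟩, hb, h5⟩
      refine ⟨⟨ha, hb⟩, ?_⟩
      push_cast at h4 h5 ⊢
      apply Prod.ext
      · dsimp only
        linarith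
      · dsimp only
        linarith
  rw [h3, Finset.card_product]
  unfold WR tent
  rw [hA, hB]



open Pool.Agent.F0f91f8.HD.B3.XGK2 in
theorem GKR_pf (hAlg : StAlg) (hKat : StKat) (hIG : StIG) (hSup : StSupR) (hInd : StInd) :
    StGKR := by
  intro f hf haf κ k Q D a₀ hκ hk hQ r₁ r₂ hr ε hε
  have hf' := hf
  obtain ⟨hf0, hfm, hfn⟩ := hf'
  have hfb : ∀ n, ‖f n‖ ≤ 1 := by
    intro n
    rcases Nat.eq_zero_or_pos n with h | h
    · rw [h, hf0, norm_zero]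
      exact zero_le_one
    · exact (hfn n h).le
  obtain ⟨C, hC⟩ : ∃ C : ℕ, C = CR κ k Q D a₀ := ⟨_, rfl⟩
  have hC1 : 1 ≤ C := by
    rw [hC]
    unfold CR
    omega
  rw [← hC]
  have hCr : (0 : ℝ) < C := by exact_mod_cast hC1
  rcases Nat.eq_zero_or_pos D with hD | hD
  · refine ⟨0, fun M _ => ?_⟩
    have h0 : ∀ b ∈ box (C * M), (WR κ k Q D a₀ M b : ℂ) *
        (f (lf r₁ b).toNat * f (lf r₂ b).toNat * conj (f (nm b))) = 0 := by
      intro b _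
      unfold WR
      rw [hD, zero_mul, tent_zero, mul_zero, Nat.cast_zero, zero_mul]
    rw [Finset.sum_eq_zero h0, norm_zero]
    positivity
  obtain ⟨P, hP, κ', hκ', R₀, hK⟩ := hKat (ε / (C : ℝ) ^ 2) (by positivity)
  -- the pairs
  have hpair : ∀ w w' : ℤ × ℤ, ∃ M₁ : ℕ, w ∈ P → w' ∈ P → w ≠ w' → ∀ M ≥ M₁,
      ‖∑ v ∈ box (C * M), ((WR κ k Q D a₀ M (gm w v) : ℂ) * (WR κ k Q D a₀ M (gm w' v) : ℂ)) *
        ((f (lf r₁ (gm w v)).toNat * f (lf r₂ (gm w v)).toNat) *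
          conj (f (lf r₁ (gm w' v)).toNat * f (lf r₂ (gm w' v)).toNat))‖
        ≤ κ' * (C : ℝ) ^ 2 / 2 * (M : ℝ) ^ 2 * ((M : ℝ) * (D * M : ℕ)) ^ 2 := by
    intro w w'
    by_cases h : w ∈ P ∧ w' ∈ P ∧ w ≠ w'
    · obtain ⟨hw, hw', hne⟩ := h
      have hkQ : 0 < k * Q := Nat.mul_pos hk hQ
      have hκQ : 0 < κ * Q := Nat.mul_pos hκ hQ
      obtain ⟨M₁, hM₁⟩ := hIG f hf haf ![pb w r₁, pb w r₂, pb w' r₁, pb w' r₂]
        (hInd w w' (hP w hw) (hP w' hw') hne r₁ r₂ hr) 4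
        ![pb w (0, 1), pb w (1, -1), pb w' (0, 1), pb w' (1, -1)] ![1, D, 1, D]
        ![κ * Q, k * Q, κ * Q, k * Q] ![(κ : ℤ), ((k * a₀ : ℕ) : ℤ), (κ : ℤ), ((k * a₀ : ℕ) : ℤ)]
        (by intro j; fin_cases j <;> simp [hκQ, hkQ]) C
        (by
          intro M v hv
          have h0 := hv 0
          have h1 := hv 1
          have h0' : tent (1 * M) (κ * Q) κ (lf (pb w (0, 1)) v) ≠ 0 := h0
          have h1' : tent (D * M) (k * Q) ((k * a₀ : ℕ) : ℤ) (lf (pb w (1, -1)) v) ≠ 0 := h1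
          rw [one_mul, lf_pb] at h0'
          rw [lf_pb] at h1'
          have h2 : WR κ k Q D a₀ M (gm w v) ≠ 0 := by
            unfold WR
            have e1 : lf (0, 1) (gm w v) = (gm w v).2 := by unfold lf; ring
            have e2 : lf (1, -1) (gm w v) = (gm w v).1 - (gm w v).2 := by unfold lf; ring
            rw [e1] at h0'
            rw [e2] at h1'
            exact mul_ne_zero h0' h1'
          have h3 := ((hSup κ k Q D a₀ M hκ hk hQ).1 _ h2).2.2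
          rw [← hC] at h3
          exact hAlg.2.2.2.2 w v (C * M) (hP w hw) h3)
        (κ' * (C : ℝ) ^ 2 / 2) (by positivity)
      refine ⟨M₁, fun _ _ _ M hM => ?_⟩
      have h4 := hM₁ M hM ![fun s => conj (f s.toNat), fun s => conj (f s.toNat),
        fun s => f s.toNat] (by
          intro i s
          fin_cases i
          · show ‖conj (f s.toNat)‖ ≤ 1
            rw [RCLike.norm_conj]
            exact hfb _
          · show ‖conj (f s.toNat)‖ ≤ 1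
            rw [RCLike.norm_conj]
            exact hfb _
          · exact hfb _)
      have h5 : (κ' * (C : ℝ) ^ 2 / 2) * (M : ℝ) ^ 2 *
          ∏ j : Fin 4, (((![1, D, 1, D] : Fin 4 → ℕ) j * M : ℕ) : ℝ)
          = κ' * (C : ℝ) ^ 2 / 2 * (M : ℝ) ^ 2 * ((M : ℝ) * (D * M : ℕ)) ^ 2 := by
        rw [Fin.prod_univ_four]
        show (κ' * (C : ℝ) ^ 2 / 2) * (M : ℝ) ^ 2 * (((1 * M : ℕ) : ℝ) * ((D * M : ℕ) : ℝ) *
          ((1 * M : ℕ) : ℝ) * ((D * M : ℕ) : ℝ)) = _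
        push_cast
        ring
      rw [h5] at h4
      refine le_trans (le_of_eq ?_) h4
      rw [← RCLike.norm_conj, map_sum]
      congr 1
      apply Finset.sum_congr rfl
      intro v _
      rw [Fin.prod_univ_four, Fin.prod_univ_three]
      show _ = ((tent (1 * M) (κ * Q) κ (lf (pb w (0, 1)) v) : ℂ) *
        (tent (D * M) (k * Q) ((k * a₀ : ℕ) : ℤ) (lf (pb w (1, -1)) v) : ℂ) *
        (tent (1 * M) (κ * Q) κ (lf (pb w' (0, 1)) v) : ℂ) *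
        (tent (D * M) (k * Q) ((k * a₀ : ℕ) : ℤ) (lf (pb w' (1, -1)) v) : ℂ)) *
        (conj (f (lf (pb w r₁) v).toNat) * conj (f (lf (pb w r₂) v).toNat) *
          f (lf (pb w' r₁) v).toNat) * f (lf (pb w' r₂) v).toNat
      rw [lf_pb, lf_pb, lf_pb, lf_pb, lf_pb, lf_pb, lf_pb, lf_pb, one_mul]
      have e1 : ∀ u : ℤ × ℤ, lf (0, 1) u = u.2 := by intro u; unfold lf; ring
      have e2 : ∀ u : ℤ × ℤ, lf (1, -1) u = u.1 - u.2 := by intro u; unfold lf; ring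
      rw [e1, e2, e1, e2]
      unfold WR
      simp only [map_mul, Complex.conj_conj, map_natCast, Nat.cast_mul]
      ring
    · exact ⟨0, fun h1 h2 h3 => absurd ⟨h1, h2, h3⟩ h⟩
  choose M₁ hM₁ using hpair
  refine ⟨∑ w ∈ P, ∑ w' ∈ P, M₁ w w' + R₀ + 1, fun M hM => ?_⟩
  have hM1 : 1 ≤ M := by omega
  have hMr : (0 : ℝ) < M := by exact_mod_cast hM1
  have hDr : (0 : ℝ) < D := by exact_mod_cast hD
  have hR₀ : R₀ ≤ C * M := by
    have : R₀ ≤ M := by omega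
    exact this.trans (Nat.le_mul_of_pos_left M hC1)
  obtain ⟨L, hL⟩ : ∃ L : ℝ, L = (M : ℝ) * (D * M : ℕ) := ⟨_, rfl⟩
  have hLp : 0 < L := by
    rw [hL]
    push_cast
    positivity
  rw [← hL]
  by_contra hlt
  push Not at hlt
  obtain ⟨ψ, hψ⟩ : ∃ ψ : ℤ × ℤ → ℂ, ψ = fun b => (WR κ k Q D a₀ M b : ℂ) / (L : ℂ) *
      (f (lf r₁ b).toNat * f (lf r₂ b).toNat) := ⟨_, rfl⟩
  obtain ⟨g, hg⟩ : ∃ g : ℤ × ℤ → ℂ, g = fun b => conj (f (nm b)) := ⟨_, rfl⟩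
  have hLc : (L : ℂ) ≠ 0 := by exact_mod_cast hLp.ne'
  have hψ1 : ∀ b, ‖ψ b‖ ≤ 1 := by
    intro b
    rw [hψ]
    dsimp only
    rw [norm_mul, norm_div, norm_mul, Complex.norm_natCast, Complex.norm_real,
      Real.norm_of_nonneg hLp.le]
    have h1 : (WR κ k Q D a₀ M b : ℝ) ≤ L := by
      rw [hL]
      exact_mod_cast (hSup κ k Q D a₀ M hκ hk hQ).2 b
    have h2 : (WR κ k Q D a₀ M b : ℝ) / L ≤ 1 := by
      rw [div_le_one hLp]
      exact h1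
    have h3 : ‖f (lf r₁ b).toNat‖ * ‖f (lf r₂ b).toNat‖ ≤ 1 :=
      mul_le_one₀ (hfb _) (norm_nonneg _) (hfb _)
    exact mul_le_one₀ h2 (by positivity) h3
  have hψ0 : ∀ b, b ∉ box (C * M) → ψ b = 0 := by
    intro b hb
    have h1 : WR κ k Q D a₀ M b = 0 := by
      by_contra h
      apply hb
      have := ((hSup κ k Q D a₀ M hκ hk hQ).1 b h).2.2
      rwa [← hC] at this
    rw [hψ]
    dsimp only
    rw [h1, Nat.cast_zero, zero_div, zero_mul]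
  have hg1 : ∀ b, ‖g b‖ ≤ 1 := by
    intro b
    rw [hg]
    dsimp only
    rw [RCLike.norm_conj]
    exact hfb _
  have hgm : ∀ w ∈ P, ∀ b, g (gm w b) = g w * g b := by
    intro w _ b
    rw [hg]
    dsimp only
    rw [hAlg.2.1, hfm, map_mul]
  have hsum : ∑ b ∈ box (C * M), ψ b * g b = (∑ b ∈ box (C * M), (WR κ k Q D a₀ M b : ℂ) *
      (f (lf r₁ b).toNat * f (lf r₂ b).toNat * conj (f (nm b)))) / (L : ℂ) := by
    rw [Finset.sum_div]
    apply Finset.sum_congr rfl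
    intro b _
    rw [hψ, hg]
    dsimp only
    ring
  obtain ⟨w, hw, w', hw', hne, hbig⟩ := hK (C * M) hR₀ ψ g hψ1 hψ0 hg1 hgm (by
    rw [hsum, norm_div, Complex.norm_real, Real.norm_of_nonneg hLp.le, le_div_iff₀ hLp]
    refine le_trans (le_of_eq ?_) hlt.le
    push_cast
    field_simp)
  have hMw : M₁ w w' ≤ M := by
    have h1 : M₁ w w' ≤ ∑ w' ∈ P, M₁ w w' :=
      Finset.single_le_sum (f := fun w' => M₁ w w') (fun _ _ => Nat.zero_le _) hw'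
    have h2 : ∑ w' ∈ P, M₁ w w' ≤ ∑ w ∈ P, ∑ w' ∈ P, M₁ w w' :=
      Finset.single_le_sum (f := fun w => ∑ w' ∈ P, M₁ w w') (fun _ _ => Nat.zero_le _) hw
    omega
  have hsmall := hM₁ w w' hw hw' hne M hMw
  have hsum2 : ∑ b ∈ box (C * M), ψ (gm w b) * conj (ψ (gm w' b))
      = (∑ v ∈ box (C * M), ((WR κ k Q D a₀ M (gm w v) : ℂ) * (WR κ k Q D a₀ M (gm w' v) : ℂ)) *
        ((f (lf r₁ (gm w v)).toNat * f (lf r₂ (gm w v)).toNat) *
          conj (f (lf r₁ (gm w' v)).toNat * f (lf r₂ (gm w' v)).toNat))) / (L : ℂ) ^ 2 := by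
    rw [Finset.sum_div]
    apply Finset.sum_congr rfl
    intro b _
    rw [hψ]
    dsimp only
    simp only [map_mul, map_div₀, map_natCast, Complex.conj_ofReal]
    field_simp
  rw [hsum2, norm_div, norm_pow, Complex.norm_real, Real.norm_of_nonneg hLp.le,
    le_div_iff₀ (by positivity)] at hbig
  rw [← hL] at hsmall
  have h1 := hbig.trans hsmall
  have h2 : κ' * (C : ℝ) ^ 2 / 2 * (M : ℝ) ^ 2 * L ^ 2 < κ' * ((C * M : ℕ) : ℝ) ^ 2 * L ^ 2 := by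
    push_cast
    have h3 : 0 < κ' * (C : ℝ) ^ 2 * (M : ℝ) ^ 2 * L ^ 2 := by positivity
    nlinarith
  exact absurd h1 (not_le.mpr h2)


open Pool.Agent.F0f91f8.HD.B3.XXY in
theorem tentsR (κ k Q D a₀ M : ℕ) (v : ℤ × ℤ) :
    ∏ j : Fin 2, tent ((![1, D] : Fin 2 → ℕ) j * M) ((![κ * Q, k * Q] : Fin 2 → ℕ) j)
      ((![(κ : ℤ), ((k * a₀ : ℕ) : ℤ)] : Fin 2 → ℤ) j) (lf (fm j) v) = WR κ k Q D a₀ M v := by
  rw [Fin.prod_univ_two]
  unfold WR
  have h1 : lf (fm 0) v = v.2 := by simp [fm, lf]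
  have h2 : lf (fm 1) v = v.1 - v.2 := by simp [fm, lf]; ring
  rw [h1, h2]
  simp



open Pool.Agent.F0f91f8.HD.B3.XXY in
theorem XYR_pf (hI : StIG) (hS : StSupR) : StXYR := by
  intro f hf hA κ k Q D a₀ hκ hk hQ ε hε
  have hpos : ∀ j : Fin 2, 0 < (![κ * Q, k * Q] : Fin 2 → ℕ) j := by
    intro j
    fin_cases j
    · exact Nat.mul_pos hκ hQ
    · exact Nat.mul_pos hk hQ
  have hsup : ∀ (M : ℕ) (v : ℤ × ℤ),
      (∀ j : Fin 2, tent ((![1, D] : Fin 2 → ℕ) j * M) ((![κ * Q, k * Q] : Fin 2 → ℕ) j)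
        ((![(κ : ℤ), ((k * a₀ : ℕ) : ℤ)] : Fin 2 → ℤ) j) (lf (fm j) v) ≠ 0) →
      v ∈ box (CR κ k Q D a₀ * M) := by
    intro M v hv
    refine ((hS κ k Q D a₀ M hκ hk hQ).1 v ?_).2.2
    rw [← tentsR]
    exact Finset.prod_ne_zero_iff.mpr fun j _ => hv j
  obtain ⟨M₀, hM₀⟩ := hI f hf hA fl fl_dt 2 fm ![1, D] ![κ * Q, k * Q] ![(κ : ℤ), ((k * a₀ : ℕ) : ℤ)] hpos
    (CR κ k Q D a₀) hsup ε hε
  refine ⟨M₀, fun M hM => ?_⟩
  have h := hM₀ M hM (FF f) (FF_le f hf)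
  have e1 : ∏ j : Fin 2, ((((![1, D] : Fin 2 → ℕ) j * M : ℕ)) : ℝ) = (M : ℝ) * (D * M : ℕ) := by
    rw [Fin.prod_univ_two]
    simp
  rw [e1] at h
  refine le_trans (le_of_eq ?_) h
  congr 1
  refine Finset.sum_congr rfl fun v _ => ?_
  have e2 : ∏ j : Fin 2, (tent ((![1, D] : Fin 2 → ℕ) j * M) ((![κ * Q, k * Q] : Fin 2 → ℕ) j)
        ((![(κ : ℤ), ((k * a₀ : ℕ) : ℤ)] : Fin 2 → ℤ) j) (lf (fm j) v) : ℂ) =
      (WR κ k Q D a₀ M v : ℂ) := by
    rw [← tentsR]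
    push_cast
    rfl
  have e3 : ∏ i : Fin 3, FF f i (lf (fl i.castSucc) v) =
      f v.2.toNat * conj (f (v.1 - v.2).toNat) * conj (f (v.1 + v.2).toNat) := by
    rw [Fin.prod_univ_three]
    have h1 : lf (fl (Fin.castSucc 0)) v = v.2 := by simp [fl, lf]
    have h2 : lf (fl (Fin.castSucc 1)) v = v.1 - v.2 := by simp [fl, lf]; ring
    have h3 : lf (fl (Fin.castSucc 2)) v = v.1 + v.2 := by
      show (1 : ℤ) * v.1 + 1 * v.2 = v.1 + v.2
      ring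
    rw [h1, h2, h3]
    rfl
  have e4 : lf (fl 3) v = v.1 := by
    show (1 : ℤ) * v.1 + 0 * v.2 = v.1
    ring
  rw [e2, e3, e4, map_mul]
  ring




namespace XFin

lemma tend (D : ℕ) (hD : 0 < D) (B S : ℕ → ℂ)
    (hB : ∀ M, ‖B M‖ = ‖S M‖ / ((M : ℝ) ^ 2 * ((D * M : ℕ) : ℝ) ^ 2))
    (hS : ∀ ε : ℝ, 0 < ε → ∃ M₀ : ℕ, ∀ M ≥ M₀,
      ‖S M‖ ≤ ε * (M : ℝ) ^ 2 * ((M : ℝ) * (D * M : ℕ))) :
    Tendsto B atTop (𝓝 0) := by
  rw [Metric.tendsto_atTop]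
  intro ε hε
  obtain ⟨M₀, hM₀⟩ := hS (ε / 2) (by positivity)
  refine ⟨M₀ + 1, fun M hM => ?_⟩
  have h1 := hM₀ M (by omega)
  have hM1 : (0 : ℝ) < M := by exact_mod_cast (by omega : 0 < M)
  have hD1 : (1 : ℝ) ≤ D := by exact_mod_cast hD
  have hD0 : (0 : ℝ) < D := by linarith
  rw [dist_zero_right, hB M, div_lt_iff₀ (by push_cast; positivity)]
  refine h1.trans_lt ?_
  push_cast
  have h2 : ε * ((M : ℝ) ^ 2 * ((D : ℝ) * M) ^ 2) - ε / 2 * (M : ℝ) ^ 2 * (M * (D * M)) =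
      ε * (M : ℝ) ^ 4 * D * (D - 1 / 2) := by ring
  have h3 : 0 < ε * (M : ℝ) ^ 4 * D * (D - 1 / 2) := by
    have : (0 : ℝ) < D - 1 / 2 := by linarith
    positivity
  linarith

/-- the average as a sum, with the norm -/
lemma bx_norm (h1 : StRewR) (κ k Q D a₀ M : ℕ) (hκ : 0 < κ) (hk : 0 < k) (hQ : 0 < Q)
    (Φ : ℕ → ℕ → ℂ) (G : ℕ → ℕ → ℂ) (hG : ∀ a n, G a n = Φ (k * a + κ * n) (κ * n)) (X : ℂ)
    (hX : ‖∑ b ∈ box (CR κ k Q D a₀ * M), (WR κ k Q D a₀ M b : ℂ) * Φ b.1.toNat b.2.toNat‖ = ‖X‖) :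
    ‖BxR Q D a₀ M G‖ = ‖X‖ / ((M : ℝ) ^ 2 * ((D * M : ℕ) : ℝ) ^ 2) := by
  have e1 : G = fun a n => Φ (k * a + κ * n) (κ * n) := by
    funext a n
    exact hG a n
  rw [e1, h1 κ k Q D a₀ M Φ hκ hk hQ, norm_div, hX]
  congr 1
  rw [norm_mul, norm_pow, norm_pow, Complex.norm_natCast, Complex.norm_natCast]

/-- comparison of two sums on the support -/
lemma sum_eq (h2 : StSupR) (κ k Q D a₀ M : ℕ) (hκ : 0 < κ) (hk : 0 < k) (hQ : 0 < Q)
    (F G : ℤ × ℤ → ℂ) (h : ∀ x y : ℕ, 0 < y → y < x → F ((x : ℤ), (y : ℤ)) = G ((x : ℤ), (y : ℤ))) :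
    ∑ b ∈ box (CR κ k Q D a₀ * M), (WR κ k Q D a₀ M b : ℂ) * F b =
      ∑ b ∈ box (CR κ k Q D a₀ * M), (WR κ k Q D a₀ M b : ℂ) * G b := by
  refine Finset.sum_congr rfl fun b _ => ?_
  by_cases h0 : WR κ k Q D a₀ M b = 0
  · rw [h0]
    simp
  · obtain ⟨g1, g2, -⟩ := (h2 κ k Q D a₀ M hκ hk hQ).1 b h0
    obtain ⟨x, y⟩ := b
    simp only at g1 g2
    obtain ⟨x', rfl⟩ := Int.eq_ofNat_of_zero_le (by omega : 0 ≤ x)
    obtain ⟨y', rfl⟩ := Int.eq_ofNat_of_zero_le (by omega : 0 ≤ y)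
    have := h x' y' (by omega) (by omega)
    rw [this]

lemma nm_nat (x y : ℕ) : nm ((x : ℤ), (y : ℤ)) = x ^ 2 + y ^ 2 := by
  unfold nm
  have : ((x : ℤ) ^ 2 + (y : ℤ) ^ 2) = ((x ^ 2 + y ^ 2 : ℕ) : ℤ) := by push_cast; ring
  show ((x : ℤ) ^ 2 + (y : ℤ) ^ 2).natAbs = _
  rw [this, Int.natAbs_natCast]

end XFin

/-- Item Fin. -/
theorem FinR_pf (h1 : StRewR) (h2 : StSupR) (h3 : StXYR) (h4 : StGKR) :
    AperR := by
  intro f hf hA κ k Q D a₀ hκ hk hQ hD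
  have hf' : CM f := hf
  obtain ⟨-, hmul, hnorm⟩ := hf
  have n2 : ‖f 2‖ = 1 := hnorm 2 (by norm_num)
  refine ⟨?_, ?_, ?_⟩
  · refine XFin.tend D hD _ (fun M => ∑ b ∈ box (CR κ k Q D a₀ * M), (WR κ k Q D a₀ M b : ℂ) *
      (f b.1.toNat * f b.2.toNat * conj (f (b.1 - b.2).toNat * f (b.1 + b.2).toNat))) ?_
      (h3 f hf' hA κ k Q D a₀ hκ hk hQ)
    intro M
    refine XFin.bx_norm h1 κ k Q D a₀ M hκ hk hQ
      (fun m n => f (2 * n * m) * conj (f ((m - n) * (m + n)))) _ ?_ _ ?_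
    · intro a n
      have e1 : k * a + κ * n - κ * n = k * a := Nat.add_sub_cancel _ _
      have e2 : k * a + κ * n + κ * n = k * a + 2 * (κ * n) := by ring
      show f (tX κ k a n) * conj (f (tY κ k a n)) = f (2 * (κ * n) * (k * a + κ * n)) *
        conj (f ((k * a + κ * n - κ * n) * (k * a + κ * n + κ * n)))
      rw [e1, e2]
      rfl
    · have e := XFin.sum_eq h2 κ k Q D a₀ M hκ hk hQ
        (fun b => f (2 * b.2.toNat * b.1.toNat) *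
          conj (f ((b.1.toNat - b.2.toNat) * (b.1.toNat + b.2.toNat))))
        (fun b => f 2 * (f b.1.toNat * f b.2.toNat *
          conj (f (b.1 - b.2).toNat * f (b.1 + b.2).toNat))) (by
          intro x y hy hxy
          have e1 : ((x : ℤ) - (y : ℤ)).toNat = x - y := by omega
          have e2 : ((x : ℤ) + (y : ℤ)).toNat = x + y := by omega
          simp only [Int.toNat_natCast, e1, e2, hmul]
          ring)
      rw [e]
      have e3 : ∑ b ∈ box (CR κ k Q D a₀ * M), (WR κ k Q D a₀ M b : ℂ) *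
          (f 2 * (f b.1.toNat * f b.2.toNat *
          conj (f (b.1 - b.2).toNat * f (b.1 + b.2).toNat))) =
          f 2 * ∑ b ∈ box (CR κ k Q D a₀ * M), (WR κ k Q D a₀ M b : ℂ) *
          (f b.1.toNat * f b.2.toNat *
          conj (f (b.1 - b.2).toNat * f (b.1 + b.2).toNat)) := by
        rw [Finset.mul_sum]
        exact Finset.sum_congr rfl fun b _ => by ring
      rw [e3, norm_mul, n2, one_mul]
  · refine XFin.tend D hD _ (fun M => ∑ b ∈ box (CR κ k Q D a₀ * M), (WR κ k Q D a₀ M b : ℂ) *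
      (f (lf (1, -1) b).toNat * f (lf (1, 1) b).toNat * conj (f (nm b)))) ?_
      (h4 f hf' hA κ k Q D a₀ hκ hk hQ (1, -1) (1, 1) (Or.inl ⟨rfl, rfl⟩))
    intro M
    refine XFin.bx_norm h1 κ k Q D a₀ M hκ hk hQ
      (fun m n => f ((m - n) * (m + n)) * conj (f (m ^ 2 + n ^ 2))) _ ?_ _ ?_
    · intro a n
      have e1 : k * a + κ * n - κ * n = k * a := Nat.add_sub_cancel _ _
      have e2 : k * a + κ * n + κ * n = k * a + 2 * (κ * n) := by ring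
      show f (tY κ k a n) * conj (f (tZ κ k a n)) =
        f ((k * a + κ * n - κ * n) * (k * a + κ * n + κ * n)) *
          conj (f ((k * a + κ * n) ^ 2 + (κ * n) ^ 2))
      rw [e1, e2]
      rfl
    · have e := XFin.sum_eq h2 κ k Q D a₀ M hκ hk hQ
        (fun b => f ((b.1.toNat - b.2.toNat) * (b.1.toNat + b.2.toNat)) *
          conj (f (b.1.toNat ^ 2 + b.2.toNat ^ 2)))
        (fun b => f (lf (1, -1) b).toNat * f (lf (1, 1) b).toNat * conj (f (nm b))) (by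
          intro x y hy hxy
          have e1 : (lf (1, -1) ((x : ℤ), (y : ℤ))).toNat = x - y := by
            show (1 * (x : ℤ) + -1 * (y : ℤ)).toNat = x - y
            omega
          have e2 : (lf (1, 1) ((x : ℤ), (y : ℤ))).toNat = x + y := by
            show (1 * (x : ℤ) + 1 * (y : ℤ)).toNat = x + y
            omega
          simp only [Int.toNat_natCast, e1, e2, XFin.nm_nat, hmul])
      rw [e]
  · refine XFin.tend D hD _ (fun M => ∑ b ∈ box (CR κ k Q D a₀ * M), (WR κ k Q D a₀ M b : ℂ) *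
      (f (lf (1, 0) b).toNat * f (lf (0, 1) b).toNat * conj (f (nm b)))) ?_
      (h4 f hf' hA κ k Q D a₀ hκ hk hQ (1, 0) (0, 1) (Or.inr ⟨rfl, rfl⟩))
    intro M
    refine XFin.bx_norm h1 κ k Q D a₀ M hκ hk hQ
      (fun m n => f (m ^ 2 + n ^ 2) * conj (f (2 * n * m))) _ ?_ _ ?_
    · intro a n
      rfl
    · have e := XFin.sum_eq h2 κ k Q D a₀ M hκ hk hQ
        (fun b => f (b.1.toNat ^ 2 + b.2.toNat ^ 2) * conj (f (2 * b.2.toNat * b.1.toNat)))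
        (fun b => conj (f 2 * (f (lf (1, 0) b).toNat * f (lf (0, 1) b).toNat *
          conj (f (nm b))))) (by
          intro x y hy hxy
          have e1 : (lf (1, 0) ((x : ℤ), (y : ℤ))).toNat = x := by
            show (1 * (x : ℤ) + 0 * (y : ℤ)).toNat = x
            omega
          have e2 : (lf (0, 1) ((x : ℤ), (y : ℤ))).toNat = y := by
            show (0 * (x : ℤ) + 1 * (y : ℤ)).toNat = y
            omega
          simp only [Int.toNat_natCast, e1, e2, XFin.nm_nat, hmul, map_mul, Complex.conj_conj]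
          ring)
      rw [e]
      have e3 : ∑ b ∈ box (CR κ k Q D a₀ * M), (WR κ k Q D a₀ M b : ℂ) *
          conj (f 2 * (f (lf (1, 0) b).toNat * f (lf (0, 1) b).toNat *
          conj (f (nm b)))) =
          conj (f 2 * ∑ b ∈ box (CR κ k Q D a₀ * M), (WR κ k Q D a₀ M b : ℂ) *
          (f (lf (1, 0) b).toNat * f (lf (0, 1) b).toNat * conj (f (nm b)))) := by
        rw [Finset.mul_sum, map_sum]
        refine Finset.sum_congr rfl fun b _ => ?_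
        simp only [map_mul, Complex.conj_conj, Complex.conj_natCast]
        ring
      rw [e3, Complex.norm_conj, norm_mul, n2, one_mul]


/-- module B′ -/
theorem aperR : AperR :=
  FinR_pf RewR_pf SupR_pf (XYR_pf ig SupR_pf) (GKR_pf Alg_pf katai ig SupR_pf Ind_pf)

end Pool.Agent.F0f91f8.RC
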