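import Pool.Agent.Work.MP_0f91f8_co.RC.Defs
import Pool.Agent.Work.MP_0f91f8_co.HD.PWA

/-!
# Relative collision theorem: `PWR E f` for aperiodic `f`, and `PWRStmt` from the modules
-/

set_option autoImplicit false

namespace Pool.Agent.F0f91f8.RC

open Filter Topology ComplexConjugate
open Pool.Agent.F0f91f8.HD
open scoped BigOperators

theorem kR_pos (E w K : ℕ) (e : Fin (w + 1) → Fin K) : 0 < kR E w K e := by
  unfold kR
  exact Nat.mul_pos (pow_pos two_pos _) (pow_pos (Nat.mul_pos w.factorial_pos (kp_pos w K e)) _)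

theorem DR_pos (E w K : ℕ) (hK : 1 ≤ K) : 0 < DR E w K := by
  unfold DR
  have := w.factorial_pos
  positivity

theorem BxR_add (Q D a₀ M : ℕ) (G H : ℕ → ℕ → ℂ) :
    BxR Q D a₀ M (fun a n => G a n + H a n) = BxR Q D a₀ M G + BxR Q D a₀ M H := by
  unfold BxR
  exact Bx_add Q D a₀ M _ _

theorem pr_PWRA (hA : AperR) (E : ℕ) (f : ℕ → ℂ) (hf : CM f) (hap : Aper f) : PWR E f := by
  intro ε hε
  refine ⟨0, fun w _ => ⟨1, fun K hK => ?_⟩⟩
  have hD : 0 < DR E w K := DR_pos E w K hK
  have key : Tendsto (fun M : ℕ => AvR E w K M (pc f)) atTop (𝓝 0) := by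
    have h1 : ∀ (e : Fin (w + 1) → Fin K) (e' : Fin (K + 1) → Fin K),
        Tendsto (fun M : ℕ => BxR w.factorial (DR E w K) (inv0 w.factorial (kk w K e')) M
          fun a n => pc f (tX (kR E w K e) (kk w K e') a n) (tY (kR E w K e) (kk w K e') a n)
            (tZ (kR E w K e) (kk w K e') a n)) atTop (𝓝 0) := by
      intro e e'
      obtain ⟨h1, h2, h3⟩ := hA f hf hap (kR E w K e) (kk w K e') w.factorial
        (DR E w K) (inv0 w.factorial (kk w K e')) (kR_pos E w K e)
        (kk_pos w K e') w.factorial_pos hD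
      have h4 := (h1.add h2).add h3
      simp only [add_zero] at h4
      refine h4.congr fun M => ?_
      rw [← BxR_add, ← BxR_add]
      rfl
    have h2 : Tendsto (fun M : ℕ => (∑ e : Fin (w + 1) → Fin K, ∑ e' : Fin (K + 1) → Fin K,
        BxR w.factorial (DR E w K) (inv0 w.factorial (kk w K e')) M fun a n =>
          pc f (tX (kR E w K e) (kk w K e') a n) (tY (kR E w K e) (kk w K e') a n)
            (tZ (kR E w K e) (kk w K e') a n)) /
        ((K : ℂ) ^ (w + 1) * (K : ℂ) ^ (K + 1))) atTop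
        (𝓝 ((∑ _e : Fin (w + 1) → Fin K, ∑ _e' : Fin (K + 1) → Fin K, (0 : ℂ)) /
          ((K : ℂ) ^ (w + 1) * (K : ℂ) ^ (K + 1)))) :=
      Tendsto.div_const (tendsto_finsetSum _ fun e _ => tendsto_finsetSum _ fun e' _ =>
        h1 e e') _
    simpa [AvR] using h2
  have h3 : Tendsto (fun M : ℕ => (AvR E w K M (pc f)).re) atTop (𝓝 0) := by
    have := (Complex.continuous_re.tendsto 0).comp key
    simpa using! this
  have h4 := h3.eventually (lt_mem_nhds (show -ε < 0 by linarith))
  rw [eventually_atTop] at h4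
  obtain ⟨M₀, hM₀⟩ := h4
  exact ⟨M₀, fun M hM => (hM₀ M hM).le⟩

/-- `PWRStmt` from the modules B′, C, D′ -/
theorem pr_PWR (hA : AperR) (hC : PretStmt) (hD : PWRPret) : PWRStmt := by
  intro E hE f hf
  by_cases h : Aper f
  · exact pr_PWRA hA E f hf h
  · exact hD E hE f hf (hC f hf h)

end Pool.Agent.F0f91f8.RC
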