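import Pool.Agent.Work.MP_0f91f8_co.HD.C_All
import Pool.Agent.Work.MP_0f91f8_co.RC.AllD
import Pool.Agent.Work.MP_0f91f8_co.RC.AllE
import Pool.Agent.Work.MP_0f91f8_co.RC.B
import Pool.Agent.Work.MP_0f91f8_co.RC.FinG
import Pool.Agent.Work.MP_0f91f8_co.RC.PWR

/-!
# Relative collision theorem: composition of the modules B′, C, D′, E′
-/

set_option autoImplicit false

namespace Pool.Agent.F0f91f8.RC

open Pool.Agent.F0f91f8.HD

/-- the pointwise lower bound for all completely multiplicative functions -/
theorem all_PWRStmt : PWRStmt := pr_PWR aperR pretStmt pr_PWRPret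

/-- the relative collision theorem, process form -/
theorem all_ProcK : ProcK := procK all_PWRStmt

/-- the relative collision theorem, finite form -/
theorem all_RelFin : RelFin := relFin all_PWRStmt

/-- the relative collision theorem, counting form -/
theorem all_RelCnt : RelCnt := relCnt_of all_PWRStmt

end Pool.Agent.F0f91f8.RC
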