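import Mathlib
import Pool.Agent.Work.MP_0f91f8_co.RC.StmtsE

/-!
# Relative collision theorem, module E′, item Cel: members of the family are trivial for `φ`
-/

set_option autoImplicit false

namespace Pool.Agent.F0f91f8.RC

open Pool.Agent.F0f91f8.HD

namespace ICel

/-- multiplicativity of the coercion to positive naturals -/
theorem toPNat_mul {m n : ℕ} (hm : 0 < m) (hn : 0 < n) :
    (m * n).toPNat' = m.toPNat' * n.toPNat' := by
  apply PNat.eq
  rw [PNat.mul_coe, Nat.toPNat'_coe, Nat.toPNat'_coe, Nat.toPNat'_coe, if_pos hm, if_pos hn,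
    if_pos (Nat.mul_pos hm hn)]

theorem toPNat_pow {m : ℕ} (hm : 0 < m) (E : ℕ) : (m ^ E).toPNat' = m.toPNat' ^ E := by
  apply PNat.eq
  rw [PNat.pow_coe, Nat.toPNat'_coe, Nat.toPNat'_coe, if_pos hm, if_pos (Nat.pow_pos hm)]

end ICel

open ICel in
theorem pr_Cel : StCel := by
  intro q E w x y z hq hqw hM H _ hE φ hφ
  obtain ⟨κ, k, a, n, hκ, hk, ha, hn, ⟨c, hc⟩, hwκ, hka, hn1, rfl, rfl, rfl⟩ := hM
  have hqw' : q ∣ w.factorial := Nat.dvd_factorial hq hqw
  have h1 : ∀ m : ℕ, 0 < m → m ≡ 1 [MOD w.factorial] → φ m.toPNat' = 1 := by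
    intro m hm hmm
    apply hφ
    rw [Nat.toPNat'_coe, if_pos hm]
    exact hmm.of_dvd hqw'
  have hκ0 : ∀ t : ℕ, κ * t ≡ 0 [MOD w.factorial] := fun t =>
    (Nat.modEq_zero_iff_dvd.2 (hwκ.mul_right t))
  have hkap : 0 < k * a := Nat.mul_pos hk ha
  have hκn : 0 < κ * n := Nat.mul_pos hκ hn
  have h2 : k * a + κ * n ≡ 1 [MOD w.factorial] := by
    have := hka.add (hκ0 n)
    rwa [add_zero] at this
  have h3 : k * a + 2 * (κ * n) ≡ 1 [MOD w.factorial] := by
    have := hka.add ((hκ0 n).mul_left 2)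
    rwa [mul_zero, add_zero] at this
  refine ⟨?_, ?_, ?_⟩
  · have hcpos : 0 < c ∨ E = 0 := by
      rcases Nat.eq_zero_or_pos c with h | h
      · right
        by_contra hE0
        rw [h, zero_pow hE0] at hc
        omega
      · exact Or.inl h
    have e : tX κ k a n = (2 * κ) * (n * (k * a + κ * n)) := by
      unfold tX
      ring
    have h4 : φ (2 * κ).toPNat' = 1 := by
      rcases hcpos with h | h
      · rw [hc, toPNat_pow h, map_pow, hE]
      · rw [h, pow_zero] at hc
        omega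
    rw [e, toPNat_mul (by omega) (Nat.mul_pos hn (by omega)), map_mul, h4, one_mul]
    refine h1 _ (Nat.mul_pos hn (by omega)) ?_
    have := hn1.mul h2
    rwa [mul_one] at this
  · have e : tY κ k a n = (k * a) * (k * a + 2 * (κ * n)) := by
      unfold tY
      ring
    rw [e]
    refine h1 _ (Nat.mul_pos hkap (by omega)) ?_
    have := hka.mul h3
    rwa [mul_one] at this
  · have e : tZ κ k a n = (k * a + κ * n) ^ 2 + (κ * n) ^ 2 := by
      unfold tZ
      ring
    rw [e]
    refine h1 _ (by positivity) ?_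
    have := (h2.pow 2).add ((hκ0 n).pow 2)
    rwa [one_pow, zero_pow two_ne_zero, add_zero] at this

end Pool.Agent.F0f91f8.RC
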