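import Pool.Agent.Work.MP_0f91f8_co.RC.StmtsD1
import Pool.Agent.Work.MP_0f91f8_co.HD.I_DQ2

/-!
# Item RQ2 of the block RC-D1 (copy of HD/I_DQ2 by helper32; helper74)
-/

set_option autoImplicit false

namespace Pool.Agent.F0f91f8.HD

open Filter Topology ComplexConjugate
open scoped BigOperators

namespace IRQ2

theorem inner (hRt : StRRt) (hCt : StDCt) (hTl : StDTl) (g : ℕ → ℂ) (hg : G1 g) (K κ k Q : ℕ)
    (hK : 2 ≤ K) (hpr : ∀ p : ℕ, p.Prime → p ∣ κ * k * Q → p ≤ K) (η : ℝ)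
    (M : ℕ) (hM : ((pr4 K M).card : ℝ) ^ 2 ≤ η / 8 * M) (u' a : ℕ) :
    ∑ u ∈ Finset.Icc 1 M,
      (∑ p ∈ (pr4 K M).filter (fun p => ¬ p ∣ a ∧ p ∣ tZ κ k a (Q * (u + u') + 1)), ‖g p - 1‖ ^ 2) ≤
      M * (2 * tl g K + η) := by
  have hpm : ∀ p ∈ pr4 K M, p.Prime ∧ K < p := by
    intro p hp
    rw [pr4, Finset.mem_filter] at hp
    exact ⟨hp.2.1, hp.2.2.1⟩
  have h1 : ∑ u ∈ Finset.Icc 1 M,
      (∑ p ∈ (pr4 K M).filter (fun p => ¬ p ∣ a ∧ p ∣ tZ κ k a (Q * (u + u') + 1)), ‖g p - 1‖ ^ 2) =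
      ∑ p ∈ pr4 K M, ∑ u ∈ Finset.Icc 1 M,
        (if ¬ p ∣ a ∧ p ∣ tZ κ k a (Q * (u + u') + 1) then ‖g p - 1‖ ^ 2 else 0) := by
    rw [Finset.sum_comm]
    exact Finset.sum_congr rfl fun u _ => Finset.sum_filter _ _
  have h2 : ∀ p ∈ pr4 K M, ∑ u ∈ Finset.Icc 1 M,
        (if ¬ p ∣ a ∧ p ∣ tZ κ k a (Q * (u + u') + 1) then ‖g p - 1‖ ^ 2 else 0) ≤
      2 * M * (‖1 - g p‖ ^ 2 / p) + 8 := by
    intro p hp
    obtain ⟨hpp, hKp⟩ := hpm p hp
    have hppos : (0 : ℝ) < p := by exact_mod_cast hpp.pos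
    have hg4 : ‖g p - 1‖ ^ 2 ≤ 4 := by
      have h3 : ‖g p - 1‖ ≤ 2 := by
        refine (norm_sub_le _ _).trans ?_
        rw [hg.cm.2.2 p hpp.pos]
        norm_num
      nlinarith [norm_nonneg (g p - 1)]
    by_cases ha : p ∣ a
    · have h4 : ∀ u ∈ Finset.Icc 1 M,
          (if ¬ p ∣ a ∧ p ∣ tZ κ k a (Q * (u + u') + 1) then ‖g p - 1‖ ^ 2 else 0) = 0 :=
        fun u _ => if_neg fun h => h.1 ha
      rw [Finset.sum_eq_zero h4]
      positivity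
    · have hnd : ¬ p ∣ κ * k * a := by
        intro hd
        rcases (Nat.Prime.dvd_mul hpp).1 hd with h5 | h5
        · have := hpr p hpp (dvd_mul_of_dvd_left h5 _); omega
        · exact ha h5
      have hnQ : ¬ p ∣ Q := fun hd => by
        have := hpr p hpp (dvd_mul_of_dvd_right hd _); omega
      obtain ⟨⟨S, -, hS, hiff⟩, -⟩ := hRt p κ k a Q hpp (by omega) hnd hnQ
      have hcard : (S.card : ℝ) ≤ 2 := by
        rw [hS]; split_ifs <;> norm_num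
      have hcount := hCt.1 p M u' S hpp.pos
      have h6 : ∑ u ∈ Finset.Icc 1 M,
          (if ¬ p ∣ a ∧ p ∣ tZ κ k a (Q * (u + u') + 1) then ‖g p - 1‖ ^ 2 else 0) =
          (((Finset.Icc 1 M).filter fun u => (u + u') % p ∈ S).card : ℝ) * ‖g p - 1‖ ^ 2 := by
        rw [← Finset.sum_filter, Finset.sum_const, nsmul_eq_mul]
        congr 2
        congr 1
        apply Finset.filter_congr
        intro u _
        rw [hiff]
        exact ⟨fun h => h.2, fun h => ⟨ha, h⟩⟩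
      rw [h6]
      have h7 : (((Finset.Icc 1 M).filter fun u => (u + u') % p ∈ S).card : ℝ) ≤
          2 * ((M : ℝ) / p + 1) := by
        refine hcount.trans ?_
        have : (0 : ℝ) ≤ (M : ℝ) / p + 1 := by positivity
        nlinarith
      have h8 : (((Finset.Icc 1 M).filter fun u => (u + u') % p ∈ S).card : ℝ) * ‖g p - 1‖ ^ 2 ≤
          2 * ((M : ℝ) / p + 1) * ‖g p - 1‖ ^ 2 :=
        mul_le_mul_of_nonneg_right h7 (by positivity)
      refine h8.trans ?_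
      rw [norm_sub_rev (1 : ℂ)]
      have h9 : 2 * ((M : ℝ) / p + 1) * ‖g p - 1‖ ^ 2 =
          2 * M * (‖g p - 1‖ ^ 2 / p) + 2 * ‖g p - 1‖ ^ 2 := by ring
      rw [h9]
      linarith
  rw [h1]
  refine (Finset.sum_le_sum h2).trans ?_
  rw [Finset.sum_add_distrib, ← Finset.mul_sum, Finset.sum_const, nsmul_eq_mul]
  have h10 := (hTl g hg).2.2.2.2.1 K (pr4 K M) hpm
  have h11 : ((pr4 K M).card : ℝ) ≤ ((pr4 K M).card : ℝ) ^ 2 := by
    have h12 : (pr4 K M).card ≤ (pr4 K M).card ^ 2 := Nat.le_self_pow two_ne_zero _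
    exact_mod_cast h12
  have h13 : (0 : ℝ) ≤ M := Nat.cast_nonneg M
  have h14 : 2 * (M : ℝ) * ∑ p ∈ pr4 K M, ‖1 - g p‖ ^ 2 / (p : ℝ) ≤ 2 * M * tl g K :=
    mul_le_mul_of_nonneg_left h10 (by positivity)
  linarith

end IRQ2

/-- the mean of the squares over the primes dividing the norm form -/
theorem pr_RQ2 (hRt : StRRt) (hCt : StDCt) (hTl : StDTl) : StRQ2 := by
  intro g hg K κ k Q D hK hκ hk hQ hD hpr η hη
  obtain ⟨M0, hM0⟩ := hCt.2.2.2.2.1 (η / 8) (by positivity)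
  refine ⟨M0 + 1, fun M hM a₀ _ => ?_⟩
  exact IDQ2.BR_fix Q D a₀ M hD (by omega) _ _ fun u' a =>
    IRQ2.inner hRt hCt hTl g hg K κ k Q hK hpr η M (hM0 M (by omega) K) u' a

end Pool.Agent.F0f91f8.HD
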