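import Pool.Agent.Work.MP_0f91f8_co.RC.StmtsD2
import Pool.Agent.Work.MP_0f91f8_co.HD.I_DVe

/-!
# Relative collision theorem, item RVe: the mean of `g a` does not depend on the class
-/

set_option autoImplicit false

namespace Pool.Agent.F0f91f8.RC

open Filter Topology ComplexConjugate
open Pool.Agent.F0f91f8.HD
open scoped BigOperators

open Pool.Agent.F0f91f8.HD.IDVe in
theorem pr_RVe (hTl : StDTl) (hLm : StDLm) (hFc : StDFc) (hMd : StDMd)
    (hPe : StDPe) : StRVe := by
  obtain ⟨C, hC, hLm⟩ := hLm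
  refine ⟨2 * C, by positivity, ?_⟩
  intro g hg w K D hw hwK hD η hη
  have hK : 0 < K := by omega
  have hw! : 0 < w.factorial := Nat.factorial_pos w
  have hpw : ∀ p : ℕ, p.Prime → p ∣ w.factorial → p ≤ w := fun p hp h =>
    (hp.dvd_factorial).1 h
  obtain ⟨M1, hM1⟩ := hLm g hg K 1 1 w.factorial D (by omega) one_pos one_pos hw! hD
    (fun p hp h => by
      rw [one_mul] at h
      exact (hpw p hp h).trans hwK) (η / 4) (by positivity)
  obtain ⟨M2, hM2⟩ := hPe g hg.cm w K w.factorial D hw! hD hpw (η / 4) (by positivity)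
  refine ⟨max 1 (max M1 M2), ?_⟩
  intro M hM e' e''
  have hMpos : 0 < M := lt_of_lt_of_le one_pos ((le_max_left _ _).trans hM)
  have hMM1 : M1 ≤ M := ((le_max_left M1 M2).trans (le_max_right 1 _)).trans hM
  have hMM2 : M2 ≤ M := ((le_max_right M1 M2).trans (le_max_right 1 _)).trans hM
  obtain ⟨-, -, -, -, -, hcc, -⟩ := hTl g hg
  obtain ⟨hcL, -⟩ := hcc K M
  set e : Fin (w + 1) → Fin K := fun _ => ⟨0, hK⟩ with he
  -- the average of `g`
  have hE : ∀ e₁ : Fin (K + 1) → Fin K,
      inv0 w.factorial (kk w K e₁) ≤ w.factorial ∧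
      ‖EA w.factorial D (inv0 w.factorial (kk w K e₁)) M g -
        cL g K M * EA w.factorial D (inv0 w.factorial (kk w K e₁)) M (gP g w K)‖ ≤
        C * er g K + η / 4 := by
    intro e₁
    obtain ⟨-, -, -, hinv, -, hb⟩ := hMd w K e e₁ hwK
    refine ⟨hinv, ?_⟩
    obtain ⟨h1, -⟩ := hM1 M hMM1 _ hinv
    set a₀ := inv0 w.factorial (kk w K e₁) with ha₀
    have h2 : EA w.factorial D a₀ M g =
        EA w.factorial D a₀ M fun a => gP g w K a * gT g K a := by
      refine EA_congr _ _ _ _ fun b hb' => ?_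
      have hpos : 0 < w.factorial * b + a₀ := by
        have := Nat.mul_pos hw! hb'
        omega
      refine (hFc g hg.cm w K _ hpos hwK).1 fun p hp hpd => ?_
      by_contra hcon
      exact ((hb b 0).2.2.2.2 p hp (not_lt.1 hcon)).1 hpd
    rw [h2, ← EA_mul]
    refine (EA_sub_le _ _ _ _ hMpos _ _).trans (le_trans ?_ h1)
    rw [BR_const _ _ _ _ hMpos, BR_const _ _ _ _ hMpos]
    apply div_le_div_of_nonneg_right _ (by positivity)
    refine Finset.sum_le_sum fun v hv => Finset.sum_le_sum fun v' _ => ?_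
    rw [Finset.mem_Icc] at hv
    have hpos : 0 < w.factorial * (v + v') + a₀ := by
      have := Nat.mul_pos hw! (show 0 < v + v' by omega)
      omega
    have h3 := (hFc g hg.cm w K _ hpos hwK).2.1
    have h4 : gP g w K (w.factorial * (v + v') + a₀) * gT g K (w.factorial * (v + v') + a₀) -
        cL g K M * gP g w K (w.factorial * (v + v') + a₀) =
        gP g w K (w.factorial * (v + v') + a₀) *
          (gT g K (w.factorial * (v + v') + a₀) - cL g K M) := by ring
    rw [h4, norm_mul, h3, one_mul]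
  obtain ⟨hi1, hE1⟩ := hE e'
  obtain ⟨hi2, hE2⟩ := hE e''
  have hP := hM2 M hMM2 _ hi1 _ hi2
  set A1 := EA w.factorial D (inv0 w.factorial (kk w K e')) M g with hA1
  set A2 := EA w.factorial D (inv0 w.factorial (kk w K e'')) M g with hA2
  set B1 := EA w.factorial D (inv0 w.factorial (kk w K e')) M (gP g w K) with hB1
  set B2 := EA w.factorial D (inv0 w.factorial (kk w K e'')) M (gP g w K) with hB2
  have h6 : A1 - A2 = (A1 - cL g K M * B1) + cL g K M * (B1 - B2) - (A2 - cL g K M * B2) := by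
    ring
  rw [h6]
  have h7 : ‖cL g K M * (B1 - B2)‖ ≤ η / 4 := by
    rw [norm_mul]
    exact (mul_le_of_le_one_left (norm_nonneg _) hcL).trans hP
  refine (norm_sub_le _ _).trans ?_
  have h8 := norm_add_le (A1 - cL g K M * B1) (cL g K M * (B1 - B2))
  linarith

end Pool.Agent.F0f91f8.RC
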