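import Mathlib
import Pool.Agent.Work.MP_0f91f8_co.RC.StmtsE
import Pool.Agent.Work.MP_0f91f8_co.EF.Ulm

/-!
# Block RC, item UlR: the limit process with a distinguished set
-/

set_option autoImplicit false

namespace Pool.Agent.F0f91f8.RC

open Filter Topology
open Pool.Agent.Work.MP_0f91f8_co.EF

namespace IUlR

open scoped Classical

open Pool.Agent.Work.MP_0f91f8_co.EF.XUlm in
theorem pair (F A A' : Finset ℕ) (a b k : ℕ) (hk : 0 < k) :
    (F.filter fun s => k * a * s ∈ A ∧ k * b * s ∈ A').card + (F.filter fun s => k * s ∈ F).card ≤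
        (F.filter fun s => a * s ∈ A ∧ b * s ∈ A').card + F.card ∧
      (F.filter fun s => a * s ∈ A ∧ b * s ∈ A').card + (F.filter fun s => k * s ∈ F).card ≤
        (F.filter fun s => k * a * s ∈ A ∧ k * b * s ∈ A').card + F.card := by
  obtain ⟨T, hT⟩ : ∃ T, T = F.filter fun s => a * s ∈ A ∧ b * s ∈ A' := ⟨_, rfl⟩
  obtain ⟨P, hP⟩ : ∃ P, P = F.filter fun s => k * a * s ∈ A ∧ k * b * s ∈ A' := ⟨_, rfl⟩
  obtain ⟨E, hE⟩ : ∃ E, E = F.filter fun s => k * s ∈ F := ⟨_, rfl⟩
  obtain ⟨Q, hQ⟩ : ∃ Q, Q = F.filter fun s => k * s ∈ T := ⟨_, rfl⟩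
  rw [← hT, ← hP, ← hE]
  have hTF : T ⊆ F := by rw [hT]; exact Finset.filter_subset _ _
  have h1 := shift F T hTF k hk
  rw [← hE, ← hQ] at h1
  have hQP : Q ⊆ P := by
    intro s hs
    rw [hQ, Finset.mem_filter, hT, Finset.mem_filter] at hs
    obtain ⟨h2, h3, h4, h5⟩ := hs
    rw [hP, Finset.mem_filter]
    refine ⟨h2, ?_, ?_⟩
    · have e : k * a * s = a * (k * s) := by ring
      rw [e]; exact h4
    · have e : k * b * s = b * (k * s) := by ring
      rw [e]; exact h5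
  have h2 := Finset.card_le_card hQP
  have h3 := Finset.card_union_add_card_inter P E
  have h4 : (P ∪ E).card ≤ F.card := by
    refine Finset.card_le_card (Finset.union_subset ?_ ?_)
    · rw [hP]; exact Finset.filter_subset _ _
    · rw [hE]; exact Finset.filter_subset _ _
  have h5 : (P ∩ E).card ≤ Q.card := by
    refine Finset.card_le_card fun s hs => ?_
    obtain ⟨h6, h7⟩ := Finset.mem_inter.1 hs
    rw [hP, Finset.mem_filter] at h6
    rw [hE, Finset.mem_filter] at h7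
    rw [hQ, Finset.mem_filter, hT, Finset.mem_filter]
    refine ⟨h6.1, h7.2, ?_, ?_⟩
    · have e : a * (k * s) = k * a * s := by ring
      rw [e]; exact h6.2.1
    · have e : b * (k * s) = k * b * s := by ring
      rw [e]; exact h6.2.2
  omega

/-- the last clause, finite form -/
theorem cell (F B : Finset ℕ) (x y : ℕ) (hB : B ⊆ F)
    (h : ∀ s, x * s ∈ F → y * s ∈ F → (x * s ∈ B ↔ y * s ∈ B)) :
    (F.filter fun s => x * s ∈ B ∧ y * s ∈ B).card ≤ (F.filter fun s => x * s ∈ B).card ∧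
      (F.filter fun s => x * s ∈ B).card + (F.filter fun s => y * s ∈ F).card ≤
        (F.filter fun s => x * s ∈ B ∧ y * s ∈ B).card + F.card := by
  obtain ⟨P, hP⟩ : ∃ P, P = F.filter fun s => x * s ∈ B := ⟨_, rfl⟩
  obtain ⟨E, hE⟩ : ∃ E, E = F.filter fun s => y * s ∈ F := ⟨_, rfl⟩
  obtain ⟨Q, hQ⟩ : ∃ Q, Q = F.filter fun s => x * s ∈ B ∧ y * s ∈ B := ⟨_, rfl⟩
  rw [← hP, ← hE, ← hQ]
  refine ⟨?_, ?_⟩
  · refine Finset.card_le_card fun s hs => ?_
    rw [hQ, Finset.mem_filter] at hs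
    rw [hP, Finset.mem_filter]
    exact ⟨hs.1, hs.2.1⟩
  · have h3 := Finset.card_union_add_card_inter P E
    have h4 : (P ∪ E).card ≤ F.card := by
      refine Finset.card_le_card (Finset.union_subset ?_ ?_)
      · rw [hP]; exact Finset.filter_subset _ _
      · rw [hE]; exact Finset.filter_subset _ _
    have h5 : (P ∩ E).card ≤ Q.card := by
      refine Finset.card_le_card fun s hs => ?_
      obtain ⟨h6, h7⟩ := Finset.mem_inter.1 hs
      rw [hP, Finset.mem_filter] at h6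
      rw [hE, Finset.mem_filter] at h7
      rw [hQ, Finset.mem_filter]
      exact ⟨h6.1, h6.2, (h s (hB h6.2) h7.2).1 h6.2⟩
    omega

end IUlR

open scoped Classical in
open Pool.Agent.Work.MP_0f91f8_co.EF.XUlm in
theorem pr_UlR : StUlR := by
  intro r F B A hFo hAB hBF
  have hAF : ∀ j i, A j i ⊆ F j := fun j i => (hAB j i).trans (hBF j)
  have hFne : ∀ j, 0 < (F j).card := fun j => Finset.card_pos.2 (hFo.ne j)
  have hFR : ∀ j, (0 : ℝ) < (F j).card := fun j => by exact_mod_cast hFne j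
  obtain ⟨U, hU⟩ : ∃ U : Ultrafilter ℕ, (U : Filter ℕ) ≤ atTop :=
    ⟨Ultrafilter.of atTop, Ultrafilter.of_le atTop⟩
  choose μ hμ hμl using fun S : Set (ℕ × ℕ) => ulim U (qq F S) (qq_mem F S)
  have hdm : ∀ i j, ((A j i).card : ℝ) / ((F j).card : ℝ) ∈ Set.Icc (0 : ℝ) 1 := by
    intro i j
    refine ⟨by positivity, div_le_one_of_le₀ ?_ (by positivity)⟩
    exact_mod_cast Finset.card_le_card (hAF j i)
  have hbm : ∀ j, ((B j).card : ℝ) / ((F j).card : ℝ) ∈ Set.Icc (0 : ℝ) 1 := by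
    intro j
    refine ⟨by positivity, div_le_one_of_le₀ ?_ (by positivity)⟩
    exact_mod_cast Finset.card_le_card (hBF j)
  choose d hd hdl using fun i : Fin r => ulim U (fun j => ((A j i).card : ℝ) / ((F j).card : ℝ))
    (hdm i)
  obtain ⟨β, -, hβl⟩ := ulim U (fun j => ((B j).card : ℝ) / ((F j).card : ℝ)) hbm
  have hdef : ∀ n : ℕ, 0 < n → Tendsto (fun j => 1 - (((F j).filter fun k => n * k ∈ F j).card : ℝ) /
      ((F j).card : ℝ)) U (𝓝 0) := by
    intro n hn
    have h1 := (hFo.lim n hn).mono_left hU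
    have h2 := h1.const_sub 1
    rw [sub_self] at h2
    exact h2
  have hone : ∀ (T : ℕ → Finset ℕ) (δ : ℝ), (∀ j, T j ⊆ F j) →
      Tendsto (fun j => ((T j).card : ℝ) / ((F j).card : ℝ)) U (𝓝 δ) → ∀ n : ℕ, 0 < n →
      μ {p | n * p.2 ∈ T p.1} = δ := by
    intro T δ hT hTl n hn
    refine uniq U _ _ _ _ _ (hμl _) hTl (hdef n hn) fun j => ?_
    have h1 := shift (F j) (T j) (hT j) n hn
    rw [qq_eq F {p : ℕ × ℕ | n * p.2 ∈ T p.1} j ((F j).filter fun s => n * s ∈ T j)
      (fun s => Finset.mem_filter)]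
    have h3 : ((F j).filter fun s => n * s ∈ F j).card ≤ (F j).card := Finset.card_filter_le _ _
    exact absd _ _ _ _ (hFne j) (by omega) (by omega)
  have htwo : ∀ (T T' : ℕ → Finset ℕ) (k a b : ℕ), 0 < k →
      μ ({p | k * a * p.2 ∈ T p.1} ∩ {p | k * b * p.2 ∈ T' p.1}) =
        μ ({p | a * p.2 ∈ T p.1} ∩ {p | b * p.2 ∈ T' p.1}) := by
    intro T T' k a b hk
    refine uniq U _ _ _ _ _ (hμl _) (hμl _) (hdef k hk) fun j => ?_
    have h1 := IUlR.pair (F j) (T j) (T' j) a b k hk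
    rw [qq_eq F ({p : ℕ × ℕ | k * a * p.2 ∈ T p.1} ∩ {p : ℕ × ℕ | k * b * p.2 ∈ T' p.1}) j
      ((F j).filter fun s => k * a * s ∈ T j ∧ k * b * s ∈ T' j) (fun s => Finset.mem_filter),
      qq_eq F ({p : ℕ × ℕ | a * p.2 ∈ T p.1} ∩ {p : ℕ × ℕ | b * p.2 ∈ T' p.1}) j
      ((F j).filter fun s => a * s ∈ T j ∧ b * s ∈ T' j) (fun s => Finset.mem_filter)]
    exact absd _ _ _ _ (hFne j) h1.1 h1.2
  refine ⟨U, μ, d, β, hU, ⟨fun S => (hμ S).1, ?_, ?_⟩, hdl, hβl, ?_, ?_, ?_, ?_, ?_, ?_⟩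
  · refine tendsto_nhds_unique (hμl Set.univ) ?_
    have h1 : qq F Set.univ = fun _ => (1 : ℝ) := by
      funext j
      unfold qq
      simp only [Set.mem_univ, Finset.filter_true]
      exact div_self (hFR j).ne'
    rw [h1]
    exact tendsto_const_nhds
  · intro S T hST
    refine tendsto_nhds_unique (hμl (S ∪ T)) ?_
    have h1 : qq F (S ∪ T) = fun j => qq F S j + qq F T j := by
      funext j
      unfold qq
      rw [← add_div]
      congr 1
      rw [← Nat.cast_add, ← Finset.card_union_of_disjoint]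
      · congr 2
        ext s
        simp only [Finset.mem_filter, Finset.mem_union, Set.mem_union]
        tauto
      · rw [Finset.disjoint_left]
        intro s hs hs'
        exact Set.disjoint_left.1 hST (Finset.mem_filter.1 hs).2 (Finset.mem_filter.1 hs').2
    rw [h1]
    exact (hμl S).add (hμl T)
  · exact fun i n hn => hone (fun j => A j i) (d i) (fun j => hAF j i) (hdl i) n hn
  · exact fun n hn => hone B β hBF hβl n hn
  · exact fun i k a b hk _ _ => htwo (fun j => A j i) (fun j => A j i) k a b hk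
  · exact fun i k a b hk _ _ => htwo (fun j => A j i) B k a b hk
  · exact fun k a b hk _ _ => htwo B B k a b hk
  · intro x y hx hy hxy
    have h0 : μ {p | x * p.2 ∈ B p.1} = β := hone B β hBF hβl x hx
    rw [← h0]
    refine uniq U _ _ _ _ _ (hμl _) (hμl _) (hdef y hy) fun j => ?_
    have h1 := IUlR.cell (F j) (B j) x y (hBF j) (hxy j)
    rw [qq_eq F ({p : ℕ × ℕ | x * p.2 ∈ B p.1} ∩ {p : ℕ × ℕ | y * p.2 ∈ B p.1}) j
      ((F j).filter fun s => x * s ∈ B j ∧ y * s ∈ B j) (fun s => Finset.mem_filter),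
      qq_eq F {p : ℕ × ℕ | x * p.2 ∈ B p.1} j
      ((F j).filter fun s => x * s ∈ B j) (fun s => Finset.mem_filter)]
    have h3 : ((F j).filter fun s => y * s ∈ F j).card ≤ (F j).card := Finset.card_filter_le _ _
    exact absd _ _ _ _ (hFne j) (by omega) h1.2

end Pool.Agent.F0f91f8.RC
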